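import Pool.Agent.AVF.GenA

/-!
# AVF: net multiplicities; the group of realised functions
-/

set_option linter.unusedSectionVars false
set_option linter.unusedVariables false

namespace Pool.Agent.AVF

open Finset

variable {G : Type} [Group G] [Fintype G] {D : Subgroup G} {c : G}

theorem net_neg (S : Multiset (G → ℚ)) (w : G → ℚ) : net S (-w) = - net S w := by
  unfold net
  rw [neg_neg]
  ring

theorem net_add (S T : Multiset (G → ℚ)) (w : G → ℚ) : net (S + T) w = net S w + net T w := by
  unfold net
  rw [Multiset.count_add, Multiset.count_add]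
  push_cast
  ring

theorem net_map_neg (S : Multiset (G → ℚ)) (w : G → ℚ) :
    net (S.map fun w => -w) w = - net S w := by
  classical
  have h : ∀ x : G → ℚ, Multiset.count (-x) (S.map fun w => -w) = Multiset.count x S := fun x =>
    Multiset.count_map_eq_count' (fun w : G → ℚ => -w) S neg_injective x
  have h1 := h w
  have h2 := h (-w)
  rw [neg_neg] at h2
  unfold net
  rw [h1, h2]
  ring

theorem gen_zero : Gen D c (0 : Multiset (G → ℚ)) :=
  Gen.cancel 0 (by
    rw [zero_add]
    exact Gen.pair 0 (isWeight_zero D c))

private theorem net_pair (w x : G → ℚ) : net ({w, -w} : Multiset (G → ℚ)) x = 0 := by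
  classical
  unfold net
  simp only [Multiset.insert_eq_cons, Multiset.count_cons, Multiset.count_singleton]
  have h1 : (-x = -w) ↔ (x = w) := neg_inj
  have h2 : (-x = w) ↔ (x = -w) := neg_eq_iff_eq_neg
  simp only [h1, h2]
  split_ifs <;> simp

private theorem gen_aux : ∀ (n : ℕ) (U : Multiset (G → ℚ)), U.card = n →
    (∀ w ∈ U, IsWeight D c w) → Even U.card → (∀ w, net U w = 0) → Gen D c U := by
  classical
  intro n
  induction n using Nat.strong_induction_on with
  | _ n ih =>
    intro U hn hw hE h
    have step : ∀ w : G → ℚ, ({w, -w} : Multiset (G → ℚ)) ≤ U → Gen D c U := by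
      intro w hle
      obtain ⟨U', hU'⟩ := Multiset.le_iff_exists_add.1 hle
      have hwU : w ∈ U := by rw [hU']; simp
      have hc1 : U.card = 2 + U'.card := by
        rw [hU', Multiset.card_add]
        simp
      have h1 : Gen D c U' := by
        refine ih U'.card (by omega) U' rfl (fun x hx => hw x ?_) ?_ fun x => ?_
        · rw [hU']; exact Multiset.mem_add.2 (Or.inr hx)
        · rw [hc1] at hE
          exact (Nat.even_add.1 hE).1 (by decide)
        · have h2 := h x
          rw [hU', net_add, net_pair, zero_add] at h2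
          exact h2
      rw [hU']
      exact Gen.add (Gen.pair w (hw w hwU)) h1
    by_cases hex : ∃ w ∈ U, w ≠ 0
    · obtain ⟨w, hwU, hw0⟩ := hex
      refine step w ?_
      have hpos : 0 < Multiset.count w U := Multiset.count_pos.2 hwU
      have h1 := h w
      unfold net at h1
      have h2 : Multiset.count (-w) U = Multiset.count w U := by omega
      rw [Multiset.le_iff_count]
      intro x
      have hne := neg_ne_self hw0
      simp only [Multiset.insert_eq_cons, Multiset.count_cons, Multiset.count_singleton]
      by_cases hx1 : x = w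
      · have hx2 : ¬ x = -w := fun e => hne (e.symm.trans hx1)
        rw [if_neg hx2, if_pos hx1, hx1]
        omega
      · by_cases hx2 : x = -w
        · rw [if_pos hx2, if_neg hx1, hx2]
          omega
        · rw [if_neg hx2, if_neg hx1]
          omega
    · push Not at hex
      have h1 : U = Multiset.replicate U.card 0 := Multiset.eq_replicate_card.2 hex
      rcases Nat.eq_zero_or_pos U.card with h2 | h2
      · rw [Multiset.card_eq_zero.1 h2]
        exact gen_zero
      · obtain ⟨k, hk⟩ := hE
        refine step 0 ?_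
        rw [h1, neg_zero]
        have h3 : ({0, 0} : Multiset (G → ℚ)) = Multiset.replicate 2 0 := rfl
        rw [h3, Multiset.replicate_le_replicate]
        omega

theorem gen_of_net_zero {U : Multiset (G → ℚ)} (hw : ∀ w ∈ U, IsWeight D c w)
    (hE : Even U.card) (h : ∀ w, net U w = 0) : Gen D c U :=
  gen_aux U.card U rfl hw hE h

private theorem gen_cancel_many (S T : Multiset (G → ℚ)) :
    Gen D c (S + ((T.map fun w => -w) + T)) → Gen D c S := by
  induction T using Multiset.induction with
  | empty => intro h; simpa using h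
  | cons w T ih =>
    intro h
    apply ih
    refine Gen.cancel w ?_
    have e : S + (((w ::ₘ T).map fun w => -w) + (w ::ₘ T)) =
        S + ((T.map fun w => -w) + T) + {w, -w} := by
      rw [Multiset.map_cons, Multiset.insert_eq_cons, ← Multiset.singleton_add,
        ← Multiset.singleton_add (a := w) (s := T), ← Multiset.singleton_add (a := w)]
      abel
    rw [← e]
    exact h

theorem gen_of_rea (hc : ∀ g, c * g = g * c) {S : Multiset (G → ℚ)}
    (hw : ∀ w ∈ S, IsWeight D c w) (hE : Even S.card) (h : Rea D c (net S)) : Gen D c S := by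
  obtain ⟨T, hT, hn⟩ := h
  have h1 : Gen D c (S + T.map fun w => -w) := by
    refine gen_of_net_zero (fun w hw' => ?_) ?_ fun w => ?_
    · rcases Multiset.mem_add.1 hw' with hw' | hw'
      · exact hw w hw'
      · obtain ⟨x, hx, rfl⟩ := Multiset.mem_map.1 hw'
        exact (hT.isWeight x hx).neg
    · rw [Multiset.card_add, Multiset.card_map]
      exact hE.add hT.even_card
    · rw [net_add, net_map_neg, hn, add_neg_cancel]
  have h2 := Gen.add h1 hT
  rw [add_assoc] at h2
  exact gen_cancel_many S T h2

theorem Gen.rea {S : Multiset (G → ℚ)} (h : Gen D c S) : Rea D c (net S) :=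
  ⟨S, h, fun _ => rfl⟩

theorem Rea.congr {f f' : (G → ℚ) → ℤ} (h : Rea D c f) (e : ∀ w, f w = f' w) : Rea D c f' := by
  obtain ⟨T, hT, hn⟩ := h
  exact ⟨T, hT, fun w => (hn w).trans (e w)⟩

theorem Rea.zero : Rea D c (fun _ : G → ℚ => 0) :=
  ⟨0, gen_zero, fun w => by simp [net]⟩

theorem Rea.add {f f' : (G → ℚ) → ℤ} (h : Rea D c f) (h' : Rea D c f') :
    Rea D c (fun w => f w + f' w) := by
  obtain ⟨T, hT, hn⟩ := h
  obtain ⟨T', hT', hn'⟩ := h'
  exact ⟨T + T', Gen.add hT hT', fun w => by rw [net_add, hn, hn']⟩

theorem Rea.neg (hc : ∀ g, c * g = g * c) {f : (G → ℚ) → ℤ} (h : Rea D c f) :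
    Rea D c (fun w => - f w) := by
  obtain ⟨T, hT, hn⟩ := h
  exact ⟨T.map fun w => -w, hT.map_neg hc, fun w => by rw [net_map_neg, hn]⟩

theorem Rea.smul (hc : ∀ g, c * g = g * c) {f : (G → ℚ) → ℤ} (h : Rea D c f) (z : ℤ) :
    Rea D c (fun w => z * f w) := by
  have hnat : ∀ n : ℕ, Rea D c (fun w => (n : ℤ) * f w) := by
    intro n
    induction n with
    | zero => exact Rea.zero.congr fun w => by simp
    | succ n ih => exact (ih.add h).congr fun w => by push_cast; ring
  obtain ⟨n, rfl | rfl⟩ := z.eq_nat_or_neg
  · exact hnat n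
  · exact ((hnat n).neg hc).congr fun w => by ring

end Pool.Agent.AVF
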