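import Pool.Agent.AVF.Bas

/-!
# AVF: the relation of a zero-sum multiset; parity; indicator of a half set
-/

set_option linter.unusedSectionVars false
set_option linter.unusedVariables false

namespace Pool.Agent.AVF

open Finset

variable {G : Type} [Group G] [Fintype G] {D : Subgroup G} {c : G}

private theorem netr_sum [DecidableEq (G → ℚ)] (X : Finset (G → ℚ)) (S : Multiset (G → ℚ)) :
    (∀ w ∈ S, w ∈ X) → ∑ w ∈ X, ((S.count w : ℕ) : ℚ) • w = S.sum := by
  induction S using Multiset.induction_on with
  | empty => intro _; simp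
  | cons a S ih =>
    intro h
    have h1 := ih fun w hw => h w (Multiset.mem_cons_of_mem hw)
    have ha := h a (Multiset.mem_cons_self a S)
    have h2 : ∀ w ∈ X, (((a ::ₘ S).count w : ℕ) : ℚ) • w =
        ((S.count w : ℕ) : ℚ) • w + (if w = a then a else 0) := by
      intro w _
      rw [Multiset.count_cons]
      split_ifs with e
      · rw [e, Nat.cast_add, Nat.cast_one, add_smul, one_smul]
      · rw [add_zero, add_zero]
    rw [sum_congr rfl h2, sum_add_distrib, h1, sum_ite_eq_of_mem' X a _ ha, Multiset.sum_cons,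
      add_comm]

private theorem netr_neg [DecidableEq (G → ℚ)] (X : Finset (G → ℚ)) (S : Multiset (G → ℚ))
    (hX : ∀ w ∈ X, -w ∈ X) :
    ∑ w ∈ X, ((S.count (-w) : ℕ) : ℚ) • w = -∑ w ∈ X, ((S.count w : ℕ) : ℚ) • w := by
  rw [← sum_neg_distrib]
  refine sum_nbij' (fun w => -w) (fun w => -w) (fun w hw => hX w hw) (fun w hw => hX w hw)
    (fun w _ => neg_neg w) (fun w _ => neg_neg w) ?_
  intro w _
  show _ = -(((S.count (-w) : ℕ) : ℚ) • (-w))
  rw [smul_neg, neg_neg]

theorem isRel_net (hc : ∀ g, c * g = g * c) {X : Finset (G → ℚ)} (hX : IsSys D c X)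
    {S : Multiset (G → ℚ)} (hS : ∀ w ∈ S, w ∈ X) (hsum : S.sum = 0) :
    IsRel X (fun w => (net S w : ℚ)) := by
  refine ⟨?_, ?_⟩
  · intro w
    show ((net S (-w) : ℤ) : ℚ) = -((net S w : ℤ) : ℚ)
    unfold net
    rw [neg_neg]
    push_cast
    ring
  · have h1 : ∀ w ∈ X, ((net S w : ℤ) : ℚ) • w =
        ((S.count w : ℕ) : ℚ) • w - ((S.count (-w) : ℕ) : ℚ) • w := by
      intro w _
      unfold net
      push_cast
      rw [sub_smul]
    show ∑ w ∈ X, ((net S w : ℤ) : ℚ) • w = 0
    rw [sum_congr rfl h1, sum_sub_distrib, netr_neg X S (fun w hw => hX.neg hc hw),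
      netr_sum X S hS, hsum]
    simp

theorem net_of_notMem (hc : ∀ g, c * g = g * c) {X : Finset (G → ℚ)} (hX : IsSys D c X)
    {S : Multiset (G → ℚ)} (hS : ∀ w ∈ S, w ∈ X) {w : G → ℚ} (hw : w ∉ X) : net S w = 0 := by
  unfold net
  have h1 : w ∉ S := fun h => hw (hS w h)
  have h2 : -w ∉ S := by
    intro h
    apply hw
    have := hX.neg hc (hS (-w) h)
    rwa [neg_neg] at this
  rw [Multiset.count_eq_zero_of_notMem h1, Multiset.count_eq_zero_of_notMem h2]
  simp

theorem even_sum_net {W : Finset (G → ℚ)} (hW : ∀ w ∈ W, -w ∉ W) {S : Multiset (G → ℚ)}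
    (hS : ∀ w ∈ S, w ∈ W ∨ -w ∈ W) (hE : Even S.card) : Even (∑ w ∈ W, net S w) := by
  have key : ∀ S : Multiset (G → ℚ), (∀ w ∈ S, w ∈ W ∨ -w ∈ W) →
      Even (∑ w ∈ W, net S w + (S.card : ℤ)) := by
    intro S
    induction S using Multiset.induction_on with
    | empty =>
      intro _
      unfold net
      simp
    | cons a S ih =>
      intro h
      have h1 := ih fun w hw => h w (Multiset.mem_cons_of_mem hw)
      classical
      have h2 : ∀ w ∈ W, net (a ::ₘ S) w = net S w + ((if w = a then 1 else 0) -
          (if w = -a then 1 else 0)) := by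
        intro w _
        unfold net
        rw [Multiset.count_cons, Multiset.count_cons]
        have e : (-w = a) ↔ (w = -a) := by
          constructor
          · intro h; rw [← h, neg_neg]
          · intro h; rw [h, neg_neg]
        by_cases e1 : w = a
        · by_cases e2 : w = -a
          · rw [if_pos e1, if_pos (e.2 e2), if_pos e1, if_pos e2]
            push_cast
            ring
          · rw [if_pos e1, if_neg (fun h => e2 (e.1 h)), if_pos e1, if_neg e2]
            push_cast
            ring
        · by_cases e2 : w = -a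
          · rw [if_neg e1, if_pos (e.2 e2), if_neg e1, if_pos e2]
            push_cast
            ring
          · rw [if_neg e1, if_neg (fun h => e2 (e.1 h)), if_neg e1, if_neg e2]
            push_cast
            ring
      rw [sum_congr rfl h2, sum_add_distrib, sum_sub_distrib, Multiset.card_cons, sum_ite_eq',
        sum_ite_eq']
      push_cast
      rcases h a (Multiset.mem_cons_self a S) with ha | ha
      · rw [if_pos ha, if_neg (hW a ha)]
        obtain ⟨m, hm⟩ := h1
        exact ⟨m + 1, by linarith⟩
      · have ha' : a ∉ W := by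
          intro h3
          exact hW a h3 ha
        rw [if_neg ha', if_pos ha]
        obtain ⟨m, hm⟩ := h1
        exact ⟨m, by linarith⟩
  have h1 := key S hS
  have h2 : Even (S.card : ℤ) := by exact_mod_cast hE
  exact (Int.even_add.1 h1).2 h2

theorem net_val {W : Finset (G → ℚ)} (hW : ∀ w ∈ W, -w ∉ W) (w : G → ℚ) :
    net W.val w = ind W w := by
  unfold net ind
  by_cases h1 : w ∈ W
  · have h2 := hW w h1
    rw [if_pos h1, Multiset.count_eq_one_of_mem W.nodup h1,
      Multiset.count_eq_zero_of_notMem (fun h => h2 h)]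
    simp
  · rw [if_neg h1, Multiset.count_eq_zero_of_notMem (fun h => h1 h)]
    by_cases h2 : -w ∈ W
    · rw [if_pos h2, Multiset.count_eq_one_of_mem W.nodup h2]
      simp
    · rw [if_neg h2, Multiset.count_eq_zero_of_notMem (fun h => h2 h)]
      simp

theorem net_replicate_zero (j : ℕ) (w : G → ℚ) :
    net (Multiset.replicate j (0 : G → ℚ)) w = 0 := by
  unfold net
  rw [Multiset.count_replicate, Multiset.count_replicate]
  have e : ((0 : G → ℚ) = -w) ↔ ((0 : G → ℚ) = w) := by
    constructor
    · intro h
      have h2 := congrArg (fun x => -x) h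
      simp only [neg_neg, neg_zero] at h2
      exact h2
    · intro h
      rw [← h, neg_zero]
  by_cases h1 : (0 : G → ℚ) = w
  · rw [if_pos h1, if_pos (e.2 h1)]
    simp
  · rw [if_neg h1, if_neg (fun h => h1 (e.1 h))]
    simp

end Pool.Agent.AVF
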