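import Pool.Agent.AVF.Sz

/-!
# AVF: the dimension bound and orbits
-/

set_option linter.unusedSectionVars false
set_option linter.unusedVariables false

namespace Pool.Agent.AVF

open Finset

variable {G : Type} [Group G] [Fintype G] {D : Subgroup G} {c : G}

private theorem sum_idx_orb (b : G → ℚ) :
    ∑ x ∈ orb ⊤ b, idx D x = (orb ⊤ b).card * idx D b :=
  Finset.sum_const_nat fun _ hx => idx_orb hx

private theorem orb_disj {b x : G → ℚ} (hxb : x ∉ orb ⊤ b) :
    Disjoint (orb (⊤ : Subgroup G) b) (orb ⊤ x) := by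
  rw [Finset.disjoint_left]
  intro y hy hyx
  exact hxb (orb_trans hy (orb_symm hyx))

theorem sum_orb {X : Finset (G → ℚ)} (hX : IsSys D c X) {b : G → ℚ} (hb : b ∈ X) :
    (orb ⊤ b).card * idx D b + ∑ x ∈ X.filter (fun x => x ∉ orb ⊤ b), idx D x =
      ∑ x ∈ X, idx D x := by
  classical
  have hs := orb_subset hX hb ⊤
  rw [← sum_idx_orb b, ← Finset.sum_filter_add_sum_filter_not X (fun x => x ∈ orb ⊤ b) (idx D)]
  congr 1
  refine Finset.sum_congr ?_ fun _ _ => rfl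
  ext x
  rw [Finset.mem_filter]
  exact ⟨fun h => ⟨hs h, h⟩, fun h => h.2⟩

theorem orb_le {X : Finset (G → ℚ)} (hX : IsSys D c X) {b : G → ℚ} (hb : b ∈ X) :
    (orb ⊤ b).card * idx D b ≤ ∑ x ∈ X, idx D x := by
  have := sum_orb hX hb
  omega

theorem orb_add_le {X : Finset (G → ℚ)} (hX : IsSys D c X) {b x : G → ℚ} (hb : b ∈ X)
    (hx : x ∈ X) (hxb : x ∉ orb ⊤ b) :
    (orb ⊤ b).card * idx D b + (orb ⊤ x).card * idx D x ≤ ∑ x ∈ X, idx D x := by
  classical
  rw [← sum_idx_orb b, ← sum_idx_orb x, ← Finset.sum_union (orb_disj hxb)]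
  exact Finset.sum_le_sum_of_subset
    (Finset.union_subset (orb_subset hX hb ⊤) (orb_subset hX hx ⊤))

/-- Three different orbits. -/
theorem orb_add_add_le {X : Finset (G → ℚ)} (hX : IsSys D c X) {b x y : G → ℚ} (hb : b ∈ X)
    (hx : x ∈ X) (hy : y ∈ X) (hxb : x ∉ orb ⊤ b) (hyb : y ∉ orb ⊤ b) (hyx : y ∉ orb ⊤ x) :
    (orb ⊤ b).card * idx D b + (orb ⊤ x).card * idx D x + (orb ⊤ y).card * idx D y ≤
      ∑ x ∈ X, idx D x := by
  classical
  have h1 : Disjoint (orb (⊤ : Subgroup G) b ∪ orb ⊤ x) (orb ⊤ y) :=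
    Finset.disjoint_union_left.2 ⟨orb_disj hyb, orb_disj hyx⟩
  rw [← sum_idx_orb b, ← sum_idx_orb x, ← sum_idx_orb y, ← Finset.sum_union (orb_disj hxb),
    ← Finset.sum_union h1]
  exact Finset.sum_le_sum_of_subset
    (Finset.union_subset (Finset.union_subset (orb_subset hX hb ⊤) (orb_subset hX hx ⊤))
      (orb_subset hX hy ⊤))

theorem card_le_sum (X : Finset (G → ℚ)) : X.card ≤ ∑ x ∈ X, idx D x := by
  rw [Finset.card_eq_sum_ones]
  exact Finset.sum_le_sum fun x _ => idx_pos D x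

end Pool.Agent.AVF
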