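import Pool.Agent.AVF.TwoP
import Pool.Agent.AVF.GenB
import Pool.Agent.AVF.NetR
import Pool.Agent.AVF.SumO

/-!
# AVF: the bad pair in dimension four
-/

set_option linter.unusedSectionVars false
set_option linter.unusedVariables false

namespace Pool.Agent.AVF

open Finset

variable {G : Type} [Group G] [Fintype G] {D : Subgroup G} {c : G}

private theorem bs_sum {W : Finset (G → ℚ)} (hW : ∀ w ∈ W, -w ∉ W) (S : Multiset (G → ℚ)) :
    (∀ w ∈ S, w ∈ W ∨ -w ∈ W) → ∑ w ∈ W, ((net S w : ℤ) : ℚ) • w = S.sum := by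
  induction S using Multiset.induction_on with
  | empty =>
    intro _
    unfold net
    simp
  | cons a S ih =>
    intro h
    have h1 := ih fun w hw => h w (Multiset.mem_cons_of_mem hw)
    classical
    have h2 : ∀ w ∈ W, ((net (a ::ₘ S) w : ℤ) : ℚ) • w = ((net S w : ℤ) : ℚ) • w +
        ((if w = a then a else 0) + (if w = -a then a else 0)) := by
      intro w _
      unfold net
      rw [Multiset.count_cons, Multiset.count_cons]
      have e : (-w = a) ↔ (w = -a) := by
        constructor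
        · intro h; rw [← h, neg_neg]
        · intro h; rw [h, neg_neg]
      generalize Multiset.count w S = x
      generalize Multiset.count (-w) S = y
      by_cases e1 : w = a
      · by_cases e2 : w = -a
        · rw [if_pos e1, if_pos (e.2 e2), if_pos e1, if_pos e2]
          have h0 : a + a = 0 := by
            have h3 : a = -a := e1.symm.trans e2
            nth_rewrite 2 [h3]
            rw [add_neg_cancel]
          rw [h0]
          funext g
          simp only [Pi.add_apply, Pi.smul_apply, smul_eq_mul, Pi.zero_apply]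
          push_cast
          ring
        · rw [if_pos e1, if_neg (fun h => e2 (e.1 h)), if_pos e1, if_neg e2, ← e1]
          funext g
          simp only [Pi.add_apply, Pi.smul_apply, smul_eq_mul, Pi.zero_apply]
          push_cast
          ring
      · by_cases e2 : w = -a
        · rw [if_neg e1, if_pos (e.2 e2), if_neg e1, if_pos e2]
          have h3 : a = -w := by rw [e2, neg_neg]
          rw [h3]
          funext g
          simp only [Pi.add_apply, Pi.smul_apply, smul_eq_mul, Pi.zero_apply, Pi.neg_apply]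
          push_cast
          ring
        · rw [if_neg e1, if_neg (fun h => e2 (e.1 h)), if_neg e1, if_neg e2]
          funext g
          simp only [Pi.add_apply, Pi.smul_apply, smul_eq_mul, Pi.zero_apply]
          push_cast
          ring
    rw [sum_congr rfl h2, sum_add_distrib, sum_add_distrib, Multiset.sum_cons, sum_ite_eq',
      sum_ite_eq', h1]
    rcases h a (Multiset.mem_cons_self a S) with ha | ha
    · rw [if_pos ha, if_neg (hW a ha), add_zero, add_comm]
    · have ha' : a ∉ W := by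
        intro h3
        exact hW a h3 ha
      rw [if_neg ha', if_pos ha, zero_add, add_comm]

private theorem bs_abs {S : Multiset (G → ℚ)} (hN : S.Nodup) (w : G → ℚ) :
    net S w = -1 ∨ net S w = 0 ∨ net S w = 1 := by
  classical
  have h1 := Multiset.nodup_iff_count_le_one.1 hN w
  have h2 := Multiset.nodup_iff_count_le_one.1 hN (-w)
  have h3 : net S w = (S.count w : ℤ) - (S.count (-w) : ℤ) := by
    unfold net
    congr
  omega

private theorem bs_core (hc : ∀ g, c * g = g * c) {X : Finset (G → ℚ)} (hX : IsSys D c X)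
    {p q : G → ℚ} (hi : ∀ α β : ℚ, α • p + β • q = 0 → α = 0 ∧ β = 0)
    (hXm : ∀ w ∈ X, w = p ∨ w = -p ∨ w = q ∨ w = -q ∨
      w = p + q ∨ w = -(p + q) ∨ w = p - q ∨ w = -(p - q))
    {S : Multiset (G → ℚ)} (hS : ∀ w ∈ S, w ∈ X) (hN : S.Nodup) (hE : Even S.card)
    (hsum : S.sum = 0) : Gen D c S := by
  classical
  have hne : ∀ (a b a' b' : ℚ) {x y : G → ℚ}, x = a • p + b • q → y = a' • p + b' • q →
      (a - a' ≠ 0 ∨ b - b' ≠ 0) → x ≠ y := by
    intro a b a' b' x y hx hy hab e
    have h1 : (a - a') • p + (b - b') • q = 0 := by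
      have h2 : (a - a') • p + (b - b') • q = x - y := by
        rw [hx, hy, sub_smul, sub_smul]
        abel
      rw [h2, e, sub_self]
    obtain ⟨h3, h4⟩ := hi _ _ h1
    rcases hab with h | h
    · exact h h3
    · exact h h4
  have rp : p = (1 : ℚ) • p + (0 : ℚ) • q := by simp
  have rq : q = (0 : ℚ) • p + (1 : ℚ) • q := by simp
  have rs : p + q = (1 : ℚ) • p + (1 : ℚ) • q := by simp
  have rd : p - q = (1 : ℚ) • p + (-1 : ℚ) • q := by simp [sub_eq_add_neg]
  have rnp : -p = (-1 : ℚ) • p + (0 : ℚ) • q := by simp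
  have rnq : -q = (0 : ℚ) • p + (-1 : ℚ) • q := by simp
  have rns : -(p + q) = (-1 : ℚ) • p + (-1 : ℚ) • q := by simp; abel
  have rnd : -(p - q) = (-1 : ℚ) • p + (1 : ℚ) • q := by simp; abel
  obtain ⟨W, hW⟩ : ∃ W : Finset (G → ℚ), W = {p, q, p + q, p - q} := ⟨_, rfl⟩
  have hWm : ∀ w, w ∈ W ↔ w = p ∨ w = q ∨ w = p + q ∨ w = p - q := by
    intro w
    rw [hW]
    simp
  have hWn : ∀ w ∈ W, -w ∉ W := by
    intro w hw h
    rw [hWm] at hw h
    rcases hw with rfl | rfl | rfl | rfl
    · rcases h with h | h | h | h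
      · exact hne _ _ _ _ rnp rp (by norm_num) h
      · exact hne _ _ _ _ rnp rq (by norm_num) h
      · exact hne _ _ _ _ rnp rs (by norm_num) h
      · exact hne _ _ _ _ rnp rd (by norm_num) h
    · rcases h with h | h | h | h
      · exact hne _ _ _ _ rnq rp (by norm_num) h
      · exact hne _ _ _ _ rnq rq (by norm_num) h
      · exact hne _ _ _ _ rnq rs (by norm_num) h
      · exact hne _ _ _ _ rnq rd (by norm_num) h
    · rcases h with h | h | h | h
      · exact hne _ _ _ _ rns rp (by norm_num) h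
      · exact hne _ _ _ _ rns rq (by norm_num) h
      · exact hne _ _ _ _ rns rs (by norm_num) h
      · exact hne _ _ _ _ rns rd (by norm_num) h
    · rcases h with h | h | h | h
      · exact hne _ _ _ _ rnd rp (by norm_num) h
      · exact hne _ _ _ _ rnd rq (by norm_num) h
      · exact hne _ _ _ _ rnd rs (by norm_num) h
      · exact hne _ _ _ _ rnd rd (by norm_num) h
  have n1 : p ∉ ({q, p + q, p - q} : Finset (G → ℚ)) := by
    simp only [mem_insert, mem_singleton, not_or]
    exact ⟨hne _ _ _ _ rp rq (by norm_num), hne _ _ _ _ rp rs (by norm_num),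
      hne _ _ _ _ rp rd (by norm_num)⟩
  have n2 : q ∉ ({p + q, p - q} : Finset (G → ℚ)) := by
    simp only [mem_insert, mem_singleton, not_or]
    exact ⟨hne _ _ _ _ rq rs (by norm_num), hne _ _ _ _ rq rd (by norm_num)⟩
  have n3 : p + q ∉ ({p - q} : Finset (G → ℚ)) := by
    simp only [mem_singleton]
    exact hne _ _ _ _ rs rd (by norm_num)
  have hSW : ∀ w ∈ S, w ∈ W ∨ -w ∈ W := by
    intro w hw
    rw [hWm, hWm]
    rcases hXm w (hS w hw) with h | h | h | h | h | h | h | h
    · exact Or.inl (Or.inl h)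
    · exact Or.inr (Or.inl (by rw [h, neg_neg]))
    · exact Or.inl (Or.inr (Or.inl h))
    · exact Or.inr (Or.inr (Or.inl (by rw [h, neg_neg])))
    · exact Or.inl (Or.inr (Or.inr (Or.inl h)))
    · exact Or.inr (Or.inr (Or.inr (Or.inl (by rw [h, neg_neg]))))
    · exact Or.inl (Or.inr (Or.inr (Or.inr h)))
    · exact Or.inr (Or.inr (Or.inr (Or.inr (by rw [h, neg_neg]))))
  have hsW := bs_sum hWn S hSW
  have hev := even_sum_net hWn hSW hE
  rw [hsum, hW, sum_insert n1, sum_insert n2, sum_insert n3, sum_singleton] at hsW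
  rw [hW, sum_insert n1, sum_insert n2, sum_insert n3, sum_singleton] at hev
  obtain ⟨x1, hx1⟩ : ∃ x, x = net S p := ⟨_, rfl⟩
  obtain ⟨x2, hx2⟩ : ∃ x, x = net S q := ⟨_, rfl⟩
  obtain ⟨x3, hx3⟩ : ∃ x, x = net S (p + q) := ⟨_, rfl⟩
  obtain ⟨x4, hx4⟩ : ∃ x, x = net S (p - q) := ⟨_, rfl⟩
  have b1 := bs_abs hN p
  have b2 := bs_abs hN q
  have b3 := bs_abs hN (p + q)
  have b4 := bs_abs hN (p - q)
  rw [← hx1] at hsW hev b1
  rw [← hx2] at hsW hev b2
  rw [← hx3] at hsW hev b3
  rw [← hx4] at hsW hev b4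
  have hrel : ((x1 : ℚ) + x3 + x4) • p + ((x2 : ℚ) + x3 - x4) • q = 0 := by
    rw [← hsW]
    simp only [add_smul, sub_smul, smul_add, smul_sub]
    abel
  obtain ⟨r1, r2⟩ := hi _ _ hrel
  have r1' : x1 + x3 + x4 = 0 := by exact_mod_cast r1
  have r2' : x2 + x3 - x4 = 0 := by exact_mod_cast r2
  obtain ⟨m, hm⟩ := hev
  have hz : x1 = 0 ∧ x2 = 0 ∧ x3 = 0 ∧ x4 = 0 := by omega
  obtain ⟨z1, z2, z3, z4⟩ := hz
  refine gen_of_net_zero (fun w hw => hX.wt w (hS w hw)) hE fun w => ?_
  by_cases hw : w ∈ X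
  · rcases hXm w hw with h | h | h | h | h | h | h | h
    · rw [h, ← hx1, z1]
    · rw [h, net_neg, ← hx1, z1, neg_zero]
    · rw [h, ← hx2, z2]
    · rw [h, net_neg, ← hx2, z2, neg_zero]
    · rw [h, ← hx3, z3]
    · rw [h, net_neg, ← hx3, z3, neg_zero]
    · rw [h, ← hx4, z4]
    · rw [h, net_neg, ← hx4, z4, neg_zero]
  · exact net_of_notMem hc hX hS hw

private theorem bs_pq {w p q : G → ℚ} (h0 : w ≠ 0) (h4 : (orb ⊤ w).card = 4)
    (h : ∀ y, y ∈ orb ⊤ w ↔ y = p ∨ y = -p ∨ y = q ∨ y = -q) :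
    ∀ α β : ℚ, α • p + β • q = 0 → α = 0 ∧ β = 0 := by
  classical
  have hp : p ∈ orb ⊤ w := (h p).2 (Or.inl rfl)
  have hq : q ∈ orb ⊤ w := (h q).2 (Or.inr (Or.inr (Or.inl rfl)))
  have hn : ip p p = ip q q := (ip_orb hp).trans (ip_orb hq).symm
  have hp0 : p ≠ 0 := orb_ne_zero h0 hp
  have hsub : (q = p ∨ q = -p) → False := by
    intro hqp
    have h5 : orb ⊤ w ⊆ {p, -p} := by
      intro y hy
      rw [mem_insert, mem_singleton]
      rcases (h y).1 hy with e | e | e | e
      · exact Or.inl e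
      · exact Or.inr e
      · rcases hqp with e' | e'
        · exact Or.inl (e.trans e')
        · exact Or.inr (e.trans e')
      · rcases hqp with e' | e'
        · exact Or.inr (by rw [e, e'])
        · exact Or.inl (by rw [e, e', neg_neg])
    have h6 := card_le_card h5
    have h7 : ({p, -p} : Finset (G → ℚ)).card ≤ 2 := card_le_two
    omega
  intro α β hαβ
  exact indep hp0 hn (fun e => hsub (Or.inl e)) (fun e => hsub (Or.inr e)) hαβ

private theorem bs_ab (hc : ∀ g, c * g = g * c) {X : Finset (G → ℚ)} (hX : IsSys D c X)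
    (hdim : ∑ w ∈ X, idx D w ≤ 8) {a b : G → ℚ} (hau : a ∈ X) (hbu : b ∈ X)
    (ha0 : a ≠ 0) (hb0 : b ≠ 0) (ca : (orb ⊤ a).card = 4) (cb : (orb ⊤ b).card = 4)
    (hab : b ∉ orb ⊤ a) {x : G → ℚ} (hx0 : x ≠ 0)
    (hxa : x ∈ Submodule.span ℚ ((orb ⊤ a : Finset (G → ℚ)) : Set (G → ℚ)))
    (hxb : x ∈ Submodule.span ℚ ((orb ⊤ b : Finset (G → ℚ)) : Set (G → ℚ)))
    {S : Multiset (G → ℚ)} (hS : ∀ w ∈ S, w ∈ X) (hN : S.Nodup) (hE : Even S.card)
    (hsum : S.sum = 0) : Gen D c S := by
  have h1 := orb_add_le hX hau hbu hab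
  rw [ca, cb] at h1
  have ia := idx_pos D a
  have ib := idx_pos D b
  have ea : idx D a = 1 := by omega
  have eb : idx D b = 1 := by omega
  have hXab : ∀ w ∈ X, w ∈ orb ⊤ a ∨ w ∈ orb ⊤ b := by
    intro w hw
    by_contra hcon
    rw [not_or] at hcon
    have h2 := orb_add_add_le hX hau hbu hw hab hcon.1 hcon.2
    have h3 : 0 < (orb ⊤ w).card * idx D w := Nat.mul_pos (card_orb_pos ⊤ w) (idx_pos D w)
    rw [ca, cb, ea, eb] at h2
    omega
  obtain ⟨p, q, ⟨h2, h3⟩ | ⟨h2, h3⟩⟩ :=
    two_planes hc (hX.wt a hau) (hX.wt b hbu) ha0 hb0 ca cb ea eb hab hx0 hxa hxb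
  · refine bs_core hc hX (bs_pq ha0 ca h2) ?_ hS hN hE hsum
    intro w hw
    rcases hXab w hw with h | h
    · rcases (h2 w).1 h with h | h | h | h <;> simp only [h, true_or, or_true]
    · rcases (h3 w).1 h with h | h | h | h <;> simp only [h, true_or, or_true]
  · refine bs_core hc hX (bs_pq hb0 cb h2) ?_ hS hN hE hsum
    intro w hw
    rcases hXab w hw with h | h
    · rcases (h3 w).1 h with h | h | h | h <;> simp only [h, true_or, or_true]
    · rcases (h2 w).1 h with h | h | h | h <;> simp only [h, true_or, or_true]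

private theorem bs_ne_zero {w : G → ℚ} (h4 : (orb ⊤ w).card = 4) : w ≠ 0 := by
  rintro rfl
  rw [orb_zero, card_singleton] at h4
  omega

private theorem bs_span {w x : G → ℚ} (hx : x ∈ orb ⊤ w) :
    x ∈ Submodule.span ℚ ((orb ⊤ w : Finset (G → ℚ)) : Set (G → ℚ)) :=
  Submodule.subset_span (by exact_mod_cast hx)

theorem bad_small (hc : ∀ g, c * g = g * c) {X : Finset (G → ℚ)} (hX : IsSys D c X)
    (hdim : ∑ w ∈ X, idx D w ≤ 8) {u v : G → ℚ} (hu : u ∈ X) (hv : v ∈ X) (huv : u + v ∈ X)
    (cu : (orb ⊤ u).card = 4) (cv : (orb ⊤ v).card = 4) (cuv : (orb ⊤ (u + v)).card = 4)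
    {S : Multiset (G → ℚ)} (hS : ∀ w ∈ S, w ∈ X) (hN : S.Nodup) (hE : Even S.card)
    (hsum : S.sum = 0) : Gen D c S := by
  have hu0 := bs_ne_zero cu
  have hv0 := bs_ne_zero cv
  have huv0 := bs_ne_zero cuv
  by_cases hvu : v ∈ orb ⊤ u
  · have hnot : u + v ∉ orb ⊤ u := by
      intro h
      obtain ⟨u', hu', h1, h2, h3⟩ := orb_four hc (hX.wt u hu) hu0 cu
      have hi : ∀ α β : ℚ, α • u + β • u' = 0 → α = 0 ∧ β = 0 := fun α β =>
        indep hu0 (ip_orb hu').symm h1 h2
      have key : ∀ (s t a b : ℚ), v = s • u + t • u' → u + v = a • u + b • u' →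
          (1 + s - a ≠ 0 ∨ t - b ≠ 0) → False := by
        intro s t a b e1 e2 hab
        have h4 : (1 + s - a) • u + (t - b) • u' = 0 := by
          have h5 : (1 + s - a) • u + (t - b) • u' = (u + (s • u + t • u')) -
              (a • u + b • u') := by
            rw [sub_smul, add_smul, one_smul, sub_smul]
            abel
          rw [h5, ← e1, ← e2, sub_self]
        obtain ⟨h6, h7⟩ := hi _ _ h4
        rcases hab with h | h
        · exact h h6
        · exact h h7
      have r1 : u = (1 : ℚ) • u + (0 : ℚ) • u' := by simp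
      have r2 : -u = (-1 : ℚ) • u + (0 : ℚ) • u' := by simp
      have r3 : u' = (0 : ℚ) • u + (1 : ℚ) • u' := by simp
      have r4 : -u' = (0 : ℚ) • u + (-1 : ℚ) • u' := by simp
      rcases (h3 v).1 hvu with e | e | e | e
      · rcases (h3 _).1 h with e' | e' | e' | e'
        · exact key _ _ _ _ (e.trans r1) (e'.trans r1) (by norm_num)
        · exact key _ _ _ _ (e.trans r1) (e'.trans r2) (by norm_num)
        · exact key _ _ _ _ (e.trans r1) (e'.trans r3) (by norm_num)
        · exact key _ _ _ _ (e.trans r1) (e'.trans r4) (by norm_num)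
      · rcases (h3 _).1 h with e' | e' | e' | e'
        · exact key _ _ _ _ (e.trans r2) (e'.trans r1) (by norm_num)
        · exact key _ _ _ _ (e.trans r2) (e'.trans r2) (by norm_num)
        · exact key _ _ _ _ (e.trans r2) (e'.trans r3) (by norm_num)
        · exact key _ _ _ _ (e.trans r2) (e'.trans r4) (by norm_num)
      · rcases (h3 _).1 h with e' | e' | e' | e'
        · exact key _ _ _ _ (e.trans r3) (e'.trans r1) (by norm_num)
        · exact key _ _ _ _ (e.trans r3) (e'.trans r2) (by norm_num)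
        · exact key _ _ _ _ (e.trans r3) (e'.trans r3) (by norm_num)
        · exact key _ _ _ _ (e.trans r3) (e'.trans r4) (by norm_num)
      · rcases (h3 _).1 h with e' | e' | e' | e'
        · exact key _ _ _ _ (e.trans r4) (e'.trans r1) (by norm_num)
        · exact key _ _ _ _ (e.trans r4) (e'.trans r2) (by norm_num)
        · exact key _ _ _ _ (e.trans r4) (e'.trans r3) (by norm_num)
        · exact key _ _ _ _ (e.trans r4) (e'.trans r4) (by norm_num)
    exact bs_ab hc hX hdim hu huv hu0 huv0 cu cuv hnot huv0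
      (Submodule.add_mem _ (bs_span (self_mem_orb ⊤ u)) (bs_span hvu))
      (bs_span (self_mem_orb ⊤ (u + v))) hS hN hE hsum
  · by_cases h1 : u + v ∈ orb ⊤ u
    · refine bs_ab hc hX hdim hu hv hu0 hv0 cu cv hvu hv0 ?_
        (bs_span (self_mem_orb ⊤ v)) hS hN hE hsum
      have h2 : v = (u + v) - u := by abel
      rw [h2]
      exact Submodule.sub_mem _ (bs_span h1) (bs_span (self_mem_orb ⊤ u))
    · by_cases h2 : u + v ∈ orb ⊤ v
      · refine bs_ab hc hX hdim hu hv hu0 hv0 cu cv hvu hu0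
          (bs_span (self_mem_orb ⊤ u)) ?_ hS hN hE hsum
        have h3 : u = (u + v) - v := by abel
        rw [h3]
        exact Submodule.sub_mem _ (bs_span h2) (bs_span (self_mem_orb ⊤ v))
      · exfalso
        have h3 := orb_add_add_le hX hu hv huv hvu h1 h2
        rw [cu, cv, cuv] at h3
        have i1 := idx_pos D u
        have i2 := idx_pos D v
        have i3 := idx_pos D (u + v)
        omega

end Pool.Agent.AVF
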