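import Pool.Agent.AVF.Bas

/-!
# AVF: small linear algebra
-/

set_option linter.unusedSectionVars false
set_option linter.unusedVariables false

namespace Pool.Agent.AVF

open Finset

variable {G : Type} [Group G] [Fintype G] {D : Subgroup G} {c : G}

theorem indep {a b : G → ℚ} (ha : a ≠ 0) (hn : ip a a = ip b b) (h1 : b ≠ a) (h2 : b ≠ -a)
    {α β : ℚ} (h : α • a + β • b = 0) : α = 0 ∧ β = 0 := by
  have hβ : β = 0 := by
    by_contra hβ
    have e : b = (-(α / β)) • a := by
      funext g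
      have := congrFun h g
      simp only [Pi.add_apply, Pi.smul_apply, smul_eq_mul, Pi.zero_apply] at this ⊢
      field_simp
      linarith
    rcases eq_or_neg_of_smul ha e hn.symm with h3 | h3
    · exact h1 h3
    · exact h2 h3
  subst hβ
  refine ⟨?_, rfl⟩
  rw [zero_smul, add_zero] at h
  rcases smul_eq_zero.1 h with h | h
  · exact h
  · exact absurd h ha

theorem finrank_span_pair {a b : G → ℚ}
    (hi : ∀ α β : ℚ, α • a + β • b = 0 → α = 0 ∧ β = 0) :
    Module.finrank ℚ (Submodule.span ℚ ({a, b} : Set (G → ℚ))) = 2 := by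
  have h1 : LinearIndependent ℚ ![a, b] := LinearIndependent.pair_iff.2 hi
  have h2 := finrank_span_eq_card h1
  have h3 : Set.range ![a, b] = {a, b} := by
    rw [Matrix.range_cons, Matrix.range_cons, Matrix.range_empty, Set.union_empty]
    rfl
  rw [h3, Fintype.card_fin] at h2
  exact h2

private theorem half_int {x : ℚ} (h : x = 0 ∨ x = 1 / 2 ∨ x = -(1 / 2)) :
    ∃ α : ℤ, |α| ≤ 1 ∧ 2 * x = α := by
  rcases h with h | h | h
  · exact ⟨0, by simp, by rw [h]; norm_num⟩
  · exact ⟨1, by simp, by rw [h]; norm_num⟩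
  · exact ⟨-1, by simp, by rw [h]; norm_num⟩

theorem plane_coord {V : Submodule ℚ (G → ℚ)} (hV : Module.finrank ℚ V = 2) :
    ∃ e1 ∈ V, ∃ e2 ∈ V, (∀ α β : ℚ, α • e1 + β • e2 = 0 → α = 0 ∧ β = 0) ∧
      ∀ w ∈ V, (∀ g, w g = 0 ∨ w g = 1 / 2 ∨ w g = -(1 / 2)) →
        ∃ α β : ℤ, |α| ≤ 1 ∧ |β| ≤ 1 ∧ w = (α : ℚ) • e1 + (β : ℚ) • e2 := by
  classical
  let B := Module.finBasisOfFinrankEq ℚ V hV
  obtain ⟨v, hv⟩ : ∃ v : G → ℚ, v = (B 0 : V) := ⟨_, rfl⟩
  obtain ⟨u, hu⟩ : ∃ u : G → ℚ, u = (B 1 : V) := ⟨_, rfl⟩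
  have hvV : v ∈ V := by rw [hv]; exact (B 0).2
  have huV : u ∈ V := by rw [hu]; exact (B 1).2
  have hind : ∀ α β : ℚ, α • v + β • u = 0 → α = 0 ∧ β = 0 := by
    intro α β h
    have h1 : α • B 0 + β • B 1 = 0 := by
      apply Subtype.ext
      rw [Submodule.coe_add, Submodule.coe_smul, Submodule.coe_smul, ← hv, ← hu, h]
      rfl
    have h2 := LinearIndependent.pair_iff.1 (by
      have := B.linearIndependent
      have e : (B : Fin 2 → V) = ![B 0, B 1] := by
        funext i; fin_cases i <;> rfl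
      rwa [e] at this) α β h1
    exact h2
  have hspan : ∀ w ∈ V, ∃ x y : ℚ, w = x • v + y • u := by
    intro w hw
    refine ⟨B.repr ⟨w, hw⟩ 0, B.repr ⟨w, hw⟩ 1, ?_⟩
    have h1 := B.sum_repr ⟨w, hw⟩
    rw [Fin.sum_univ_two] at h1
    have h2 := congrArg (Subtype.val) h1
    rw [Submodule.coe_add, Submodule.coe_smul, Submodule.coe_smul, ← hv, ← hu] at h2
    exact h2.symm
  have hv0 : v ≠ 0 := by
    intro h
    have := (hind 1 0 (by rw [h]; simp)).1
    norm_num at this
  obtain ⟨g, hg⟩ : ∃ g, v g ≠ 0 := by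
    by_contra h
    push Not at h
    exact hv0 (funext h)
  obtain ⟨u', hu'⟩ : ∃ u' : G → ℚ, u' = u - (u g / v g) • v := ⟨_, rfl⟩
  have hu'V : u' ∈ V := by rw [hu']; exact V.sub_mem huV (V.smul_mem _ hvV)
  have hu'0 : u' ≠ 0 := by
    intro h
    have := (hind (-(u g / v g)) 1 (by rw [← h, hu']; module)).2
    norm_num at this
  have hu'g : u' g = 0 := by
    rw [hu']
    simp only [Pi.sub_apply, Pi.smul_apply, smul_eq_mul]
    field_simp
    ring
  obtain ⟨k, hk⟩ : ∃ g, u' g ≠ 0 := by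
    by_contra h
    push Not at h
    exact hu'0 (funext h)
  refine ⟨(1 / (2 * v g)) • (v - (v k / u' k) • u'), V.smul_mem _ (V.sub_mem hvV (V.smul_mem _ hu'V)),
    (1 / (2 * u' k)) • u', V.smul_mem _ hu'V, ?_, ?_⟩
  · intro α β h
    have h1 := congrFun h g
    have h2 := congrFun h k
    simp only [Pi.add_apply, Pi.sub_apply, Pi.smul_apply, smul_eq_mul, Pi.zero_apply, hu'g] at h1 h2
    have h3 : α = 0 := by
      have e : α * (1 / (2 * v g) * (v g - v k / u' k * 0)) + β * (1 / (2 * u' k) * 0) =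
          α * (1 / 2) := by
        field_simp
        ring
      rw [e] at h1
      linarith
    refine ⟨h3, ?_⟩
    rw [h3] at h2
    have e : 0 * (1 / (2 * v g) * (v k - v k / u' k * u' k)) + β * (1 / (2 * u' k) * u' k) =
        β * (1 / 2) := by
      field_simp
      ring
    rw [e] at h2
    linarith
  · intro w hw hval
    obtain ⟨x, y, hxy⟩ := hspan w hw
    obtain ⟨α, hα, hα2⟩ := half_int (hval g)
    obtain ⟨β, hβ, hβ2⟩ := half_int (hval k)
    refine ⟨α, β, hα, hβ, ?_⟩
    rw [← hα2, ← hβ2]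
    have hug : u = u' + (u g / v g) • v := by rw [hu']; module
    have hwg : w g = x * v g + y * u g := by
      rw [hxy]; simp
    have huk : u k = u' k + (u g / v g) * v k := by
      rw [hu']; simp
    have hwk : w k = x * v k + y * u k := by
      rw [hxy]; simp
    rw [hwg, hwk, hxy]
    funext t
    have hut : u t = u' t + (u g / v g) * v t := by
      rw [hu']; simp
    simp only [Pi.add_apply, Pi.sub_apply, Pi.smul_apply, smul_eq_mul]
    rw [hut, huk]
    field_simp
    ring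

end Pool.Agent.AVF
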