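import Pool.Agent.AVF.Sz
import Pool.Agent.AVF.Lin

/-!
# AVF: no stable line in the plane of an orbit of four weights of index one

Plan. `orb_four`: `orb ⊤ a = {a,-a,b,-b}`, `ip b b = ip a a` (`ip_orb`), `indep` for `a, b`. `v = α • a + β • b`
(span of `{a,-a,b,-b}`: `Submodule.span_induction` or `mem_span_pair`). Suppose `v ≠ 0`. Choose `h0` with `tr h0 a = b`; then
`tr h0 b = ±a` (it is in the orbit, not `±b` by injectivity), and `tr h0 v = ±v` gives `|α| = |β|` by `indep`. So, with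
`b' = ±b`, `v = α • (a + b')`, `α ≠ 0`; `u := a + b'`, `u' := a - b'`. For every `h`: `tr h u = ±u`; `tr h a` is `δ a` or `δ b'`
and correspondingly `tr h b'` is `δ' b'` or `δ' a`, with `δ = δ'` by `indep`; hence `tr h u' = ±u'` too.
A vector `x` with `tr h x = ±x` for all `h` and `x 1 = 0` is zero (`x g = tr g x 1 = ±x 1`). `u, u' ≠ 0`, so `u 1 ≠ 0`, `u' 1 ≠ 0`.
For `d ∈ D`: `tr d u 1 = u 1` (as `a, b'` are weights: `IsWeight.tr_d`), so `tr d u = u`, the same for `u'`, so `tr d a = a`,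
`tr d b' = b'`. So `orb D a = {a}`, `orb D b' = {b'}`; `idx = 1` for both (`idx_orb`, `idx_neg`); `idx_int_one`: `a 1 + 1/2`,
`b' 1 + 1/2` are integers, of absolute value at most 1, so `a 1, b' 1 ∈ {1/2, -1/2}`; then `u 1 = 0` or `u' 1 = 0`, contradiction.
`semi_trivial` is the middle part (index arbitrary), it is used again for index two.
-/

set_option linter.unusedSectionVars false
set_option linter.unusedVariables false

namespace Pool.Agent.AVF

open Finset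

variable {G : Type} [Group G] [Fintype G] {D : Subgroup G} {c : G}

/-- coordinates of the elements of the orbit -/
private theorem nl_coord {a b : G → ℚ}
    (ho : ∀ x : G → ℚ, x ∈ orb ⊤ a ↔ x = a ∨ x = -a ∨ x = b ∨ x = -b) {x : G → ℚ}
    (hx : x ∈ orb ⊤ a) :
    ∃ p q : ℚ, x = p • a + q • b ∧
      ((p = 1 ∧ q = 0) ∨ (p = -1 ∧ q = 0) ∨ (p = 0 ∧ q = 1) ∨ (p = 0 ∧ q = -1)) := by
  rcases (ho x).1 hx with h | h | h | h
  · exact ⟨1, 0, by rw [h]; module, by simp⟩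
  · exact ⟨-1, 0, by rw [h]; module, by simp⟩
  · exact ⟨0, 1, by rw [h]; module, by simp⟩
  · exact ⟨0, -1, by rw [h]; module, by simp⟩

private theorem nl_zero {x : G → ℚ} (hs : ∀ h, tr h x = x ∨ tr h x = -x) (h1 : x 1 = 0) :
    x = 0 := by
  funext g
  have h2 := tr_eval g x
  rcases hs g with h | h
  · rw [h] at h2
    rw [← h2, h1]
    rfl
  · rw [h, Pi.neg_apply, h1] at h2
    rw [← h2]
    simp

private theorem nl_key {a b : G → ℚ} (ha0 : a ≠ 0) (hb : b ∈ orb ⊤ a) (h1 : b ≠ a)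
    (h2 : b ≠ -a) (ho : ∀ x : G → ℚ, x ∈ orb ⊤ a ↔ x = a ∨ x = -a ∨ x = b ∨ x = -b)
    (hs : ∀ h, tr h (a + b) = a + b ∨ tr h (a + b) = -(a + b)) (h : G) :
    (tr h a = a ∧ tr h b = b) ∨ (tr h a = -a ∧ tr h b = -b) ∨ (tr h a = b ∧ tr h b = a) ∨
      (tr h a = -b ∧ tr h b = -a) := by
  have hn : ip a a = ip b b := (ip_orb hb).symm
  obtain ⟨p, q, hx, hpq⟩ := nl_coord ho
    (tr_mem_orb (Subgroup.mem_top h) (self_mem_orb ⊤ a))
  obtain ⟨r, t, hy, hrt⟩ := nl_coord ho (tr_mem_orb (Subgroup.mem_top h) hb)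
  obtain ⟨σ, hσ, he⟩ : ∃ σ : ℚ, (σ = 1 ∨ σ = -1) ∧ tr h (a + b) = σ • (a + b) := by
    rcases hs h with e | e
    · exact ⟨1, Or.inl rfl, by rw [e, one_smul]⟩
    · exact ⟨-1, Or.inr rfl, by rw [e, neg_one_smul]⟩
  have e : (p + r - σ) • a + (q + t - σ) • b = 0 := by
    rw [tr_add, hx, hy] at he
    have h3 : (p + r - σ) • a + (q + t - σ) • b =
        (p • a + q • b + (r • a + t • b)) - σ • (a + b) := by module
    rw [h3, he, sub_self]
  obtain ⟨e1, e2⟩ := indep ha0 hn h1 h2 e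
  rcases hpq with ⟨rfl, rfl⟩ | ⟨rfl, rfl⟩ | ⟨rfl, rfl⟩ | ⟨rfl, rfl⟩ <;>
  rcases hrt with ⟨rfl, rfl⟩ | ⟨rfl, rfl⟩ | ⟨rfl, rfl⟩ | ⟨rfl, rfl⟩ <;>
  rcases hσ with rfl | rfl <;>
  first
    | (exfalso; norm_num at e1; done)
    | (exfalso; norm_num at e2; done)
    | (left; constructor <;> simp [hx, hy]; done)
    | (right; left; constructor <;> simp [hx, hy]; done)
    | (right; right; left; constructor <;> simp [hx, hy]; done)
    | (right; right; right; constructor <;> simp [hx, hy]; done)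

/-- Semi-invariance of `a + b` in the plane of an orbit `{±a, ±b}`: `D` fixes `a` and `b`, and
`(a ± b)(1) ≠ 0`. -/
theorem semi_trivial (hc : ∀ g, c * g = g * c) {a b : G → ℚ} (ha : IsWeight D c a) (ha0 : a ≠ 0)
    (hb : b ∈ orb ⊤ a) (h1 : b ≠ a) (h2 : b ≠ -a)
    (ho : ∀ x : G → ℚ, x ∈ orb ⊤ a ↔ x = a ∨ x = -a ∨ x = b ∨ x = -b)
    (hs : ∀ h, tr h (a + b) = a + b ∨ tr h (a + b) = -(a + b)) :
    (∀ h, tr h (a - b) = a - b ∨ tr h (a - b) = -(a - b)) ∧ (∀ d ∈ D, tr d a = a ∧ tr d b = b) ∧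
      a 1 + b 1 ≠ 0 ∧ a 1 - b 1 ≠ 0 := by
  have hn : ip a a = ip b b := (ip_orb hb).symm
  have key := nl_key ha0 hb h1 h2 ho hs
  have hs' : ∀ h, tr h (a - b) = a - b ∨ tr h (a - b) = -(a - b) := by
    intro h
    rw [tr_sub]
    rcases key h with ⟨e1, e2⟩ | ⟨e1, e2⟩ | ⟨e1, e2⟩ | ⟨e1, e2⟩
    · left; rw [e1, e2]
    · right; rw [e1, e2]; abel
    · right; rw [e1, e2]; abel
    · left; rw [e1, e2]; abel
  have h3 : a 1 + b 1 ≠ 0 := by
    intro h
    have h4 : a + b = 0 := nl_zero hs h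
    have h5 := indep ha0 hn h1 h2 (α := 1) (β := 1) (by rw [one_smul, one_smul, h4])
    exact one_ne_zero h5.1
  have h4 : a 1 - b 1 ≠ 0 := by
    intro h
    have h4 : a - b = 0 := nl_zero hs' h
    have h5 := indep ha0 hn h1 h2 (α := 1) (β := -1)
      (by rw [one_smul, neg_one_smul, ← sub_eq_add_neg, h4])
    exact one_ne_zero h5.1
  have hbw : IsWeight D c b := by
    obtain ⟨h, rfl⟩ := mem_orb_top.1 hb
    exact ha.tr h
  refine ⟨hs', fun d hd => ?_, h3, h4⟩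
  have h5 : tr d a 1 = a 1 := ha.tr_d hd
  have h6 : tr d b 1 = b 1 := hbw.tr_d hd
  rcases key d with ⟨e1, e2⟩ | ⟨e1, e2⟩ | ⟨e1, e2⟩ | ⟨e1, e2⟩
  · exact ⟨e1, e2⟩
  · exfalso
    rw [e1, Pi.neg_apply] at h5
    rw [e2, Pi.neg_apply] at h6
    apply h3
    linarith
  · exfalso
    rw [e1] at h5
    apply h4
    linarith
  · exfalso
    rw [e1, Pi.neg_apply] at h5
    apply h3
    linarith

/-- A semi-invariant vector of the plane is proportional to `a + b` or to `a - b`. -/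
theorem semi_prop (hc : ∀ g, c * g = g * c) {a b : G → ℚ} (ha : IsWeight D c a) (ha0 : a ≠ 0)
    (hb : b ∈ orb ⊤ a) (h1 : b ≠ a) (h2 : b ≠ -a)
    (ho : ∀ x : G → ℚ, x ∈ orb ⊤ a ↔ x = a ∨ x = -a ∨ x = b ∨ x = -b) {α β : ℚ}
    (hv : α • a + β • b ≠ 0)
    (hs : ∀ h, tr h (α • a + β • b) = α • a + β • b ∨
      tr h (α • a + β • b) = -(α • a + β • b)) :
    α ≠ 0 ∧ (β = α ∨ β = -α) := by
  have hn : ip a a = ip b b := (ip_orb hb).symm
  obtain ⟨h, hh⟩ := mem_orb_top.1 hb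
  have hbr : tr h b = a ∨ tr h b = -a := by
    rcases (ho _).1 (tr_mem_orb (Subgroup.mem_top h) hb) with e | e | e | e
    · exact Or.inl e
    · exact Or.inr e
    · exact absurd (tr_inj h (e.trans hh.symm)) h1
    · refine absurd (tr_inj h (e.trans ?_)) h2
      rw [tr_neg, hh]
  obtain ⟨r, hr, hbr'⟩ : ∃ r : ℚ, (r = 1 ∨ r = -1) ∧ tr h b = r • a := by
    rcases hbr with e | e
    · exact ⟨1, Or.inl rfl, by rw [e, one_smul]⟩
    · exact ⟨-1, Or.inr rfl, by rw [e, neg_one_smul]⟩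
  obtain ⟨σ, hσ, he⟩ : ∃ σ : ℚ, (σ = 1 ∨ σ = -1) ∧
      tr h (α • a + β • b) = σ • (α • a + β • b) := by
    rcases hs h with e | e
    · exact ⟨1, Or.inl rfl, by rw [e, one_smul]⟩
    · exact ⟨-1, Or.inr rfl, by rw [e, neg_one_smul]⟩
  have e : (β * r - σ * α) • a + (α - σ * β) • b = 0 := by
    rw [tr_add, tr_smul, tr_smul, hh, hbr'] at he
    have h3 : (β * r - σ * α) • a + (α - σ * β) • b =
        (α • b + β • r • a) - σ • (α • a + β • b) := by module
    rw [h3, he, sub_self]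
  obtain ⟨-, e2⟩ := indep ha0 hn h1 h2 e
  have hβ : β = α ∨ β = -α := by
    rcases hσ with rfl | rfl
    · left; linarith
    · right; linarith
  refine ⟨fun h0 => hv ?_, hβ⟩
  have h3 : β = 0 := by
    rcases hβ with h | h
    · rw [h, h0]
    · rw [h, h0, neg_zero]
  rw [h0, h3, zero_smul, zero_smul, add_zero]

private theorem nl_half {a : G → ℚ} (ha : IsWeight D c a) (hd : ∀ d ∈ D, tr d a = a)
    (he : idx D a = 1) : a 1 = 1 / 2 ∨ a 1 = -(1 / 2) := by
  have h1 : orb D a = {a} := by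
    ext x
    rw [mem_orb, mem_singleton]
    constructor
    · rintro ⟨h, hh, rfl⟩
      exact hd h hh
    · rintro rfl
      exact ⟨1, D.one_mem, tr_one _⟩
  obtain ⟨z, hz⟩ := idx_int_one D a
  rw [he, h1, card_singleton] at hz
  have h2 := abs_le.1 (ha.2.2 1)
  have h3 : a 1 + 1 / 2 = z := by
    rw [← hz]
    push_cast
    ring
  have h4 : (0 : ℚ) ≤ z := by rw [← h3]; linarith [h2.1]
  have h5 : (z : ℚ) ≤ 1 := by rw [← h3]; linarith [h2.2]
  have h6 : 0 ≤ z := by exact_mod_cast h4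
  have h7 : z ≤ 1 := by exact_mod_cast h5
  have h8 : z = 0 ∨ z = 1 := by omega
  rcases h8 with h | h
  · right
    rw [h] at h3
    push_cast at h3
    linarith
  · left
    rw [h] at h3
    push_cast at h3
    linarith

theorem no_line (hc : ∀ g, c * g = g * c) {a : G → ℚ} (ha : IsWeight D c a) (ha0 : a ≠ 0)
    (h4 : (orb ⊤ a).card = 4) (he : idx D a = 1) {v : G → ℚ}
    (hv : v ∈ Submodule.span ℚ ((orb ⊤ a : Finset (G → ℚ)) : Set (G → ℚ)))
    (hs : ∀ h, tr h v = v ∨ tr h v = -v) : v = 0 := by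
  obtain ⟨b, hb, hba, hbna, ho⟩ := orb_four hc ha ha0 h4
  by_contra hv0
  have hsp : Submodule.span ℚ ((orb ⊤ a : Finset (G → ℚ)) : Set (G → ℚ)) ≤
      Submodule.span ℚ ({a, b} : Set (G → ℚ)) := by
    rw [Submodule.span_le]
    intro x hx
    obtain ⟨p, q, hxe, -⟩ := nl_coord ho (Finset.mem_coe.1 hx)
    rw [SetLike.mem_coe, Submodule.mem_span_pair]
    exact ⟨p, q, hxe.symm⟩
  obtain ⟨α, β, rfl⟩ := Submodule.mem_span_pair.1 (hsp hv)
  obtain ⟨hα, hβ⟩ := semi_prop hc ha ha0 hb hba hbna ho hv0 hs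
  obtain ⟨b', hb', hba', hbna', ho', hv'⟩ : ∃ b' ∈ orb ⊤ a, b' ≠ a ∧ b' ≠ -a ∧
      (∀ x : G → ℚ, x ∈ orb ⊤ a ↔ x = a ∨ x = -a ∨ x = b' ∨ x = -b') ∧
      α • a + β • b = α • (a + b') := by
    rcases hβ with h | h
    · exact ⟨b, hb, hba, hbna, ho, by rw [h]; module⟩
    · refine ⟨-b, neg_mem_orb ha hc hb, ?_, ?_, ?_, by rw [h]; module⟩
      · intro e
        exact hbna (by rw [← e, neg_neg])
      · intro e
        exact hba (neg_injective e)
      · intro x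
        rw [ho x, neg_neg]
        tauto
  have hs' : ∀ h, tr h (a + b') = a + b' ∨ tr h (a + b') = -(a + b') := by
    intro h
    have h5 := hs h
    rw [hv', tr_smul, ← smul_neg] at h5
    rcases h5 with e | e
    · exact Or.inl (smul_right_injective _ hα e)
    · exact Or.inr (smul_right_injective _ hα e)
  obtain ⟨-, hD, h5, h6⟩ := semi_trivial hc ha ha0 hb' hba' hbna' ho' hs'
  have hbw : IsWeight D c b' := by
    obtain ⟨h, rfl⟩ := mem_orb_top.1 hb'
    exact ha.tr h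
  have h7 := nl_half ha (fun d hd => (hD d hd).1) he
  have h8 := nl_half hbw (fun d hd => (hD d hd).2) (by rw [idx_orb hb', he])
  rcases h7 with h7 | h7 <;> rcases h8 with h8 | h8
  · exact h6 (by rw [h7, h8, sub_self])
  · exact h5 (by rw [h7, h8]; ring)
  · exact h5 (by rw [h7, h8]; ring)
  · exact h6 (by rw [h7, h8, sub_self])

end Pool.Agent.AVF
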