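import Pool.Agent.AVF.Chi

/-!
# AVF: the projector of a sign character
-/

set_option linter.unusedSectionVars false
set_option linter.unusedVariables false

namespace Pool.Agent.AVF

open Finset

variable {G : Type} [Group G] [Fintype G] {D : Subgroup G} {c : G}

/-- The projector onto the `ε`-part. -/
noncomputable def pr (ε : G →* ℤˣ) (v : G → ℚ) : G → ℚ :=
  (1 / (Fintype.card G : ℚ)) • ∑ h : G, ((ε h : ℤ) : ℚ) • tr h v

theorem pr_add (ε : G →* ℤˣ) (u v : G → ℚ) : pr ε (u + v) = pr ε u + pr ε v := by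
  unfold pr
  rw [← smul_add, ← sum_add_distrib]
  congr 1
  exact sum_congr rfl fun h _ => by rw [tr_add, smul_add]

theorem pr_smul (ε : G →* ℤˣ) (q : ℚ) (u : G → ℚ) : pr ε (q • u) = q • pr ε u := by
  unfold pr
  rw [smul_comm q, smul_sum (s := univ) (r := q)]
  congr 1
  refine sum_congr rfl fun h _ => ?_
  rw [tr_smul, smul_comm]

theorem pr_zero (ε : G →* ℤˣ) : pr ε (0 : G → ℚ) = 0 := by
  have := pr_smul ε 0 (0 : G → ℚ)
  rw [zero_smul, zero_smul] at this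
  exact this

theorem pr_sum {ι : Type*} (ε : G →* ℤˣ) (s : Finset ι) (f : ι → G → ℚ) :
    pr ε (∑ i ∈ s, f i) = ∑ i ∈ s, pr ε (f i) := by
  classical
  induction s using Finset.induction_on with
  | empty => rw [sum_empty, sum_empty, pr_zero]
  | insert a s ha ih => rw [sum_insert ha, sum_insert ha, pr_add, ih]

private theorem eps_sq (ε : G →* ℤˣ) (h : G) :
    (((ε h : ℤˣ) : ℤ) : ℚ) * (((ε h : ℤˣ) : ℤ) : ℚ) = 1 := by
  rcases Int.units_eq_one_or (ε h) with h | h <;> rw [h] <;> simp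

private theorem eps_mul (ε : G →* ℤˣ) (h k : G) :
    (((ε (h * k) : ℤˣ) : ℤ) : ℚ) = (((ε h : ℤˣ) : ℤ) : ℚ) * (((ε k : ℤˣ) : ℤ) : ℚ) := by
  rw [map_mul]
  push_cast
  rfl

theorem pr_semi (ε : G →* ℤˣ) (v : G → ℚ) (h : G) : tr h (pr ε v) = ((ε h : ℤ) : ℚ) • pr ε v := by
  unfold pr
  have e : tr h (∑ k : G, ((ε k : ℤ) : ℚ) • tr k v) =
      ((ε h : ℤ) : ℚ) • ∑ k : G, ((ε k : ℤ) : ℚ) • tr k v := by
    rw [tr_sum, smul_sum]
    refine Fintype.sum_equiv (Equiv.mulLeft h) _ _ fun k => ?_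
    rw [Equiv.coe_mulLeft, tr_smul, ← tr_mul, smul_smul, eps_mul, ← mul_assoc, eps_sq, one_mul]
  rw [tr_smul, e, smul_comm]

theorem pr_chi_self (ε : G →* ℤˣ) : pr ε (chi ε) = chi ε := by
  unfold pr
  have h1 : ∀ h ∈ (univ : Finset G), ((ε h : ℤ) : ℚ) • tr h (chi ε) = chi ε := by
    intro h _
    rw [tr_chi, smul_smul, eps_sq, one_smul]
  rw [sum_congr rfl h1, sum_const, card_univ, ← Nat.cast_smul_eq_nsmul ℚ, smul_smul, one_div,
    inv_mul_cancel₀ (Nat.cast_ne_zero.2 Fintype.card_ne_zero), one_smul]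

theorem pr_chi_ne {ε ε' : G →* ℤˣ} (h : ε ≠ ε') : pr ε (chi ε') = 0 := by
  obtain ⟨k, hk⟩ : ∃ k, ε k ≠ ε' k := by
    by_contra h'
    push Not at h'
    exact h (MonoidHom.ext h')
  have h1 : tr k (pr ε (chi ε')) = ((ε k : ℤ) : ℚ) • pr ε (chi ε') := pr_semi ε (chi ε') k
  have h2 : tr k (pr ε (chi ε')) = ((ε' k : ℤ) : ℚ) • pr ε (chi ε') := by
    unfold pr
    have e : tr k (∑ j : G, ((ε j : ℤ) : ℚ) • tr j (chi ε')) =
        ((ε' k : ℤ) : ℚ) • ∑ j : G, ((ε j : ℤ) : ℚ) • tr j (chi ε') := by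
      rw [tr_sum, smul_sum]
      refine sum_congr rfl fun j _ => ?_
      rw [tr_smul, tr_chi, tr_smul, tr_chi, smul_smul, smul_smul, smul_smul, smul_smul]
      congr 1
      ring
    rw [tr_smul, e, smul_comm]
  rw [h1] at h2
  have h3 : (((ε k : ℤˣ) : ℤ) : ℚ) ≠ (((ε' k : ℤˣ) : ℤ) : ℚ) := by
    intro e
    apply hk
    apply Units.ext
    exact_mod_cast e
  have h4 : ((((ε k : ℤˣ) : ℤ) : ℚ) - (((ε' k : ℤˣ) : ℤ) : ℚ)) • pr ε (chi ε') = 0 := by
    rw [sub_smul, h2, sub_self]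
  rcases smul_eq_zero.1 h4 with h5 | h5
  · exact absurd (sub_eq_zero.1 h5) h3
  · exact h5

theorem pr_mem_span (ε : G →* ℤˣ) (a : G → ℚ) {v : G → ℚ}
    (hv : v ∈ Submodule.span ℚ ((orb ⊤ a : Finset (G → ℚ)) : Set (G → ℚ))) :
    pr ε v ∈ Submodule.span ℚ ((orb ⊤ a : Finset (G → ℚ)) : Set (G → ℚ)) := by
  have h1 : ∀ h : G, tr h v ∈ Submodule.span ℚ ((orb ⊤ a : Finset (G → ℚ)) : Set (G → ℚ)) := by
    intro h
    refine Submodule.span_induction (p := fun v _ =>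
      tr h v ∈ Submodule.span ℚ ((orb ⊤ a : Finset (G → ℚ)) : Set (G → ℚ))) ?_ ?_ ?_ ?_ hv
    · intro x hx
      exact Submodule.subset_span (tr_mem_orb (Subgroup.mem_top h) hx)
    · rw [tr_zero]
      exact Submodule.zero_mem _
    · intro x y _ _ hx hy
      rw [tr_add]
      exact Submodule.add_mem _ hx hy
    · intro q x _ hx
      rw [tr_smul]
      exact Submodule.smul_mem _ _ hx
  exact Submodule.smul_mem _ _ (Submodule.sum_mem _ fun h _ => Submodule.smul_mem _ _ (h1 h))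

end Pool.Agent.AVF
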