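import Pool.Agent.AVF.BadS
import Pool.Agent.AVF.Proj
import Pool.Agent.AVF.NL

/-!
# AVF: the bad pair and an ordinary elliptic curve
-/

set_option linter.unusedSectionVars false
set_option linter.unusedVariables false

namespace Pool.Agent.AVF

open Finset

variable {G : Type} [Group G] [Fintype G] {D : Subgroup G} {c : G}

private theorem bt_two (hc : ∀ g, c * g = g * c) {w : G → ℚ} (hw : IsWeight D c w) (h0 : w ≠ 0)
    (h2 : (orb ⊤ w).card = 2) (he : idx D w = 1) :
    ∃ ε : G →* ℤˣ, w = chi ε ∨ w = -chi ε := by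
  obtain ⟨ε, -, -, h⟩ := exists_eps hc hw h0 h2
  refine ⟨ε, ?_⟩
  rcases (val_of_idx hc hw h0 h2).1 he with h1 | h1
  · left
    rw [h1] at h
    rw [h]
    norm_num
  · right
    rw [h1] at h
    rw [h]
    norm_num

private theorem bt_units (ε : G →* ℤˣ) (h : G) (v : G → ℚ) :
    ((ε h : ℤ) : ℚ) • v = v ∨ ((ε h : ℤ) : ℚ) • v = -v := by
  rcases Int.units_eq_one_or (ε h) with e | e
  · left
    rw [e]
    simp
  · right
    rw [e]
    simp

/-- Two weights of one orbit of size four have no sum of the same norm in this orbit. -/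
theorem not_same (hc : ∀ g, c * g = g * c) {a u v : G → ℚ} (ha : IsWeight D c a) (ha0 : a ≠ 0)
    (h4 : (orb ⊤ a).card = 4) (hu : u ∈ orb ⊤ a) (hv : v ∈ orb ⊤ a) (huv : u + v ∈ orb ⊤ a) :
    False := by
  obtain ⟨b, hb, h1, h2, ho⟩ := orb_four hc ha ha0 h4
  have hn : ip a a = ip b b := (ip_orb hb).symm
  have hco : ∀ x ∈ orb ⊤ a, ∃ p q : ℚ, x = p • a + q • b ∧ (p + q = 1 ∨ p + q = -1) := by
    intro x hx
    rcases (ho x).1 hx with h | h | h | h
    · exact ⟨1, 0, by rw [h]; module, by norm_num⟩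
    · exact ⟨-1, 0, by rw [h]; module, by norm_num⟩
    · exact ⟨0, 1, by rw [h]; module, by norm_num⟩
    · exact ⟨0, -1, by rw [h]; module, by norm_num⟩
  obtain ⟨p, q, e1, f1⟩ := hco u hu
  obtain ⟨r, s, e2, f2⟩ := hco v hv
  obtain ⟨x, y, e3, f3⟩ := hco (u + v) huv
  have e4 : (p + r - x) • a + (q + s - y) • b = 0 := by
    have e5 : (p • a + q • b) + (r • a + s • b) = x • a + y • b := by
      rw [← e1, ← e2, ← e3]
    have e6 : (p + r - x) • a + (q + s - y) • b =
        (p • a + q • b) + (r • a + s • b) - (x • a + y • b) := by module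
    rw [e6, e5, sub_self]
  obtain ⟨e7, e8⟩ := indep ha0 hn h1 h2 e4
  rcases f1 with f1 | f1 <;> rcases f2 with f2 | f2 <;> rcases f3 with f3 | f3 <;> linarith

/-- The indices of a bad triple. -/
theorem bad_idx (hc : ∀ g, c * g = g * c) {X : Finset (G → ℚ)} (hX : IsSys D c X)
    (hdim : ∑ w ∈ X, idx D w ≤ 10) {u v : G → ℚ} (hu : u ∈ X) (hv : v ∈ X) (huv : u + v ∈ X)
    (cu : (orb ⊤ u).card = 4) (cv : (orb ⊤ v).card = 4) (cuv : (orb ⊤ (u + v)).card = 4) :
    ∀ z ∈ X, (orb ⊤ z).card = 4 → idx D z = 1 := by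
  intro z hz cz
  by_contra hne1
  have hi := idx_pos D z
  have hin : ∀ y ∈ X, (orb ⊤ y).card = 4 → y ∈ orb ⊤ z := by
    intro y hy cy
    by_contra hyz
    have h5 := orb_add_le hX hz hy hyz
    have h6 := idx_pos D y
    rw [cz, cy] at h5
    omega
  have hz0 : z ≠ 0 := by
    intro hz0
    rw [hz0, orb_zero] at cz
    simp at cz
  exact not_same hc (hX.wt z hz) hz0 cz (hin u hu cu) (hin v hv cv) (hin _ huv cuv)

/-- Weights in orbits of size two do not occur in relations. -/
private theorem bt_rel (hc : ∀ g, c * g = g * c) {X : Finset (G → ℚ)} (hX : IsSys D c X)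
    (h0 : ∀ w ∈ X, w ≠ 0) (he : ∀ w ∈ X, idx D w = 1)
    (ho : ∀ w ∈ X, (orb ⊤ w).card = 2 ∨ (orb ⊤ w).card = 4)
    {n : (G → ℚ) → ℚ} (hn : IsRel X n) : ∀ w ∈ X, (orb ⊤ w).card = 2 → n w = 0 := by
  classical
  obtain ⟨hodd, hsum⟩ := hn
  intro w hw h2
  obtain ⟨ε, hε⟩ := bt_two hc (hX.wt w hw) (h0 w hw) h2 (he w hw)
  have hχX : chi ε ∈ X := by
    rcases hε with h | h
    · rw [← h]; exact hw
    · have h1 : chi ε = -w := by rw [h, neg_neg]
      rw [h1]; exact hX.neg hc hw
  have hχX' : -chi ε ∈ X := hX.neg hc hχX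
  have h3 := congrArg (pr ε) hsum
  rw [pr_sum, pr_zero] at h3
  have h4 : ∑ y ∈ ({chi ε, -chi ε} : Finset (G → ℚ)), pr ε (n y • y) = 0 := by
    rw [← h3]
    refine sum_subset ?_ ?_
    · intro y hy
      rw [mem_insert, mem_singleton] at hy
      rcases hy with rfl | rfl
      · exact hχX
      · exact hχX'
    · intro y hy hy'
      rw [pr_smul]
      have h5 : pr ε y = 0 := by
        rcases ho y hy with h6 | h6
        · obtain ⟨ε', hε'⟩ := bt_two hc (hX.wt y hy) (h0 y hy) h6 (he y hy)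
          have h7 : ε ≠ ε' := by
            rintro rfl
            apply hy'
            rw [mem_insert, mem_singleton]
            exact hε'
          rcases hε' with h8 | h8
          · rw [h8, pr_chi_ne h7]
          · have h9 := pr_smul ε (-1) (chi ε')
            rw [neg_one_smul, pr_chi_ne h7, smul_zero] at h9
            rw [h8, h9]
        · refine no_line hc (hX.wt y hy) (h0 y hy) h6 (he y hy)
            (pr_mem_span ε y (Submodule.subset_span (mem_coe.2 (self_mem_orb ⊤ y)))) ?_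
          intro h
          rw [pr_semi]
          exact bt_units ε h _
      rw [h5, smul_zero]
  have h10 : n (-chi ε) • (-chi ε) = n (chi ε) • chi ε := by
    rw [hodd, neg_smul, smul_neg, neg_neg]
  rw [sum_pair (chi_ne_neg ε ε), h10, pr_smul, pr_chi_self, ← two_smul ℚ, smul_smul] at h4
  have h5 : n (chi ε) = 0 := by
    rcases smul_eq_zero.1 h4 with h6 | h6
    · linarith
    · exact absurd h6 (chi_ne_zero ε)
  rcases hε with h | h
  · rw [h, h5]
  · rw [h, hodd, h5, neg_zero]

/-- A finite set of nonzero functions which is stable under the sign. -/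
private theorem bt_sum {F : Multiset (G → ℚ)} (hF : F.Nodup) (hneg : ∀ w ∈ F, -w ∈ F)
    (h0 : (0 : G → ℚ) ∉ F) : F.sum = 0 ∧ Even F.card := by
  classical
  have h1 : F = F.toFinset.val := by
    rw [Multiset.toFinset_val, Multiset.dedup_eq_self.2 hF]
  have h2 : ∀ x ∈ F.toFinset, x ≠ 0 := by
    intro x hx hx0
    rw [hx0, Multiset.mem_toFinset] at hx
    exact h0 hx
  constructor
  · have h3 : ∑ x ∈ F.toFinset, x = 0 := by
      refine Finset.sum_involution (fun x _ => -x) ?_ ?_ ?_ ?_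
      · intro x _
        exact add_neg_cancel x
      · intro x hx _
        exact neg_ne_self (h2 x hx)
      · intro x hx
        rw [Multiset.mem_toFinset] at hx ⊢
        exact hneg x hx
      · intro x _
        exact neg_neg x
    rw [h1]
    rw [← h3]
    unfold Finset.sum
    rw [Multiset.map_id']
  · have h3 : ∑ _x ∈ F.toFinset, (1 : ZMod 2) = 0 := by
      refine Finset.sum_involution (fun x _ => -x) ?_ ?_ ?_ ?_
      · intro x _
        exact CharTwo.add_self_eq_zero (1 : ZMod 2)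
      · intro x hx _
        exact neg_ne_self (h2 x hx)
      · intro x hx
        rw [Multiset.mem_toFinset] at hx ⊢
        exact hneg x hx
      · intro x _
        exact neg_neg x
    rw [Finset.sum_const, nsmul_one] at h3
    have h4 := (ZMod.natCast_eq_zero_iff_even).1 h3
    rw [h1]
    exact h4

theorem bad_ten (hc : ∀ g, c * g = g * c) {X : Finset (G → ℚ)} (hX : IsSys D c X)
    (hdim : ∑ w ∈ X, idx D w ≤ 10) (h0X : (0 : G → ℚ) ∉ X) {u v : G → ℚ} (hu : u ∈ X) (hv : v ∈ X)
    (huv : u + v ∈ X) (cu : (orb ⊤ u).card = 4) (cv : (orb ⊤ v).card = 4)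
    (cuv : (orb ⊤ (u + v)).card = 4) {S : Multiset (G → ℚ)} (hS : ∀ w ∈ S, w ∈ X)
    (hN : S.Nodup) (hE : Even S.card) (hsum : S.sum = 0) : Gen D c S := by
  classical
  have hne : ∀ x ∈ X, x ≠ 0 := fun x hx hx0 => h0X (hx0 ▸ hx)
  have hid := bad_idx hc hX hdim hu hv huv cu cv cuv
  -- two different orbits of size four
  obtain ⟨a, ha, b, hb, ca, cb, hba⟩ : ∃ a ∈ X, ∃ b ∈ X, (orb ⊤ a).card = 4 ∧
      (orb ⊤ b).card = 4 ∧ b ∉ orb ⊤ a := by
    by_cases h1 : v ∈ orb ⊤ u
    · refine ⟨u, hu, u + v, huv, cu, cuv, fun h2 => ?_⟩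
      exact not_same hc (hX.wt u hu) (hne u hu) cu (self_mem_orb ⊤ u) h1 h2
    · exact ⟨u, hu, v, hv, cu, cv, h1⟩
  have hout : ∀ x ∈ X, x ∉ orb ⊤ a → x ∉ orb ⊤ b → (orb ⊤ x).card = 2 ∧ idx D x = 1 := by
    intro x hx hxa hxb
    have h1 := orb_add_add_le hX ha hb hx hba hxa hxb
    have h2 := idx_pos D x
    have h3 := two_le_card_orb hc (hX.wt x hx) (hne x hx)
    rw [ca, cb, hid a ha ca, hid b hb cb] at h1
    have h4 : (orb ⊤ x).card * idx D x ≤ 2 := by omega
    have h5 : (orb ⊤ x).card ≤ (orb ⊤ x).card * idx D x := Nat.le_mul_of_pos_right _ h2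
    have h6 : (orb ⊤ x).card = 2 := by omega
    rw [h6] at h4
    exact ⟨h6, by omega⟩
  have hcase : ∀ x ∈ X, ((orb ⊤ x).card = 2 ∨ (orb ⊤ x).card = 4) ∧ idx D x = 1 := by
    intro x hx
    by_cases hxa : x ∈ orb ⊤ a
    · rw [orb_eq hxa, idx_orb hxa]
      exact ⟨Or.inr ca, hid a ha ca⟩
    by_cases hxb : x ∈ orb ⊤ b
    · rw [orb_eq hxb, idx_orb hxb]
      exact ⟨Or.inr cb, hid b hb cb⟩
    · exact ⟨Or.inl (hout x hx hxa hxb).1, (hout x hx hxa hxb).2⟩
  have hrel := bt_rel hc hX hne (fun x hx => (hcase x hx).2) (fun x hx => (hcase x hx).1)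
    (isRel_net hc hX hS hsum)
  obtain ⟨Y, hY⟩ : ∃ Y : Finset (G → ℚ), Y = X.filter fun x => (orb ⊤ x).card = 4 := ⟨_, rfl⟩
  have hYX : ∀ x ∈ Y, x ∈ X := fun x hx => by rw [hY] at hx; exact (mem_filter.1 hx).1
  have hYs : IsSys D c Y := by
    refine ⟨fun x hx => hX.wt x (hYX x hx), fun g x hx => ?_⟩
    have h1 := hX.st g x (hYX x hx)
    have h2 : tr g x ∈ orb ⊤ x := tr_mem_orb (Subgroup.mem_top g) (self_mem_orb ⊤ x)
    rw [hY, mem_filter] at hx ⊢
    exact ⟨h1, by rw [orb_eq h2]; exact hx.2⟩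
  have hYdim : ∑ w ∈ Y, idx D w ≤ 8 := by
    have h1 : Y ⊆ orb ⊤ a ∪ orb ⊤ b := by
      intro x hx
      rw [mem_union]
      by_contra hcon
      push Not at hcon
      have h2 := (hout x (hYX x hx) hcon.1 hcon.2).1
      rw [hY, mem_filter] at hx
      omega
    calc ∑ w ∈ Y, idx D w = ∑ w ∈ Y, 1 := sum_congr rfl fun x hx => (hcase x (hYX x hx)).2
      _ = Y.card := by simp
      _ ≤ (orb ⊤ a ∪ orb ⊤ b).card := card_le_card h1
      _ ≤ (orb ⊤ a).card + (orb ⊤ b).card := card_union_le _ _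
      _ = 8 := by rw [ca, cb]
  -- the part of `S` outside `Y`
  have hR : ∀ w : G → ℚ, net (S.filter fun x => x ∉ Y) w = 0 := by
    intro w
    have hYneg : -w ∈ Y ↔ w ∈ Y := by
      constructor
      · intro h
        have := hYs.neg hc h
        rwa [neg_neg] at this
      · intro h
        exact hYs.neg hc h
    by_cases hw : w ∈ Y
    · unfold net
      have h1 : w ∉ (S.filter fun x => x ∉ Y) := fun h => (Multiset.mem_filter.1 h).2 hw
      have h2 : -w ∉ (S.filter fun x => x ∉ Y) := fun h =>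
        (Multiset.mem_filter.1 h).2 (hYneg.2 hw)
      rw [Multiset.count_eq_zero_of_notMem h1, Multiset.count_eq_zero_of_notMem h2]
      simp
    · have h3 : net (S.filter fun x => x ∉ Y) w = net S w := by
        unfold net
        rw [Multiset.count_filter_of_pos (p := fun x => x ∉ Y) hw,
          Multiset.count_filter_of_pos (p := fun x => x ∉ Y) (fun h => hw (hYneg.1 h))]
      rw [h3]
      by_cases hwX : w ∈ X
      · have h4 : (orb ⊤ w).card = 2 := by
          rcases (hcase w hwX).1 with h | h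
          · exact h
          · exfalso
            apply hw
            rw [hY, mem_filter]
            exact ⟨hwX, h⟩
        have h5 := hrel w hwX h4
        exact_mod_cast h5
      · exact net_of_notMem hc hX hS hwX
  have hRneg : ∀ w ∈ (S.filter fun x => x ∉ Y), -w ∈ (S.filter fun x => x ∉ Y) := by
    intro w hw
    have h1 := hR w
    unfold net at h1
    have h2 : 0 < (S.filter fun x => x ∉ Y).count w := Multiset.count_pos.2 hw
    rw [← Multiset.count_pos]
    omega
  have hR0 : (0 : G → ℚ) ∉ (S.filter fun x => x ∉ Y) := fun h =>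
    h0X (hS 0 (Multiset.mem_filter.1 h).1)
  obtain ⟨hRs, hRe⟩ := bt_sum (hN.filter _) hRneg hR0
  have hsplit : (S.filter fun x => x ∈ Y) + (S.filter fun x => x ∉ Y) = S :=
    Multiset.filter_add_not _ S
  have hs1 : (S.filter fun x => x ∈ Y).sum = 0 := by
    have h1 := congrArg Multiset.sum hsplit
    rw [Multiset.sum_add, hRs, add_zero, hsum] at h1
    exact h1
  have he1 : Even (S.filter fun x => x ∈ Y).card := by
    have h1 := congrArg Multiset.card hsplit
    rw [Multiset.card_add] at h1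
    rw [← h1] at hE
    exact (Nat.even_add.1 hE).2 hRe
  have hmem : ∀ x ∈ X, (orb ⊤ x).card = 4 → x ∈ Y := by
    intro x hx h
    rw [hY, mem_filter]
    exact ⟨hx, h⟩
  have hG1 : Gen D c (S.filter fun x => x ∈ Y) :=
    bad_small hc hYs hYdim (hmem u hu cu) (hmem v hv cv) (hmem _ huv cuv) cu cv cuv
      (fun w hw => (Multiset.mem_filter.1 hw).2) (hN.filter _) he1 hs1
  have hG2 : Gen D c (S.filter fun x => x ∉ Y) :=
    gen_of_net_zero (fun w hw => hX.wt w (hS w (Multiset.mem_filter.1 hw).1)) hRe hR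
  rw [← hsplit]
  exact Gen.add hG1 hG2

end Pool.Agent.AVF
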