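import Pool.Agent.AVF.Defs

/-!
# AVF: basic API
-/

set_option linter.unusedSectionVars false
set_option linter.unusedVariables false

namespace Pool.Agent.AVF

open Finset

variable {G : Type} [Group G] [Fintype G]

theorem tr_apply (h : G) (w : G → ℚ) (g : G) : tr h w g = w (g * h) := rfl

@[simp] theorem tr_one (w : G → ℚ) : tr (1 : G) w = w := by
  funext g; simp [tr]

theorem tr_mul (h k : G) (w : G → ℚ) : tr (h * k) w = tr h (tr k w) := by
  funext g; simp [tr, mul_assoc]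

@[simp] theorem tr_neg (h : G) (w : G → ℚ) : tr h (-w) = - tr h w := rfl

@[simp] theorem tr_zero (h : G) : tr h (0 : G → ℚ) = 0 := rfl

theorem tr_add (h : G) (u v : G → ℚ) : tr h (u + v) = tr h u + tr h v := rfl

theorem tr_sub (h : G) (u v : G → ℚ) : tr h (u - v) = tr h u - tr h v := rfl

theorem tr_smul (h : G) (q : ℚ) (u : G → ℚ) : tr h (q • u) = q • tr h u := rfl

/-- Translation as a linear map. -/
def T (h : G) : (G → ℚ) →ₗ[ℚ] (G → ℚ) where
  toFun := tr h
  map_add' := tr_add h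
  map_smul' := tr_smul h

@[simp] theorem T_apply (h : G) (w : G → ℚ) : T h w = tr h w := rfl

theorem tr_sum {ι : Type*} (h : G) (s : Finset ι) (f : ι → G → ℚ) :
    tr h (∑ i ∈ s, f i) = ∑ i ∈ s, tr h (f i) :=
  map_sum (T h) f s

theorem tr_inv_tr (h : G) (w : G → ℚ) : tr h⁻¹ (tr h w) = w := by
  rw [← tr_mul]; simp

theorem tr_tr_inv (h : G) (w : G → ℚ) : tr h (tr h⁻¹ w) = w := by
  rw [← tr_mul]; simp

theorem tr_inj (h : G) {u v : G → ℚ} (e : tr h u = tr h v) : u = v := by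
  have := congrArg (tr h⁻¹) e
  simpa [tr_inv_tr] using this

theorem tr_eval (g : G) (w : G → ℚ) : tr g w 1 = w g := by simp [tr]

/-! ### the inner product -/

/-- The invariant inner product. -/
def ip (u v : G → ℚ) : ℚ := ∑ g, u g * v g

theorem ip_tr (h : G) (u v : G → ℚ) : ip (tr h u) (tr h v) = ip u v := by
  unfold ip tr
  exact Fintype.sum_equiv (Equiv.mulRight h) _ _ (fun g => by simp)

theorem ip_comm (u v : G → ℚ) : ip u v = ip v u := by
  unfold ip; exact sum_congr rfl fun g _ => mul_comm _ _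

theorem ip_add_left (u v x : G → ℚ) : ip (u + v) x = ip u x + ip v x := by
  simp [ip, add_mul, sum_add_distrib]

theorem ip_smul_left (q : ℚ) (u x : G → ℚ) : ip (q • u) x = q * ip u x := by
  simp [ip, mul_sum, mul_assoc]

theorem ip_neg_left (u x : G → ℚ) : ip (-u) x = - ip u x := by
  simp [ip]

theorem ip_sub_left (u v x : G → ℚ) : ip (u - v) x = ip u x - ip v x := by
  simp [ip, sub_mul, sum_sub_distrib]

theorem ip_add_right (u v x : G → ℚ) : ip x (u + v) = ip x u + ip x v := by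
  simp [ip, mul_add, sum_add_distrib]

theorem ip_smul_right (q : ℚ) (u x : G → ℚ) : ip x (q • u) = q * ip x u := by
  rw [ip_comm, ip_smul_left, ip_comm]

theorem ip_neg_right (u x : G → ℚ) : ip x (-u) = - ip x u := by
  simp [ip]

theorem ip_sub_right (u v x : G → ℚ) : ip x (u - v) = ip x u - ip x v := by
  simp [ip, mul_sub, sum_sub_distrib]

theorem ip_self_nonneg (u : G → ℚ) : 0 ≤ ip u u :=
  sum_nonneg fun g _ => mul_self_nonneg _

theorem ip_self_eq_zero {u : G → ℚ} (h : ip u u = 0) : u = 0 := by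
  funext g
  have := (sum_eq_zero_iff_of_nonneg (fun g _ => mul_self_nonneg (u g))).1 h g (mem_univ g)
  exact mul_self_eq_zero.1 this

theorem ip_self_pos {u : G → ℚ} (h : u ≠ 0) : 0 < ip u u :=
  lt_of_le_of_ne (ip_self_nonneg u) fun e => h (ip_self_eq_zero e.symm)

/-! ### weights -/

theorem IsWeight.neg {D : Subgroup G} {c : G} {w : G → ℚ} (hw : IsWeight D c w) :
    IsWeight D c (-w) :=
  ⟨fun d hd g => by simp [hw.1 d hd g], fun g => by simp [hw.2.1 g], fun g => by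
    simpa using hw.2.2 g⟩

theorem IsWeight.tr {D : Subgroup G} {c : G} {w : G → ℚ} (hw : IsWeight D c w) (h : G) :
    IsWeight D c (tr h w) :=
  ⟨fun d hd g => by simpa [AVF.tr, mul_assoc] using hw.1 d hd (g * h),
    fun g => by simpa [AVF.tr, mul_assoc] using hw.2.1 (g * h), fun g => hw.2.2 (g * h)⟩

theorem IsWeight.tr_c {D : Subgroup G} {c : G} {w : G → ℚ} (hw : IsWeight D c w)
    (hc : ∀ g, c * g = g * c) : AVF.tr c w = -w := by
  funext g
  simp [AVF.tr, ← hc g, hw.2.1 g]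

theorem IsWeight.tr_d {D : Subgroup G} {c : G} {w : G → ℚ} (hw : IsWeight D c w) {d : G}
    (hd : d ∈ D) : AVF.tr d w 1 = w 1 := by
  have := hw.1 d hd 1
  simpa [AVF.tr] using this

theorem isWeight_zero (D : Subgroup G) (c : G) : IsWeight D c (0 : G → ℚ) :=
  ⟨fun _ _ _ => rfl, fun _ => by simp, fun _ => by simp⟩

theorem neg_ne_self {w : G → ℚ} (h : w ≠ 0) : -w ≠ w := by
  intro e
  apply h
  funext g
  have := congrFun e g
  simp only [Pi.neg_apply, Pi.zero_apply] at this ⊢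
  linarith

theorem IsSys.neg {D : Subgroup G} {c : G} {X : Finset (G → ℚ)} (hX : IsSys D c X)
    (hc : ∀ g, c * g = g * c) {w : G → ℚ} (hw : w ∈ X) : -w ∈ X := by
  rw [← (hX.wt w hw).tr_c hc]; exact hX.st c w hw

/-! ### orbits -/

theorem mem_orb {H : Subgroup G} {w x : G → ℚ} : x ∈ orb H w ↔ ∃ h ∈ H, tr h w = x := by
  simp [orb]

theorem mem_orb_top {w x : G → ℚ} : x ∈ orb ⊤ w ↔ ∃ h : G, tr h w = x := by
  simp [mem_orb]

theorem self_mem_orb (H : Subgroup G) (w : G → ℚ) : w ∈ orb H w :=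
  mem_orb.2 ⟨1, H.one_mem, tr_one w⟩

theorem orb_nonempty (H : Subgroup G) (w : G → ℚ) : (orb H w).Nonempty := ⟨w, self_mem_orb H w⟩

theorem card_orb_pos (H : Subgroup G) (w : G → ℚ) : 0 < (orb H w).card :=
  card_pos.2 (orb_nonempty H w)

theorem tr_mem_orb {H : Subgroup G} {w x : G → ℚ} {h : G} (hh : h ∈ H) (hx : x ∈ orb H w) :
    tr h x ∈ orb H w := by
  obtain ⟨k, hk, rfl⟩ := mem_orb.1 hx
  exact mem_orb.2 ⟨h * k, H.mul_mem hh hk, tr_mul h k w⟩

theorem orb_symm {H : Subgroup G} {w x : G → ℚ} (hx : x ∈ orb H w) : w ∈ orb H x := by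
  obtain ⟨k, hk, rfl⟩ := mem_orb.1 hx
  exact mem_orb.2 ⟨k⁻¹, H.inv_mem hk, tr_inv_tr k w⟩

theorem orb_trans {H : Subgroup G} {w x y : G → ℚ} (hx : x ∈ orb H w) (hy : y ∈ orb H x) :
    y ∈ orb H w := by
  obtain ⟨k, hk, rfl⟩ := mem_orb.1 hy
  exact tr_mem_orb hk hx

theorem orb_eq {H : Subgroup G} {w x : G → ℚ} (hx : x ∈ orb H w) : orb H x = orb H w := by
  ext y
  exact ⟨fun hy => orb_trans hx hy, fun hy => orb_trans (orb_symm hx) hy⟩

open Classical in
theorem orb_neg (H : Subgroup G) (w : G → ℚ) : orb H (-w) = (orb H w).image (fun x => -x) := by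
  ext y
  simp only [mem_image, mem_orb]
  constructor
  · rintro ⟨h, hh, rfl⟩
    exact ⟨tr h w, ⟨h, hh, rfl⟩, rfl⟩
  · rintro ⟨x, ⟨h, hh, rfl⟩, rfl⟩
    exact ⟨h, hh, rfl⟩

theorem mem_orb_neg {H : Subgroup G} {w x : G → ℚ} : x ∈ orb H (-w) ↔ -x ∈ orb H w := by
  simp only [mem_orb]
  constructor
  · rintro ⟨h, hh, rfl⟩
    exact ⟨h, hh, by simp⟩
  · rintro ⟨h, hh, e⟩
    exact ⟨h, hh, by simp [e]⟩

theorem card_orb_neg (H : Subgroup G) (w : G → ℚ) : (orb H (-w)).card = (orb H w).card := by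
  classical
  rw [orb_neg, card_image_of_injective _ neg_injective]

theorem orb_subset {D : Subgroup G} {c : G} {X : Finset (G → ℚ)} (hX : IsSys D c X)
    {w : G → ℚ} (hw : w ∈ X) (H : Subgroup G) : orb H w ⊆ X := by
  intro x hx
  obtain ⟨h, _, rfl⟩ := mem_orb.1 hx
  exact hX.st h w hw

theorem neg_mem_orb {D : Subgroup G} {c : G} {w x : G → ℚ} (hw : IsWeight D c w)
    (hc : ∀ g, c * g = g * c) (hx : x ∈ orb ⊤ w) : -x ∈ orb ⊤ w := by
  obtain ⟨h, _, rfl⟩ := mem_orb.1 hx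
  rw [← (hw.tr h).tr_c hc]
  exact tr_mem_orb (Subgroup.mem_top c) (mem_orb.2 ⟨h, Subgroup.mem_top h, rfl⟩)

theorem orb_isSys {D : Subgroup G} {c : G} {w : G → ℚ} (hw : IsWeight D c w) :
    IsSys D c (orb ⊤ w) := by
  refine ⟨fun x hx => ?_, fun g x hx => tr_mem_orb (Subgroup.mem_top g) hx⟩
  obtain ⟨h, _, rfl⟩ := mem_orb.1 hx
  exact hw.tr h

theorem ip_orb {w x : G → ℚ} (hx : x ∈ orb ⊤ w) : ip x x = ip w w := by
  obtain ⟨h, _, rfl⟩ := mem_orb.1 hx
  exact ip_tr h w w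

theorem orb_ne_zero {w x : G → ℚ} {H : Subgroup G} (hw : w ≠ 0) (hx : x ∈ orb H w) : x ≠ 0 := by
  obtain ⟨h, _, rfl⟩ := mem_orb.1 hx
  intro e
  exact hw (tr_inj h (by simpa using e))

/-- Parallel elements of the same norm are equal up to sign. -/
theorem eq_or_neg_of_smul {u v : G → ℚ} {q : ℚ} (hv : v ≠ 0) (h : u = q • v)
    (hn : ip u u = ip v v) : u = v ∨ u = -v := by
  have hp := ip_self_pos hv
  rw [h, ip_smul_left, ip_smul_right] at hn
  have h2 : q * q = 1 := by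
    have : (q * q - 1) * ip v v = 0 := by linarith
    rcases mul_eq_zero.1 this with h | h
    · linarith
    · exact absurd h hp.ne'
  rcases mul_self_eq_one_iff.1 h2 with h1 | h1
  · left; rw [h, h1, one_smul]
  · right; rw [h, h1, neg_one_smul]

/-- The elements of a `D`-orbit have the same value at `1`. -/
theorem orb_one {D : Subgroup G} {c : G} {w x : G → ℚ} (hw : IsWeight D c w)
    (hx : x ∈ orb D w) : x 1 = w 1 := by
  obtain ⟨h, hh, rfl⟩ := mem_orb.1 hx
  exact hw.tr_d hh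

/-! ### the index -/

theorem idx_pos (D : Subgroup G) (w : G → ℚ) : 0 < idx D w := by
  unfold idx
  refine Nat.pos_of_ne_zero fun h => ?_
  obtain ⟨g, _, hg⟩ := (Finset.lcm_eq_zero_iff).1 h
  exact (Rat.den_ne_zero _) hg

theorem idx_tr (D : Subgroup G) (h : G) (w : G → ℚ) : idx D (tr h w) = idx D w := by
  classical
  unfold idx
  have e : ∀ g : G, ((tr h w g + 1 / 2) * ((orb D (tr g (tr h w))).card : ℚ)).den =
      (fun g : G => ((w g + 1 / 2) * ((orb D (tr g w)).card : ℚ)).den) (g * h) := by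
    intro g
    simp only [tr_apply, ← tr_mul]
  simp only [e]
  apply Nat.dvd_antisymm
  · refine Finset.lcm_dvd fun g _ => ?_
    exact Finset.dvd_lcm (f := fun g : G => ((w g + 1 / 2) * ((orb D (tr g w)).card : ℚ)).den)
      (mem_univ (g * h))
  · refine Finset.lcm_dvd fun g _ => ?_
    have := Finset.dvd_lcm (s := univ)
      (f := fun g : G => (fun g : G => ((w g + 1 / 2) * ((orb D (tr g w)).card : ℚ)).den) (g * h))
      (mem_univ (g * h⁻¹))
    simpa using this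

theorem idx_neg {D : Subgroup G} {c : G} {w : G → ℚ} (hw : IsWeight D c w)
    (hc : ∀ g, c * g = g * c) : idx D (-w) = idx D w := by
  rw [← hw.tr_c hc, idx_tr]

theorem idx_orb {D : Subgroup G} {w x : G → ℚ} (hx : x ∈ orb ⊤ w) : idx D x = idx D w := by
  obtain ⟨h, _, rfl⟩ := mem_orb.1 hx
  exact idx_tr D h w

/-- `idx` clears the denominators. -/
theorem idx_int (D : Subgroup G) (w : G → ℚ) (g : G) :
    ∃ z : ℤ, (idx D w : ℚ) * ((w g + 1 / 2) * ((orb D (tr g w)).card : ℚ)) = z := by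
  set x : ℚ := (w g + 1 / 2) * ((orb D (tr g w)).card : ℚ) with hx
  have hd : x.den ∣ idx D w :=
    Finset.dvd_lcm (f := fun g : G => ((w g + 1 / 2) * ((orb D (tr g w)).card : ℚ)).den)
      (mem_univ g)
  obtain ⟨k, hk⟩ := hd
  refine ⟨k * x.num, ?_⟩
  rw [hk]
  push_cast
  have : (x.den : ℚ) * x = x.num := by
    rw [mul_comm]; exact Rat.mul_den_eq_num x
  calc (x.den : ℚ) * k * x = k * (x.den * x) := by ring
    _ = k * x.num := by rw [this]

theorem idx_int_one (D : Subgroup G) (w : G → ℚ) :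
    ∃ z : ℤ, (idx D w : ℚ) * ((w 1 + 1 / 2) * ((orb D w).card : ℚ)) = z := by
  simpa using idx_int D w 1

/-- Conversely, an integer which clears all denominators is a multiple of `idx`. -/
theorem idx_dvd {D : Subgroup G} {w : G → ℚ} {e : ℕ}
    (h : ∀ g, ∃ z : ℤ, (e : ℚ) * ((w g + 1 / 2) * ((orb D (tr g w)).card : ℚ)) = z) :
    idx D w ∣ e := by
  unfold idx
  refine Finset.lcm_dvd fun g _ => ?_
  obtain ⟨z, hz⟩ := h g
  set x : ℚ := (w g + 1 / 2) * ((orb D (tr g w)).card : ℚ) with hx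
  have h1 : (e : ℚ) * x = ((z : ℤ) : ℚ) := hz
  have h2 : ((e : ℤ) * x.num : ℚ) = ((z * (x.den : ℤ) : ℤ) : ℚ) := by
    push_cast
    have : x * x.den = x.num := Rat.mul_den_eq_num x
    rw [← this, ← h1]; ring
  have h3 : (e : ℤ) * x.num = z * (x.den : ℤ) := by exact_mod_cast h2
  have h4 : (x.den : ℤ) ∣ (e : ℤ) * x.num := ⟨z, by rw [h3]; ring⟩
  have h5 : IsCoprime (x.den : ℤ) x.num := by
    have := x.reduced
    rw [Int.isCoprime_iff_gcd_eq_one]
    rw [Nat.Coprime] at this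
    simpa [Int.gcd, Nat.gcd_comm] using this
  have h6 := h5.dvd_of_dvd_mul_right h4
  exact_mod_cast h6

theorem orb_zero (H : Subgroup G) : orb H (0 : G → ℚ) = {0} := by
  ext x
  simp only [mem_orb, tr_zero, mem_singleton]
  exact ⟨fun ⟨_, _, h⟩ => h.symm, fun h => ⟨1, H.one_mem, h.symm⟩⟩

theorem idx_zero (D : Subgroup G) : idx D (0 : G → ℚ) = 2 := by
  apply Nat.dvd_antisymm
  · exact idx_dvd fun g => ⟨1, by simp [orb_zero]⟩
  · have : ((((0 : G → ℚ) 1 + 1 / 2) * ((orb D (tr 1 (0 : G → ℚ))).card : ℚ)).den) ∣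
        idx D (0 : G → ℚ) :=
      Finset.dvd_lcm (f := fun g : G =>
        (((0 : G → ℚ) g + 1 / 2) * ((orb D (tr g (0 : G → ℚ))).card : ℚ)).den) (mem_univ 1)
    simpa [orb_zero] using this

end Pool.Agent.AVF
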