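import Pool.Agent.AVF.Bas

/-!
# AVF: integrality over D-stable sets

The sum over each `D`-orbit is an integer.
-/

set_option linter.unusedSectionVars false
set_option linter.unusedVariables false

namespace Pool.Agent.AVF

open Finset

variable {G : Type} [Group G] [Fintype G] {D : Subgroup G} {c : G}

theorem int_sum {W : Finset (G → ℚ)} (hD : ∀ d ∈ D, ∀ w ∈ W, tr d w ∈ W)
    (hw : ∀ w ∈ W, IsWeight D c w) (he : ∀ w ∈ W, idx D w = 1) :
    ∃ z : ℤ, ∑ w ∈ W, (w 1 + 1 / 2) = z := by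
  classical
  have h1 : ∀ O ∈ W.image (orb D), ∃ z : ℤ, ∑ w ∈ W with orb D w = O, (w 1 + 1 / 2) = z := by
    intro O hO
    obtain ⟨w, hwW, rfl⟩ := mem_image.1 hO
    have h2 : (W.filter fun x => orb D x = orb D w) = orb D w := by
      ext x
      rw [mem_filter]
      constructor
      · rintro ⟨-, h⟩
        rw [← h]
        exact self_mem_orb D x
      · intro hx
        refine ⟨?_, orb_eq hx⟩
        obtain ⟨d, hd, rfl⟩ := mem_orb.1 hx
        exact hD d hd w hwW
    rw [h2]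
    have h3 : ∀ x ∈ orb D w, (x 1 + 1 / 2 : ℚ) = w 1 + 1 / 2 := by
      intro x hx
      rw [orb_one (hw w hwW) hx]
    rw [sum_congr rfl h3, sum_const, nsmul_eq_mul]
    obtain ⟨z, hz⟩ := idx_int_one D w
    rw [he w hwW, Nat.cast_one, one_mul] at hz
    exact ⟨z, by rw [mul_comm, hz]⟩
  rw [← sum_fiberwise_of_maps_to (fun w hw' => mem_image_of_mem (orb D) hw')
    (fun w : G → ℚ => (w 1 + 1 / 2 : ℚ))]
  refine sum_induction _ (fun q : ℚ => ∃ z : ℤ, q = z) ?_ ⟨0, by simp⟩ h1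
  rintro x y ⟨a, rfl⟩ ⟨b, rfl⟩
  exact ⟨a + b, by push_cast; rfl⟩

end Pool.Agent.AVF
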