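import Pool.Agent.AVF.Chi
import Pool.Agent.AVF.IntS

/-!
# AVF: the sum of a half set

Plan. `half_tr`: if `ε h = 1` this is `hW.ker`. If `ε h = -1`: `ε (c * h) = 1`, `tr (c * h) w = tr c (tr h w) = - tr h w` (`tr_mul`,
`IsWeight.tr_c` for the weight `tr h w`).
`half_sum`: let `s := ∑ w ∈ W, w`. For `g : G`: `s g = ∑ w ∈ W, (tr g w) 1` and `w ↦ (ε g) • tr g w` is a bijection of `W`
(injective map of a finite set into itself), so `s g = ε g * ∑ w ∈ W, w 1`; compare with `chi`.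
`half_D`: `s ≠ 0` means `∑ w 1 ≠ 0`; for `d ∈ D`: `s d = ∑ w d = ∑ w 1 = s 1` (invariance on the left, `w (d * 1) = w 1`) and
`s d = ε d * s 1`.
`half_lt`: `|w 1| ≤ 1/2` gives `≤`. Equality: all `w 1 = 1/2` or all `w 1 = -1/2` (`=: δ`); then for all `g` and `w ∈ W`:
`w g = (tr g w) 1 = ε g * δ`, so all elements of `W` are equal, against `2 ≤ W.card`.
`half_three`: `D` in `ker ε` (`half_D`), `W` is `D`-stable, `int_sum`: `∑ w 1 + 3/2 = z`; `0 < |∑ w 1| < 3/2`; so `∑ w 1 = ±1/2`.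
`half_four`: `∑ w 1 + 2 = z`, `0 < |∑ w 1| < 2`: `∑ w 1 = ±1`. `half_odd`: otherwise `D` in `ker ε`, `int_sum`, and `∑ w 1 = 0` gives
`W.card / 2 = z`.
-/

set_option linter.unusedSectionVars false
set_option linter.unusedVariables false

namespace Pool.Agent.AVF

open Finset

variable {G : Type} [Group G] [Fintype G] {D : Subgroup G} {c : G}

variable {ε : G →* ℤˣ} {W : Finset (G → ℚ)}

theorem half_tr (hc : ∀ g, c * g = g * c) (hW : IsHalf c ε W) (hw : ∀ w ∈ W, IsWeight D c w)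
    (h : G) {w : G → ℚ} (hwW : w ∈ W) :
    (ε h = 1 → tr h w ∈ W) ∧ (ε h = -1 → -tr h w ∈ W) := by
  refine ⟨fun e => hW.ker h e w hwW, fun e => ?_⟩
  have h1 : ε (c * h) = 1 := by
    rw [map_mul, hW.epsc, e]
    rfl
  have h2 := hW.ker _ h1 w hwW
  rw [tr_mul, ((hw w hwW).tr h).tr_c hc] at h2
  exact h2

/-- The signed translate. -/
private theorem avfhs_tr_sum (hc : ∀ g, c * g = g * c) (hW : IsHalf c ε W)
    (hw : ∀ w ∈ W, IsWeight D c w) (h : G) :
    tr h (∑ w ∈ W, w) = ((ε h : ℤ) : ℚ) • ∑ w ∈ W, w := by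
  classical
  rw [tr_sum]
  rcases Int.units_eq_one_or (ε h) with e | e
  · have him : W.image (tr h) = W := by
      apply eq_of_subset_of_card_le
      · intro x hx
        obtain ⟨w, hwW, rfl⟩ := mem_image.1 hx
        exact (half_tr hc hW hw h hwW).1 e
      · rw [card_image_of_injective W (fun u v huv => tr_inj h huv)]
    have h1 : ∑ w ∈ W.image (tr h), w = ∑ w ∈ W, tr h w :=
      sum_image fun u _ v _ huv => tr_inj h huv
    rw [← h1, him, e]
    simp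
  · have hinj : Function.Injective fun w : G → ℚ => -tr h w := fun u v huv =>
      tr_inj h (neg_injective huv)
    have him : W.image (fun w => -tr h w) = W := by
      apply eq_of_subset_of_card_le
      · intro x hx
        obtain ⟨w, hwW, rfl⟩ := mem_image.1 hx
        exact (half_tr hc hW hw h hwW).2 e
      · rw [card_image_of_injective W hinj]
    have h1 : ∑ w ∈ W.image (fun w => -tr h w), w = ∑ w ∈ W, -tr h w :=
      sum_image fun u _ v _ huv => hinj huv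
    rw [him, sum_neg_distrib] at h1
    rw [e, h1]
    simp

private theorem avfhs_apply (hc : ∀ g, c * g = g * c) (hW : IsHalf c ε W)
    (hw : ∀ w ∈ W, IsWeight D c w) (g : G) :
    (∑ w ∈ W, w) g = ((ε g : ℤ) : ℚ) * ∑ w ∈ W, w 1 := by
  have h1 := congrFun (avfhs_tr_sum hc hW hw g) 1
  rw [tr_eval, Pi.smul_apply, smul_eq_mul] at h1
  rw [h1, Finset.sum_apply]

theorem half_sum (hc : ∀ g, c * g = g * c) (hW : IsHalf c ε W) (hw : ∀ w ∈ W, IsWeight D c w) :
    ∑ w ∈ W, w = (2 * ∑ w ∈ W, w 1) • chi ε := by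
  funext g
  rw [avfhs_apply hc hW hw g, Pi.smul_apply, smul_eq_mul, chi_apply]
  ring

private theorem avfhs_ne (hc : ∀ g, c * g = g * c) (hW : IsHalf c ε W)
    (hw : ∀ w ∈ W, IsWeight D c w) (hs : ∑ w ∈ W, w ≠ 0) : ∑ w ∈ W, w 1 ≠ 0 := by
  intro h
  apply hs
  rw [half_sum hc hW hw, h, mul_zero, zero_smul]

theorem half_D (hc : ∀ g, c * g = g * c) (hW : IsHalf c ε W) (hw : ∀ w ∈ W, IsWeight D c w)
    (hs : ∑ w ∈ W, w ≠ 0) : ∀ d ∈ D, ε d = 1 := by
  intro d hd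
  have h0 := avfhs_ne hc hW hw hs
  have h1 := avfhs_apply hc hW hw d
  have h2 : (∑ w ∈ W, w) d = ∑ w ∈ W, w 1 := by
    rw [Finset.sum_apply]
    refine sum_congr rfl fun w hwW => ?_
    have := (hw w hwW).1 d hd 1
    rwa [mul_one] at this
  rw [h2] at h1
  rcases Int.units_eq_one_or (ε d) with e | e
  · exact e
  · exfalso
    rw [e] at h1
    apply h0
    have h3 : ((((-1 : ℤˣ) : ℤ)) : ℚ) = -1 := by simp
    rw [h3] at h1
    linarith

private theorem avfhs_eq (hc : ∀ g, c * g = g * c) (hW : IsHalf c ε W)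
    (hw : ∀ w ∈ W, IsWeight D c w) {δ : ℚ} (hδ : ∀ w ∈ W, w 1 = δ) {w : G → ℚ} (hwW : w ∈ W) :
    w = (2 * δ) • chi ε := by
  funext g
  rw [Pi.smul_apply, smul_eq_mul, chi_apply]
  rcases Int.units_eq_one_or (ε g) with e | e
  · have h1 := hδ _ ((half_tr hc hW hw g hwW).1 e)
    rw [tr_eval] at h1
    rw [h1, e]
    have h3 : ((((1 : ℤˣ) : ℤ)) : ℚ) = 1 := by simp
    rw [h3]
    ring
  · have h1 := hδ _ ((half_tr hc hW hw g hwW).2 e)
    rw [Pi.neg_apply, tr_eval] at h1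
    rw [e]
    have h3 : ((((-1 : ℤˣ) : ℤ)) : ℚ) = -1 := by simp
    rw [h3]
    linarith

theorem half_lt (hc : ∀ g, c * g = g * c) (hW : IsHalf c ε W) (hw : ∀ w ∈ W, IsWeight D c w)
    (h2 : 2 ≤ W.card) : |∑ w ∈ W, w 1| < (W.card : ℚ) / 2 := by
  by_contra hcon
  rw [not_lt] at hcon
  have hb : ∀ w ∈ W, -(1 / 2) ≤ w 1 ∧ w 1 ≤ 1 / 2 := fun w hwW => abs_le.1 ((hw w hwW).2.2 1)
  have key : ∃ δ : ℚ, ∀ w ∈ W, w 1 = δ := by
    rcases le_abs.1 hcon with h | h
    · refine ⟨1 / 2, fun w hwW => ?_⟩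
      have hs : ∑ w ∈ W, (1 / 2 - w 1) = 0 := by
        apply le_antisymm
        · rw [sum_sub_distrib, sum_const, nsmul_eq_mul]
          linarith
        · exact sum_nonneg fun w hwW => by linarith [(hb w hwW).2]
      have := (sum_eq_zero_iff_of_nonneg fun w hwW => by linarith [(hb w hwW).2]).1 hs w hwW
      linarith
    · refine ⟨-(1 / 2), fun w hwW => ?_⟩
      have hs : ∑ w ∈ W, (w 1 + 1 / 2) = 0 := by
        apply le_antisymm
        · rw [sum_add_distrib, sum_const, nsmul_eq_mul]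
          linarith
        · exact sum_nonneg fun w hwW => by linarith [(hb w hwW).1]
      have := (sum_eq_zero_iff_of_nonneg fun w hwW => by linarith [(hb w hwW).1]).1 hs w hwW
      linarith
  obtain ⟨δ, hδ⟩ := key
  obtain ⟨u, hu, v, hv, huv⟩ := one_lt_card.1 (lt_of_lt_of_le one_lt_two h2)
  exact huv ((avfhs_eq hc hW hw hδ hu).trans (avfhs_eq hc hW hw hδ hv).symm)

private theorem avfhs_int (hW : IsHalf c ε W) (hw : ∀ w ∈ W, IsWeight D c w)
    (he : ∀ w ∈ W, idx D w = 1) (hD : ∀ d ∈ D, ε d = 1) :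
    ∃ z : ℤ, ∑ w ∈ W, w 1 + (W.card : ℚ) / 2 = z := by
  obtain ⟨z, hz⟩ := int_sum (fun d hd w hwW => hW.ker d (hD d hd) w hwW) hw he
  refine ⟨z, ?_⟩
  rw [← hz, sum_add_distrib, sum_const, nsmul_eq_mul]
  ring

theorem half_three (hc : ∀ g, c * g = g * c) (hW : IsHalf c ε W)
    (hw : ∀ w ∈ W, IsWeight D c w) (he : ∀ w ∈ W, idx D w = 1) (h3 : W.card = 3)
    (hs : ∑ w ∈ W, w ≠ 0) : ∃ σ : ℤ, (σ = 1 ∨ σ = -1) ∧ ∑ w ∈ W, w = (σ : ℚ) • chi ε := by
  obtain ⟨z, hz⟩ := avfhs_int hW hw he (half_D hc hW hw hs)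
  have hlt := half_lt hc hW hw (by omega)
  rw [h3] at hz hlt
  rw [abs_lt] at hlt
  have hz0 : (0 : ℚ) < z := by rw [← hz]; push_cast; push_cast at hlt; linarith [hlt.1]
  have hz3 : (z : ℚ) < 3 := by rw [← hz]; push_cast; push_cast at hlt; linarith [hlt.2]
  have hz0' : 0 < z := by exact_mod_cast hz0
  have hz3' : z < 3 := by exact_mod_cast hz3
  have hcase : z = 1 ∨ z = 2 := by omega
  rcases hcase with rfl | rfl
  · refine ⟨-1, Or.inr rfl, ?_⟩
    rw [half_sum hc hW hw]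
    congr 1
    push_cast at hz ⊢
    linarith
  · refine ⟨1, Or.inl rfl, ?_⟩
    rw [half_sum hc hW hw]
    congr 1
    push_cast at hz ⊢
    linarith

theorem half_four (hc : ∀ g, c * g = g * c) (hW : IsHalf c ε W)
    (hw : ∀ w ∈ W, IsWeight D c w) (he : ∀ w ∈ W, idx D w = 1) (h4 : W.card = 4)
    (hs : ∑ w ∈ W, w ≠ 0) :
    ∃ σ : ℤ, (σ = 1 ∨ σ = -1) ∧ ∑ w ∈ W, w = (2 * σ : ℚ) • chi ε := by
  obtain ⟨z, hz⟩ := avfhs_int hW hw he (half_D hc hW hw hs)
  have hlt := half_lt hc hW hw (by omega)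
  have h0 := avfhs_ne hc hW hw hs
  rw [h4] at hz hlt
  rw [abs_lt] at hlt
  have hz0 : (0 : ℚ) < z := by rw [← hz]; push_cast; push_cast at hlt; linarith [hlt.1]
  have hz3 : (z : ℚ) < 4 := by rw [← hz]; push_cast; push_cast at hlt; linarith [hlt.2]
  have hz0' : 0 < z := by exact_mod_cast hz0
  have hz3' : z < 4 := by exact_mod_cast hz3
  have hz2 : z ≠ 2 := by
    rintro rfl
    apply h0
    push_cast at hz
    linarith
  have hcase : z = 1 ∨ z = 3 := by omega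
  rcases hcase with rfl | rfl
  · refine ⟨-1, Or.inr rfl, ?_⟩
    rw [half_sum hc hW hw]
    congr 1
    push_cast at hz ⊢
    linarith
  · refine ⟨1, Or.inl rfl, ?_⟩
    rw [half_sum hc hW hw]
    congr 1
    push_cast at hz ⊢
    linarith

theorem half_odd (hc : ∀ g, c * g = g * c) (hW : IsHalf c ε W)
    (hw : ∀ w ∈ W, IsWeight D c w) (he : ∀ w ∈ W, idx D w = 1) (ho : Odd W.card)
    (hs : ∑ w ∈ W, w = 0) : ∃ d ∈ D, ε d ≠ 1 := by
  by_contra hcon
  push Not at hcon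
  obtain ⟨z, hz⟩ := avfhs_int hW hw he hcon
  have h1 : ∑ w ∈ W, w 1 = 0 := by
    have := congrFun hs 1
    rwa [Finset.sum_apply, Pi.zero_apply] at this
  rw [h1, zero_add] at hz
  obtain ⟨k, hk⟩ := ho
  rw [hk] at hz
  have h2 : ((2 * k + 1 : ℤ) : ℚ) = ((2 * z : ℤ) : ℚ) := by
    push_cast at hz ⊢
    linarith
  have h3 : (2 * k + 1 : ℤ) = 2 * z := by exact_mod_cast h2
  omega

end Pool.Agent.AVF
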