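import Pool.Agent.AVF.Bas

/-!
# AVF: existence of a CM type with given slopes

A choice of signs, orbit by orbit.
-/

set_option linter.unusedSectionVars false
set_option linter.unusedVariables false

namespace Pool.Agent.AVF

open Finset

variable {G : Type} [Group G] [Fintype G] {D : Subgroup G} {c : G}

private theorem psi_half {O A : Finset (G → ℚ)} (hA : A ⊆ O) [DecidablePred (· ∈ A)] :
    ∑ x ∈ O, (if x ∈ A then (1 / 2 : ℚ) else -(1 / 2)) = (A.card : ℚ) - (O.card : ℚ) / 2 := by
  classical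
  have h1 : ∀ x : G → ℚ, (if x ∈ A then (1 / 2 : ℚ) else -(1 / 2)) =
      (if x ∈ A then (1 : ℚ) else 0) - 1 / 2 := by
    intro x
    split_ifs <;> norm_num
  rw [sum_congr rfl (fun x _ => h1 x), sum_sub_distrib, sum_const, nsmul_eq_mul,
    ← sum_filter, filter_mem_eq_inter, inter_eq_right.2 hA, sum_const, nsmul_eq_mul]
  ring

private theorem psi_sub {w : G → ℚ} (hw : IsWeight D c w) (he : idx D w = 1) :
    ∃ S : Finset (G → ℚ), S ⊆ orb D w ∧
      (S.card : ℚ) = (w 1 + 1 / 2) * ((orb D w).card : ℚ) := by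
  obtain ⟨z, hz⟩ := idx_int_one D w
  rw [he, Nat.cast_one, one_mul] at hz
  have h1 := abs_le.1 (hw.2.2 1)
  have h2 : (0 : ℚ) < ((orb D w).card : ℚ) := by exact_mod_cast card_orb_pos D w
  have h3 : (0 : ℚ) ≤ z := by
    rw [← hz]
    exact mul_nonneg (by linarith [h1.1]) h2.le
  have h4 : (z : ℚ) ≤ ((orb D w).card : ℚ) := by
    rw [← hz]
    have : w 1 + 1 / 2 ≤ 1 := by linarith [h1.2]
    nlinarith
  have h5 : 0 ≤ z := by exact_mod_cast h3
  obtain ⟨n, rfl⟩ := Int.eq_ofNat_of_zero_le h5
  have h6 : n ≤ (orb D w).card := by exact_mod_cast h4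
  obtain ⟨S, hS1, hS2⟩ := exists_subset_card_eq h6
  refine ⟨S, hS1, ?_⟩
  rw [hS2, hz]
  simp

theorem exists_psi {B : Finset (G → ℚ)} (hD : ∀ d ∈ D, ∀ w ∈ B, tr d w ∈ B)
    (hneg : ∀ w ∈ B, -w ∈ B) (h0 : (0 : G → ℚ) ∉ B) (hw : ∀ w ∈ B, IsWeight D c w)
    (he : ∀ w ∈ B, idx D w = 1) :
    ∃ ψ : (G → ℚ) → ℚ, (∀ w, ψ (-w) = - ψ w) ∧ (∀ w ∈ B, ψ w = 1 / 2 ∨ ψ w = -(1 / 2)) ∧
      ∀ w ∈ B, ∑ x ∈ orb D w, ψ x = ((orb D w).card : ℚ) * w 1 := by
  classical
  -- the subsets
  have hex : ∀ O : Finset (G → ℚ), ∃ S : Finset (G → ℚ), ∀ w ∈ B, orb D w = O →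
      S ⊆ O ∧ (S.card : ℚ) = (w 1 + 1 / 2) * (O.card : ℚ) := by
    intro O
    by_cases hO : ∃ w ∈ B, orb D w = O
    · obtain ⟨w, hwB, rfl⟩ := hO
      obtain ⟨S, hS1, hS2⟩ := psi_sub (hw w hwB) (he w hwB)
      refine ⟨S, fun w' hw' hO' => ⟨hS1, ?_⟩⟩
      have h1 : w' ∈ orb D w := by
        rw [← hO']
        exact self_mem_orb D w'
      rw [orb_one (hw w hwB) h1]
      exact hS2
    · exact ⟨∅, fun w hwB h => absurd ⟨w, hwB, h⟩ hO⟩
  choose A hA using hex
  let r : (G → ℚ) → (G → ℚ) → Prop := WellOrderingRel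
  let R : Finset (G → ℚ) → Finset (G → ℚ) → Prop := WellOrderingRel
  have hr1 : ∀ x y, x ≠ y → (r x y ↔ ¬ r y x) := by
    intro x y hxy
    constructor
    · exact fun h h' => asymm_of WellOrderingRel h h'
    · intro h
      rcases trichotomous_of WellOrderingRel x y with h' | h' | h'
      · exact h'
      · exact absurd h' hxy
      · exact absurd h' h
  have hR1 : ∀ x y, x ≠ y → (R x y ↔ ¬ R y x) := by
    intro x y hxy
    constructor
    · exact fun h h' => asymm_of WellOrderingRel h h'
    · intro h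
      rcases trichotomous_of WellOrderingRel x y with h' | h' | h'
      · exact h'
      · exact absurd h' hxy
      · exact absurd h' h
  let ψ : (G → ℚ) → ℚ := fun x =>
    if x ∈ B then
      (if orb D (-x) = orb D x then (if r x (-x) then 1 / 2 else -(1 / 2))
      else if R (orb D x) (orb D (-x)) then (if x ∈ A (orb D x) then 1 / 2 else -(1 / 2))
      else -(if -x ∈ A (orb D (-x)) then 1 / 2 else -(1 / 2)))
    else 0
  have hne : ∀ x ∈ B, -x ≠ x := by
    intro x hx
    apply neg_ne_self
    rintro rfl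
    exact h0 hx
  have hodd : ∀ x, ψ (-x) = - ψ x := by
    intro x
    by_cases hx : x ∈ B
    · have hx' : -x ∈ B := hneg x hx
      show (if -x ∈ B then _ else _) = -(if x ∈ B then _ else _)
      rw [if_pos hx, if_pos hx', neg_neg]
      by_cases h1 : orb D (-x) = orb D x
      · rw [if_pos h1, if_pos h1.symm]
        have h2 := hr1 (-x) x (hne x hx)
        by_cases h3 : r x (-x)
        · rw [if_pos h3, if_neg (fun h => (h2.1 h) h3)]
        · rw [if_neg h3, if_pos (h2.2 h3), neg_neg]
      · rw [if_neg h1, if_neg (fun h => h1 h.symm)]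
        have h2 := hR1 (orb D (-x)) (orb D x) h1
        by_cases h3 : R (orb D x) (orb D (-x))
        · rw [if_pos h3, if_neg (fun h => (h2.1 h) h3)]
        · rw [if_neg h3, if_pos (h2.2 h3), neg_neg]
    · have hx' : -x ∉ B := by
        intro h
        apply hx
        have := hneg _ h
        rwa [neg_neg] at this
      show (if -x ∈ B then _ else _) = -(if x ∈ B then _ else _)
      rw [if_neg hx, if_neg hx', neg_zero]
  refine ⟨ψ, hodd, ?_, ?_⟩
  · intro x hx
    show (if x ∈ B then _ else _) = _ ∨ (if x ∈ B then _ else _) = _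
    rw [if_pos hx]
    split_ifs
    · left; rfl
    · right; rfl
    · left; rfl
    · right; rfl
    · right; rfl
    · left; rw [neg_neg]
  · intro w hwB
    have hsub : ∀ x ∈ orb D w, x ∈ B := by
      intro x hx
      obtain ⟨d, hd, rfl⟩ := mem_orb.1 hx
      exact hD d hd w hwB
    have horb : ∀ x ∈ orb D w, orb D x = orb D w := fun x hx => orb_eq hx
    have horbn : ∀ x ∈ orb D w, orb D (-x) = orb D (-w) := by
      intro x hx
      apply orb_eq
      rw [mem_orb_neg, neg_neg]
      exact hx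
    by_cases h1 : orb D (-w) = orb D w
    · have h2 : -w ∈ orb D w := by
        rw [← h1]
        exact self_mem_orb D (-w)
      have h3 : w 1 = 0 := by
        have := orb_one (hw w hwB) h2
        simp only [Pi.neg_apply] at this
        linarith
      have h4 : ∀ x ∈ orb D w, -x ∈ orb D w := by
        intro x hx
        rw [← h1, mem_orb_neg, neg_neg]
        exact hx
      have h5 : ∑ x ∈ orb D w, ψ x = ∑ x ∈ orb D w, ψ (-x) := by
        refine sum_bij' (fun x _ => -x) (fun x _ => -x) h4 h4 ?_ ?_ ?_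
        · intro x _; simp
        · intro x _; simp
        · intro x _; simp
      rw [sum_congr rfl (fun x _ => hodd x), sum_neg_distrib] at h5
      rw [h3, mul_zero]
      linarith
    · by_cases h2 : R (orb D w) (orb D (-w))
      · have h3 : ∀ x ∈ orb D w, ψ x = if x ∈ A (orb D w) then (1 / 2 : ℚ) else -(1 / 2) := by
          intro x hx
          show (if x ∈ B then _ else _) = _
          rw [if_pos (hsub x hx), horb x hx, horbn x hx, if_neg h1, if_pos h2]
        obtain ⟨h4, h5⟩ := hA (orb D w) w hwB rfl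
        rw [sum_congr rfl h3, psi_half h4, h5]
        ring
      · have h3 : ∀ x ∈ orb D w, ψ x =
            -(if -x ∈ A (orb D (-w)) then (1 / 2 : ℚ) else -(1 / 2)) := by
          intro x hx
          show (if x ∈ B then _ else _) = _
          rw [if_pos (hsub x hx), horb x hx, horbn x hx, if_neg h1, if_neg h2]
        obtain ⟨h4, h5⟩ := hA (orb D (-w)) (-w) (hneg w hwB) rfl
        have h6 : ∑ x ∈ orb D w, (if -x ∈ A (orb D (-w)) then (1 / 2 : ℚ) else -(1 / 2)) =
            ∑ x ∈ orb D (-w), (if x ∈ A (orb D (-w)) then (1 / 2 : ℚ) else -(1 / 2)) := by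
          refine sum_bij' (fun x _ => -x) (fun x _ => -x) ?_ ?_ ?_ ?_ ?_
          · intro x hx
            rw [mem_orb_neg, neg_neg]
            exact hx
          · intro x hx
            exact mem_orb_neg.1 hx
          · intro x _; simp
          · intro x _; simp
          · intro x _; rfl
        rw [sum_congr rfl h3, sum_neg_distrib, h6, psi_half h4, h5, card_orb_neg]
        simp only [Pi.neg_apply]
        ring

end Pool.Agent.AVF
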