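import Pool.Agent.AVF.HSum
import Pool.Agent.AVF.PsiE

/-!
# AVF: balanced CM types
-/

set_option linter.unusedSectionVars false
set_option linter.unusedVariables false

namespace Pool.Agent.AVF

open Finset

variable {G : Type} [Group G] [Fintype G] {D : Subgroup G} {c : G}

variable {ε : G →* ℤˣ} {W : Finset (G → ℚ)}

private theorem zero_notMem (hW : IsHalf c ε W) : (0 : G → ℚ) ∉ W := by
  intro h
  have := hW.neg 0 h
  rw [neg_zero] at this
  exact this h

private theorem tr_B (hc : ∀ g, c * g = g * c) (hW : IsHalf c ε W)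
    (hw : ∀ w ∈ W, IsWeight D c w) (h : G) {x : G → ℚ} (hx : x ∈ W ∨ -x ∈ W) :
    tr h x ∈ W ∨ -tr h x ∈ W := by
  rcases hx with hx | hx
  · rcases Int.units_eq_one_or (ε h) with he | he
    · exact Or.inl ((half_tr hc hW hw h hx).1 he)
    · exact Or.inr ((half_tr hc hW hw h hx).2 he)
  · rcases Int.units_eq_one_or (ε h) with he | he
    · exact Or.inr (by simpa using (half_tr hc hW hw h hx).1 he)
    · exact Or.inl (by simpa using (half_tr hc hW hw h hx).2 he)

private theorem exists_one_ne (hc : ∀ g, c * g = g * c) (hW : IsHalf c ε W)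
    (hw : ∀ w ∈ W, IsWeight D c w) (hne : W.Nonempty) : ∃ w ∈ W, w 1 ≠ 0 := by
  by_contra hcon
  push Not at hcon
  obtain ⟨w, hwW⟩ := hne
  apply zero_notMem hW
  have : w = 0 := by
    funext g
    rw [← tr_eval g w]
    rcases tr_B hc hW hw g (Or.inl hwW) with h | h
    · exact hcon _ h
    · have h1 := hcon _ h
      rw [Pi.neg_apply, neg_eq_zero] at h1
      exact h1
  rw [← this]
  exact hwW

private theorem orb_B (hc : ∀ g, c * g = g * c) (hW : IsHalf c ε W)
    (hw : ∀ w ∈ W, IsWeight D c w) {x y : G → ℚ} (hx : x ∈ W ∨ -x ∈ W) (hy : y ∈ orb D x) :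
    y ∈ W ∨ -y ∈ W := by
  obtain ⟨h, -, rfl⟩ := mem_orb.1 hy
  exact tr_B hc hW hw h hx

open Classical in
private theorem sum_sgn (hc : ∀ g, c * g = g * c) (hW : IsHalf c ε W)
    (hw : ∀ w ∈ W, IsWeight D c w) {d : G} (hd : d ∈ D) (hed : ε d = -1) {w : G → ℚ}
    (hwB : w ∈ W ∨ -w ∈ W) : ∑ x ∈ orb D w, (if x ∈ W then (1 : ℚ) else -1) = 0 := by
  have h1 : ∑ x ∈ orb D w, (if x ∈ W then (1 : ℚ) else -1) =
      ∑ x ∈ orb D w, (if tr d x ∈ W then (1 : ℚ) else -1) := by
    refine (Finset.sum_nbij' (tr d) (tr d⁻¹) ?_ ?_ ?_ ?_ ?_).symm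
    · intro x hx
      exact tr_mem_orb hd hx
    · intro x hx
      exact tr_mem_orb (D.inv_mem hd) hx
    · intro x _
      exact tr_inv_tr d x
    · intro x _
      exact tr_tr_inv d x
    · intro x _
      rfl
  have h2 : ∑ x ∈ orb D w, (if tr d x ∈ W then (1 : ℚ) else -1) =
      -∑ x ∈ orb D w, (if x ∈ W then (1 : ℚ) else -1) := by
    rw [← Finset.sum_neg_distrib]
    refine Finset.sum_congr rfl fun x hx => ?_
    by_cases hxW : x ∈ W
    · have h3 := (half_tr hc hW hw d hxW).2 hed
      have h4 : tr d x ∉ W := by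
        have := hW.neg _ h3
        rwa [neg_neg] at this
      rw [if_neg h4, if_pos hxW]
    · have h3 : -x ∈ W := (orb_B hc hW hw hwB hx).resolve_left hxW
      have h4 : tr d x ∈ W := by simpa using (half_tr hc hW hw d h3).2 hed
      rw [if_pos h4, if_neg hxW, neg_neg]
  linarith

open Classical in
private theorem one_eq_zero (hc : ∀ g, c * g = g * c) (hW : IsHalf c ε W)
    (hw : ∀ w ∈ W, IsWeight D c w) {d : G} (hd : d ∈ D) (hed : ε d = -1) {ψ : (G → ℚ) → ℚ}
    (hodd : ∀ w, ψ (-w) = - ψ w)
    (hs : ∀ w ∈ W, ∑ x ∈ orb D w, ψ x = ((orb D w).card : ℚ) * w 1) {δ : ℚ} {w : G → ℚ}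
    (hwW : w ∈ W) (hδ : ∀ x ∈ W, x ∈ orb D w ∨ -x ∈ orb D w → ψ x = δ) : w 1 = 0 := by
  have h1 : ∑ x ∈ orb D w, ψ x = δ * ∑ x ∈ orb D w, (if x ∈ W then (1 : ℚ) else -1) := by
    rw [Finset.mul_sum]
    refine Finset.sum_congr rfl fun x hx => ?_
    by_cases hxW : x ∈ W
    · rw [if_pos hxW, mul_one, hδ x hxW (Or.inl hx)]
    · have h3 : -x ∈ W := (orb_B hc hW hw (Or.inl hwW) hx).resolve_left hxW
      have h4 := hδ _ h3 (Or.inr (by rw [neg_neg]; exact hx))
      rw [if_neg hxW, mul_neg, mul_one, ← h4, hodd, neg_neg]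
  rw [hs w hwW, sum_sgn hc hW hw hd hed (Or.inl hwW), mul_zero] at h1
  rcases mul_eq_zero.1 h1 with h2 | h2
  · exact absurd h2 (by exact_mod_cast (card_orb_pos D w).ne')
  · exact h2

open Classical in
private theorem even_card (hc : ∀ g, c * g = g * c) (hW : IsHalf c ε W)
    (hw : ∀ w ∈ W, IsWeight D c w) {d : G} (hd : d ∈ D) (hed : ε d = -1)
    (hno : ∀ x ∈ W, -x ∉ orb D x) : Even W.card := by
  have hed' : ε d⁻¹ = -1 := by rw [map_inv, hed]; rfl
  have hnegneg : ∀ Q : Finset (G → ℚ), (Q.image fun x => -x).image (fun x => -x) = Q := by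
    intro Q
    rw [Finset.image_image]
    have : ((fun x : G → ℚ => -x) ∘ fun x => -x) = id := by
      funext x
      simp
    rw [this, Finset.image_id]
  -- fibres
  have hfib : ∀ w ∈ W, (W.filter fun x => orb D x = orb D w).card =
      (W.filter fun x => orb D x = (orb D w).image fun x => -x).card := by
    intro w _
    refine Finset.card_nbij' (fun x => -tr d x) (fun x => -tr d⁻¹ x) ?_ ?_ ?_ ?_
    · intro x hx
      simp only [Finset.coe_filter, Set.mem_ofPred_eq] at hx ⊢
      refine ⟨(half_tr hc hW hw d hx.1).2 hed, ?_⟩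
      rw [orb_neg, orb_eq (tr_mem_orb hd (self_mem_orb D x)), hx.2]
    · intro x hx
      simp only [Finset.coe_filter, Set.mem_ofPred_eq] at hx ⊢
      refine ⟨(half_tr hc hW hw d⁻¹ hx.1).2 hed', ?_⟩
      rw [orb_neg, orb_eq (tr_mem_orb (D.inv_mem hd) (self_mem_orb D x)), hx.2, hnegneg]
    · intro x _
      simp only [tr_neg, neg_neg]
      exact tr_inv_tr d x
    · intro x _
      simp only [tr_neg, neg_neg]
      exact tr_tr_inv d x
  have hsum := Finset.card_eq_sum_card_image (fun x => orb D x) W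
  have hz : ((W.card : ℕ) : ZMod 2) = 0 := by
    rw [hsum, Nat.cast_sum]
    refine Finset.sum_involution (fun Q _ => Q.image fun x => -x) ?_ ?_ ?_ ?_
    · intro Q hQ
      obtain ⟨w, hwW, rfl⟩ := Finset.mem_image.1 hQ
      rw [← hfib w hwW]
      exact CharTwo.add_self_eq_zero _
    · intro Q hQ _ hQQ
      obtain ⟨w, hwW, rfl⟩ := Finset.mem_image.1 hQ
      apply hno w hwW
      rw [← hQQ]
      exact Finset.mem_image.2 ⟨w, self_mem_orb D w, rfl⟩
    · intro Q hQ
      obtain ⟨w, hwW, rfl⟩ := Finset.mem_image.1 hQ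
      refine Finset.mem_image.2 ⟨-tr d w, (half_tr hc hW hw d hwW).2 hed, ?_⟩
      rw [orb_neg, orb_eq (tr_mem_orb hd (self_mem_orb D w))]
    · intro Q _
      exact hnegneg Q
  exact (ZMod.natCast_eq_zero_iff_even).1 hz

theorem exists_psi_bal (hc : ∀ g, c * g = g * c) {ε : G →* ℤˣ} {W : Finset (G → ℚ)}
    (hW : IsHalf c ε W) (hw : ∀ w ∈ W, IsWeight D c w) (he : ∀ w ∈ W, idx D w = 1)
    (hD : ∃ d ∈ D, ε d ≠ 1) (h345 : W.card = 3 ∨ W.card = 4 ∨ W.card = 5) :
    ∃ ψ : (G → ℚ) → ℚ, (∀ w, ψ (-w) = - ψ w) ∧ (∀ w ∈ W, ψ w = 1 / 2 ∨ ψ w = -(1 / 2)) ∧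
      (∀ w ∈ W, ∑ x ∈ orb D w, ψ x = ((orb D w).card : ℚ) * w 1) ∧
      |∑ w ∈ W, ψ w| ≤ 1 ∧ (Odd W.card → |∑ w ∈ W, ψ w| ≤ 1 / 2) := by
  classical
  obtain ⟨d, hd, hed⟩ := hD
  replace hed : ε d = -1 := (Int.units_eq_one_or (ε d)).resolve_left hed
  have hne : W.Nonempty := by
    rw [← Finset.card_pos]
    omega
  have hB : ∀ x : G → ℚ, x ∈ W ∪ W.image (fun y => -y) ↔ x ∈ W ∨ -x ∈ W := by
    intro x
    rw [Finset.mem_union, Finset.mem_image]
    refine or_congr Iff.rfl ⟨?_, fun h => ⟨-x, h, neg_neg x⟩⟩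
    rintro ⟨y, hy, rfl⟩
    rwa [neg_neg]
  obtain ⟨ψ, hodd, hval, hsum⟩ := exists_psi (D := D) (c := c) (B := W ∪ W.image fun y => -y)
    (fun h _ x hx => (hB _).2 (tr_B hc hW hw h ((hB x).1 hx)))
    (fun x hx => (hB _).2 (by rw [neg_neg]; exact ((hB x).1 hx).symm))
    (by
      rw [hB, neg_zero, or_self]
      exact zero_notMem hW)
    (by
      intro x hx
      rcases (hB x).1 hx with h | h
      · exact hw x h
      · have := (hw _ h).neg
        rwa [neg_neg] at this)
    (by
      intro x hx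
      rcases (hB x).1 hx with h | h
      · exact he x h
      · have h1 := idx_neg (hw _ h) hc
        rw [neg_neg, he _ h] at h1
        exact h1)
  have hval' : ∀ w ∈ W, ψ w = 1 / 2 ∨ ψ w = -(1 / 2) := fun w hwW => hval w ((hB w).2 (Or.inl hwW))
  have hsum' : ∀ w ∈ W, ∑ x ∈ orb D w, ψ x = ((orb D w).card : ℚ) * w 1 :=
    fun w hwW => hsum w ((hB w).2 (Or.inl hwW))
  obtain ⟨w₁, hw₁, hw₁1⟩ := exists_one_ne hc hW hw hne
  -- the number of the elements with the value 1/2
  set P := W.filter fun w => ψ w = 1 / 2 with hP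
  have hS : ∑ w ∈ W, ψ w = (P.card : ℚ) - (W.card : ℚ) / 2 := by
    have h1 : ∑ w ∈ W, ψ w = ∑ w ∈ W, ((if ψ w = 1 / 2 then (1 : ℚ) else 0) - 1 / 2) := by
      refine Finset.sum_congr rfl fun w hwW => ?_
      rcases hval' w hwW with h | h
      · rw [if_pos h, h]; norm_num
      · rw [if_neg (by rw [h]; norm_num), h]; norm_num
    rw [h1, Finset.sum_sub_distrib, Finset.sum_boole, Finset.sum_const, nsmul_eq_mul]
    ring
  have hP0 : P.card ≠ 0 := by
    intro h0
    apply hw₁1
    refine one_eq_zero hc hW hw hd hed hodd hsum' (δ := -(1 / 2)) hw₁ fun x hx _ => ?_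
    refine (hval' x hx).resolve_left fun h => ?_
    have : x ∈ P := Finset.mem_filter.2 ⟨hx, h⟩
    rw [Finset.card_eq_zero.1 h0] at this
    exact Finset.notMem_empty x this
  have hPle : P.card ≤ W.card := Finset.card_le_card (Finset.filter_subset _ _)
  have hPN : P.card ≠ W.card := by
    intro h0
    apply hw₁1
    have hPW : P = W := Finset.eq_of_subset_of_card_le (Finset.filter_subset _ _) h0.ge
    refine one_eq_zero hc hW hw hd hed hodd hsum' (δ := 1 / 2) hw₁ fun x hx _ => ?_
    rw [← hPW] at hx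
    exact (Finset.mem_filter.1 hx).2
  rcases h345 with h3 | h4 | h5
  · refine ⟨ψ, hodd, hval', hsum', ?_⟩
    rw [hS]
    have h6 : P.card = 1 ∨ P.card = 2 := by omega
    rcases h6 with h6 | h6
    · rw [h6, h3]
      refine ⟨?_, fun _ => ?_⟩ <;> norm_num [abs_le]
    · rw [h6, h3]
      refine ⟨?_, fun _ => ?_⟩ <;> norm_num [abs_le]
  · refine ⟨ψ, hodd, hval', hsum', ?_, fun ho => ?_⟩
    · rw [hS]
      have h6 : P.card = 1 ∨ P.card = 2 ∨ P.card = 3 := by omega
      rcases h6 with h6 | h6 | h6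
      · rw [h6, h4]; norm_num [abs_le]
      · rw [h6, h4]; norm_num [abs_le]
      · rw [h6, h4]; norm_num [abs_le]
    · exfalso
      rw [h4] at ho
      exact absurd ho (by decide)
  · by_cases h23 : P.card = 2 ∨ P.card = 3
    · refine ⟨ψ, hodd, hval', hsum', ?_⟩
      rw [hS]
      rcases h23 with h6 | h6
      · rw [h6, h5]
        refine ⟨?_, fun _ => ?_⟩ <;> norm_num [abs_le]
      · rw [h6, h5]
        refine ⟨?_, fun _ => ?_⟩ <;> norm_num [abs_le]
    · -- four values equal to δ, one equal to -δ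
      have hex : ∃ δ : ℚ, (δ = 1 / 2 ∨ δ = -(1 / 2)) ∧ ∃ x₀ ∈ W, ψ x₀ = -δ ∧
          ∀ x ∈ W, x ≠ x₀ → ψ x = δ := by
        have h14 : P.card = 1 ∨ P.card = 4 := by omega
        rcases h14 with h6 | h6
        · obtain ⟨x₀, hx₀⟩ := Finset.card_eq_one.1 h6
          have hx₀P : x₀ ∈ P := by rw [hx₀]; exact Finset.mem_singleton_self _
          refine ⟨-(1 / 2), Or.inr rfl, x₀, (Finset.mem_filter.1 hx₀P).1, ?_, ?_⟩
          · rw [(Finset.mem_filter.1 hx₀P).2]; norm_num
          · intro x hx hxx
            refine (hval' x hx).resolve_left fun h => hxx ?_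
            have : x ∈ P := Finset.mem_filter.2 ⟨hx, h⟩
            rw [hx₀] at this
            exact Finset.mem_singleton.1 this
        · have h7 : (W \ P).card = 1 := by
            have h8 := Finset.card_sdiff_add_card_eq_card (show P ⊆ W from Finset.filter_subset _ _)
            omega
          obtain ⟨x₀, hx₀⟩ := Finset.card_eq_one.1 h7
          have hx₀P : x₀ ∈ W \ P := by rw [hx₀]; exact Finset.mem_singleton_self _
          rw [Finset.mem_sdiff] at hx₀P
          refine ⟨1 / 2, Or.inl rfl, x₀, hx₀P.1, ?_, ?_⟩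
          · exact (hval' x₀ hx₀P.1).resolve_left fun h =>
              hx₀P.2 (Finset.mem_filter.2 ⟨hx₀P.1, h⟩)
          · intro x hx hxx
            by_contra h
            apply hxx
            have : x ∈ W \ P := Finset.mem_sdiff.2 ⟨hx, fun h2 => h (Finset.mem_filter.1 h2).2⟩
            rw [hx₀] at this
            exact Finset.mem_singleton.1 this
      obtain ⟨δ, hδ, x₀, hx₀, hψx₀, hψ⟩ := hex
      by_cases hi : ∃ x ∈ W, x ≠ x₀ ∧ -x ∈ orb D x
      · obtain ⟨x, hx, hxx₀, hxo⟩ := hi
        have hx0 : x ≠ 0 := fun h => zero_notMem hW (h ▸ hx)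
        have hnx : -x ≠ x := neg_ne_self hx0
        let ψ' : (G → ℚ) → ℚ := fun y => ψ y + (if y = x then -(2 * δ) else 0) +
          (if y = -x then 2 * δ else 0)
        have hiff : ∀ w : G → ℚ, x ∈ orb D w ↔ -x ∈ orb D w := by
          intro w
          constructor
          · intro h
            rw [← orb_eq h]
            exact hxo
          · intro h
            rw [← orb_eq h]
            exact orb_symm hxo
        have hSψ : ∑ w ∈ W, ψ w = 3 * δ := by
          have h8 := Finset.add_sum_erase W ψ hx₀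
          have h9 : ∑ w ∈ W.erase x₀, ψ w = ∑ w ∈ W.erase x₀, δ :=
            Finset.sum_congr rfl fun w hwW => hψ w (Finset.mem_of_mem_erase hwW)
              (Finset.ne_of_mem_erase hwW)
          rw [h9, Finset.sum_const, Finset.card_erase_of_mem hx₀, h5, hψx₀, nsmul_eq_mul] at h8
          rw [← h8]
          push_cast
          ring
        have hSψ' : ∑ w ∈ W, ψ' w = δ := by
          simp only [ψ']
          rw [Finset.sum_add_distrib, Finset.sum_add_distrib, hSψ, Finset.sum_ite_eq',
            Finset.sum_ite_eq', if_pos hx, if_neg (hW.neg x hx)]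
          ring
        have hψx : ψ x = δ := hψ x hx hxx₀
        refine ⟨ψ', ?_, ?_, ?_, ?_⟩
        · intro y
          simp only [ψ']
          have e1 : (-y = x) ↔ (y = -x) := by
            constructor
            · rintro rfl; rw [neg_neg]
            · rintro rfl; rw [neg_neg]
          have e2 : (-y = -x) ↔ (y = x) := neg_inj
          rw [hodd]
          simp only [e1, e2]
          split_ifs <;> ring
        · intro w hwW
          simp only [ψ']
          have hwx : w ≠ -x := fun h => hW.neg x hx (h ▸ hwW)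
          rw [if_neg hwx, add_zero]
          by_cases hwx2 : w = x
          · rw [if_pos hwx2, hwx2, hψx]
            rcases hδ with h | h
            · right; rw [h]; norm_num
            · left; rw [h]; norm_num
          · rw [if_neg hwx2, add_zero]
            exact hval' w hwW
        · intro w hwW
          simp only [ψ']
          rw [Finset.sum_add_distrib, Finset.sum_add_distrib, hsum' w hwW, Finset.sum_ite_eq',
            Finset.sum_ite_eq']
          by_cases hxw : x ∈ orb D w
          · rw [if_pos hxw, if_pos ((hiff w).1 hxw)]; ring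
          · rw [if_neg hxw, if_neg fun h => hxw ((hiff w).2 h)]; ring
        · rw [hSψ']
          rcases hδ with h | h
          · rw [h]
            refine ⟨?_, fun _ => ?_⟩ <;> norm_num [abs_le]
          · rw [h]
            refine ⟨?_, fun _ => ?_⟩ <;> norm_num [abs_le]
      · push Not at hi
        exfalso
        by_cases hii : -x₀ ∈ orb D x₀
        · have hoo : orb D (-x₀) = orb D x₀ := orb_eq hii
          have hx₀1 : x₀ 1 = 0 := by
            have h1 := orb_one (hw x₀ hx₀) hii
            rw [Pi.neg_apply] at h1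
            linarith
          apply hw₁1
          by_cases hw₁x : w₁ = x₀
          · rw [hw₁x]; exact hx₀1
          · -- x₀ is not in the orbits of ± w₁
            have hn : x₀ ∉ orb D w₁ := by
              intro h
              apply hi w₁ hw₁ hw₁x
              have h1 : w₁ ∈ orb D x₀ := orb_symm h
              have h2 : -w₁ ∈ orb D (-x₀) := by
                rw [mem_orb_neg, neg_neg]; exact h1
              rw [hoo, orb_eq h] at h2
              exact h2
            have hn' : -x₀ ∉ orb D w₁ := by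
              intro h
              apply hn
              have h1 := orb_eq h
              rw [← h1, hoo]
              exact self_mem_orb D x₀
            refine one_eq_zero hc hW hw hd hed hodd hsum' (δ := δ) hw₁ fun x hx hxo => ?_
            refine hψ x hx ?_
            rintro rfl
            rcases hxo with h | h
            · exact hn h
            · exact hn' h
        · have hev := even_card hc hW hw hd hed (fun x hx => by
            by_cases hxx : x = x₀
            · rw [hxx]; exact hii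
            · exact hi x hx hxx)
          rw [h5] at hev
          exact absurd hev (by decide)

end Pool.Agent.AVF
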