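import Pool.Agent.AVF.GenB
import Pool.Agent.AVF.NetR
import Pool.Agent.AVF.HSum
import Pool.Agent.AVF.PsiB

/-!
# AVF: Weil multisets from half sets
-/

set_option linter.unusedSectionVars false
set_option linter.unusedVariables false

namespace Pool.Agent.AVF

open Finset

variable {G : Type} [Group G] [Fintype G] {D : Subgroup G} {c : G}

variable {ε : G →* ℤˣ} {W : Finset (G → ℚ)}

theorem rea_nonsplit (hc : ∀ g, c * g = g * c) (hW : IsHalf c ε W)
    (hw : ∀ w ∈ W, IsWeight D c w) (he : ∀ w ∈ W, idx D w = 1) (hD : ∃ d ∈ D, ε d ≠ 1)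
    (h345 : W.card = 3 ∨ W.card = 4 ∨ W.card = 5) : Rea D c (ind W) := by
  obtain ⟨ψ, hodd, hψ, hs, hb, hb'⟩ := exists_psi_bal hc hW hw he hD h345
  have key : ∀ j : ℕ, |∑ w ∈ W, ψ w| ≤ (j : ℚ) / 2 →
      (W.card + j = 4 ∨ W.card + j = 6 ∧ 0 < j) → Rea D c (ind W) := by
    intro j h1 h2
    refine (Gen.rea (Gen.nonsplit ε hW.epsc hD W j hw hW.ker hW.neg ψ hodd hψ hs h1 h2)).congr
      fun w => ?_
    rw [net_add, net_val hW.neg, net_replicate_zero, add_zero]
  rcases h345 with h | h | h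
  · refine key 1 ?_ (Or.inl (by rw [h]))
    have h1 := hb' (by rw [h]; exact ⟨1, rfl⟩)
    rw [Nat.cast_one]
    exact h1
  · refine key 2 ?_ (Or.inr ⟨by rw [h], by norm_num⟩)
    have h1 : ((2 : ℕ) : ℚ) / 2 = 1 := by norm_num
    rw [h1]
    exact hb
  · refine key 1 ?_ (Or.inr ⟨by rw [h], by norm_num⟩)
    have h1 := hb' (by rw [h]; exact ⟨2, rfl⟩)
    rw [Nat.cast_one]
    exact h1

private theorem avfh_map (hW : IsHalf c ε W) {h : G} (hh : ε h = 1) :
    W.val.map (tr h) = W.val := by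
  have h1 : W.map ⟨tr h, fun _ _ e => tr_inj h e⟩ = W := by
    refine Finset.eq_of_subset_of_card_le ?_ (by rw [Finset.card_map])
    intro x hx
    obtain ⟨y, hy, rfl⟩ := Finset.mem_map.1 hx
    exact hW.ker h hh y hy
  exact congrArg Finset.val h1

private theorem avfh_tr {u : G → ℚ} (hu : u = chi ε ∨ u = -chi ε) {h : G} (hh : ε h = 1) :
    tr h u = u := by
  have h1 : tr h (chi ε) = chi ε := by
    rw [tr_chi, hh]
    simp
  rcases hu with rfl | rfl
  · exact h1
  · rw [tr_neg, h1]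

private theorem avfh_gen (hc : ∀ g, c * g = g * c) (hW : IsHalf c ε W)
    (hw : ∀ w ∈ W, IsWeight D c w) (he : ∀ w ∈ W, idx D w = 1) (hD : ∀ d ∈ D, ε d = 1)
    {u : G → ℚ} (hu : u = chi ε ∨ u = -chi ε) (k : ℕ) (h0 : ∑ w ∈ W, w 1 + (k : ℚ) * u 1 = 0)
    (hn : W.card + k = 4 ∨ W.card + k = 6 ∧ 0 < k) :
    Gen D c (W.val + Multiset.replicate k u) := by
  have hwu : IsWeight D c u := by
    rcases hu with rfl | rfl
    · exact isWeight_chi hW.epsc hD
    · exact (isWeight_chi hW.epsc hD).neg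
  have hiu : idx D u = 1 := by
    rcases hu with rfl | rfl
    · exact idx_chi hD
    · rw [idx_neg (isWeight_chi hW.epsc hD) hc]
      exact idx_chi hD
  refine Gen.split ε hW.epsc hD _ ?_ ?_ ?_ ?_ ?_
  · intro w hw'
    rcases Multiset.mem_add.1 hw' with h | h
    · exact hw w h
    · rw [Multiset.eq_of_mem_replicate h]
      exact hwu
  · intro h hh
    rw [Multiset.map_add, avfh_map hW hh, Multiset.map_replicate, avfh_tr hu hh]
  · intro w hw'
    have h1 : idx D w = 1 := by
      rcases Multiset.mem_add.1 hw' with h | h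
      · exact he w h
      · rw [Multiset.eq_of_mem_replicate h]
        exact hiu
    rw [h1]
    exact one_dvd _
  · rw [Multiset.map_add, Multiset.sum_add, Multiset.map_replicate, Multiset.sum_replicate,
      nsmul_eq_mul]
    exact h0
  · rw [Multiset.card_add, Multiset.card_replicate]
    rcases hn with hn | ⟨hn, hk⟩
    · exact Or.inl hn
    · refine Or.inr ⟨hn, ?_⟩
      have h1 : u ∈ W.val + Multiset.replicate k u :=
        Multiset.mem_add.2 (Or.inr (Multiset.mem_replicate.2 ⟨hk.ne', rfl⟩))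
      rcases hu with rfl | rfl
      · exact Or.inl h1
      · exact Or.inr h1

private theorem avfh_net (k : ℕ) (w : G → ℚ) :
    net (Multiset.replicate k (chi ε)) w = (k : ℤ) * ind {chi ε} w := by
  unfold net ind
  rw [Multiset.count_replicate, Multiset.count_replicate]
  simp only [Finset.mem_singleton]
  by_cases h1 : w = chi ε
  · have h2 : ¬ chi ε = -w := by
      rw [h1]
      exact (neg_ne_self (chi_ne_zero ε)).symm
    rw [if_pos h1.symm, if_neg h2, if_pos h1]
    simp
  · by_cases h2 : -w = chi ε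
    · rw [if_neg (fun h => h1 h.symm), if_pos h2.symm, if_neg h1, if_pos h2]
      simp
    · rw [if_neg (fun h => h1 h.symm), if_neg (fun h => h2 h.symm), if_neg h1, if_neg h2]
      simp

private theorem avfh_net_neg (k : ℕ) (w : G → ℚ) :
    net (Multiset.replicate k (-chi ε)) w = -((k : ℤ) * ind {chi ε} w) := by
  rw [← avfh_net, ← net_map_neg, Multiset.map_replicate]

theorem rea_half_zero (hc : ∀ g, c * g = g * c) (hW : IsHalf c ε W)
    (hw : ∀ w ∈ W, IsWeight D c w) (he : ∀ w ∈ W, idx D w = 1)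
    (h345 : W.card = 3 ∨ W.card = 4 ∨ W.card = 5) (hs : ∑ w ∈ W, w = 0) :
    Rea D c (ind W) := by
  by_cases hD : ∃ d ∈ D, ε d ≠ 1
  · exact rea_nonsplit hc hW hw he hD h345
  · have hD' : ∀ d ∈ D, ε d = 1 := by
      intro d hd
      by_contra h
      exact hD ⟨d, hd, h⟩
    have h4 : W.card = 4 := by
      rcases h345 with h | h | h
      · exact absurd (half_odd hc hW hw he (by rw [h]; exact ⟨1, rfl⟩) hs) hD
      · exact h
      · exact absurd (half_odd hc hW hw he (by rw [h]; exact ⟨2, rfl⟩) hs) hD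
    have h0 : ∑ w ∈ W, w 1 + ((0 : ℕ) : ℚ) * chi ε 1 = 0 := by
      have h1 := congrFun hs 1
      rw [Finset.sum_apply, Pi.zero_apply] at h1
      rw [h1]
      simp
    refine (Gen.rea (avfh_gen hc hW hw he hD' (Or.inl rfl) 0 h0 (Or.inl (by rw [h4])))).congr
      fun w => ?_
    rw [net_add, net_val hW.neg, avfh_net]
    simp

theorem rea_three (hc : ∀ g, c * g = g * c) (hW : IsHalf c ε W)
    (hw : ∀ w ∈ W, IsWeight D c w) (he : ∀ w ∈ W, idx D w = 1) (h3 : W.card = 3) {σ : ℤ}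
    (hσ : σ = 1 ∨ σ = -1) (hs : ∑ w ∈ W, w = (σ : ℚ) • chi ε) :
    Rea D c (fun w => ind W w - σ * ind {chi ε} w) := by
  have hs0 : ∑ w ∈ W, w ≠ 0 := by
    rw [hs]
    refine smul_ne_zero ?_ (chi_ne_zero ε)
    rcases hσ with rfl | rfl <;> norm_num
  have hD := half_D hc hW hw hs0
  have h1 := congrFun hs 1
  rw [Finset.sum_apply, Pi.smul_apply, smul_eq_mul, chi_one] at h1
  rcases hσ with rfl | rfl
  · refine (Gen.rea (avfh_gen hc hW hw he hD (Or.inr rfl) 1 ?_ (Or.inl (by rw [h3])))).congr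
      fun w => ?_
    · rw [h1, Pi.neg_apply, chi_one]
      norm_num
    · rw [net_add, net_val hW.neg, avfh_net_neg]
      push_cast
      ring
  · refine (Gen.rea (avfh_gen hc hW hw he hD (Or.inl rfl) 1 ?_ (Or.inl (by rw [h3])))).congr
      fun w => ?_
    · rw [h1, chi_one]
      norm_num
    · rw [net_add, net_val hW.neg, avfh_net]
      push_cast
      ring

theorem rea_four (hc : ∀ g, c * g = g * c) (hW : IsHalf c ε W)
    (hw : ∀ w ∈ W, IsWeight D c w) (he : ∀ w ∈ W, idx D w = 1) (h4 : W.card = 4) {σ : ℤ}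
    (hσ : σ = 1 ∨ σ = -1) (hs : ∑ w ∈ W, w = (2 * σ : ℚ) • chi ε) :
    Rea D c (fun w => ind W w - 2 * σ * ind {chi ε} w) := by
  have hs0 : ∑ w ∈ W, w ≠ 0 := by
    rw [hs]
    refine smul_ne_zero ?_ (chi_ne_zero ε)
    rcases hσ with rfl | rfl <;> norm_num
  have hD := half_D hc hW hw hs0
  have h1 := congrFun hs 1
  rw [Finset.sum_apply, Pi.smul_apply, smul_eq_mul, chi_one] at h1
  rcases hσ with rfl | rfl
  · refine (Gen.rea (avfh_gen hc hW hw he hD (Or.inr rfl) 2 ?_
      (Or.inr ⟨by rw [h4], by norm_num⟩))).congr fun w => ?_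
    · rw [h1, Pi.neg_apply, chi_one]
      norm_num
    · rw [net_add, net_val hW.neg, avfh_net_neg]
      push_cast
      ring
  · refine (Gen.rea (avfh_gen hc hW hw he hD (Or.inl rfl) 2 ?_
      (Or.inr ⟨by rw [h4], by norm_num⟩))).congr fun w => ?_
    · rw [h1, chi_one]
      norm_num
    · rw [net_add, net_val hW.neg, avfh_net]
      push_cast
      ring

end Pool.Agent.AVF
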