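import Pool.Agent.AVF.Poly

/-!
# AVF: a relation is constant on the cycle; the sign character
-/

set_option linter.unusedSectionVars false
set_option linter.unusedVariables false

namespace Pool.Agent.AVF

open Finset

variable {G : Type} [Group G] [Fintype G] {D : Subgroup G} {c : G}

theorem sum_half {B W : Finset (G → ℚ)} (hWB : W ⊆ B) (hneg : ∀ w ∈ B, -w ∈ B)
    (hW : ∀ w ∈ W, -w ∉ W) (hBW : ∀ w ∈ B, w ∈ W ∨ -w ∈ W) {n : (G → ℚ) → ℚ}
    (hodd : ∀ w, n (-w) = - n w) : ∑ w ∈ B, n w • w = (2 : ℚ) • ∑ w ∈ W, n w • w := by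
  classical
  have hB : B = W ∪ W.image Neg.neg := by
    ext x
    rw [mem_union, mem_image]
    constructor
    · intro hx
      rcases hBW x hx with h | h
      · exact Or.inl h
      · exact Or.inr ⟨-x, h, neg_neg x⟩
    · rintro (h | ⟨y, hy, rfl⟩)
      · exact hWB h
      · exact hneg y (hWB hy)
  have hd : Disjoint W (W.image Neg.neg) := by
    rw [Finset.disjoint_left]
    intro x hx hx'
    obtain ⟨y, hy, hyx⟩ := mem_image.1 hx'
    apply hW y hy
    have h1 : -y = x := hyx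
    rw [h1]
    exact hx
  have h2 : ∑ w ∈ W.image Neg.neg, n w • w = ∑ w ∈ W, n w • w := by
    rw [Finset.sum_image fun x _ y _ h => neg_injective h]
    refine Finset.sum_congr rfl fun w _ => ?_
    rw [hodd, neg_smul_neg]
  rw [hB, Finset.sum_union hd, h2, two_smul]

open Classical in
private theorem sum_dec (hc : ∀ g, c * g = g * c) {X : Finset (G → ℚ)} (hX : IsSys D c X)
    {b : G → ℚ} (hb : b ∈ X) {g : G} {C : Finset (G → ℚ)} (hC : CycData X b g C)
    {n : (G → ℚ) → ℚ} (hn : IsRel X n) :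
    (2 : ℚ) • ∑ w ∈ C, n w • w + ∑ x ∈ X \ orb ⊤ b, n x • x = 0 := by
  have h1 := Finset.sum_sdiff (f := fun w => n w • w) (orb_subset hX hb ⊤)
  rw [hn.2, sum_half hC.sub (fun w hw => neg_mem_orb (hX.wt b hb) hc hw) hC.neg hC.cov hn.1,
    add_comm] at h1
  exact h1

open Classical in
private theorem fix_rest {X : Finset (G → ℚ)} (hX : IsSys D c X)
    {b : G → ℚ} {g : G} {C : Finset (G → ℚ)} (hC : CycData X b g C)
    (n : (G → ℚ) → ℚ) (h : G) :
    tr g (tr h (∑ x ∈ X \ orb ⊤ b, n x • x)) = tr h (∑ x ∈ X \ orb ⊤ b, n x • x) := by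
  rw [tr_sum, tr_sum]
  refine Finset.sum_congr rfl fun x hx => ?_
  obtain ⟨h1, h2⟩ := Finset.mem_sdiff.1 hx
  have h5 : tr h x ∉ orb ⊤ b := by
    intro h3
    apply h2
    have h4 := tr_mem_orb (Subgroup.mem_top h⁻¹) h3
    rwa [tr_inv_tr] at h4
  rw [tr_smul, tr_smul, hC.rest _ (hX.st h x h1) h5]

theorem rel_const (hc : ∀ g, c * g = g * c) {X : Finset (G → ℚ)} (hX : IsSys D c X) {b : G → ℚ}
    (hb : b ∈ X) {g : G} {C : Finset (G → ℚ)} (hC : CycData X b g C) {n : (G → ℚ) → ℚ}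
    (hn : IsRel X n) : ∀ w ∈ C, n w = n b := by
  classical
  have h1 := sum_dec hc hX hb hC hn
  have h2 := fix_rest hX hC n 1
  rw [tr_one] at h2
  have h3 : ∑ w ∈ C, n w • w = (-(2 : ℚ)⁻¹) • ∑ x ∈ X \ orb ⊤ b, n x • x := by
    rw [eq_neg_of_add_eq_zero_right h1, smul_neg, neg_smul, neg_neg, smul_smul,
      inv_mul_cancel₀ (by norm_num), one_smul]
  refine const_of_fix hC.cyc hC.prime n ?_
  rw [h3, tr_smul, h2]

open Classical in
/-- the translate or its negative -/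
private noncomputable def sg (C : Finset (G → ℚ)) (h : G) (w : G → ℚ) : G → ℚ :=
  if tr h w ∈ C then tr h w else -(tr h w)

private theorem sg_mem {C : Finset (G → ℚ)} {h : G} {w : G → ℚ}
    (hcov : tr h w ∈ C ∨ -(tr h w) ∈ C) : sg C h w ∈ C := by
  unfold sg
  by_cases h1 : tr h w ∈ C
  · rw [if_pos h1]
    exact h1
  · rw [if_neg h1]
    exact hcov.resolve_left h1

private theorem sg_sg {C : Finset (G → ℚ)} (hneg : ∀ w ∈ C, -w ∉ C) {h k : G} (hk : k * h = 1)
    {w : G → ℚ} (hw : w ∈ C) : sg C k (sg C h w) = w := by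
  have h0 : tr k (tr h w) = w := by rw [← tr_mul, hk, tr_one]
  by_cases h1 : tr h w ∈ C
  · have h2 : sg C h w = tr h w := by
      unfold sg
      rw [if_pos h1]
    rw [h2]
    unfold sg
    rw [h0, if_pos hw]
  · have h2 : sg C h w = -(tr h w) := by
      unfold sg
      rw [if_neg h1]
    rw [h2]
    unfold sg
    rw [tr_neg, h0, if_neg (hneg w hw), neg_neg]

open Classical in
private theorem sum_nu {C : Finset (G → ℚ)} (hneg : ∀ w ∈ C, -w ∉ C)
    (hcov : ∀ h : G, ∀ w ∈ C, tr h w ∈ C ∨ -(tr h w) ∈ C) (h : G) :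
    tr h⁻¹ (∑ w ∈ C, w) = ∑ y ∈ C, (if tr h y ∈ C then (1 : ℚ) else -1) • y := by
  rw [tr_sum]
  refine Finset.sum_bij' (fun w _ => sg C h⁻¹ w) (fun y _ => sg C h y)
    (fun w hw => sg_mem (hcov h⁻¹ w hw)) (fun y hy => sg_mem (hcov h y hy))
    (fun w hw => sg_sg hneg (mul_inv_cancel h) hw) (fun y hy => sg_sg hneg (inv_mul_cancel h) hy)
    fun w hw => ?_
  by_cases h1 : tr h⁻¹ w ∈ C
  · have h2 : sg C h⁻¹ w = tr h⁻¹ w := by
      unfold sg
      rw [if_pos h1]
    rw [h2, tr_tr_inv, if_pos hw, one_smul]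
  · have h2 : sg C h⁻¹ w = -(tr h⁻¹ w) := by
      unfold sg
      rw [if_neg h1]
    rw [h2, tr_neg, tr_tr_inv, if_neg (hneg w hw), neg_smul, one_smul, neg_neg]

theorem exists_half (hc : ∀ g, c * g = g * c) {X : Finset (G → ℚ)} (hX : IsSys D c X)
    {b : G → ℚ} (hb : b ∈ X) {g : G} {C : Finset (G → ℚ)} (hC : CycData X b g C)
    {n : (G → ℚ) → ℚ} (hn : IsRel X n) (hnb : n b ≠ 0) : ∃ ε : G →* ℤˣ, IsHalf c ε C := by
  classical
  have h1 := sum_dec hc hX hb hC hn
  have h2 : ∑ w ∈ C, n w • w = n b • ∑ w ∈ C, w := by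
    rw [Finset.smul_sum]
    exact Finset.sum_congr rfl fun w hw => by rw [rel_const hc hX hb hC hn w hw]
  rw [h2, smul_smul] at h1
  have h3 : ∑ w ∈ C, w = (-(2 * n b)⁻¹) • ∑ x ∈ X \ orb ⊤ b, n x • x := by
    rw [eq_neg_of_add_eq_zero_right h1, smul_neg, neg_smul, neg_neg, smul_smul,
      inv_mul_cancel₀ (mul_ne_zero two_ne_zero hnb), one_smul]
  have h4 : ∀ h : G, tr g (tr h (∑ w ∈ C, w)) = tr h (∑ w ∈ C, w) := by
    intro h
    rw [h3, tr_smul, tr_smul, fix_rest hX hC n h]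
  have hcov : ∀ h : G, ∀ w ∈ C, tr h w ∈ C ∨ -(tr h w) ∈ C := fun h w hw =>
    hC.cov _ (tr_mem_orb (Subgroup.mem_top h) (hC.sub hw))
  have h5 : ∀ h : G, ∀ y ∈ C, (tr h y ∈ C ↔ tr h b ∈ C) := by
    intro h y hy
    have h6 := h4 h⁻¹
    rw [sum_nu hC.neg hcov h] at h6
    have h7 := const_of_fix hC.cyc hC.prime (fun y => if tr h y ∈ C then (1 : ℚ) else -1) h6 y hy
    by_cases h8 : tr h y ∈ C
    · by_cases h9 : tr h b ∈ C
      · exact iff_of_true h8 h9
      · rw [if_pos h8, if_neg h9] at h7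
        norm_num at h7
    · by_cases h9 : tr h b ∈ C
      · rw [if_neg h8, if_pos h9] at h7
        norm_num at h7
      · exact iff_of_false h8 h9
  have hbC : b ∈ C := hC.cyc.mem
  have hmul : ∀ h k : G, (if tr (h * k) b ∈ C then (1 : ℤˣ) else -1) =
      (if tr h b ∈ C then (1 : ℤˣ) else -1) * (if tr k b ∈ C then (1 : ℤˣ) else -1) := by
    intro h k
    rw [tr_mul]
    by_cases h6 : tr k b ∈ C
    · rw [if_pos h6, mul_one]
      have h7 := h5 h _ h6
      by_cases h8 : tr h b ∈ C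
      · rw [if_pos h8, if_pos (h7.2 h8)]
      · rw [if_neg h8, if_neg fun h9 => h8 (h7.1 h9)]
    · have h7 : -(tr k b) ∈ C := (hcov k b hbC).resolve_left h6
      have h8 := h5 h _ h7
      rw [tr_neg] at h8
      rw [if_neg h6]
      by_cases h9 : tr h b ∈ C
      · have h10 : tr h (tr k b) ∉ C := fun h11 => hC.neg _ h11 (h8.2 h9)
        rw [if_pos h9, if_neg h10, one_mul]
      · have h10 : tr h (tr k b) ∈ C := by
          have h11 := hcov h _ h7
          rw [tr_neg, neg_neg] at h11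
          exact h11.resolve_left fun h12 => h9 (h8.1 h12)
        rw [if_neg h9, if_pos h10, neg_mul_neg, one_mul]
  obtain ⟨ε, hε⟩ : ∃ ε : G →* ℤˣ, ∀ h, ε h = if tr h b ∈ C then (1 : ℤˣ) else -1 :=
    ⟨{ toFun := fun h => if tr h b ∈ C then (1 : ℤˣ) else -1
       map_one' := by rw [tr_one, if_pos hbC]
       map_mul' := hmul }, fun h => rfl⟩
  refine ⟨ε, ?_, hC.neg, fun h hh w hw => ?_⟩
  · rw [hε, (hX.wt b hb).tr_c hc, if_neg (hC.neg b hbC)]
  · rw [hε] at hh
    by_cases h6 : tr h b ∈ C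
    · exact (h5 h w hw).2 h6
    · rw [if_neg h6] at hh
      exact absurd hh (by decide)

end Pool.Agent.AVF
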