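import Pool.Agent.AVF.QuadH
import Pool.Agent.AVF.GenH
import Pool.Agent.AVF.SumO
import Pool.Agent.AVF.Half

/-!
# AVF: an orbit of 8 weights
-/

set_option linter.unusedSectionVars false
set_option linter.unusedVariables false

namespace Pool.Agent.AVF

open Finset

variable {G : Type} [Group G] [Fintype G] {D : Subgroup G} {c : G}

private theorem ce_one {W : Finset (G → ℚ)} {w : G → ℚ} (h : w ∈ W) : ind W w = 1 := by
  unfold ind
  rw [if_pos h]

private theorem ce_zero {W : Finset (G → ℚ)} {w : G → ℚ} (h : w ∉ W) (h' : -w ∉ W) :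
    ind W w = 0 := by
  unfold ind
  rw [if_neg h, if_neg h']

private theorem ce_neg {W : Finset (G → ℚ)} (hW : ∀ w ∈ W, -w ∉ W) (w : G → ℚ) :
    ind W (-w) = -ind W w := by
  unfold ind
  rw [neg_neg]
  by_cases h1 : w ∈ W
  · rw [if_pos h1, if_neg (hW w h1), if_pos h1]
  · rw [if_neg h1]
    by_cases h2 : -w ∈ W
    · rw [if_pos h2, if_pos h2, if_neg h1]
      rfl
    · rw [if_neg h2, if_neg h2, if_neg h1]
      rfl

private theorem ce_even {B W : Finset (G → ℚ)} (hWB : W ⊆ B) (hneg : ∀ w ∈ B, -w ∈ B)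
    (hW : ∀ w ∈ W, -w ∉ W) (hBW : ∀ w ∈ B, w ∈ W ∨ -w ∈ W) {e : (G → ℚ) → ℚ}
    (he : ∀ w, e (-w) = e w) : ∑ w ∈ B, e w = 2 * ∑ w ∈ W, e w := by
  classical
  rw [← sum_filter_add_sum_filter_not B (fun w => w ∈ W) e]
  have h1 : B.filter (fun w => w ∈ W) = W := by
    ext w
    rw [mem_filter]
    exact ⟨fun h => h.2, fun h => ⟨hWB h, h⟩⟩
  have h2 : ∑ w ∈ B.filter (fun w => ¬ w ∈ W), e w = ∑ w ∈ W, e w := by
    refine sum_nbij' (fun w => -w) (fun w => -w) ?_ ?_ ?_ ?_ ?_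
    · intro w hw
      rw [mem_filter] at hw
      exact (hBW w hw.1).resolve_left hw.2
    · intro w hw
      rw [mem_filter]
      exact ⟨hneg w (hWB hw), hW w hw⟩
    · intro w _
      exact neg_neg w
    · intro w _
      exact neg_neg w
    · intro w _
      exact (he w).symm
  rw [h1, h2]
  ring

private theorem ce_rho {b : G → ℚ} {ε0 : G →* ℤˣ} {n : (G → ℚ) → ℚ}
    (hodd : ∀ w, n (-w) = - n w) {m : ℚ}
    (hR : ∑ w ∈ orb ⊤ b, n w • w = (-(2 * m)) • chi ε0) (h : G) :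
    IsRel (orb ⊤ b) (fun w => n (tr h⁻¹ w) - ((ε0 h : ℤ) : ℚ) * n w) := by
  refine ⟨fun w => ?_, ?_⟩
  · simp only [tr_neg, hodd]
    ring
  · have h1 : ∑ w ∈ orb ⊤ b, n (tr h⁻¹ w) • w = tr h (∑ w ∈ orb ⊤ b, n w • w) := by
      rw [tr_sum]
      refine sum_nbij' (fun w => tr h⁻¹ w) (fun w => tr h w) ?_ ?_ ?_ ?_ ?_
      · intro w hw
        exact tr_mem_orb (Subgroup.mem_top _) hw
      · intro w hw
        exact tr_mem_orb (Subgroup.mem_top _) hw
      · intro w _
        exact tr_tr_inv h w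
      · intro w _
        exact tr_inv_tr h w
      · intro w _
        show n (tr h⁻¹ w) • w = tr h (n (tr h⁻¹ w) • tr h⁻¹ w)
        rw [tr_smul, tr_tr_inv]
    show ∑ w ∈ orb ⊤ b, (n (tr h⁻¹ w) - ((ε0 h : ℤ) : ℚ) * n w) • w = 0
    have h2 : ∀ w ∈ orb ⊤ b, (n (tr h⁻¹ w) - ((ε0 h : ℤ) : ℚ) * n w) • w =
        n (tr h⁻¹ w) • w - ((ε0 h : ℤ) : ℚ) • (n w • w) := fun w _ => by
      rw [sub_smul, mul_smul]
    rw [sum_congr rfl h2, sum_sub_distrib, ← smul_sum, h1, hR, tr_smul, tr_chi, smul_comm,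
      sub_self]

private theorem ce_C (hc : ∀ g, c * g = g * c) {b : G → ℚ} (hb : IsWeight D c b)
    (h8 : (orb ⊤ b).card = 8) (he : idx D b = 1) {ε0 : G →* ℤˣ} {n : (G → ℚ) → ℚ}
    (hodd : ∀ w, n (-w) = - n w) {m : ℚ} (hm : m ≠ 0)
    (hR : ∑ w ∈ orb ⊤ b, n w • w = (-(2 * m)) • chi ε0)
    (hε : ∀ h, ∀ w ∈ orb ⊤ b, n (tr h w) = ((ε0 h : ℤ) : ℚ) * n w) :
    ∃ (W : Finset (G → ℚ)) (σ : ℤ), W ⊆ orb ⊤ b ∧ W.card = 4 ∧ IsHalf c ε0 W ∧
      (∀ w ∈ orb ⊤ b, w ∈ W ∨ -w ∈ W) ∧ (∀ w ∈ orb ⊤ b, n w = |n b| * (ind W w : ℚ)) ∧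
      (σ = 1 ∨ σ = -1) ∧ ∑ w ∈ W, w = (2 * σ : ℚ) • chi ε0 ∧ m = -(2 * |n b| * σ) := by
  have hne : (-(2 * m)) • chi ε0 ≠ 0 := by
    rw [Ne, smul_eq_zero, not_or]
    exact ⟨fun h => hm (by linarith), chi_ne_zero ε0⟩
  have hx : ∀ x ∈ orb ⊤ b, ∃ h : G, n x = ((ε0 h : ℤ) : ℚ) * n b := by
    intro x hx
    obtain ⟨h, rfl⟩ := mem_orb_top.1 hx
    exact ⟨h, hε h b (self_mem_orb _ _)⟩
  have habs : ∀ x ∈ orb ⊤ b, |n x| = |n b| := by
    intro x hx'
    obtain ⟨h, hh⟩ := hx x hx'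
    rw [hh]
    rcases Int.units_eq_one_or (ε0 h) with e | e <;> rw [e] <;> simp
  have hnb : n b ≠ 0 := by
    intro h0
    apply hne
    rw [← hR]
    refine sum_eq_zero fun w hw => ?_
    obtain ⟨h, hh⟩ := hx w hw
    rw [hh, h0, mul_zero, zero_smul]
  obtain ⟨W, hWB, hW4, hWh, hcov, hn⟩ := pos_half hc hb h8 hodd habs hnb hε
  have hneg : ∀ w ∈ orb ⊤ b, -w ∈ orb ⊤ b := fun w hw => neg_mem_orb hb hc hw
  have h1 := sum_half hWB hneg hWh.neg hcov hodd
  have h2 : ∀ w ∈ W, n w • w = |n b| • w := fun w hw => by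
    rw [hn w (hWB hw), ce_one hw, Int.cast_one, mul_one]
  rw [sum_congr rfl h2, ← smul_sum, hR] at h1
  have hs : ∑ w ∈ W, w ≠ 0 := by
    intro h3
    apply hne
    rw [h1, h3, smul_zero, smul_zero]
  obtain ⟨σ, hσ, hσs⟩ := half_four hc hWh (fun w hw => (orb_isSys hb).wt w (hWB hw))
    (fun w hw => (idx_orb (hWB hw)).trans he) hW4 hs
  refine ⟨W, σ, hWB, hW4, hWh, hcov, hn, hσ, hσs, ?_⟩
  rw [hσs] at h1
  have h4 := congrFun h1 1
  simp only [Pi.smul_apply, smul_eq_mul, chi_one] at h4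
  linarith

private theorem ce_F {B W : Finset (G → ℚ)} (hWB : W ⊆ B) (hBn : ∀ w ∈ B, -w ∈ B)
    {χ : G → ℚ} (hχ : χ ≠ 0) (hχB : χ ∉ B) {g : (G → ℚ) → ℤ} (godd : ∀ w, g (-w) = - g w)
    {q σ : ℤ} (hg : ∀ w ∈ B, g w = q * ind W w) (hgχ : g χ = -(2 * q * σ))
    (hg0 : ∀ w, w ∉ B → w ≠ χ → w ≠ -χ → g w = 0) (w : G → ℚ) :
    q * (ind W w - 2 * σ * ind {χ} w) = g w := by
  have hχn : ∀ v ∈ ({χ} : Finset (G → ℚ)), -v ∉ ({χ} : Finset (G → ℚ)) := by
    intro v hv
    rw [mem_singleton] at hv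
    rw [mem_singleton, hv]
    exact neg_ne_self hχ
  by_cases hwB : w ∈ B
  · have h1 : ind {χ} w = 0 := ce_zero
      (fun h => hχB (by rw [mem_singleton] at h; rw [← h]; exact hwB))
      (fun h => hχB (by rw [mem_singleton] at h; rw [← h]; exact hBn w hwB))
    rw [h1, hg w hwB]
    ring
  · have h2 : ind W w = 0 := ce_zero (fun h => hwB (hWB h)) (fun h => hwB (by
      have h3 := hBn _ (hWB h)
      rwa [neg_neg] at h3))
    by_cases h3 : w = χ
    · rw [h2, h3, ce_one (mem_singleton_self χ), hgχ]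
      ring
    · by_cases h4 : w = -χ
      · rw [h2, h4, ce_neg hχn, ce_one (mem_singleton_self χ), godd, hgχ]
        ring
      · have h5 : ind {χ} w = 0 := ce_zero (fun h => h3 (mem_singleton.1 h))
          (fun h => h4 (by rw [← mem_singleton.1 h, neg_neg]))
        rw [h2, h5, hg0 w hwB h3 h4]
        ring

private theorem ce_eps {b : G → ℚ} {ε0 : G →* ℤˣ} {n : (G → ℚ) → ℚ}
    (h : ∀ h : G, ∀ w ∈ orb ⊤ b, n (tr h⁻¹ w) - ((ε0 h : ℤ) : ℚ) * n w = 0) :
    ∀ h : G, ∀ w ∈ orb ⊤ b, n (tr h w) = ((ε0 h : ℤ) : ℚ) * n w := by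
  intro k w hw
  have h1 := h k⁻¹ w hw
  rw [inv_inv, map_inv, Int.units_inv_eq_self] at h1
  linarith

private theorem ce_tr (hc : ∀ g, c * g = g * c) {ε : G →* ℤˣ} {W : Finset (G → ℚ)}
    (hW : IsHalf c ε W) (hw : ∀ w ∈ W, IsWeight D c w) {n : (G → ℚ) → ℚ}
    (hodd : ∀ w, n (-w) = - n w) (hs : ∑ w ∈ W, n w = 0) (h : G) :
    ∑ w ∈ W, n (tr h w) = 0 := by
  have hinv : ε h⁻¹ = ε h := by rw [map_inv, Int.units_inv_eq_self]
  rcases Int.units_eq_one_or (ε h) with e | e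
  · rw [← hs]
    refine sum_nbij' (fun w => tr h w) (fun w => tr h⁻¹ w) ?_ ?_ ?_ ?_ ?_
    · intro w hwW
      exact (half_tr hc hW hw h hwW).1 e
    · intro w hwW
      exact (half_tr hc hW hw h⁻¹ hwW).1 (hinv.trans e)
    · intro w _
      exact tr_inv_tr h w
    · intro w _
      exact tr_tr_inv h w
    · intro w _
      rfl
  · have h1 : ∑ w ∈ W, n (-tr h w) = 0 := by
      rw [← hs]
      refine sum_nbij' (fun w => -tr h w) (fun w => -tr h⁻¹ w) ?_ ?_ ?_ ?_ ?_
      · intro w hwW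
        exact (half_tr hc hW hw h hwW).2 e
      · intro w hwW
        exact (half_tr hc hW hw h⁻¹ hwW).2 (hinv.trans e)
      · intro w _
        show -tr h⁻¹ (-tr h w) = w
        rw [tr_neg, neg_neg, tr_inv_tr]
      · intro w _
        show -tr h (-tr h⁻¹ w) = w
        rw [tr_neg, neg_neg, tr_tr_inv]
      · intro w _
        rfl
    have h2 : ∑ w ∈ W, n (-tr h w) = -∑ w ∈ W, n (tr h w) := by
      rw [← sum_neg_distrib]
      exact sum_congr rfl fun w _ => hodd _
    rw [h1] at h2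
    linarith

theorem case_eight (hc : ∀ g, c * g = g * c) {X : Finset (G → ℚ)} (hX : IsSys D c X)
    {b : G → ℚ} (hb : b ∈ X) (hb0 : b ≠ 0) (h8 : (orb ⊤ b).card = 8)
    (hdim : ∑ w ∈ X, idx D w ≤ 10) {S : Multiset (G → ℚ)} (hS : ∀ w ∈ S, w ∈ X)
    (hE : Even S.card) (hsum : S.sum = 0) : Gen D c S := by
  classical
  have hwS : ∀ w ∈ S, IsWeight D c w := fun w hw => hX.wt w (hS w hw)
  refine gen_of_rea hc hwS hE ?_
  have hbw := hX.wt b hb
  have he : idx D b = 1 := by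
    have h1 := orb_le hX hb
    have h2 := idx_pos D b
    rw [h8] at h1
    omega
  have hBX : orb ⊤ b ⊆ X := orb_subset hX hb ⊤
  have hBn : ∀ w ∈ orb ⊤ b, -w ∈ orb ⊤ b := fun w hw => neg_mem_orb hbw hc hw
  have wtB : ∀ W : Finset (G → ℚ), W ⊆ orb ⊤ b → ∀ w ∈ W, IsWeight D c w :=
    fun W hW w hw => hX.wt w (hBX (hW hw))
  have idB : ∀ W : Finset (G → ℚ), W ⊆ orb ⊤ b → ∀ w ∈ W, idx D w = 1 :=
    fun W hW w hw => (idx_orb (hW hw)).trans he
  have frel := isRel_net hc hX hS hsum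
  have foff0 : ∀ w, w ∉ X → net S w = 0 := fun w hw => net_of_notMem hc hX hS hw
  have fodd0 : ∀ w, net S (-w) = - net S w := net_neg S
  have hpar : ∀ W : Finset (G → ℚ), (∀ w ∈ W, -w ∉ W) → (∀ w ∈ S, w ∈ W ∨ -w ∈ W) →
      Even (∑ w ∈ W, net S w) := fun W h1 h2 => even_sum_net h1 h2 hE
  obtain ⟨f, hf⟩ : ∃ f : (G → ℚ) → ℤ, f = net S := ⟨_, rfl⟩
  rw [← hf] at frel foff0 fodd0 hpar ⊢
  have indoff : ∀ W : Finset (G → ℚ), W ⊆ orb ⊤ b → ∀ w, w ∉ orb ⊤ b → ind W w = 0 :=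
    fun W hW w hw => ce_zero (fun h => hw (hW h)) (fun h => hw (by
      have h3 := hBn _ (hW h)
      rwa [neg_neg] at h3))
  have hvan : ∀ ρ : (G → ℚ) → ℚ, IsRel (orb ⊤ b) ρ → ρ b = 0 → ∀ w ∈ orb ⊤ b, ρ w = 0 := by
    intro ρ hρ h0 w hw
    have h1 := quad_abs hc hbw hb0 h8 he hρ w hw
    rw [h0, abs_zero, abs_eq_zero] at h1
    exact h1
  by_cases hA : ∀ x ∈ X, x ∉ orb ⊤ b → f x = 0
  · -- everything is in the orbit
    have foffB : ∀ w, w ∉ orb ⊤ b → f w = 0 := by
      intro w hw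
      by_cases hwX : w ∈ X
      · exact hA w hwX hw
      · exact foff0 w hwX
    have hrel : IsRel (orb ⊤ b) (fun w => (f w : ℚ)) := by
      refine ⟨frel.1, ?_⟩
      refine (sum_subset hBX fun w _ hw => ?_).trans frel.2
      show (f w : ℚ) • w = 0
      rw [foffB w hw, Int.cast_zero, zero_smul]
    by_cases hfb : f b = 0
    · have h1 := hvan _ hrel (by
        show (f b : ℚ) = 0
        rw [hfb, Int.cast_zero])
      refine Rea.zero.congr fun w => ?_
      by_cases hw : w ∈ orb ⊤ b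
      · have h2 : (f w : ℚ) = 0 := h1 w hw
        exact_mod_cast h2.symm
      · exact (foffB w hw).symm
    · obtain ⟨ε, W, hWB, hW4, hWh, hcov, hs, hfw⟩ := exists_quad hc hbw hb0 h8 he hrel
        (show (f b : ℚ) ≠ 0 by exact_mod_cast hfb)
      refine ((rea_half_zero hc hWh (wtB W hWB) (idB W hWB) (Or.inr (Or.inl hW4)) hs).smul hc
        |f b|).congr fun w => ?_
      by_cases hw : w ∈ orb ⊤ b
      · have h2 : (f w : ℚ) = |(f b : ℚ)| * (ind W w : ℚ) := hfw w hw
        exact_mod_cast h2.symm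
      · rw [indoff W hWB w hw, foffB w hw, mul_zero]
  · -- an element outside
    have hA' : ∃ x ∈ X, x ∉ orb ⊤ b ∧ f x ≠ 0 := by
      by_contra hcon
      apply hA
      intro x hx hxB
      by_contra h0
      exact hcon ⟨x, hx, hxB, h0⟩
    obtain ⟨x, hx, hxB, hfx⟩ := hA'
    have hx0 : x ≠ 0 := by
      intro h0
      apply hfx
      have h1 := fodd0 x
      rw [h0, neg_zero] at h1
      rw [h0]
      omega
    have hxw := hX.wt x hx
    have h1 := orb_add_le hX hb hx hxB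
    have h2 := two_le_card_orb hc hxw hx0
    have h3 := idx_pos D x
    rw [h8, he] at h1
    have hcard : (orb ⊤ x).card = 2 ∧ idx D x = 1 := by
      have h4 : (orb ⊤ x).card * idx D x ≤ 2 := by omega
      have h5 : (orb ⊤ x).card ≤ (orb ⊤ x).card * idx D x := Nat.le_mul_of_pos_right _ h3
      have h6 : (orb ⊤ x).card = 2 := by omega
      rw [h6] at h4
      exact ⟨h6, by omega⟩
    obtain ⟨ε0, hε0c, hε0D, hx2⟩ := exists_eps hc hxw hx0 hcard.1
    obtain ⟨χ, hχd⟩ : ∃ χ : G → ℚ, χ = chi ε0 := ⟨_, rfl⟩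
    have hχ0 : χ ≠ 0 := by
      rw [hχd]
      exact chi_ne_zero ε0
    have hxχ : x = χ ∨ x = -χ := by
      rw [← hχd] at hx2
      rcases (val_of_idx hc hxw hx0 hcard.1).1 hcard.2 with h4 | h4
      · left
        rw [hx2, h4]
        norm_num
      · right
        rw [hx2, h4]
        norm_num
    have hχX : χ ∈ X ∧ χ ∉ orb ⊤ b ∧ f χ ≠ 0 := by
      rcases hxχ with h4 | h4
      · rw [← h4]
        exact ⟨hx, hxB, hfx⟩
      · have h5 : χ = -x := by rw [h4, neg_neg]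
        refine ⟨by rw [h5]; exact hX.neg hc hx, fun h6 => hxB ?_, fun h6 => hfx ?_⟩
        · rw [h4]
          exact hBn _ h6
        · rw [h4, fodd0, h6, neg_zero]
    obtain ⟨hχX, hχB, hfχ⟩ := hχX
    have hnχB : -χ ∉ orb ⊤ b := fun h => hχB (by
      have h4 := hBn _ h
      rwa [neg_neg] at h4)
    have hχn : -χ ≠ χ := neg_ne_self hχ0
    have horb : orb ⊤ χ = {χ, -χ} := by
      rw [hχd]
      exact orb_chi hε0c
    have hall : ∀ y ∈ X, y ∈ orb ⊤ b ∨ y = χ ∨ y = -χ := by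
      intro y hy
      by_contra hcon
      rw [not_or, not_or] at hcon
      obtain ⟨h4, h5, h6⟩ := hcon
      have h7 : y ∉ orb ⊤ χ := by
        rw [horb, mem_insert, mem_singleton, not_or]
        exact ⟨h5, h6⟩
      have h8' := orb_add_add_le hX hb hχX hy hχB h4 h7
      have h9 : (orb ⊤ χ).card = 2 := by
        rw [hχd]
        exact card_orb_chi hε0c
      have h10 : idx D χ = 1 := by
        rw [hχd]
        exact idx_chi hε0D
      rw [h8, he, h9, h10] at h8'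
      have h11 := Nat.mul_pos (card_orb_pos (⊤ : Subgroup G) y) (idx_pos D y)
      omega
    have f0 : ∀ w, w ∉ orb ⊤ b → w ≠ χ → w ≠ -χ → f w = 0 := by
      intro w h4 h5 h6
      apply foff0
      intro h7
      rcases hall w h7 with h | h | h
      · exact h4 h
      · exact h5 h
      · exact h6 h
    have hR : ∑ w ∈ orb ⊤ b, (f w : ℚ) • w = (-(2 * (f χ : ℚ))) • chi ε0 := by
      have h4 : X = orb ⊤ b ∪ {χ, -χ} := by
        ext y
        rw [mem_union, mem_insert, mem_singleton]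
        constructor
        · exact hall y
        · rintro (h | h | h)
          · exact hBX h
          · rw [h]
            exact hχX
          · rw [h]
            exact hX.neg hc hχX
      have h5 : Disjoint (orb ⊤ b) ({χ, -χ} : Finset (G → ℚ)) := by
        rw [disjoint_left]
        intro y hy hy'
        rw [mem_insert, mem_singleton] at hy'
        rcases hy' with h | h
        · rw [h] at hy
          exact hχB hy
        · rw [h] at hy
          exact hnχB hy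
      have h6 : ∑ w ∈ X, (f w : ℚ) • w = 0 := frel.2
      rw [h4, sum_union h5, sum_pair (Ne.symm hχn), fodd0] at h6
      rw [← hχd]
      have h7 : ((-f χ : ℤ) : ℚ) • (-χ) = (f χ : ℚ) • χ := by
        push_cast
        rw [neg_smul, smul_neg, neg_neg]
      rw [h7] at h6
      rw [eq_neg_of_add_eq_zero_left h6]
      module
    have hm : (f χ : ℚ) ≠ 0 := by exact_mod_cast hfχ
    have fQ : ∀ w, ((f (-w) : ℤ) : ℚ) = -(f w : ℚ) := fun w => by
      rw [fodd0]
      push_cast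
      rfl
    by_cases hB1 : ∀ ρ : (G → ℚ) → ℚ, IsRel (orb ⊤ b) ρ → ρ b = 0
    · -- no relation in the orbit
      have hε := ce_eps (n := fun w => (f w : ℚ)) (fun h w hw => hvan _ (ce_rho fQ hR h)
        (hB1 _ (ce_rho fQ hR h)) w hw)
      obtain ⟨W, σ, hWB, hW4, hWh, hcov, hn, hσ, hσs, hmσ⟩ := ce_C hc hbw h8 he fQ hm hR hε
      refine ((rea_four hc hWh (wtB W hWB) (idB W hWB) hW4 hσ hσs).smul hc |f b|).congr
        fun w => ?_
      rw [← hχd]
      refine ce_F hWB hBn hχ0 hχB fodd0 (fun w hw => ?_) ?_ f0 w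
      · have h4 : (f w : ℚ) = |(f b : ℚ)| * (ind W w : ℚ) := hn w hw
        exact_mod_cast h4
      · have h4 : (f χ : ℚ) = -(2 * |(f b : ℚ)| * σ) := hmσ
        exact_mod_cast h4
    · have hB2 : ∃ ρ : (G → ℚ) → ℚ, IsRel (orb ⊤ b) ρ ∧ ρ b ≠ 0 := by
        by_contra hcon
        apply hB1
        intro ρ hρ
        by_contra h0
        exact hcon ⟨ρ, hρ, h0⟩
      obtain ⟨ρ0, hρ0, hρ0b⟩ := hB2
      obtain ⟨ε', W', hWB', hW4', hWh', hcov', hs', -⟩ := exists_quad hc hbw hb0 h8 he hρ0 hρ0b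
      obtain ⟨p, hp⟩ : ∃ p : ℚ, p = (∑ w ∈ W', (f w : ℚ)) / 4 := ⟨_, rfl⟩
      obtain ⟨n, hnd⟩ : ∃ n : (G → ℚ) → ℚ, n = fun w => (f w : ℚ) - p * (ind W' w : ℚ) :=
        ⟨_, rfl⟩
      have hnw : ∀ w, n w = (f w : ℚ) - p * (ind W' w : ℚ) := fun w => by rw [hnd]
      have nodd : ∀ w, n (-w) = - n w := by
        intro w
        rw [hnw, hnw, fQ, ce_neg hWh'.neg]
        push_cast
        ring
      have hs1 : ∀ w ∈ W', (ind W' w : ℚ) = 1 := fun w hw => by
        rw [ce_one hw, Int.cast_one]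
      have hsn : ∑ w ∈ W', n w = 0 := by
        have h4 : ∀ w ∈ W', n w = (f w : ℚ) - p := fun w hw => by
          rw [hnw, hs1 w hw, mul_one]
        rw [sum_congr rfl h4, sum_sub_distrib, sum_const, hW4', nsmul_eq_mul, hp]
        push_cast
        ring
      have hRn : ∑ w ∈ orb ⊤ b, n w • w = (-(2 * (f χ : ℚ))) • chi ε0 := by
        have h4 : ∀ w ∈ orb ⊤ b, n w • w = (f w : ℚ) • w - p • ((ind W' w : ℚ) • w) :=
          fun w _ => by rw [hnw, sub_smul, mul_smul]
        have h5 := sum_half hWB' hBn hWh'.neg hcov' (n := fun w => (ind W' w : ℚ)) (fun w => by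
          rw [ce_neg hWh'.neg]
          push_cast
          rfl)
        have h6 : ∀ w ∈ W', (ind W' w : ℚ) • w = w := fun w hw => by
          rw [hs1 w hw, one_smul]
        have h7 : ∑ w ∈ orb ⊤ b, (ind W' w : ℚ) • w = 0 := by
          refine h5.trans ?_
          rw [sum_congr rfl h6, hs', smul_zero]
        rw [sum_congr rfl h4, sum_sub_distrib, ← smul_sum, h7, smul_zero, sub_zero, hR]
      have hε0 : ∀ h : G, ∀ w ∈ orb ⊤ b, n (tr h⁻¹ w) - ((ε0 h : ℤ) : ℚ) * n w = 0 := by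
        intro h
        obtain ⟨t, ht⟩ := rel_unique hc hbw hb0 h8 he hWB' hWh' hcov' hs' (ce_rho nodd hRn h)
        have h4 : ∑ w ∈ W', (n (tr h⁻¹ w) - ((ε0 h : ℤ) : ℚ) * n w) = 0 := by
          rw [sum_sub_distrib, ← mul_sum, hsn,
            ce_tr hc hWh' (wtB W' hWB') nodd hsn h⁻¹, mul_zero, sub_zero]
        have h5 : ∀ w ∈ W', (n (tr h⁻¹ w) - ((ε0 h : ℤ) : ℚ) * n w) = t := fun w hw => by
          have h6 : n (tr h⁻¹ w) - ((ε0 h : ℤ) : ℚ) * n w = t * (ind W' w : ℚ) :=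
            ht w (hWB' hw)
          rw [h6, hs1 w hw, mul_one]
        rw [sum_congr rfl h5, sum_const, hW4', nsmul_eq_mul] at h4
        have h7 : t = 0 := by
          push_cast at h4
          linarith
        intro w hw
        have h8'' : n (tr h⁻¹ w) - ((ε0 h : ℤ) : ℚ) * n w = t * (ind W' w : ℚ) := ht w hw
        rw [h8'', h7, zero_mul]
      obtain ⟨W, σ, hWB, hW4, hWh, hcov, hn, hσ, hσs, hmσ⟩ :=
        ce_C hc hbw h8 he nodd hm hRn (ce_eps hε0)
      obtain ⟨q, hq⟩ : ∃ q : ℚ, q = |n b| := ⟨_, rfl⟩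
      rw [← hq] at hn hmσ
      have hq0 : q ≠ 0 := by
        intro h0
        apply hm
        rw [hmσ, h0]
        ring
      have hz : ∑ w ∈ W', (ind W w : ℚ) = 0 := by
        have h4 : ∑ w ∈ W', n w = q * ∑ w ∈ W', (ind W w : ℚ) := by
          rw [mul_sum]
          exact sum_congr rfl fun w hw => hn w (hWB' hw)
        rw [hsn] at h4
        exact (mul_eq_zero.1 h4.symm).resolve_left hq0
      have hsym : ∑ w ∈ W, (ind W' w : ℚ) = 0 := by
        have hev : ∀ w, (ind W (-w) : ℚ) * (ind W' (-w) : ℚ) = (ind W w : ℚ) * (ind W' w : ℚ) := by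
          intro w
          rw [ce_neg hWh.neg, ce_neg hWh'.neg]
          push_cast
          ring
        have h4 := ce_even hWB hBn hWh.neg hcov
          (e := fun w => (ind W w : ℚ) * (ind W' w : ℚ)) hev
        have h5 := ce_even hWB' hBn hWh'.neg hcov'
          (e := fun w => (ind W w : ℚ) * (ind W' w : ℚ)) hev
        have h6 : ∑ w ∈ W, (ind W w : ℚ) * (ind W' w : ℚ) = ∑ w ∈ W, (ind W' w : ℚ) :=
          sum_congr rfl fun w hw => by rw [ce_one hw, Int.cast_one, one_mul]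
        have h7 : ∑ w ∈ W', (ind W w : ℚ) * (ind W' w : ℚ) = ∑ w ∈ W', (ind W w : ℚ) :=
          sum_congr rfl fun w hw => by rw [hs1 w hw, mul_one]
        have h8' : 2 * ∑ w ∈ W, (ind W w : ℚ) * (ind W' w : ℚ) =
            2 * ∑ w ∈ W', (ind W w : ℚ) * (ind W' w : ℚ) := h4.symm.trans h5
        rw [h6, h7, hz] at h8'
        linarith
      have hsumW : ∑ w ∈ W, (f w : ℚ) = 4 * q := by
        have h4 : ∀ w ∈ W, (f w : ℚ) = q + p * (ind W' w : ℚ) := fun w hw => by
          have h5 := hnw w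
          rw [hn w (hWB hw), ce_one hw, Int.cast_one, mul_one] at h5
          linarith
        rw [sum_congr rfl h4, sum_add_distrib, ← mul_sum, hsym, sum_const, hW4, nsmul_eq_mul]
        push_cast
        ring
      have hχW : χ ∉ W := fun h => hχB (hWB h)
      have hev : Even (f χ + ∑ w ∈ W, f w) := by
        rw [← sum_insert hχW]
        refine hpar _ ?_ ?_
        · intro w hw
          rw [mem_insert] at hw ⊢
          rw [not_or]
          rcases hw with h | h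
          · rw [h]
            exact ⟨hχn, fun h' => hnχB (hWB h')⟩
          · refine ⟨fun h' => hχB ?_, hWh.neg w h⟩
            rw [← h']
            exact hBn _ (hWB h)
        · intro w hw
          rw [mem_insert, mem_insert]
          rcases hall w (hS w hw) with h | h | h
          · rcases hcov w h with h' | h'
            · exact Or.inl (Or.inr h')
            · exact Or.inr (Or.inr h')
          · exact Or.inl (Or.inl h)
          · refine Or.inr (Or.inl ?_)
            rw [h, neg_neg]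
      obtain ⟨z, hz2⟩ := hev
      have hz3 : (f χ : ℚ) + 4 * q = 2 * z := by
        have h4 : ((f χ + ∑ w ∈ W, f w : ℤ) : ℚ) = ((z + z : ℤ) : ℚ) := by rw [hz2]
        push_cast at h4
        rw [hsumW] at h4
        linarith
      have hq' : ∃ q' : ℤ, q = q' := by
        rcases hσ with h | h
        · refine ⟨z, ?_⟩
          rw [h] at hmσ
          push_cast at hmσ
          linarith
        · refine ⟨z - f χ, ?_⟩
          rw [h] at hmσ
          push_cast at hmσ ⊢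
          linarith
      obtain ⟨q', hq'⟩ := hq'
      have hp' : ∃ p' : ℤ, p = p' := by
        have h4 : W'.Nonempty := by
          rw [← card_pos, hW4']
          norm_num
        obtain ⟨w, hw⟩ := h4
        refine ⟨f w - q' * ind W w, ?_⟩
        have h5 := hnw w
        rw [hn w (hWB' hw), hs1 w hw, mul_one, hq'] at h5
        push_cast
        linarith
      obtain ⟨p', hp'⟩ := hp'
      refine (((rea_half_zero hc hWh' (wtB W' hWB') (idB W' hWB') (Or.inr (Or.inl hW4'))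
        hs').smul hc p').add ((rea_four hc hWh (wtB W hWB) (idB W hWB) hW4 hσ hσs).smul hc
        q')).congr fun w => ?_
      rw [← hχd]
      have h4 := ce_F hWB hBn hχ0 hχB (g := fun w => f w - p' * ind W' w) (q := q') (σ := σ)
        (fun w => by
          rw [fodd0, ce_neg hWh'.neg]
          ring)
        (fun w hw => by
          have h5 := hnw w
          rw [hn w hw, hq', hp'] at h5
          have h6 : (q' : ℚ) * (ind W w : ℚ) = (f w : ℚ) - (p' : ℚ) * (ind W' w : ℚ) := h5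
          exact_mod_cast h6.symm)
        (by
          rw [indoff W' hWB' χ hχB, mul_zero, sub_zero]
          rw [hq'] at hmσ
          exact_mod_cast hmσ)
        (fun w h5 h6 h7 => by
          rw [f0 w h5 h6 h7, indoff W' hWB' w h5, mul_zero, sub_zero]) w
      linarith

end Pool.Agent.AVF
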