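import Pool.Agent.AVF.NL
import Pool.Agent.AVF.GenB
import Pool.Agent.AVF.NetR
import Pool.Agent.AVF.SumO

/-!
# AVF: an orbit of 4 weights of index two
-/

set_option linter.unusedSectionVars false
set_option linter.unusedVariables false

namespace Pool.Agent.AVF

open Finset

variable {G : Type} [Group G] [Fintype G] {D : Subgroup G} {c : G}

/-- `D` fixes `a`, index two -/
private theorem cf_val {a : G → ℚ} (ha : IsWeight D c a) (hd : ∀ d ∈ D, tr d a = a)
    (he : idx D a = 2) : a 1 = 0 ∨ a 1 = 1 / 2 ∨ a 1 = -(1 / 2) := by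
  have h1 : orb D a = {a} := by
    ext x
    rw [mem_orb, mem_singleton]
    constructor
    · rintro ⟨h, hh, rfl⟩
      exact hd h hh
    · rintro rfl
      exact ⟨1, D.one_mem, tr_one _⟩
  obtain ⟨z, hz⟩ := idx_int_one D a
  rw [he, h1, card_singleton] at hz
  have h2 := abs_le.1 (ha.2.2 1)
  have h3 : 2 * a 1 + 1 = z := by
    rw [← hz]
    push_cast
    ring
  have h4 : (0 : ℚ) ≤ z := by rw [← h3]; linarith [h2.1]
  have h5 : (z : ℚ) ≤ 2 := by rw [← h3]; linarith [h2.2]
  have h6 : 0 ≤ z := by exact_mod_cast h4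
  have h7 : z ≤ 2 := by exact_mod_cast h5
  have h8 : z = 0 ∨ z = 1 ∨ z = 2 := by omega
  rcases h8 with h | h | h
  · right; right
    rw [h] at h3
    push_cast at h3
    linarith
  · left
    rw [h] at h3
    push_cast at h3
    linarith
  · right; left
    rw [h] at h3
    push_cast at h3
    linarith

private theorem cf_sum {W Y : Finset (G → ℚ)} (hW : ∀ w ∈ W, -w ∉ W)
    (hY : ∀ x, x ∈ Y ↔ x ∈ W ∨ -x ∈ W) (F : (G → ℚ) → (G → ℚ)) (hF : ∀ w, F (-w) = F w) :
    ∑ w ∈ Y, F w = ∑ w ∈ W, F w + ∑ w ∈ W, F w := by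
  classical
  have hY' : Y = W ∪ W.image (fun w => -w) := by
    ext x
    rw [hY, mem_union, mem_image]
    constructor
    · rintro (h | h)
      · exact Or.inl h
      · exact Or.inr ⟨-x, h, neg_neg x⟩
    · rintro (h | ⟨y, h, rfl⟩)
      · exact Or.inl h
      · exact Or.inr (by rwa [neg_neg])
  have hd : Disjoint W (W.image (fun w => -w)) := by
    rw [disjoint_left]
    intro x hx hx'
    obtain ⟨y, hy, rfl⟩ := mem_image.1 hx'
    exact hW y hy hx
  rw [hY', sum_union hd, sum_image (fun x _ y _ h => neg_injective h)]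
  simp only [hF]

private theorem cf_gen {ε : G →* ℤˣ} (hε : ε c = -1) (hD : ∀ d ∈ D, ε d = 1) {a b Z : G → ℚ}
    (ha : IsWeight D c a) (hb : IsWeight D c b) (hZ : Z = chi ε ∨ Z = -chi ε)
    (hia : idx D a = 2) (hib : idx D b = 2) (hiZ : idx D Z = 1) (hs : a + b + Z = 0)
    (hab : ∀ h, ε h = 1 → (tr h a = a ∧ tr h b = b) ∨ (tr h a = b ∧ tr h b = a))
    {M : Multiset (G → ℚ)} (hM : M = a ::ₘ b ::ₘ {Z}) : Gen D c (M + M) := by
  have hwZ : IsWeight D c Z := by
    rcases hZ with rfl | rfl
    · exact isWeight_chi hε hD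
    · exact (isWeight_chi hε hD).neg
  have hmem : ∀ w ∈ M + M, w = a ∨ w = b ∨ w = Z := by
    intro w hw
    rw [Multiset.mem_add, or_self, hM] at hw
    simpa using hw
  refine Gen.split ε hε hD (M + M) ?_ ?_ ?_ ?_ ?_
  · intro w hw
    rcases hmem w hw with rfl | rfl | rfl
    · exact ha
    · exact hb
    · exact hwZ
  · intro h hh
    have hZt : tr h Z = Z := by
      rcases hZ with rfl | rfl
      · rw [tr_chi, hh]; simp
      · rw [tr_neg, tr_chi, hh]; simp
    have hMt : M.map (tr h) = M := by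
      rw [hM, Multiset.map_cons, Multiset.map_cons, Multiset.map_singleton, hZt]
      rcases hab h hh with ⟨e1, e2⟩ | ⟨e1, e2⟩
      · rw [e1, e2]
      · rw [e1, e2, Multiset.cons_swap]
    rw [Multiset.map_add, hMt]
  · intro w hw
    rw [Multiset.count_add]
    rcases hmem w hw with e | e | e
    · rw [e, hia]
      exact ⟨_, (two_mul _).symm⟩
    · rw [e, hib]
      exact ⟨_, (two_mul _).symm⟩
    · rw [e, hiZ]
      exact one_dvd _
  · have h1 := congrFun hs 1
    simp only [Pi.add_apply, Pi.zero_apply] at h1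
    rw [Multiset.map_add, Multiset.sum_add, hM, Multiset.map_cons, Multiset.map_cons,
      Multiset.map_singleton, Multiset.sum_cons, Multiset.sum_cons, Multiset.sum_singleton]
    linarith
  · right
    constructor
    · rw [Multiset.card_add, hM]
      simp
    · have hZM : Z ∈ M + M := by
        rw [Multiset.mem_add, or_self, hM]
        simp
      rcases hZ with e | e
      · left
        rw [← e]
        exact hZM
      · right
        rw [← e]
        exact hZM

private theorem cf_core (hc : ∀ g, c * g = g * c) {a b : G → ℚ} (ha : IsWeight D c a)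
    (ha0 : a ≠ 0) (hb : b ∈ orb ⊤ a) (h1 : b ≠ a) (h2 : b ≠ -a)
    (ho : ∀ x : G → ℚ, x ∈ orb ⊤ a ↔ x = a ∨ x = -a ∨ x = b ∨ x = -b)
    (hia : idx D a = 2) {ε : G →* ℤˣ} (hε : ε c = -1) (hD : ∀ d ∈ D, ε d = 1)
    (hZo : chi ε ∉ orb ⊤ a) {f : (G → ℚ) → ℤ} (hodd : ∀ w, f (-w) = - f w)
    (hsupp : ∀ w, w ∉ orb ⊤ a → w ≠ chi ε → w ≠ -chi ε → f w = 0)
    (hfb : f b = f a) (hfa : f a ≠ 0)
    (hrel : (f a : ℚ) • a + (f b : ℚ) • b + (f (chi ε) : ℚ) • chi ε = 0)
    (hpar : Even (f (chi ε))) : Rea D c f := by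
  have hk : (f a : ℚ) ≠ 0 := by exact_mod_cast hfa
  rw [hfb] at hrel
  have hsm : (f a : ℚ) • (a + b) = -((f (chi ε) : ℚ) • chi ε) := by
    rw [eq_neg_iff_add_eq_zero, smul_add]
    exact hrel
  have hT : ∀ h, tr h (a + b) = ((ε h : ℤ) : ℚ) • (a + b) := by
    intro h
    apply smul_right_injective _ hk
    show (f a : ℚ) • tr h (a + b) = (f a : ℚ) • (((ε h : ℤ) : ℚ) • (a + b))
    rw [← tr_smul, hsm, smul_comm, hsm, tr_neg, tr_smul, tr_chi, smul_neg, smul_comm]
  have hs : ∀ h, tr h (a + b) = a + b ∨ tr h (a + b) = -(a + b) := by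
    intro h
    rw [hT h]
    rcases Int.units_eq_one_or (ε h) with e | e
    · left
      rw [e]
      simp
    · right
      rw [e, Units.val_neg, Units.val_one, Int.cast_neg, Int.cast_one, neg_one_smul]
  obtain ⟨hs', hDf, h3, h4⟩ := semi_trivial hc ha ha0 hb h1 h2 ho hs
  have hbw : IsWeight D c b := by
    obtain ⟨h, rfl⟩ := mem_orb_top.1 hb
    exact ha.tr h
  have hib : idx D b = 2 := by rw [idx_orb hb, hia]
  have va := cf_val ha (fun d hd => (hDf d hd).1) hia
  have vb := cf_val hbw (fun d hd => (hDf d hd).2) hib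
  have rel1 : (f a : ℚ) * (a 1 + b 1) + (f (chi ε) : ℚ) * (1 / 2) = 0 := by
    have h5 := congrFun hrel 1
    simp only [Pi.add_apply, Pi.smul_apply, smul_eq_mul, Pi.zero_apply, chi_one] at h5
    linarith
  have hσ : a 1 + b 1 = 1 / 2 ∨ a 1 + b 1 = -(1 / 2) := by
    rcases va with e1 | e1 | e1 <;> rcases vb with e2 | e2 | e2 <;>
    first
      | (exfalso; apply h3; rw [e1, e2]; norm_num; done)
      | (exfalso; apply h4; rw [e1, e2]; norm_num; done)
      | (left; rw [e1, e2]; norm_num; done)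
      | (right; rw [e1, e2]; norm_num)
  obtain ⟨Z, hZ, hfZ, hfc⟩ : ∃ Z, (Z = chi ε ∨ Z = -chi ε) ∧ f Z = f a ∧
      (f (chi ε) = f a ∨ f (chi ε) = - f a) := by
    rcases hσ with e | e
    · rw [e] at rel1
      have h5 : (f (chi ε) : ℚ) = ((- f a : ℤ) : ℚ) := by push_cast; linarith
      have h6 : f (chi ε) = - f a := by exact_mod_cast h5
      exact ⟨-chi ε, Or.inr rfl, by rw [hodd, h6, neg_neg], Or.inr h6⟩
    · rw [e] at rel1
      have h5 : (f (chi ε) : ℚ) = (f a : ℚ) := by linarith
      have h6 : f (chi ε) = f a := by exact_mod_cast h5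
      exact ⟨chi ε, Or.inl rfl, h6, Or.inl h6⟩
  have hZrel : (f (chi ε) : ℚ) • chi ε = (f a : ℚ) • Z := by
    rcases hZ with rfl | rfl
    · rw [hfZ]
    · have h5 : f (chi ε) = - f a := by
        rw [← hfZ, hodd, neg_neg]
      rw [h5, Int.cast_neg, neg_smul, smul_neg]
  have hsum : a + b + Z = 0 := by
    have h5 : (f a : ℚ) • (a + b + Z) = 0 := by
      rw [smul_add, smul_add, ← hZrel]
      exact hrel
    rcases smul_eq_zero.1 h5 with h6 | h6
    · exact absurd h6 hk
    · exact h6
  have hab : ∀ h, ε h = 1 → (tr h a = a ∧ tr h b = b) ∨ (tr h a = b ∧ tr h b = a) := by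
    intro h hh
    have e1 := hT h
    rw [hh, Units.val_one, Int.cast_one, one_smul, tr_add] at e1
    rcases hs' h with e2 | e2
    · left
      rw [tr_sub] at e2
      constructor
      · funext g
        have e3 := congrFun e1 g
        have e4 := congrFun e2 g
        simp only [Pi.add_apply, Pi.sub_apply] at e3 e4
        linarith
      · funext g
        have e3 := congrFun e1 g
        have e4 := congrFun e2 g
        simp only [Pi.add_apply, Pi.sub_apply] at e3 e4
        linarith
    · right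
      rw [tr_sub] at e2
      constructor
      · funext g
        have e3 := congrFun e1 g
        have e4 := congrFun e2 g
        simp only [Pi.add_apply, Pi.sub_apply, Pi.neg_apply] at e3 e4
        linarith
      · funext g
        have e3 := congrFun e1 g
        have e4 := congrFun e2 g
        simp only [Pi.add_apply, Pi.sub_apply, Pi.neg_apply] at e3 e4
        linarith
  have hiZ : idx D Z = 1 := by
    rcases hZ with rfl | rfl
    · exact idx_chi hD
    · rw [idx_neg (isWeight_chi hε hD) hc, idx_chi hD]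
  have hZ1 : Z ∉ orb ⊤ a := by
    rcases hZ with rfl | rfl
    · exact hZo
    · intro h
      apply hZo
      have h5 := neg_mem_orb ha hc h
      rwa [neg_neg] at h5
  have hZ2 : -Z ∉ orb ⊤ a := by
    intro h
    apply hZ1
    have h5 := neg_mem_orb ha hc h
    rwa [neg_neg] at h5
  have hZ0 : Z ≠ 0 := by
    rcases hZ with rfl | rfl
    · exact chi_ne_zero ε
    · exact neg_ne_zero.2 (chi_ne_zero ε)
  have hb0 : b ≠ 0 := orb_ne_zero ha0 hb
  have haa : a ∈ orb ⊤ a := self_mem_orb _ _
  have hev : Even (f a) := by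
    rcases hfc with h5 | h5
    · rwa [h5] at hpar
    · rw [h5] at hpar
      exact even_neg.1 hpar
  obtain ⟨r, hr⟩ := hev
  classical
  obtain ⟨W, hWd⟩ : ∃ W : Finset (G → ℚ), W = {a, b, Z} := ⟨_, rfl⟩
  have hmW : ∀ w, w ∈ W ↔ w = a ∨ w = b ∨ w = Z := by
    intro w
    rw [hWd, mem_insert, mem_insert, mem_singleton]
  have hval : W.val = a ::ₘ b ::ₘ {Z} := by
    rw [hWd, insert_val_of_notMem, insert_val_of_notMem, singleton_val]
    · rw [mem_singleton]
      rintro rfl
      exact hZ1 hb
    · rw [mem_insert, mem_singleton, not_or]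
      exact ⟨h1.symm, fun e => hZ1 (e ▸ haa)⟩
  have hW : ∀ w ∈ W, -w ∉ W := by
    intro w hw
    rw [hmW] at hw ⊢
    rw [not_or, not_or]
    rcases hw with rfl | rfl | rfl
    · exact ⟨neg_ne_self ha0, h2.symm, fun e => hZ2 (by rw [← e, neg_neg]; exact haa)⟩
    · exact ⟨fun e => h2 (by rw [← e, neg_neg]), neg_ne_self hb0,
        fun e => hZ2 (by rw [← e, neg_neg]; exact hb)⟩
    · exact ⟨fun e => hZ2 (e ▸ haa), fun e => hZ2 (e ▸ hb), neg_ne_self hZ0⟩
  have hgen := cf_gen hε hD ha hbw hZ hia hib hiZ hsum hab hval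
  refine (hgen.rea.smul hc r).congr fun w => ?_
  rw [net_add, net_val hW]
  have hin : ∀ w ∈ W, f w = r + r := by
    intro w hw
    rcases (hmW w).1 hw with e | e | e
    · rw [e, hr]
    · rw [e, hfb, hr]
    · rw [e, hfZ, hr]
  unfold ind
  split_ifs with h5 h6
  · rw [hin w h5]; ring
  · have h7 := hin (-w) h6
    rw [hodd] at h7
    linarith
  · symm
    rw [add_zero, mul_zero]
    apply hsupp
    · rw [ho]
      rw [hmW] at h5 h6
      push Not at h5 h6
      rintro (e | e | e | e)
      · exact h5.1 e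
      · exact h6.1 (by rw [e, neg_neg])
      · exact h5.2.1 e
      · exact h6.2.1 (by rw [e, neg_neg])
    · intro e
      rcases hZ with e2 | e2
      · exact h5 ((hmW w).2 (Or.inr (Or.inr (e.trans e2.symm))))
      · exact h6 ((hmW _).2 (Or.inr (Or.inr (by rw [e, e2]))))
    · intro e
      rcases hZ with e2 | e2
      · exact h6 ((hmW _).2 (Or.inr (Or.inr (by rw [e, e2, neg_neg]))))
      · exact h5 ((hmW w).2 (Or.inr (Or.inr (e.trans e2.symm))))

theorem case_four_two (hc : ∀ g, c * g = g * c) {X : Finset (G → ℚ)} (hX : IsSys D c X)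
    {a : G → ℚ} (ha : a ∈ X) (ha0 : a ≠ 0) (h4 : (orb ⊤ a).card = 4) (he : idx D a = 2)
    (hdim : ∑ w ∈ X, idx D w ≤ 10) {S : Multiset (G → ℚ)} (hS : ∀ w ∈ S, w ∈ X)
    (hE : Even S.card) (hsum : S.sum = 0) : Gen D c S := by
  classical
  have hwa := hX.wt a ha
  have hwS : ∀ w ∈ S, IsWeight D c w := fun w hw => hX.wt w (hS w hw)
  refine gen_of_rea hc hwS hE ?_
  obtain ⟨b, hb, hba, hbna, ho⟩ := orb_four hc hwa ha0 h4
  have hrel : ∑ w ∈ X, ((net S w : ℤ) : ℚ) • w = 0 := (isRel_net hc hX hS hsum).2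
  have hodd := net_neg S
  have hout : ∀ w, w ∉ X → net S w = 0 := fun w hw => net_of_notMem hc hX hS hw
  have hpar0 : ∀ W : Finset (G → ℚ), (∀ w ∈ W, -w ∉ W) → (∀ w ∈ S, w ∈ W ∨ -w ∈ W) →
      Even (∑ w ∈ W, net S w) := fun W h1 h2 => even_sum_net h1 h2 hE
  generalize net S = f at hrel hodd hout hpar0 ⊢
  have hn : ip a a = ip b b := (ip_orb hb).symm
  have haa : a ∈ orb ⊤ a := self_mem_orb _ _
  have hb0 : b ≠ 0 := orb_ne_zero ha0 hb
  have hbX : b ∈ X := orb_subset hX ha ⊤ hb
  have hFe : ∀ w : G → ℚ, ((f (-w) : ℤ) : ℚ) • (-w) = ((f w : ℤ) : ℚ) • w := by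
    intro w
    rw [hodd, Int.cast_neg, neg_smul, smul_neg, neg_neg]
  -- the case of a relation between `a` and `b`
  have hzero : ((f a : ℤ) : ℚ) • a + ((f b : ℤ) : ℚ) • b = 0 →
      (∀ w ∈ X, w ∉ orb ⊤ a → f w = 0) → Rea D c f := by
    intro h5 h6
    obtain ⟨h7, h8⟩ := indep ha0 hn hba hbna h5
    have h9 : f a = 0 := by exact_mod_cast h7
    have h10 : f b = 0 := by exact_mod_cast h8
    refine Rea.zero.congr fun w => ?_
    symm
    by_cases hw : w ∈ X
    · by_cases hwo : w ∈ orb ⊤ a
      · rcases (ho w).1 hwo with e | e | e | e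
        · rw [e, h9]
        · rw [e, hodd, h9, neg_zero]
        · rw [e, h10]
        · rw [e, hodd, h10, neg_zero]
      · exact h6 w hw hwo
    · exact hout w hw
  by_cases hex : ∃ x ∈ X, x ∉ orb ⊤ a ∧ x ≠ 0
  · obtain ⟨x, hx, hxo, hx0⟩ := hex
    have hwx := hX.wt x hx
    have h5 := orb_add_le hX ha hx hxo
    rw [h4, he] at h5
    have h6 := two_le_card_orb hc hwx hx0
    have h7 := idx_pos D x
    have h8 : (orb ⊤ x).card = 2 := by
      have h9 : (orb ⊤ x).card * 1 ≤ (orb ⊤ x).card * idx D x := Nat.mul_le_mul_left _ h7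
      omega
    have h9 : idx D x = 1 := by
      rw [h8] at h5
      omega
    obtain ⟨ε, hε, hD, hxe⟩ := exists_eps hc hwx hx0 h8
    have h10 := (val_of_idx hc hwx hx0 h8).1 h9
    have hxc : x = chi ε ∨ x = -chi ε := by
      rcases h10 with h | h
      · left
        rw [h] at hxe
        rw [hxe]
        norm_num
      · right
        rw [h] at hxe
        rw [hxe]
        norm_num
    have hcX : chi ε ∈ X := by
      rcases hxc with h | h
      · rw [← h]; exact hx
      · have h11 := hX.neg hc hx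
        rwa [h, neg_neg] at h11
    have hZo : chi ε ∉ orb ⊤ a := by
      rcases hxc with h | h
      · rw [← h]; exact hxo
      · intro h11
        apply hxo
        rw [h]
        exact neg_mem_orb hwa hc h11
    have hZo' : -chi ε ∉ orb ⊤ a := by
      intro h11
      apply hZo
      have h12 := neg_mem_orb hwa hc h11
      rwa [neg_neg] at h12
    have hXe : ∀ y ∈ X, y ∉ orb ⊤ a → y = chi ε ∨ y = -chi ε := by
      intro y hy hyo
      by_contra hcon
      rw [not_or] at hcon
      have hyx : y ∉ orb ⊤ x := by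
        rw [orb_two hc hwx hx0 h8]
        rcases hxc with h | h
        · rw [h]
          rintro (e | e)
          · exact hcon.1 e
          · exact hcon.2 e
        · rw [h]
          rintro (e | e)
          · exact hcon.2 e
          · exact hcon.1 (by rw [e, neg_neg])
      have h11 := orb_add_add_le hX ha hx hy hxo hyo hyx
      rw [h4, he, h8, h9] at h11
      have h12 := card_orb_pos (⊤ : Subgroup G) y
      have h13 := idx_pos D y
      have h14 : 0 < (orb ⊤ y).card * idx D y := Nat.mul_pos h12 h13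
      omega
    obtain ⟨W, hWd⟩ : ∃ W : Finset (G → ℚ), W = {a, b, chi ε} := ⟨_, rfl⟩
    have hmW : ∀ w, w ∈ W ↔ w = a ∨ w = b ∨ w = chi ε := by
      intro w
      rw [hWd, mem_insert, mem_insert, mem_singleton]
    have hn1 : b ∉ ({chi ε} : Finset (G → ℚ)) := by
      rw [mem_singleton]
      intro e
      exact hZo (e ▸ hb)
    have hn2 : a ∉ ({b, chi ε} : Finset (G → ℚ)) := by
      rw [mem_insert, mem_singleton, not_or]
      exact ⟨hba.symm, fun e => hZo (e ▸ haa)⟩
    have hW : ∀ w ∈ W, -w ∉ W := by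
      intro w hw
      rw [hmW] at hw ⊢
      rw [not_or, not_or]
      rcases hw with e3 | e3 | e3
      · rw [e3]
        exact ⟨neg_ne_self ha0, hbna.symm, fun e => hZo' (by rw [← e, neg_neg]; exact haa)⟩
      · rw [e3]
        exact ⟨fun e => hbna (by rw [← e, neg_neg]), neg_ne_self hb0,
          fun e => hZo' (by rw [← e, neg_neg]; exact hb)⟩
      · rw [e3]
        exact ⟨fun e => hZo' (e ▸ haa), fun e => hZo' (e ▸ hb), neg_ne_self (chi_ne_zero ε)⟩
    have hY : ∀ x, x ∈ X ↔ x ∈ W ∨ -x ∈ W := by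
      intro y
      constructor
      · intro hy
        rw [hmW, hmW]
        by_cases hyo : y ∈ orb ⊤ a
        · rcases (ho y).1 hyo with e | e | e | e
          · exact Or.inl (Or.inl e)
          · exact Or.inr (Or.inl (by rw [e, neg_neg]))
          · exact Or.inl (Or.inr (Or.inl e))
          · exact Or.inr (Or.inr (Or.inl (by rw [e, neg_neg])))
        · rcases hXe y hy hyo with e | e
          · exact Or.inl (Or.inr (Or.inr e))
          · exact Or.inr (Or.inr (Or.inr (by rw [e, neg_neg])))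
      · have hWX : ∀ w ∈ W, w ∈ X := by
          intro w hw
          rcases (hmW w).1 hw with e | e | e
          · rw [e]; exact ha
          · rw [e]; exact hbX
          · rw [e]; exact hcX
        rintro (h | h)
        · exact hWX y h
        · have h11 := hX.neg hc (hWX _ h)
          rwa [neg_neg] at h11
    have hsum2 : ((f a : ℤ) : ℚ) • a + ((f b : ℤ) : ℚ) • b +
        ((f (chi ε) : ℤ) : ℚ) • chi ε = 0 := by
      have h11 := cf_sum hW hY (fun w => ((f w : ℤ) : ℚ) • w) hFe
      rw [hrel, hWd, sum_insert hn2, sum_insert hn1, sum_singleton] at h11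
      have h12 := h11.symm
      rw [← two_smul ℚ] at h12
      rcases smul_eq_zero.1 h12 with h13 | h13
      · norm_num at h13
      · rw [add_assoc]
        exact h13
    have hpar : Even (f a + f b + f (chi ε)) := by
      have h11 := hpar0 W hW (fun w hw => (hY w).1 (hS w hw))
      rw [hWd, sum_insert hn2, sum_insert hn1, sum_singleton, ← add_assoc] at h11
      exact h11
    by_cases hZ : f (chi ε) = 0
    · apply hzero
      · rw [hZ, Int.cast_zero, zero_smul, add_zero] at hsum2
        exact hsum2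
      · intro w hw hwo
        rcases hXe w hw hwo with e | e
        · rw [e, hZ]
        · rw [e, hodd, hZ, neg_zero]
    · have hZq : ((f (chi ε) : ℤ) : ℚ) ≠ 0 := by exact_mod_cast hZ
      have hv1 : ((f a : ℤ) : ℚ) • a + ((f b : ℤ) : ℚ) • b =
          -(((f (chi ε) : ℤ) : ℚ) • chi ε) := eq_neg_of_add_eq_zero_left hsum2
      have hv0 : ((f a : ℤ) : ℚ) • a + ((f b : ℤ) : ℚ) • b ≠ 0 := by
        rw [hv1, neg_ne_zero]
        exact smul_ne_zero hZq (chi_ne_zero ε)
      have hvs : ∀ h, tr h (((f a : ℤ) : ℚ) • a + ((f b : ℤ) : ℚ) • b) =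
          ((f a : ℤ) : ℚ) • a + ((f b : ℤ) : ℚ) • b ∨
          tr h (((f a : ℤ) : ℚ) • a + ((f b : ℤ) : ℚ) • b) =
          -(((f a : ℤ) : ℚ) • a + ((f b : ℤ) : ℚ) • b) := by
        intro h
        rw [hv1, tr_neg, tr_smul, tr_chi]
        rcases Int.units_eq_one_or (ε h) with e | e
        · left
          rw [e]
          simp
        · right
          rw [e]
          simp
      obtain ⟨hα, hβ⟩ := semi_prop hc hwa ha0 hb hba hbna ho hv0 hvs
      have hfa : f a ≠ 0 := by exact_mod_cast hα
      have hsupp : ∀ w, w ∉ orb ⊤ a → w ≠ chi ε → w ≠ -chi ε → f w = 0 := by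
        intro w hw e1 e2
        by_cases hwX : w ∈ X
        · rcases hXe w hwX hw with e | e
          · exact absurd e e1
          · exact absurd e e2
        · exact hout w hwX
      rcases hβ with hβ | hβ
      · have hfb : f b = f a := by exact_mod_cast hβ
        refine cf_core hc hwa ha0 hb hba hbna ho he hε hD hZo hodd hsupp hfb hfa hsum2 ?_
        rw [hfb] at hpar
        exact (Int.even_add.1 hpar).1 ⟨_, rfl⟩
      · have hfb : f b = - f a := by
          have h11 : ((f b : ℤ) : ℚ) = ((- f a : ℤ) : ℚ) := by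
            rw [hβ]; push_cast; rfl
          exact_mod_cast h11
        have hb' : -b ∈ orb ⊤ a := neg_mem_orb hwa hc hb
        have hba' : -b ≠ a := fun e => hbna (by rw [← e, neg_neg])
        have hbna' : -b ≠ -a := fun e => hba (neg_injective e)
        have ho' : ∀ x : G → ℚ, x ∈ orb ⊤ a ↔ x = a ∨ x = -a ∨ x = -b ∨ x = -(-b) := by
          intro x
          rw [ho x, neg_neg, or_comm (a := x = b)]
        refine cf_core hc hwa ha0 hb' hba' hbna' ho' he hε hD hZo hodd hsupp ?_ hfa ?_ ?_
        · rw [hodd, hfb, neg_neg]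
        · rw [hFe b]
          exact hsum2
        · rw [hfb, add_neg_cancel, zero_add] at hpar
          exact hpar
  · push Not at hex
    have hn1 : a ∉ ({b} : Finset (G → ℚ)) := by
      rw [mem_singleton]
      exact hba.symm
    obtain ⟨W, hWd⟩ : ∃ W : Finset (G → ℚ), W = {a, b} := ⟨_, rfl⟩
    have hmW : ∀ w, w ∈ W ↔ w = a ∨ w = b := by
      intro w
      rw [hWd, mem_insert, mem_singleton]
    have hW : ∀ w ∈ W, -w ∉ W := by
      intro w hw
      rw [hmW] at hw ⊢
      rw [not_or]
      rcases hw with e3 | e3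
      · rw [e3]
        exact ⟨neg_ne_self ha0, hbna.symm⟩
      · rw [e3]
        exact ⟨fun e => hbna (by rw [← e, neg_neg]), neg_ne_self hb0⟩
    have hY : ∀ x, x ∈ orb ⊤ a ↔ x ∈ W ∨ -x ∈ W := by
      intro y
      rw [ho, hmW, hmW]
      constructor
      · rintro (e | e | e | e)
        · exact Or.inl (Or.inl e)
        · exact Or.inr (Or.inl (by rw [e, neg_neg]))
        · exact Or.inl (Or.inr e)
        · exact Or.inr (Or.inr (by rw [e, neg_neg]))
      · rintro ((e | e) | (e | e))
        · exact Or.inl e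
        · exact Or.inr (Or.inr (Or.inl e))
        · exact Or.inr (Or.inl (by rw [← e, neg_neg]))
        · exact Or.inr (Or.inr (Or.inr (by rw [← e, neg_neg])))
    apply hzero
    · have h11 := cf_sum hW hY (fun w => ((f w : ℤ) : ℚ) • w) hFe
      have h12 : ∑ w ∈ orb ⊤ a, ((f w : ℤ) : ℚ) • w = 0 := by
        rw [← hrel]
        refine sum_subset (orb_subset hX ha ⊤) fun w hw hwo => ?_
        rw [hex w hw hwo, smul_zero]
      rw [h12, hWd, sum_insert hn1, sum_singleton] at h11
      have h13 := h11.symm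
      rw [← two_smul ℚ] at h13
      rcases smul_eq_zero.1 h13 with h14 | h14
      · norm_num at h14
      · exact h14
    · intro w hw hwo
      have h11 := hodd 0
      rw [neg_zero] at h11
      rw [hex w hw hwo]
      omega

end Pool.Agent.AVF
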