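import Pool.Agent.AVF.NoRel
import Pool.Agent.AVF.GenB
import Pool.Agent.AVF.NetR
import Pool.Agent.AVF.SumO

/-! # AVF: no exotic weights -/

set_option linter.unusedSectionVars false
set_option linter.unusedVariables false

namespace Pool.Agent.AVF

open Finset

variable {G : Type} [Group G] [Fintype G] {D : Subgroup G} {c : G}

theorem case_norel (hc : ∀ g, c * g = g * c) {X : Finset (G → ℚ)} (hX : IsSys D c X)
    (he : ∀ w ∈ X, w ≠ 0 → idx D w = 1) (ho : ∀ w ∈ X, (orb ⊤ w).card ≤ 4)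
    (hdim : ∑ w ∈ X, idx D w ≤ 10)
    (hbad : ∀ u ∈ X, ∀ v ∈ X, u + v ∈ X →
      ¬ ((orb ⊤ u).card = 4 ∧ (orb ⊤ v).card = 4 ∧ (orb ⊤ (u + v)).card = 4))
    {S : Multiset (G → ℚ)} (hS : ∀ w ∈ S, w ∈ X) (hE : Even S.card) (hsum : S.sum = 0) :
    Gen D c S := by
  classical
  have hY : IsSys D c (X.erase 0) := by
    refine ⟨fun w hw => hX.wt w (mem_of_mem_erase hw), fun g w hw => ?_⟩
    refine mem_erase.2 ⟨fun e => ?_, hX.st g w (mem_of_mem_erase hw)⟩
    exact ne_of_mem_erase hw (tr_inj g (e.trans (tr_zero g).symm))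
  have hf : IsRel X fun w => (net S w : ℚ) := isRel_net hc hX hS hsum
  have hf0 : net S 0 = 0 := by
    have h := net_neg S 0
    rw [neg_zero] at h
    omega
  have hfY : IsRel (X.erase 0) fun w => (net S w : ℚ) := by
    refine ⟨hf.1, ?_⟩
    have h := sum_erase (f := fun w : G → ℚ => ((net S w : ℤ) : ℚ) • w) X (a := 0) (smul_zero _)
    exact h.trans hf.2
  have hcard : (X.erase 0).card ≤ 10 := card_erase_le.trans ((card_le_sum X).trans hdim)
  have h1 := no_rel hc hY (fun w hw => ne_of_mem_erase hw)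
    (fun w hw => he w (mem_of_mem_erase hw) (ne_of_mem_erase hw))
    (fun w hw => ho w (mem_of_mem_erase hw)) hcard
    (fun u hu v hv huv => hbad u (mem_of_mem_erase hu) v (mem_of_mem_erase hv)
      (mem_of_mem_erase huv)) hfY
  refine gen_of_net_zero (fun w hw => hX.wt w (hS w hw)) hE fun w => ?_
  by_cases hw0 : w = 0
  · rw [hw0]
    exact hf0
  by_cases hwX : w ∈ X
  · have h2 := h1 w (mem_erase.2 ⟨hw0, hwX⟩)
    exact_mod_cast h2
  · exact net_of_notMem hc hX hS hwX

end Pool.Agent.AVF
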