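import Pool.Agent.AVF.Bas

/-!
# AVF: definitions for cycles

Definitions only.
-/

set_option linter.unusedSectionVars false
set_option linter.unusedVariables false

namespace Pool.Agent.AVF

open Finset

variable {G : Type} [Group G] [Fintype G] {D : Subgroup G} {c : G}

/-- `C` is one cycle of `g`, through `b`. -/
structure IsCyc (g : G) (C : Finset (G → ℚ)) (b : G → ℚ) : Prop where
  mem : b ∈ C
  st : ∀ w ∈ C, tr g w ∈ C
  tran : ∀ w ∈ C, ∃ k : ℕ, tr (g ^ k) b = w

/-- A cycle of prime length `g` on half of the orbit of `b`, `g` being trivial on the rest of `X`. -/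
structure CycData (X : Finset (G → ℚ)) (b : G → ℚ) (g : G) (C : Finset (G → ℚ)) : Prop where
  cyc : IsCyc g C b
  prime : C.card.Prime
  neg : ∀ w ∈ C, -w ∉ C
  sub : C ⊆ orb ⊤ b
  cov : ∀ w ∈ orb ⊤ b, w ∈ C ∨ -w ∈ C
  rest : ∀ x ∈ X, x ∉ orb ⊤ b → tr g x = x

end Pool.Agent.AVF
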