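import Pool.Agent.AVF.Sz
import Pool.Agent.AVF.CycD

/-!
# AVF: an element of G which is an l-cycle on half of the orbit

By Cauchy there is an element of order `ℓ` in the image of `G` in the permutations of the orbit; it
has no fixed point, its cycle through `b` and the negative of this cycle are disjoint; a suitable
power is trivial on all small orbits.
-/

set_option linter.unusedSectionVars false
set_option linter.unusedVariables false

namespace Pool.Agent.AVF

open Finset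

variable {G : Type} [Group G] [Fintype G] {D : Subgroup G} {c : G}

private theorem cyc_iter (g : G) (k : ℕ) (x : G → ℚ) : (tr g)^[k] x = tr (g ^ k) x := by
  induction k generalizing x with
  | zero => simp
  | succ k ih => rw [Function.iterate_succ_apply, ih, ← tr_mul, pow_succ]

private theorem cyc_sq (hc : ∀ g, c * g = g * c) {x : G → ℚ} (hx : IsWeight D c x)
    (h4 : (orb ⊤ x).card ≤ 4) (h : G) : tr (h * h) x = x ∨ tr (h * h) x = -x := by
  by_cases h0 : x = 0
  · left
    rw [h0, tr_zero]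
  obtain ⟨k, hk⟩ := card_orb_even hc hx h0
  have hk0 := two_le_card_orb hc hx h0
  rcases Nat.lt_or_ge k 2 with h5 | h5
  · exact (orb_two hc hx h0 (by omega) _).1 (mem_orb_top.2 ⟨h * h, rfl⟩)
  · obtain ⟨v, hv, hv1, hv2, hor⟩ := orb_four hc hx h0 (by omega)
    have a := (hor _).1 (mem_orb_top.2 ⟨h, rfl⟩)
    have b := (hor _).1 (tr_mem_orb (Subgroup.mem_top h) hv)
    rw [tr_mul]
    rcases a with a | a | a | a
    · left
      rw [a, a]
    · left
      rw [a, tr_neg, a, neg_neg]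
    · rw [a]
      rcases b with b | b | b | b
      · exact Or.inl b
      · exact Or.inr b
      · exact absurd (tr_inj h (b.trans a.symm)) hv1
      · refine absurd (tr_inj h (u := v) (v := -x) ?_) hv2
        rw [b, tr_neg, a]
    · rw [a, tr_neg]
      rcases b with b | b | b | b
      · right
        rw [b]
      · left
        rw [b, neg_neg]
      · refine absurd (tr_inj h (u := v) (v := -x) ?_) hv2
        rw [b, tr_neg, a, neg_neg]
      · exact absurd (tr_inj h (b.trans a.symm)) hv1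

private theorem cyc_four (hc : ∀ g, c * g = g * c) {x : G → ℚ} (hx : IsWeight D c x)
    (h4 : (orb ⊤ x).card ≤ 4) (h : G) : tr (h ^ 4) x = x := by
  have e : h ^ 4 = (h * h) * (h * h) := by
    rw [← pow_two, ← pow_two, ← pow_mul]
  rw [e, tr_mul]
  rcases cyc_sq hc hx h4 h with h1 | h1
  · rw [h1, h1]
  · rw [h1, tr_neg, h1, neg_neg]

private theorem cyc_exists (hc : ∀ g, c * g = g * c) {b : G → ℚ} (hb : IsWeight D c b)
    (h0 : b ≠ 0) {ℓ : ℕ} (hℓ : ℓ.Prime) (h2 : ℓ ≠ 2) (hcard : (orb ⊤ b).card = 2 * ℓ) :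
    ∃ g1 : G, (∀ x ∈ orb ⊤ b, tr (g1 ^ ℓ) x = x) ∧ ∀ x ∈ orb ⊤ b, tr g1 x ≠ x := by
  classical
  have hF : Fact ℓ.Prime := ⟨hℓ⟩
  let ρ : G →* Equiv.Perm ↥(orb ⊤ b) :=
    { toFun := fun g =>
        { toFun := fun x => ⟨tr g x.1, tr_mem_orb (Subgroup.mem_top g) x.2⟩
          invFun := fun x => ⟨tr g⁻¹ x.1, tr_mem_orb (Subgroup.mem_top _) x.2⟩
          left_inv := fun x => Subtype.ext (tr_inv_tr g x.1)
          right_inv := fun x => Subtype.ext (tr_tr_inv g x.1) }
      map_one' := Equiv.ext fun x => Subtype.ext (tr_one x.1)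
      map_mul' := fun g h => Equiv.ext fun x => Subtype.ext (tr_mul g h x.1) }
  have hρ : ∀ g (x : ↥(orb ⊤ b)), (ρ g x).1 = tr g x.1 := fun g x => rfl
  have hdvd : ℓ ∣ Nat.card ρ.range := by
    have h1 : MulAction.orbit ρ.range (⟨b, self_mem_orb ⊤ b⟩ : ↥(orb ⊤ b)) = Set.univ := by
      rw [Set.eq_univ_iff_forall]
      intro x
      obtain ⟨h, -, hx⟩ := mem_orb.1 x.2
      exact ⟨⟨ρ h, h, rfl⟩, Subtype.ext hx⟩
    have h3 := Subgroup.index_dvd_card (MulAction.stabilizer ρ.range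
      (⟨b, self_mem_orb ⊤ b⟩ : ↥(orb ⊤ b)))
    rw [MulAction.index_stabilizer, h1, Set.ncard_univ, Nat.card_eq_fintype_card,
      Fintype.card_coe, hcard] at h3
    exact (Dvd.intro_left 2 rfl).trans h3
  obtain ⟨r, hr⟩ := exists_prime_orderOf_dvd_card' ℓ hdvd
  have ho : orderOf (r.1) = ℓ := by
    rw [Subgroup.orderOf_coe]
    exact hr
  obtain ⟨g1, hg1⟩ := MonoidHom.mem_range.1 r.2
  rw [← hg1] at ho
  have hpow : ρ g1 ^ ℓ = 1 := by
    rw [← ho]
    exact pow_orderOf_eq_one _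
  refine ⟨g1, fun x hx => ?_, ?_⟩
  · have h5 : ρ (g1 ^ ℓ) = 1 := by rw [map_pow, hpow]
    have h6 := hρ (g1 ^ ℓ) ⟨x, hx⟩
    rw [h5] at h6
    exact h6.symm
  · have h7 : ℓ ∣ (ρ g1).supportᶜ.card := by
      have h8 := Equiv.Perm.card_compl_support_modEq (p := ℓ) (n := 1) (σ := ρ g1)
        (by rw [pow_one, hpow])
      rw [Fintype.card_coe, hcard] at h8
      exact (Nat.modEq_zero_iff_dvd).1 (h8.trans (Nat.modEq_zero_iff_dvd.2 (Dvd.intro_left 2 rfl)))
    have hfix : ∀ x : ↥(orb ⊤ b), x ∈ (ρ g1).supportᶜ ↔ tr g1 x.1 = x.1 := by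
      intro x
      rw [mem_compl, Equiv.Perm.mem_support, not_not, Subtype.ext_iff, hρ]
    have h8 : 2 ∣ (ρ g1).supportᶜ.card := by
      have h : ∑ _x ∈ (ρ g1).supportᶜ, (1 : ZMod 2) = 0 := by
        refine Finset.sum_involution (fun x _ => ⟨-x.1, neg_mem_orb hb hc x.2⟩) ?_ ?_ ?_ ?_
        · intro x _
          exact CharTwo.add_self_eq_zero (1 : ZMod 2)
        · intro x hx _ e
          exact neg_ne_self (orb_ne_zero h0 x.2) (congrArg Subtype.val e)
        · intro x hx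
          rw [hfix] at hx ⊢
          rw [tr_neg, hx]
        · intro x _
          exact Subtype.ext (neg_neg x.1)
      rw [Finset.sum_const, nsmul_one] at h
      exact even_iff_two_dvd.1 ((ZMod.natCast_eq_zero_iff_even).1 h)
    have h9 : 2 * ℓ ∣ (ρ g1).supportᶜ.card :=
      ((Nat.coprime_primes Nat.prime_two hℓ).2 (Ne.symm h2)).mul_dvd_of_dvd_of_dvd h8 h7
    have h10 : (ρ g1).supportᶜ.card ≤ 2 * ℓ := by
      have := card_le_univ (ρ g1).supportᶜ
      rwa [Fintype.card_coe, hcard] at this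
    have h11 : (ρ g1).supportᶜ.card = 0 := by
      by_contra hne
      have h12 := Nat.le_of_dvd (Nat.pos_of_ne_zero hne) h9
      have h13 : (ρ g1).supportᶜ = univ := by
        rw [← card_eq_iff_eq_univ, Fintype.card_coe, hcard]
        omega
      have h14 : ρ g1 = 1 := by
        refine Equiv.ext fun x => Subtype.ext ?_
        have := (hfix x).1 (by rw [h13]; exact mem_univ x)
        exact this
      rw [h14, orderOf_one] at ho
      exact hℓ.one_lt.ne ho
    intro x hx e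
    rw [card_eq_zero] at h11
    have := (hfix ⟨x, hx⟩).2 e
    rw [h11] at this
    exact notMem_empty _ this

theorem exists_cyc (hc : ∀ g, c * g = g * c) {b : G → ℚ} (hb : IsWeight D c b) (h0 : b ≠ 0)
    {ℓ : ℕ} (hℓ : ℓ.Prime) (h2 : ℓ ≠ 2) (hcard : (orb ⊤ b).card = 2 * ℓ) :
    ∃ (g : G) (C : Finset (G → ℚ)), IsCyc g C b ∧ C.card = ℓ ∧ (∀ w ∈ C, -w ∉ C) ∧
      C ⊆ orb ⊤ b ∧ (∀ w ∈ orb ⊤ b, w ∈ C ∨ -w ∈ C) ∧
      ∀ x : G → ℚ, IsWeight D c x → (orb ⊤ x).card ≤ 4 → tr g x = x := by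
  classical
  obtain ⟨g1, hp, hnf⟩ := cyc_exists hc hb h0 hℓ h2 hcard
  have hbB := self_mem_orb ⊤ b
  have hper : Function.minimalPeriod (tr g1) b = ℓ := by
    have h1 : Function.IsPeriodicPt (tr g1) ℓ b := by
      show (tr g1)^[ℓ] b = b
      rw [cyc_iter]
      exact hp b hbB
    have h3 := h1.minimalPeriod_dvd
    rcases (Nat.dvd_prime hℓ).1 h3 with h4 | h4
    · exfalso
      rw [Function.minimalPeriod_eq_one_iff_isFixedPt] at h4
      exact hnf b hbB h4
    · exact h4
  have hmod : ∀ k, tr (g1 ^ (k % ℓ)) b = tr (g1 ^ k) b := by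
    intro k
    rw [← cyc_iter, ← cyc_iter]
    have h1 := Function.iterate_mod_minimalPeriod_eq (f := tr g1) (x := b) (n := k)
    rw [hper] at h1
    exact h1
  obtain ⟨C, hC⟩ : ∃ C : Finset (G → ℚ), C = (range ℓ).image fun k => tr (g1 ^ k) b := ⟨_, rfl⟩
  have hmem : ∀ k, tr (g1 ^ k) b ∈ C := by
    intro k
    rw [← hmod, hC, mem_image]
    exact ⟨k % ℓ, mem_range.2 (Nat.mod_lt _ hℓ.pos), rfl⟩
  have hmem' : ∀ w ∈ C, ∃ k, tr (g1 ^ k) b = w := by
    intro w hw
    rw [hC, mem_image] at hw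
    obtain ⟨k, -, hk⟩ := hw
    exact ⟨k, hk⟩
  have hCcard : C.card = ℓ := by
    rw [hC, card_image_of_injOn, card_range]
    intro i hi j hj hij
    have h1 := Function.iterate_injOn_Iio_minimalPeriod (f := tr g1) (x := b)
    rw [hper] at h1
    have h3 : (tr g1)^[i] b = (tr g1)^[j] b := by
      rw [cyc_iter, cyc_iter]
      exact hij
    exact h1 (by simpa using hi) (by simpa using hj) h3
  have hCsub : C ⊆ orb ⊤ b := by
    intro w hw
    obtain ⟨k, rfl⟩ := hmem' w hw
    exact mem_orb_top.2 ⟨_, rfl⟩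
  have hneg : ∀ w ∈ C, -w ∉ C := by
    intro w hw hw'
    obtain ⟨i, hi⟩ := hmem' w hw
    obtain ⟨j, hj⟩ := hmem' _ hw'
    have hcl : ∀ v ∈ C, -v ∈ C := by
      intro v hv
      obtain ⟨k, hk⟩ := hmem' v hv
      have h1 : v = tr (g1 ^ (k + (ℓ - i % ℓ))) w := by
        rw [← hi, ← tr_mul, ← pow_add, ← hk, ← hmod, ← hmod (k + (ℓ - i % ℓ) + i)]
        congr 2
        have h5 : i % ℓ < ℓ := Nat.mod_lt _ hℓ.pos
        have h6 : ℓ * (i / ℓ) + i % ℓ = i := Nat.div_add_mod i ℓ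
        have h7 : k + (ℓ - i % ℓ) + i = k + ℓ * (i / ℓ + 1) := by
          rw [mul_add, mul_one]
          omega
        rw [h7, Nat.add_mul_mod_self_left]
      have h3 : -v = tr (g1 ^ (k + (ℓ - i % ℓ) + j)) b := by
        rw [pow_add, tr_mul, hj, tr_neg, ← h1]
      rw [h3]
      exact hmem _
    have h : ∑ _x ∈ C, (1 : ZMod 2) = 0 := by
      refine Finset.sum_involution (fun x _ => -x) ?_ ?_ ?_ ?_
      · intro x _
        exact CharTwo.add_self_eq_zero (1 : ZMod 2)
      · intro x hx _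
        exact neg_ne_self (orb_ne_zero h0 (hCsub hx))
      · intro x hx
        exact hcl x hx
      · intro x _
        exact neg_neg x
    rw [Finset.sum_const, nsmul_one, hCcard] at h
    have h3 := even_iff_two_dvd.1 ((ZMod.natCast_eq_zero_iff_even).1 h)
    rcases (Nat.dvd_prime hℓ).1 h3 with h4 | h4
    · omega
    · exact h2 h4.symm
  have hcov : ∀ w ∈ orb ⊤ b, w ∈ C ∨ -w ∈ C := by
    have h1 : C ∪ C.image (fun x => -x) = orb ⊤ b := by
      refine eq_of_subset_of_card_le ?_ ?_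
      · intro w hw
        rcases mem_union.1 hw with h3 | h3
        · exact hCsub h3
        · obtain ⟨x, hx, rfl⟩ := mem_image.1 h3
          exact neg_mem_orb hb hc (hCsub hx)
      · rw [card_union_of_disjoint, card_image_of_injective _ neg_injective, hCcard, hcard]
        · omega
        · rw [disjoint_left]
          intro w hw hw'
          obtain ⟨x, hx, rfl⟩ := mem_image.1 hw'
          exact hneg x hx hw
    intro w hw
    rw [← h1] at hw
    rcases mem_union.1 hw with h3 | h3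
    · exact Or.inl h3
    · obtain ⟨x, hx, rfl⟩ := mem_image.1 h3
      right
      rw [neg_neg]
      exact hx
  -- the power
  have hcop : Nat.Coprime ℓ 4 := by
    have h1 : Nat.Coprime ℓ 2 := (Nat.coprime_primes hℓ Nat.prime_two).2 h2
    exact Nat.Coprime.pow_right 2 h1
  obtain ⟨N, hN1, hN4⟩ := Nat.chineseRemainder hcop 1 0
  have hN4' : 4 ∣ N := (Nat.modEq_zero_iff_dvd).1 hN4
  obtain ⟨M, hM⟩ := hN4'
  have hpowN : ∀ k, tr ((g1 ^ N) ^ k) b = tr (g1 ^ k) b := by
    intro k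
    rw [← pow_mul, ← hmod, ← hmod k]
    congr 2
    have h1 : N * k ≡ 1 * k [MOD ℓ] := hN1.mul_right k
    rw [one_mul] at h1
    exact h1
  refine ⟨g1 ^ N, C, ⟨?_, ?_, ?_⟩, hCcard, hneg, hCsub, hcov, ?_⟩
  · have := hmem 0
    rwa [pow_zero, tr_one] at this
  · intro w hw
    obtain ⟨k, rfl⟩ := hmem' w hw
    rw [← tr_mul, ← pow_add]
    exact hmem _
  · intro w hw
    obtain ⟨k, hk⟩ := hmem' w hw
    exact ⟨k, by rw [hpowN, hk]⟩
  · intro x hx h4
    have e : g1 ^ N = (g1 ^ M) ^ 4 := by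
      rw [← pow_mul, hM, mul_comm]
    rw [e]
    exact cyc_four hc hx h4 _

end Pool.Agent.AVF
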