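import Pool.Agent.AVF.NoRel
import Pool.Agent.AVF.Cyc
import Pool.Agent.AVF.Half
import Pool.Agent.AVF.GenH
import Pool.Agent.AVF.SumO

/-!
# AVF: orbits of 6 or 10 weights
-/

set_option linter.unusedSectionVars false
set_option linter.unusedVariables false

namespace Pool.Agent.AVF

open Finset

variable {G : Type} [Group G] [Fintype G] {D : Subgroup G} {c : G}

private theorem cp_ind_of_mem {W : Finset (G → ℚ)} {w : G → ℚ} (h : w ∈ W) : ind W w = 1 := by
  unfold ind
  rw [if_pos h]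

private theorem cp_ind_of_neg {W : Finset (G → ℚ)} {w : G → ℚ} (h : w ∉ W) (h' : -w ∈ W) :
    ind W w = -1 := by
  unfold ind
  rw [if_neg h, if_pos h']

private theorem cp_ind_zero {W : Finset (G → ℚ)} {w : G → ℚ} (h : w ∉ W) (h' : -w ∉ W) :
    ind W w = 0 := by
  unfold ind
  rw [if_neg h, if_neg h']

private theorem cp_net_zero (S : Multiset (G → ℚ)) : net S 0 = 0 := by
  have h := net_neg S 0
  rw [neg_zero] at h
  omega

private theorem cp_ind_chi_odd (ε : G →* ℤˣ) (w : G → ℚ) :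
    ind {chi ε} (-w) = - ind {chi ε} w := by
  have h0 := neg_ne_self (chi_ne_zero ε)
  by_cases h1 : w = chi ε
  · subst h1
    rw [cp_ind_of_mem (mem_singleton_self _), cp_ind_of_neg]
    · rw [mem_singleton]
      exact h0
    · rw [neg_neg]
      exact mem_singleton_self _
  · by_cases h2 : -w = chi ε
    · rw [cp_ind_of_mem (mem_singleton.2 h2), cp_ind_of_neg (by rwa [mem_singleton])
        (mem_singleton.2 h2)]
      rfl
    · rw [cp_ind_zero (by rwa [mem_singleton]) (by rwa [neg_neg, mem_singleton]),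
        cp_ind_zero (by rwa [mem_singleton]) (by rwa [mem_singleton])]
      rfl

theorem case_prime (hc : ∀ g, c * g = g * c) {X : Finset (G → ℚ)} (hX : IsSys D c X)
    {b : G → ℚ} (hb : b ∈ X) (hb0 : b ≠ 0) (h610 : (orb ⊤ b).card = 6 ∨ (orb ⊤ b).card = 10)
    (hdim : ∑ w ∈ X, idx D w ≤ 10)
    (hbad : ∀ u ∈ X, ∀ v ∈ X, u + v ∈ X →
      ¬ ((orb ⊤ u).card = 4 ∧ (orb ⊤ v).card = 4 ∧ (orb ⊤ (u + v)).card = 4))
    {S : Multiset (G → ℚ)} (hS : ∀ w ∈ S, w ∈ X) (hE : Even S.card) (hsum : S.sum = 0) :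
    Gen D c S := by
  classical
  refine gen_of_rea hc (fun w hw => hX.wt w (hS w hw)) hE ?_
  have hrel := isRel_net hc hX hS hsum
  have hle := orb_le hX hb
  have hib : idx D b = 1 := by
    have h1 := idx_pos D b
    have h2 : (orb ⊤ b).card * idx D b ≤ 10 := hle.trans hdim
    by_contra hne
    have h3 : 2 ≤ idx D b := by omega
    have h4 := Nat.mul_le_mul_left (orb ⊤ b).card h3
    omega
  -- the other weights
  have hoth : ∀ x ∈ X, x ∉ orb ⊤ b → (orb ⊤ b).card = 6 ∧ (orb ⊤ x).card * idx D x ≤ 4 := by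
    intro x hx hxb
    have h1 := orb_add_le hX hb hx hxb
    rw [hib, mul_one] at h1
    have h2 : 0 < (orb ⊤ x).card * idx D x := Nat.mul_pos (card_orb_pos ⊤ x) (idx_pos D x)
    omega
  have hoth4 : ∀ x ∈ X, x ∉ orb ⊤ b → (orb ⊤ x).card ≤ 4 := by
    intro x hx hxb
    have h1 := (hoth x hx hxb).2
    have h2 := Nat.le_mul_of_pos_right (orb ⊤ x).card (idx_pos D x)
    omega
  have hoth1 : ∀ x ∈ X, x ∉ orb ⊤ b → x ≠ 0 → idx D x = 1 := by
    intro x hx hxb hx0
    have h1 := (hoth x hx hxb).2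
    have h2 := two_le_card_orb hc (hX.wt x hx) hx0
    have h3 := idx_pos D x
    by_contra hne
    have h4 : 2 ≤ idx D x := by omega
    have h5 : (orb ⊤ x).card * 2 ≤ (orb ⊤ x).card * idx D x := Nat.mul_le_mul_left _ h4
    have h6 : (orb ⊤ x).card = 2 := by omega
    have h7 : idx D x = 2 := by
      rw [h6] at h1
      omega
    exact (val_of_idx hc (hX.wt x hx) hx0 h6).2.1 h7
  obtain ⟨ℓ, hℓ, hℓ2, hcard, hℓ35⟩ : ∃ ℓ : ℕ, ℓ.Prime ∧ ℓ ≠ 2 ∧ (orb ⊤ b).card = 2 * ℓ ∧
      (ℓ = 3 ∨ ℓ = 5) := by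
    rcases h610 with h | h
    · exact ⟨3, by norm_num, by norm_num, h, Or.inl rfl⟩
    · exact ⟨5, by norm_num, by norm_num, h, Or.inr rfl⟩
  obtain ⟨g, C, hcyc, hCcard, hCneg, hCsub, hCcov, hgfix⟩ :=
    exists_cyc hc (hX.wt b hb) hb0 hℓ hℓ2 hcard
  have hCD : CycData X b g C :=
    ⟨hcyc, by rw [hCcard]; exact hℓ, hCneg, hCsub, hCcov, fun x hx hxb =>
      hgfix x (hX.wt x hx) (hoth4 x hx hxb)⟩
  have hconst := rel_const hc hX hb hCD hrel
  obtain ⟨m, hm⟩ : ∃ m : ℤ, m = net S b := ⟨_, rfl⟩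
  have hfC : ∀ w ∈ C, net S w = m := by
    intro w hw
    have h1 : ((net S w : ℤ) : ℚ) = ((net S b : ℤ) : ℚ) := hconst w hw
    rw [hm]
    exact_mod_cast h1
  have hfC' : ∀ w, -w ∈ C → net S w = -m := by
    intro w hw
    have h1 := hfC (-w) hw
    rw [net_neg] at h1
    omega
  have horbX : orb ⊤ b ⊆ X := orb_subset hX hb ⊤
  have hforb : ∀ w ∈ orb ⊤ b, net S w = m * ind C w := by
    intro w hw
    rcases hCcov w hw with h1 | h1
    · rw [hfC w h1, cp_ind_of_mem h1, mul_one]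
    · have h2 : w ∉ C := fun h => hCneg w h h1
      rw [hfC' w h1, cp_ind_of_neg h2 h1, mul_neg, mul_one]
  have hindC : ∀ w, w ∉ orb ⊤ b → ind C w = 0 := by
    intro w hw
    refine cp_ind_zero (fun h => hw (hCsub h)) fun h => hw ?_
    have h1 := neg_mem_orb (hX.wt b hb) hc (hCsub h)
    rwa [neg_neg] at h1
  obtain ⟨Y, hY⟩ : ∃ Y : Finset (G → ℚ), Y = X.filter fun x => x ∉ orb ⊤ b ∧ x ≠ 0 := ⟨_, rfl⟩
  have hYmem : ∀ x, x ∈ Y ↔ x ∈ X ∧ x ∉ orb ⊤ b ∧ x ≠ 0 := by
    intro x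
    rw [hY, mem_filter]
  have hYsys : IsSys D c Y := by
    refine ⟨fun w hw => hX.wt w ((hYmem w).1 hw).1, fun h w hw => ?_⟩
    obtain ⟨h1, h2, h3⟩ := (hYmem w).1 hw
    refine (hYmem _).2 ⟨hX.st h w h1, fun h4 => h2 ?_, fun h4 => h3 ?_⟩
    · have h5 := tr_mem_orb (Subgroup.mem_top h⁻¹) h4
      rwa [tr_inv_tr] at h5
    · exact tr_inj h (by rw [h4, tr_zero])
  have hY0 : ∀ w ∈ Y, w ≠ 0 := fun w hw => ((hYmem w).1 hw).2.2
  have hY1 : ∀ w ∈ Y, idx D w = 1 := fun w hw =>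
    hoth1 w ((hYmem w).1 hw).1 ((hYmem w).1 hw).2.1 ((hYmem w).1 hw).2.2
  have hY4 : ∀ w ∈ Y, (orb ⊤ w).card ≤ 4 := fun w hw =>
    hoth4 w ((hYmem w).1 hw).1 ((hYmem w).1 hw).2.1
  have hYcard : Y.card ≤ 4 := by
    have h1 := sum_orb hX hb
    rw [hib, mul_one] at h1
    have h2 := card_le_sum (D := D) Y
    have h3 : ∑ x ∈ Y, idx D x ≤ ∑ x ∈ X.filter (fun x => x ∉ orb ⊤ b), idx D x := by
      refine sum_le_sum_of_subset fun x hx => ?_
      exact mem_filter.2 ⟨((hYmem x).1 hx).1, ((hYmem x).1 hx).2.1⟩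
    omega
  have hYbad : ∀ u ∈ Y, ∀ v ∈ Y, u + v ∈ Y →
      ¬ ((orb ⊤ u).card = 4 ∧ (orb ⊤ v).card = 4 ∧ (orb ⊤ (u + v)).card = 4) :=
    fun u hu v hv huv => hbad u ((hYmem u).1 hu).1 v ((hYmem v).1 hv).1 ((hYmem _).1 huv).1
  have hfrest : ∀ w, w ∉ orb ⊤ b → w ∉ Y → net S w = 0 := by
    intro w h1 h2
    by_cases h3 : w ∈ X
    · have h4 : w = 0 := by
        by_contra h4
        exact h2 ((hYmem w).2 ⟨h3, h1, h4⟩)
      rw [h4]
      exact cp_net_zero S
    · exact net_of_notMem hc hX hS h3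
  -- the relation
  have hrel2 : (2 * m : ℚ) • ∑ w ∈ C, w + ∑ w ∈ Y, (net S w : ℚ) • w = 0 := by
    have h1 : ∑ w ∈ X, (net S w : ℚ) • w = 0 := hrel.2
    have h2 : ∑ w ∈ X, (net S w : ℚ) • w = ∑ w ∈ orb ⊤ b ∪ Y, (net S w : ℚ) • w := by
      symm
      refine sum_subset (union_subset horbX fun x hx => ((hYmem x).1 hx).1) ?_
      intro w hw hw'
      rw [mem_union, not_or] at hw'
      rw [hfrest w hw'.1 hw'.2, Int.cast_zero, zero_smul]
    have h3 : Disjoint (orb ⊤ b) Y := by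
      rw [disjoint_left]
      intro x hx hx'
      exact ((hYmem x).1 hx').2.1 hx
    rw [h2, sum_union h3] at h1
    have h4 := sum_half (n := fun w => (net S w : ℚ)) hCsub
      (fun w hw => neg_mem_orb (hX.wt b hb) hc hw) hCneg hCcov hrel.1
    have h5 : ∑ w ∈ C, (net S w : ℚ) • w = (m : ℚ) • ∑ w ∈ C, w := by
      rw [smul_sum]
      exact sum_congr rfl fun w hw => by rw [hfC w hw]
    have h6 : ∑ w ∈ orb ⊤ b, (net S w : ℚ) • w = (2 * m : ℚ) • ∑ w ∈ C, w := by
      rw [mul_smul, ← h5]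
      exact h4
    rw [h6] at h1
    exact h1
  -- if the sum over `Y` is zero
  have hYzero : (2 * m : ℚ) • ∑ w ∈ C, w = 0 → ∀ w, w ∉ orb ⊤ b → net S w = 0 := by
    intro h w hw
    rw [h, zero_add] at hrel2
    by_cases hwY : w ∈ Y
    · have h1 := no_rel hc hYsys hY0 hY1 hY4 (by omega) hYbad
        (n := fun w => (net S w : ℚ)) ⟨hrel.1, hrel2⟩ w hwY
      exact_mod_cast h1
    · exact hfrest w hw hwY
  by_cases hm0 : m = 0
  · have h1 := hYzero (by rw [hm0]; simp)
    refine Rea.zero.congr fun w => ?_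
    by_cases hw : w ∈ orb ⊤ b
    · rw [hforb w hw, hm0, zero_mul]
    · rw [h1 w hw]
  obtain ⟨ε, hε⟩ := exists_half hc hX hb hCD hrel (by
    show ((net S b : ℤ) : ℚ) ≠ 0
    rw [← hm]
    exact_mod_cast hm0)
  have hCw : ∀ w ∈ C, IsWeight D c w := fun w hw => hX.wt w (horbX (hCsub hw))
  have hC1 : ∀ w ∈ C, idx D w = 1 := fun w hw => by rw [idx_orb (hCsub hw), hib]
  by_cases hs : ∑ w ∈ C, w = 0
  · have h1 := hYzero (by rw [hs, smul_zero])
    have h2 := rea_half_zero hc hε hCw hC1 (by rw [hCcard]; omega) hs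
    refine (h2.smul hc m).congr fun w => ?_
    by_cases hw : w ∈ orb ⊤ b
    · rw [hforb w hw]
    · rw [h1 w hw, hindC w hw, mul_zero]
  -- the sum over the half is not zero
  have hℓ3 : ℓ = 3 := by
    rcases hℓ35 with h | h
    · exact h
    · exfalso
      have h1 : Y = ∅ := by
        rw [eq_empty_iff_forall_notMem]
        intro x hx
        have h2 := (hoth x ((hYmem x).1 hx).1 ((hYmem x).1 hx).2.1).1
        omega
      rw [h1, sum_empty, add_zero] at hrel2
      rcases smul_eq_zero.1 hrel2 with h2 | h2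
      · apply hm0
        have h3 : (m : ℚ) = 0 := by linarith
        exact_mod_cast h3
      · exact hs h2
  obtain ⟨σ, hσ, hsσ⟩ := half_three hc hε hCw hC1 (by rw [hCcard, hℓ3]) hs
  have hDε := half_D hc hε hCw hs
  have hχw : IsWeight D c (chi ε) := isWeight_chi hε.epsc hDε
  have hχ2 : (orb ⊤ (chi ε)).card = 2 := card_orb_chi hε.epsc
  have hχ2' : (orb ⊤ (-chi ε)).card = 2 := by rw [card_orb_neg, hχ2]
  have hχ0 := chi_ne_zero ε
  obtain ⟨Y', hY'⟩ : ∃ Y' : Finset (G → ℚ), Y' = Y ∪ {chi ε, -chi ε} := ⟨_, rfl⟩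
  have hY'mem : ∀ x, x ∈ Y' ↔ x ∈ Y ∨ x = chi ε ∨ x = -chi ε := by
    intro x
    rw [hY', mem_union, mem_insert, mem_singleton]
  have horb6 : (orb ⊤ b).card = 6 := by omega
  have hχb : ∀ x, x = chi ε ∨ x = -chi ε → x ∉ orb ⊤ b := by
    intro x hx hxb
    have h1 := congrArg Finset.card (orb_eq hxb)
    rcases hx with rfl | rfl <;> omega
  have hY'sys : IsSys D c Y' := by
    refine ⟨fun w hw => ?_, fun h w hw => ?_⟩
    · rcases (hY'mem w).1 hw with h1 | rfl | rfl
      · exact hYsys.wt w h1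
      · exact hχw
      · exact hχw.neg
    · rcases (hY'mem w).1 hw with h1 | rfl | rfl
      · exact (hY'mem _).2 (Or.inl (hYsys.st h w h1))
      · refine (hY'mem _).2 (Or.inr ?_)
        rw [tr_chi]
        rcases Int.units_eq_one_or (ε h) with e | e
        · left
          rw [e]
          simp
        · right
          rw [e]
          simp
      · refine (hY'mem _).2 (Or.inr ?_)
        rw [tr_neg, tr_chi]
        rcases Int.units_eq_one_or (ε h) with e | e
        · right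
          rw [e]
          simp
        · left
          rw [e]
          simp
  have hY'0 : ∀ w ∈ Y', w ≠ 0 := by
    intro w hw
    rcases (hY'mem w).1 hw with h1 | rfl | rfl
    · exact hY0 w h1
    · exact hχ0
    · exact neg_ne_zero.2 hχ0
  have hY'1 : ∀ w ∈ Y', idx D w = 1 := by
    intro w hw
    rcases (hY'mem w).1 hw with h1 | rfl | rfl
    · exact hY1 w h1
    · exact idx_chi hDε
    · rw [idx_neg hχw hc]
      exact idx_chi hDε
  have hY'4 : ∀ w ∈ Y', (orb ⊤ w).card ≤ 4 := by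
    intro w hw
    rcases (hY'mem w).1 hw with h1 | rfl | rfl
    · exact hY4 w h1
    · omega
    · omega
  have hY'card : Y'.card ≤ 10 := by
    have h1 := card_union_le Y {chi ε, -chi ε}
    have h2 : ({chi ε, -chi ε} : Finset (G → ℚ)).card ≤ 2 := card_le_two
    rw [← hY'] at h1
    omega
  have hback : ∀ u ∈ Y', (orb ⊤ u).card = 4 → u ∈ X := by
    intro u hu h4
    rcases (hY'mem u).1 hu with h1 | rfl | rfl
    · exact ((hYmem u).1 h1).1
    · omega
    · omega
  have hY'bad : ∀ u ∈ Y', ∀ v ∈ Y', u + v ∈ Y' →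
      ¬ ((orb ⊤ u).card = 4 ∧ (orb ⊤ v).card = 4 ∧ (orb ⊤ (u + v)).card = 4) := by
    intro u hu v hv huv h
    exact hbad u (hback u hu h.1) v (hback v hv h.2.1) (hback _ huv h.2.2) h
  obtain ⟨n', hn'⟩ : ∃ n' : (G → ℚ) → ℚ, n' = fun w =>
    (if w ∈ Y then (net S w : ℚ) else 0) + (m * σ : ℚ) * (ind {chi ε} w : ℤ) := ⟨_, rfl⟩
  have hn'rel : IsRel Y' n' := by
    refine ⟨fun w => ?_, ?_⟩
    · rw [hn']
      show (if -w ∈ Y then (net S (-w) : ℚ) else 0) + (m * σ : ℚ) * (ind {chi ε} (-w) : ℤ) =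
        -((if w ∈ Y then (net S w : ℚ) else 0) + (m * σ : ℚ) * (ind {chi ε} w : ℤ))
      have h1 : -w ∈ Y ↔ w ∈ Y := by
        constructor
        · intro h
          have h2 := hYsys.neg hc h
          rwa [neg_neg] at h2
        · exact fun h => hYsys.neg hc h
      rw [cp_ind_chi_odd, net_neg]
      by_cases h2 : w ∈ Y
      · rw [if_pos h2, if_pos (h1.2 h2)]
        push_cast
        ring
      · rw [if_neg h2, if_neg (fun h => h2 (h1.1 h))]
        push_cast
        ring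
    · have h1 : ∑ w ∈ Y', n' w • w = ∑ w ∈ Y', (if w ∈ Y then (net S w : ℚ) else 0) • w +
          ∑ w ∈ Y', ((m * σ : ℚ) * (ind {chi ε} w : ℤ)) • w := by
        rw [← sum_add_distrib, hn']
        exact sum_congr rfl fun w _ => add_smul _ _ _
      have h2 : ∑ w ∈ Y', (if w ∈ Y then (net S w : ℚ) else 0) • w =
          ∑ w ∈ Y, (net S w : ℚ) • w := by
        symm
        have h3 : ∑ w ∈ Y, (net S w : ℚ) • w =
            ∑ w ∈ Y, (if w ∈ Y then (net S w : ℚ) else 0) • w :=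
          sum_congr rfl fun w hw => by rw [if_pos hw]
        rw [h3]
        refine sum_subset (fun x hx => (hY'mem x).2 (Or.inl hx)) ?_
        intro w _ hw
        rw [if_neg hw, zero_smul]
      have h3 : ∑ w ∈ Y', ((m * σ : ℚ) * (ind {chi ε} w : ℤ)) • w =
          ∑ w ∈ ({chi ε, -chi ε} : Finset (G → ℚ)), ((m * σ : ℚ) * (ind {chi ε} w : ℤ)) • w := by
        symm
        refine sum_subset (fun x hx => ?_) ?_
        · rw [mem_insert, mem_singleton] at hx
          exact (hY'mem x).2 (Or.inr hx)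
        · intro w _ hw
          rw [mem_insert, mem_singleton, not_or] at hw
          rw [cp_ind_zero (by rw [mem_singleton]; exact hw.1) (by
            rw [mem_singleton]
            intro h
            apply hw.2
            rw [← h, neg_neg]), Int.cast_zero, mul_zero, zero_smul]
      rw [h1, h2, h3, sum_pair (chi_ne_neg ε ε), cp_ind_chi_odd,
        cp_ind_of_mem (mem_singleton_self _)]
      rw [hsσ, smul_smul] at hrel2
      have h4 : ∑ w ∈ Y, (net S w : ℚ) • w = -((2 * m * σ : ℚ) • chi ε) :=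
        eq_neg_of_add_eq_zero_right hrel2
      rw [h4]
      push_cast
      module
  have hn'0 := no_rel hc hY'sys hY'0 hY'1 hY'4 hY'card hY'bad hn'rel
  have hfin : ∀ w, w ∉ orb ⊤ b → net S w = -(m * σ * ind {chi ε} w) := by
    intro w hw
    by_cases hwY' : w ∈ Y'
    · have h1 := hn'0 w hwY'
      rw [hn'] at h1
      have h2 : (if w ∈ Y then (net S w : ℚ) else 0) = (net S w : ℚ) := by
        by_cases h3 : w ∈ Y
        · rw [if_pos h3]
        · rw [if_neg h3, hfrest w hw h3, Int.cast_zero]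
      have h4 : (net S w : ℚ) + (m * σ : ℚ) * (ind {chi ε} w : ℤ) = 0 := by
        rw [← h2]
        exact h1
      have h5 : net S w + m * σ * ind {chi ε} w = 0 := by exact_mod_cast h4
      omega
    · have h1 := hwY'
      rw [hY'mem, not_or, not_or] at h1
      rw [hfrest w hw h1.1, cp_ind_zero (by rw [mem_singleton]; exact h1.2.1) (by
        rw [mem_singleton]
        intro h
        apply h1.2.2
        rw [← h, neg_neg]), mul_zero, neg_zero]
  have h3 := rea_three hc hε hCw hC1 (by rw [hCcard, hℓ3]) hσ hsσ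
  refine (h3.smul hc m).congr fun w => ?_
  by_cases hw : w ∈ orb ⊤ b
  · have h4 : ind {chi ε} w = 0 := by
      refine cp_ind_zero (fun h => ?_) fun h => ?_
      · rw [mem_singleton] at h
        exact hχb w (Or.inl h) hw
      · rw [mem_singleton] at h
        refine hχb w (Or.inr ?_) hw
        rw [← h, neg_neg]
    rw [hforb w hw, h4]
    ring
  · rw [hfin w hw, hindC w hw]
    ring

end Pool.Agent.AVF
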