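import Pool.Agent.AVF.NoRel
import Pool.Agent.AVF.GenB
import Pool.Agent.AVF.NetR
import Pool.Agent.AVF.SumO

/-!
# AVF: an orbit of 2 weights of index at least three
-/

set_option linter.unusedSectionVars false
set_option linter.unusedVariables false

namespace Pool.Agent.AVF

open Finset

variable {G : Type} [Group G] [Fintype G] {D : Subgroup G} {c : G}

private theorem sing_neg {v : G → ℚ} (hv : v ≠ 0) :
    ∀ w ∈ ({v} : Finset (G → ℚ)), -w ∉ ({v} : Finset (G → ℚ)) := by
  intro w hw h
  rw [mem_singleton] at hw h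
  subst hw
  exact neg_ne_self hv h

private theorem ind_odd {v : G → ℚ} (hv : v ≠ 0) (w : G → ℚ) : ind {v} (-w) = -ind {v} w := by
  rw [← net_val (sing_neg hv), ← net_val (sing_neg hv), net_neg]

private theorem ind_self (v : G → ℚ) : ind {v} v = 1 := by
  unfold ind
  rw [if_pos (mem_singleton_self v)]

private theorem ind_off {v w : G → ℚ} (h1 : w ≠ v) (h2 : w ≠ -v) : ind {v} w = 0 := by
  unfold ind
  rw [if_neg (by rwa [mem_singleton]), if_neg]
  rw [mem_singleton]
  intro h
  exact h2 (by rw [← h, neg_neg])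

/-- the relation -/
private theorem rel_two (hc : ∀ g, c * g = g * c) {X : Finset (G → ℚ)} (hX : IsSys D c X)
    {b : G → ℚ} (hb : b ∈ X) (hb0 : b ≠ 0) (h2 : (orb ⊤ b).card = 2) (he : 3 ≤ idx D b)
    (hdim : ∑ w ∈ X, idx D w ≤ 10)
    (hbad : ∀ u ∈ X, ∀ v ∈ X, u + v ∈ X →
      ¬ ((orb ⊤ u).card = 4 ∧ (orb ⊤ v).card = 4 ∧ (orb ⊤ (u + v)).card = 4))
    {ε : G →* ℤˣ} (hε : ε c = -1) (hεD : ∀ d ∈ D, ε d = 1) (hbe : b = (2 * b 1) • chi ε)
    {S : Multiset (G → ℚ)} (hS : ∀ w ∈ S, w ∈ X) (hsum : S.sum = 0) :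
    (net S (chi ε) : ℚ) = -(2 * b 1 * net S b) ∧
      ∀ w, w ≠ b → w ≠ -b → w ≠ chi ε → w ≠ -chi ε → net S w = 0 := by
  classical
  have hbw := hX.wt b hb
  have hχ0 := chi_ne_zero ε
  have hχi : idx D (chi ε) = 1 := idx_chi hεD
  have hχw : IsWeight D c (chi ε) := isWeight_chi hε hεD
  have hib : idx D (-b) = idx D b := idx_neg hbw hc
  have hχb : chi ε ≠ b := by
    intro h
    rw [h] at hχi
    omega
  have hχb' : chi ε ≠ -b := by
    intro h
    rw [h] at hχi
    omega
  have horb : ∀ x, x ∈ orb ⊤ b ↔ x = b ∨ x = -b := orb_two hc hbw hb0 h2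
  have horbχ : ∀ x, x ∈ orb ⊤ (chi ε) ↔ x = chi ε ∨ x = -chi ε := by
    intro x
    rw [orb_chi hε, mem_insert, mem_singleton]
  have hnX : ∀ w, w ∉ X → net S w = 0 := fun w hw => net_of_notMem hc hX hS hw
  have hrel := isRel_net hc hX hS hsum
  have hn0 : net S 0 = 0 := by
    have := net_neg S 0
    rw [neg_zero] at this
    omega
  -- the other weights
  have hY : ∀ x ∈ X, x ≠ 0 → x ∉ orb ⊤ b → idx D x = 1 ∧ (orb ⊤ x).card ≤ 4 := by
    intro x hx hx0 hxb
    have h3 := orb_add_le hX hb hx hxb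
    rw [h2] at h3
    have h4 := two_le_card_orb hc (hX.wt x hx) hx0
    have h5 := idx_pos D x
    have h6 : (orb ⊤ x).card * idx D x ≤ 4 := by omega
    have h7 : idx D x ≤ 2 := by
      have := Nat.mul_le_mul_right (idx D x) h4
      omega
    rcases (by omega : idx D x = 1 ∨ idx D x = 2) with h8 | h8
    · rw [h8] at h6
      exact ⟨h8, by omega⟩
    · rw [h8] at h6
      have h9 : (orb ⊤ x).card = 2 := by omega
      exact absurd h8 (val_of_idx hc (hX.wt x hx) hx0 h9).2.1
  set Y : Finset (G → ℚ) := X.filter fun w => w ≠ 0 ∧ w ∉ orb ⊤ b with hYdef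
  have memY : ∀ w, w ∈ Y ↔ w ∈ X ∧ (w ≠ 0 ∧ w ∉ orb ⊤ b) := fun w => by
    rw [hYdef, mem_filter]
  have stY : ∀ g, ∀ w ∈ Y, tr g w ∈ Y := by
    intro g w hw
    obtain ⟨h3, h4, h5⟩ := (memY w).1 hw
    refine (memY _).2 ⟨hX.st g w h3, ?_, ?_⟩
    · intro h
      exact h4 (tr_inj g (by simpa using h))
    · intro h
      refine h5 ?_
      have h6 := tr_mem_orb (Subgroup.mem_top g⁻¹) h
      rwa [tr_inv_tr] at h6
  set Y' : Finset (G → ℚ) := Y ∪ orb ⊤ (chi ε) with hY'def
  have memY' : ∀ w, w ∈ Y' ↔ w ∈ Y ∨ w ∈ orb ⊤ (chi ε) := fun w => by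
    rw [hY'def, mem_union]
  have hYχ : ∀ w ∈ orb ⊤ (chi ε), w ∈ X → w ∈ Y := by
    intro w hw hwX
    refine (memY w).2 ⟨hwX, orb_ne_zero hχ0 hw, fun h => ?_⟩
    have h3 := idx_orb (D := D) hw
    have h4 := idx_orb (D := D) h
    omega
  have hsys : IsSys D c Y' := by
    refine ⟨fun w hw => ?_, fun g w hw => ?_⟩
    · rcases (memY' w).1 hw with h | h
      · exact hX.wt w ((memY w).1 h).1
      · exact (orb_isSys hχw).wt w h
    · rcases (memY' w).1 hw with h | h
      · exact (memY' _).2 (Or.inl (stY g w h))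
      · exact (memY' _).2 (Or.inr ((orb_isSys hχw).st g w h))
  have h0' : ∀ w ∈ Y', w ≠ 0 := by
    intro w hw
    rcases (memY' w).1 hw with h | h
    · exact ((memY w).1 h).2.1
    · exact orb_ne_zero hχ0 h
  have he' : ∀ w ∈ Y', idx D w = 1 := by
    intro w hw
    rcases (memY' w).1 hw with h | h
    · obtain ⟨h3, h4, h5⟩ := (memY w).1 h
      exact (hY w h3 h4 h5).1
    · rw [idx_orb (D := D) h, hχi]
  have ho' : ∀ w ∈ Y', (orb ⊤ w).card ≤ 4 := by
    intro w hw
    rcases (memY' w).1 hw with h | h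
    · obtain ⟨h3, h4, h5⟩ := (memY w).1 h
      exact (hY w h3 h4 h5).2
    · rw [orb_eq h, card_orb_chi hε]
      omega
  have hcard : Y'.card ≤ 10 := by
    have h3 : Y'.card ≤ Y.card + (orb ⊤ (chi ε)).card := card_union_le _ _
    rw [card_orb_chi hε] at h3
    have h4 := sum_orb hX hb
    rw [h2] at h4
    have h5 : Y.card ≤ ∑ x ∈ Y, idx D x := card_le_sum Y
    have h6 : ∑ x ∈ Y, idx D x ≤ ∑ x ∈ X.filter (fun x => x ∉ orb ⊤ b), idx D x := by
      refine sum_le_sum_of_subset ?_
      intro w hw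
      obtain ⟨h3, h4, h5⟩ := (memY w).1 hw
      exact mem_filter.2 ⟨h3, h5⟩
    omega
  have hbad' : ∀ u ∈ Y', ∀ v ∈ Y', u + v ∈ Y' →
      ¬ ((orb ⊤ u).card = 4 ∧ (orb ⊤ v).card = 4 ∧ (orb ⊤ (u + v)).card = 4) := by
    have h3 : ∀ w ∈ Y', (orb ⊤ w).card = 4 → w ∈ X := by
      intro w hw h4
      rcases (memY' w).1 hw with h | h
      · exact ((memY w).1 h).1
      · rw [orb_eq h, card_orb_chi hε] at h4
        omega
    intro u hu v hv huv h
    exact hbad u (h3 u hu h.1) v (h3 v hv h.2.1) (h3 _ huv h.2.2) h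
  -- the relation
  have hn : IsRel Y' fun w => (net S w : ℚ) + 2 * b 1 * net S b * (ind {chi ε} w : ℤ) := by
    refine ⟨fun w => ?_, ?_⟩
    · show ((net S (-w) : ℤ) : ℚ) + 2 * b 1 * net S b * (ind {chi ε} (-w) : ℤ) =
        -(((net S w : ℤ) : ℚ) + 2 * b 1 * net S b * (ind {chi ε} w : ℤ))
      rw [net_neg, ind_odd hχ0]
      push_cast
      ring
    · have e1 : ∑ w ∈ Y', ((net S w : ℤ) : ℚ) • w = ∑ w ∈ Y, ((net S w : ℤ) : ℚ) • w := by
        symm
        refine sum_subset (fun w hw => (memY' w).2 (Or.inl hw)) fun w hw hwY => ?_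
        rcases (memY' w).1 hw with h | h
        · exact absurd h hwY
        · rw [hnX w fun hwX => hwY (hYχ w h hwX)]
          simp
      have e2 : ∑ w ∈ X.filter (fun w => w ∉ orb ⊤ b), ((net S w : ℤ) : ℚ) • w =
          ∑ w ∈ Y, ((net S w : ℤ) : ℚ) • w := by
        symm
        refine sum_subset (fun w hw => ?_) fun w hw hwY => ?_
        · obtain ⟨h3, h4, h5⟩ := (memY w).1 hw
          exact mem_filter.2 ⟨h3, h5⟩
        · obtain ⟨h3, h4⟩ := mem_filter.1 hw
          have : w = 0 := by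
            by_contra h5
            exact hwY ((memY w).2 ⟨h3, h5, h4⟩)
          rw [this, smul_zero]
      have e3 : ∑ w ∈ X.filter (fun w => w ∈ orb ⊤ b), ((net S w : ℤ) : ℚ) • w =
          (2 * net S b : ℚ) • b := by
        have h3 : X.filter (fun w => w ∈ orb ⊤ b) = {b, -b} := by
          ext w
          rw [mem_filter, horb, mem_insert, mem_singleton]
          constructor
          · exact fun h => h.2
          · rintro (h | h)
            · rw [h]
              exact ⟨hb, Or.inl rfl⟩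
            · rw [h]
              exact ⟨hX.neg hc hb, Or.inr rfl⟩
        rw [h3, sum_pair (neg_ne_self hb0).symm, net_neg]
        push_cast
        rw [neg_smul, smul_neg, neg_neg, ← add_smul]
        congr 1
        ring
      have e4 : ∑ w ∈ Y', ((ind {chi ε} w : ℤ) : ℚ) • w = (2 : ℚ) • chi ε := by
        have h3 : ∑ w ∈ ({chi ε, -chi ε} : Finset (G → ℚ)), ((ind {chi ε} w : ℤ) : ℚ) • w =
            ∑ w ∈ Y', ((ind {chi ε} w : ℤ) : ℚ) • w := by
          refine sum_subset (fun w hw => ?_) fun w hw hwY => ?_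
          · refine (memY' w).2 (Or.inr ?_)
            rw [horbχ]
            simpa using hw
          · rw [mem_insert, mem_singleton, not_or] at hwY
            rw [ind_off hwY.1 hwY.2]
            simp
        rw [← h3, sum_pair (neg_ne_self hχ0).symm, ind_odd hχ0, ind_self]
        push_cast
        rw [neg_smul, smul_neg, neg_neg, ← add_smul]
        norm_num
      have e5 := hrel.2
      have e6 := sum_filter_add_sum_filter_not X (fun w => w ∈ orb ⊤ b)
        (fun w => ((net S w : ℤ) : ℚ) • w)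
      rw [e5, e3, e2] at e6
      show ∑ w ∈ Y', (((net S w : ℤ) : ℚ) + 2 * b 1 * net S b * (ind {chi ε} w : ℤ)) • w = 0
      have e7 : ∑ w ∈ Y', (((net S w : ℤ) : ℚ) + 2 * b 1 * net S b * (ind {chi ε} w : ℤ)) • w =
          ∑ w ∈ Y', ((net S w : ℤ) : ℚ) • w +
            (2 * b 1 * net S b) • ∑ w ∈ Y', ((ind {chi ε} w : ℤ) : ℚ) • w := by
        rw [smul_sum, ← sum_add_distrib]
        refine sum_congr rfl fun w _ => ?_
        rw [add_smul, smul_smul]
      rw [e7, e1, e4, ← e6, add_comm]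
      congr 1
      rw [smul_smul]
      have e8 : (2 * net S b : ℚ) • b = (2 * net S b : ℚ) • ((2 * b 1) • chi ε) :=
        congrArg (fun v => (2 * net S b : ℚ) • v) hbe
      rw [e8, smul_smul]
      congr 1
      ring
  have hmain := no_rel hc hsys h0' he' ho' hcard hbad' hn
  constructor
  · have h3 := hmain (chi ε) ((memY' _).2 (Or.inr (self_mem_orb _ _)))
    simp only [ind_self] at h3
    push_cast at h3
    linarith only [h3]
  · intro w h3 h4 h5 h6
    by_cases hwX : w ∈ X
    · by_cases hw0 : w = 0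
      · rw [hw0, hn0]
      · have h7 := hmain w ((memY' _).2 (Or.inl ((memY w).2 ⟨hwX, hw0, fun h => by
          rcases (horb w).1 h with h | h
          · exact h3 h
          · exact h4 h⟩)))
        rw [ind_off h5 h6] at h7
        push_cast at h7
        rw [mul_zero, add_zero] at h7
        exact_mod_cast h7
    · exact hnX w hwX

/-- the multisets of type split -/
private theorem gen_rep (hc : ∀ g, c * g = g * c) {b : G → ℚ} (hbw : IsWeight D c b)
    {ε : G →* ℤˣ} (hε : ε c = -1) (hεD : ∀ d ∈ D, ε d = 1) (hbe : b = (2 * b 1) • chi ε)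
    (hbχ : b ≠ chi ε) (m k : ℕ) (hk : idx D b = k) (h0 : (m : ℚ) * (1 / 2) + k * b 1 = 0)
    (hn : m + k = 4 ∨ m + k = 6 ∧ 0 < m) :
    Gen D c (Multiset.replicate m (chi ε) + Multiset.replicate k b) := by
  classical
  have hmem : ∀ w ∈ Multiset.replicate m (chi ε) + Multiset.replicate k b,
      w = chi ε ∨ w = b := by
    intro w hw
    rcases Multiset.mem_add.1 hw with h | h
    · exact Or.inl (Multiset.eq_of_mem_replicate h)
    · exact Or.inr (Multiset.eq_of_mem_replicate h)
  have htχ : ∀ h, ε h = 1 → tr h (chi ε) = chi ε := by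
    intro h hh
    rw [tr_chi, hh]
    simp
  have htb : ∀ h, ε h = 1 → tr h b = b := by
    intro h hh
    have : tr h ((2 * b 1) • chi ε) = (2 * b 1) • chi ε := by rw [tr_smul, htχ h hh]
    rwa [← hbe] at this
  refine Gen.split ε hε hεD _ ?_ ?_ ?_ ?_ ?_
  · intro w hw
    rcases hmem w hw with h | h
    · rw [h]
      exact isWeight_chi hε hεD
    · rw [h]
      exact hbw
  · intro h hh
    rw [Multiset.map_add, Multiset.map_replicate, Multiset.map_replicate, htχ h hh, htb h hh]
  · intro w hw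
    rcases hmem w hw with h | h
    · rw [h, idx_chi hεD]
      exact one_dvd _
    · rw [h, Multiset.count_add, Multiset.count_replicate_self, Multiset.count_replicate,
        if_neg (Ne.symm hbχ), zero_add, hk]
  · rw [Multiset.map_add, Multiset.map_replicate, Multiset.map_replicate, Multiset.sum_add,
      Multiset.sum_replicate, Multiset.sum_replicate, chi_one, nsmul_eq_mul, nsmul_eq_mul]
    exact h0
  · rw [Multiset.card_add, Multiset.card_replicate, Multiset.card_replicate]
    rcases hn with h | ⟨h, hm⟩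
    · exact Or.inl h
    · exact Or.inr ⟨h, Or.inl (Multiset.mem_add.2 (Or.inl (Multiset.mem_replicate.2
        ⟨by omega, rfl⟩)))⟩

private theorem net_rep {v : G → ℚ} (hv : v ≠ 0) (m : ℕ) (w : G → ℚ) :
    net (Multiset.replicate m v) w = m * ind {v} w := by
  induction m with
  | zero =>
    rw [Nat.cast_zero, zero_mul]
    unfold net
    simp
  | succ m ih =>
    have h : Multiset.replicate (m + 1) v = Multiset.replicate m v + ({v} : Finset (G → ℚ)).val := by
      rw [Multiset.replicate_succ, Finset.singleton_val, add_comm, Multiset.singleton_add]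
    rw [h, net_add, ih, net_val (sing_neg hv)]
    push_cast
    ring

private theorem case_neg (hc : ∀ g, c * g = g * c) {X : Finset (G → ℚ)} (hX : IsSys D c X)
    {b : G → ℚ} (hb : b ∈ X) (hb0 : b ≠ 0) (h2 : (orb ⊤ b).card = 2) (he : 3 ≤ idx D b)
    (hneg : b 1 ≤ 0) (hdim : ∑ w ∈ X, idx D w ≤ 10)
    (hbad : ∀ u ∈ X, ∀ v ∈ X, u + v ∈ X →
      ¬ ((orb ⊤ u).card = 4 ∧ (orb ⊤ v).card = 4 ∧ (orb ⊤ (u + v)).card = 4))
    {S : Multiset (G → ℚ)} (hS : ∀ w ∈ S, w ∈ X) (hE : Even S.card) (hsum : S.sum = 0) :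
    Gen D c S := by
  classical
  have hbw := hX.wt b hb
  obtain ⟨ε, hε, hεD, hbe⟩ := exists_eps hc hbw hb0 h2
  have ht : b 1 ≠ 0 := by
    intro h
    rw [h, mul_zero, zero_smul] at hbe
    exact hb0 hbe
  have hχ0 := chi_ne_zero ε
  have hχi : idx D (chi ε) = 1 := idx_chi hεD
  have hib : idx D (-b) = idx D b := idx_neg hbw hc
  have hbχ : b ≠ chi ε := by
    intro h
    rw [← h] at hχi
    omega
  have hbχ' : b ≠ -chi ε := by
    intro h
    have h3 : chi ε = -b := by rw [h, neg_neg]
    rw [h3] at hχi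
    omega
  have horb : ∀ x, x ∈ orb ⊤ b ↔ x = b ∨ x = -b := orb_two hc hbw hb0 h2
  obtain ⟨h3, h4⟩ := rel_two hc hX hb hb0 h2 he hdim hbad hε hεD hbe hS hsum
  have hval := val_of_idx hc hbw hb0 h2
  have hle := orb_le hX hb
  rw [h2] at hle
  have hχb : chi ε ∉ orb ⊤ b := by
    rw [horb]
    rintro (h | h)
    · exact hbχ h.symm
    · exact hbχ' (by rw [h, neg_neg])
  -- all values of the net multiplicity
  have hall : ∀ w, net S w = net S (chi ε) * ind {chi ε} w + net S b * ind {b} w := by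
    intro w
    by_cases h5 : w = chi ε
    · rw [h5, ind_self, ind_off (Ne.symm hbχ) (fun h => hbχ' (by rw [h, neg_neg]))]
      ring
    · by_cases h6 : w = -chi ε
      · rw [h6, net_neg, ind_odd hχ0, ind_odd hb0, ind_self,
          ind_off (Ne.symm hbχ) (fun h => hbχ' (by rw [h, neg_neg]))]
        ring
      · by_cases h7 : w = b
        · rw [h7, ind_self, ind_off hbχ hbχ']
          ring
        · by_cases h8 : w = -b
          · rw [h8, net_neg, ind_odd hχ0, ind_odd hb0, ind_self, ind_off hbχ hbχ']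
            ring
          · rw [h4 w h7 h8 h5 h6, ind_off h5 h6, ind_off h7 h8]
            ring
  have hzero : net S (chi ε) = 0 → Gen D c S := by
    intro h5
    rw [h5] at h3
    have h6 : net S b = 0 := by
      have h7 : (2 * b 1) * (net S b : ℚ) = 0 := by
        push_cast at h3
        linarith only [h3]
      have h8 : (2 * b 1 : ℚ) ≠ 0 := mul_ne_zero two_ne_zero ht
      have h9 := (mul_eq_zero.1 h7).resolve_left h8
      exact_mod_cast h9
    refine gen_of_net_zero (fun w hw => hX.wt w (hS w hw)) hE fun w => ?_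
    rw [hall w, h5, h6]
    ring
  have hkey : ∀ (m k : ℕ) (z : ℤ), idx D b = k → (m : ℚ) * (1 / 2) + k * b 1 = 0 →
      (m + k = 4 ∨ m + k = 6 ∧ 0 < m) → net S (chi ε) = z * m → net S b = z * k →
      Gen D c S := by
    intro m k z hk h0 hn hz1 hz2
    refine gen_of_rea hc (fun w hw => hX.wt w (hS w hw)) hE ?_
    refine Rea.congr (Rea.smul hc (gen_rep hc hbw hε hεD hbe hbχ m k hk h0 hn).rea z) fun w => ?_
    rw [hall w, hz1, hz2, net_add, net_rep hχ0, net_rep hb0]
    ring
  rcases (by omega : idx D b = 3 ∨ idx D b = 4 ∨ idx D b = 5) with h5 | h5 | h5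
  · have h6 : b 1 = -(1 / 6) := by
      rcases hval.2.2.1 h5 with h | h
      · rw [h] at hneg
        norm_num at hneg
      · exact h
    rw [h6] at h3
    refine hkey 1 3 (net S (chi ε)) h5 (by rw [h6]; norm_num) (Or.inl rfl) (by push_cast; ring) ?_
    have h7 : (net S b : ℚ) = (net S (chi ε) * 3 : ℤ) := by
      push_cast
      linarith only [h3]
    exact_mod_cast h7
  · have h6 : b 1 = -(1 / 4) := by
      rcases hval.2.2.2 h5 with h | h
      · rw [h] at hneg
        norm_num at hneg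
      · exact h
    rw [h6] at h3
    have h7 : net S b = 2 * net S (chi ε) := by
      have h8 : (net S b : ℚ) = (2 * net S (chi ε) : ℤ) := by
        push_cast
        linarith only [h3]
      exact_mod_cast h8
    by_cases h8 : net S (chi ε) = 0
    · exact hzero h8
    have hχX : chi ε ∈ X := by
      by_contra h
      exact h8 (net_of_notMem hc hX hS h)
    have hXb : ∀ w ∈ X, w ∈ orb ⊤ b ∨ w ∈ orb ⊤ (chi ε) := by
      intro w hw
      by_contra h
      rw [not_or] at h
      have h9 := orb_add_add_le hX hb hχX hw hχb h.1 h.2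
      rw [h2, h5, card_orb_chi hε, hχi] at h9
      have h10 := card_orb_pos ⊤ w
      have h11 := idx_pos D w
      have h12 := Nat.mul_pos h10 h11
      omega
    have hW : ∀ w ∈ ({b, chi ε} : Finset (G → ℚ)), -w ∉ ({b, chi ε} : Finset (G → ℚ)) := by
      intro w hw h
      rw [mem_insert, mem_singleton] at hw h
      rcases hw with hw | hw
      · subst hw
        rcases h with h | h
        · exact neg_ne_self hb0 h
        · exact hbχ' (by rw [← h, neg_neg])
      · subst hw
        rcases h with h | h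
        · exact hbχ' h.symm
        · exact neg_ne_self hχ0 h
    have h9 := even_sum_net hW (S := S) (fun w hw => by
      rw [mem_insert, mem_singleton, mem_insert, mem_singleton]
      rcases hXb w (hS w hw) with h | h
      · rcases (horb w).1 h with h | h
        · exact Or.inl (Or.inl h)
        · exact Or.inr (Or.inl (by rw [h, neg_neg]))
      · rw [orb_chi hε, mem_insert, mem_singleton] at h
        rcases h with h | h
        · exact Or.inl (Or.inr h)
        · exact Or.inr (Or.inr (by rw [h, neg_neg]))) hE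
    rw [sum_pair hbχ, h7] at h9
    obtain ⟨k, hk⟩ : ∃ k, net S (chi ε) = 2 * k := by
      obtain ⟨r, hr⟩ := h9
      exact ⟨r - net S (chi ε), by omega⟩
    refine hkey 2 4 k h5 (by rw [h6]; norm_num) (Or.inr ⟨rfl, by omega⟩) ?_ ?_
    · rw [hk]
      push_cast
      ring
    · rw [h7, hk]
      push_cast
      ring
  · refine hzero (net_of_notMem hc hX hS fun h => ?_)
    have h9 := orb_add_le hX hb h hχb
    rw [h2, h5, card_orb_chi hε, hχi] at h9
    omega

theorem case_two (hc : ∀ g, c * g = g * c) {X : Finset (G → ℚ)} (hX : IsSys D c X)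
    {b : G → ℚ} (hb : b ∈ X) (hb0 : b ≠ 0) (h2 : (orb ⊤ b).card = 2) (he : 3 ≤ idx D b)
    (hdim : ∑ w ∈ X, idx D w ≤ 10)
    (hbad : ∀ u ∈ X, ∀ v ∈ X, u + v ∈ X →
      ¬ ((orb ⊤ u).card = 4 ∧ (orb ⊤ v).card = 4 ∧ (orb ⊤ (u + v)).card = 4))
    {S : Multiset (G → ℚ)} (hS : ∀ w ∈ S, w ∈ X) (hE : Even S.card) (hsum : S.sum = 0) :
    Gen D c S := by
  rcases le_total (b 1) 0 with h | h
  · exact case_neg hc hX hb hb0 h2 he h hdim hbad hS hE hsum
  · refine case_neg hc hX (hX.neg hc hb) (neg_ne_zero.2 hb0) ?_ ?_ ?_ hdim hbad hS hE hsum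
    · rw [card_orb_neg, h2]
    · rw [idx_neg (hX.wt b hb) hc]
      exact he
    · rw [Pi.neg_apply]
      linarith only [h]

end Pool.Agent.AVF
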