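import Pool.Agent.AVF.Bas

/-!
# AVF: the weights chi
-/

set_option linter.unusedSectionVars false
set_option linter.unusedVariables false

namespace Pool.Agent.AVF

open Finset

variable {G : Type} [Group G] [Fintype G] {D : Subgroup G} {c : G}

theorem chi_apply (ε : G →* ℤˣ) (g : G) : chi ε g = ((ε g : ℤ) : ℚ) / 2 := rfl

theorem chi_one (ε : G →* ℤˣ) : chi ε 1 = 1 / 2 := by
  rw [chi_apply, map_one, Units.val_one, Int.cast_one]

theorem chi_ne_zero (ε : G →* ℤˣ) : chi ε ≠ 0 := by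
  intro h
  have h1 := congrFun h 1
  rw [chi_one, Pi.zero_apply] at h1
  norm_num at h1

theorem tr_chi (ε : G →* ℤˣ) (h : G) : tr h (chi ε) = ((ε h : ℤ) : ℚ) • chi ε := by
  funext g
  rw [tr_apply, Pi.smul_apply, smul_eq_mul, chi_apply, chi_apply, map_mul, Units.val_mul,
    Int.cast_mul]
  ring

theorem isWeight_chi {ε : G →* ℤˣ} (hε : ε c = -1) (hD : ∀ d ∈ D, ε d = 1) :
    IsWeight D c (chi ε) := by
  refine ⟨fun d hd g => ?_, fun g => ?_, fun g => ?_⟩
  · rw [chi_apply, chi_apply, map_mul, hD d hd, one_mul]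
  · rw [chi_apply, chi_apply, map_mul, hε]
    push_cast
    ring
  · rw [chi_apply]
    rcases Int.units_eq_one_or (ε g) with h | h <;> rw [h] <;> norm_num [abs_div]

private theorem avfchi_tr {ε : G →* ℤˣ} (h : G) :
    tr h (chi ε) = chi ε ∨ tr h (chi ε) = -chi ε := by
  rw [tr_chi]
  rcases Int.units_eq_one_or (ε h) with e | e
  · left
    rw [e]
    simp
  · right
    rw [e]
    simp

theorem orb_chi {ε : G →* ℤˣ} (hε : ε c = -1) : orb ⊤ (chi ε) = {chi ε, -chi ε} := by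
  ext x
  rw [mem_orb_top, mem_insert, mem_singleton]
  constructor
  · rintro ⟨h, rfl⟩
    exact avfchi_tr h
  · rintro (rfl | rfl)
    · exact ⟨1, tr_one _⟩
    · refine ⟨c, ?_⟩
      rw [tr_chi, hε]
      simp

theorem card_orb_chi {ε : G →* ℤˣ} (hε : ε c = -1) : (orb ⊤ (chi ε)).card = 2 := by
  rw [orb_chi hε, card_pair (neg_ne_self (chi_ne_zero ε)).symm]

theorem idx_chi {ε : G →* ℤˣ} (hD : ∀ d ∈ D, ε d = 1) : idx D (chi ε) = 1 := by
  apply Nat.dvd_one.1
  refine idx_dvd fun g => ?_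
  rw [chi_apply]
  rcases Int.units_eq_one_or (ε g) with e | e
  · refine ⟨((orb D (tr g (chi ε))).card : ℤ), ?_⟩
    rw [e]
    push_cast
    ring
  · refine ⟨0, ?_⟩
    rw [e]
    push_cast
    ring

theorem chi_inj {ε ε' : G →* ℤˣ} (h : chi ε = chi ε') : ε = ε' := by
  ext g
  have h1 := congrFun h g
  rw [chi_apply, chi_apply] at h1
  have h2 : ((ε g : ℤ) : ℚ) = ((ε' g : ℤ) : ℚ) := by linarith
  exact_mod_cast h2

theorem chi_ne_neg (ε ε' : G →* ℤˣ) : chi ε ≠ -chi ε' := by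
  intro h
  have h1 := congrFun h 1
  rw [chi_one, Pi.neg_apply, chi_one] at h1
  norm_num at h1

end Pool.Agent.AVF
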