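import Mathlib

/-!
# AVF: definitions

`G` is a finite group (the Galois group of a CM field `L` over `ℚ`), `c` a central element (complex
conjugation), `D` a subgroup (the decomposition group of a place `P` of `L` above `p`).
A weight is the function `g ↦ sl (g σ) - 1/2` on `G`, where `sl` is the slope at `P` of the conjugates of a
Weil number and `σ` an embedding of its field.
-/

namespace Pool.Agent.AVF

open Finset

variable {G : Type} [Group G] [Fintype G]

/-- The right translate of a function: `(tr h w) g = w (g h)`. -/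
def tr (h : G) (w : G → ℚ) : G → ℚ := fun g => w (g * h)

/-- `w` is a weight: invariant under `D` on the left, odd for `c`, of absolute value at most `1/2`. -/
def IsWeight (D : Subgroup G) (c : G) (w : G → ℚ) : Prop :=
  (∀ d ∈ D, ∀ g, w (d * g) = w g) ∧ (∀ g, w (c * g) = - w g) ∧ ∀ g, |w g| ≤ 1 / 2

open Classical in
/-- The set of the translates `tr h w`, `h ∈ H`. -/
noncomputable def orb (H : Subgroup G) (w : G → ℚ) : Finset (G → ℚ) :=
  (univ.filter fun h : G => h ∈ H).image fun h => tr h w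

/-- The least `e > 0` such that all `e (w g + 1/2) |D (g w)|` are integers. -/
noncomputable def idx (D : Subgroup G) (w : G → ℚ) : ℕ :=
  univ.lcm fun g : G => ((w g + 1 / 2) * ((orb D (tr g w)).card : ℚ)).den

/-- The weight of the elliptic curve with complex multiplication by the field of `ε`. -/
def chi (ε : G →* ℤˣ) : G → ℚ := fun g => ((ε g : ℤ) : ℚ) / 2

open Classical in
/-- The multisets whose classes are obtained from divisor classes and from Weil classes of abelian
fourfolds, and of sixfolds of discriminant `-1`, by products and contractions. -/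
inductive Gen (D : Subgroup G) (c : G) : Multiset (G → ℚ) → Prop
  | pair (w : G → ℚ) (hw : IsWeight D c w) : Gen D c {w, -w}
  | add {S T : Multiset (G → ℚ)} (hS : Gen D c S) (hT : Gen D c T) : Gen D c (S + T)
  | cancel {S : Multiset (G → ℚ)} (w : G → ℚ) (h : Gen D c (S + {w, -w})) : Gen D c S
  | split (ε : G →* ℤˣ) (hc : ε c = -1) (hD : ∀ d ∈ D, ε d = 1) (S : Multiset (G → ℚ))
      (hw : ∀ w ∈ S, IsWeight D c w) (hK : ∀ h, ε h = 1 → S.map (tr h) = S)
      (hm : ∀ w ∈ S, idx D w ∣ S.count w) (h0 : (S.map fun w => w 1).sum = 0)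
      (hn : S.card = 4 ∨ S.card = 6 ∧ (chi ε ∈ S ∨ -chi ε ∈ S)) : Gen D c S
  | nonsplit (ε : G →* ℤˣ) (hc : ε c = -1) (hD : ∃ d ∈ D, ε d ≠ 1) (T : Finset (G → ℚ)) (j : ℕ)
      (hw : ∀ w ∈ T, IsWeight D c w) (hK : ∀ h, ε h = 1 → ∀ w ∈ T, tr h w ∈ T)
      (hneg : ∀ w ∈ T, -w ∉ T) (ψ : (G → ℚ) → ℚ) (hodd : ∀ w, ψ (-w) = - ψ w)
      (hψ : ∀ w ∈ T, ψ w = 1 / 2 ∨ ψ w = -(1 / 2))
      (hs : ∀ w ∈ T, ∑ x ∈ orb D w, ψ x = ((orb D w).card : ℚ) * w 1)
      (hb : |∑ w ∈ T, ψ w| ≤ (j : ℚ) / 2)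
      (hn : T.card + j = 4 ∨ T.card + j = 6 ∧ 0 < j) :
      Gen D c (T.val + Multiset.replicate j 0)

/-- Twice the dimension of the simple abelian variety of weight `w`. -/
noncomputable def dim2 (D : Subgroup G) (w : G → ℚ) : ℕ := idx D w * (orb ⊤ w).card

/-- `X` is a finite `G`-stable set of weights. -/
structure IsSys (D : Subgroup G) (c : G) (X : Finset (G → ℚ)) : Prop where
  wt : ∀ w ∈ X, IsWeight D c w
  st : ∀ g, ∀ w ∈ X, tr g w ∈ X

open Classical in
/-- The net multiplicity. -/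
noncomputable def net (S : Multiset (G → ℚ)) (w : G → ℚ) : ℤ := (S.count w : ℤ) - (S.count (-w) : ℤ)

/-- `f` is the net multiplicity of a multiset in `Gen`. -/
def Rea (D : Subgroup G) (c : G) (f : (G → ℚ) → ℤ) : Prop :=
  ∃ T : Multiset (G → ℚ), Gen D c T ∧ ∀ w, net T w = f w

/-- An odd rational relation on `X`. -/
def IsRel (X : Finset (G → ℚ)) (n : (G → ℚ) → ℚ) : Prop :=
  (∀ w, n (-w) = - n w) ∧ ∑ w ∈ X, n w • w = 0

/-- `W` is half of `W ∪ -W`, and `G` moves it through `ε`. -/
structure IsHalf (c : G) (ε : G →* ℤˣ) (W : Finset (G → ℚ)) : Prop where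
  epsc : ε c = -1
  neg : ∀ w ∈ W, -w ∉ W
  ker : ∀ h, ε h = 1 → ∀ w ∈ W, tr h w ∈ W

open Classical in
/-- The odd indicator function of a half set. -/
noncomputable def ind (W : Finset (G → ℚ)) (w : G → ℚ) : ℤ :=
  if w ∈ W then 1 else if -w ∈ W then -1 else 0

end Pool.Agent.AVF
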