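import Pool.Agent.AVF.Lin

/-!
# AVF: four vectors of a plane with coordinates 0, 1, -1
-/

set_option linter.unusedSectionVars false
set_option linter.unusedVariables false

namespace Pool.Agent.AVF

open Finset

variable {G : Type} [Group G] [Fintype G] {D : Subgroup G} {c : G}

/-- the four classes of vectors up to sign -/
private def vv (e1 e2 : G → ℚ) : Fin 4 → (G → ℚ) := ![e1, e2, e1 + e2, e1 - e2]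

private theorem int_cases {α : ℤ} (h : |α| ≤ 1) : α = -1 ∨ α = 0 ∨ α = 1 := by
  rw [abs_le] at h
  omega

private theorem cls {e1 e2 x : G → ℚ} (hx : x ≠ 0 ∧
    ∃ α β : ℤ, |α| ≤ 1 ∧ |β| ≤ 1 ∧ x = (α : ℚ) • e1 + (β : ℚ) • e2) :
    ∃ k : Fin 4, x = vv e1 e2 k ∨ x = - vv e1 e2 k := by
  obtain ⟨h0, α, β, hα, hβ, rfl⟩ := hx
  rcases int_cases hα with rfl | rfl | rfl <;> rcases int_cases hβ with rfl | rfl | rfl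
  · refine ⟨2, Or.inr ?_⟩
    simp only [vv, Matrix.cons_val]
    push_cast; module
  · refine ⟨0, Or.inr ?_⟩
    simp only [vv, Matrix.cons_val]
    push_cast; module
  · refine ⟨3, Or.inr ?_⟩
    simp only [vv, Matrix.cons_val]
    push_cast; module
  · refine ⟨1, Or.inr ?_⟩
    simp only [vv, Matrix.cons_val]
    push_cast; module
  · exact absurd (by simp) h0
  · refine ⟨1, Or.inl ?_⟩
    simp only [vv, Matrix.cons_val]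
    push_cast; module
  · refine ⟨3, Or.inl ?_⟩
    simp only [vv, Matrix.cons_val]
    push_cast; module
  · refine ⟨0, Or.inl ?_⟩
    simp only [vv, Matrix.cons_val]
    push_cast; module
  · refine ⟨2, Or.inl ?_⟩
    simp only [vv, Matrix.cons_val]
    push_cast; module

private theorem kne {e1 e2 x y : G → ℚ} {k l : Fin 4} (h : y ≠ x ∧ y ≠ -x)
    (hx : x = vv e1 e2 k ∨ x = - vv e1 e2 k) (hy : y = vv e1 e2 l ∨ y = - vv e1 e2 l) : k ≠ l := by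
  rintro rfl
  rcases hx with rfl | rfl <;> rcases hy with rfl | rfl <;> simp at h

/-- the norms of the classes -/
private def nn (e1 e2 : G → ℚ) (k : Fin 4) : ℚ := ip (vv e1 e2 k) (vv e1 e2 k)

private theorem ip_cls {e1 e2 x : G → ℚ} {k : Fin 4}
    (hx : x = vv e1 e2 k ∨ x = - vv e1 e2 k) : ip x x = nn e1 e2 k := by
  rcases hx with rfl | rfl
  · rfl
  · rw [ip_neg_left, ip_neg_right, neg_neg]; rfl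

private theorem nn_two (e1 e2 : G → ℚ) : nn e1 e2 2 = nn e1 e2 0 + 2 * ip e1 e2 + nn e1 e2 1 := by
  simp only [nn, vv, Matrix.cons_val]
  rw [ip_add_left, ip_add_right, ip_add_right, ip_comm e2 e1]
  ring

private theorem nn_three (e1 e2 : G → ℚ) :
    nn e1 e2 3 = nn e1 e2 0 - 2 * ip e1 e2 + nn e1 e2 1 := by
  simp only [nn, vv, Matrix.cons_val]
  rw [ip_sub_left, ip_sub_right, ip_sub_right, ip_comm e2 e1]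
  ring

private theorem nn_pos {e1 e2 : G → ℚ} (hi : ∀ α β : ℚ, α • e1 + β • e2 = 0 → α = 0 ∧ β = 0) :
    0 < nn e1 e2 0 ∧ 0 < nn e1 e2 1 := by
  constructor
  · refine ip_self_pos fun h => ?_
    simp only [vv, Matrix.cons_val] at h
    have := (hi 1 0 (by simp [h])).1
    norm_num at this
  · refine ip_self_pos fun h => ?_
    simp only [vv, Matrix.cons_val] at h
    have := (hi 0 1 (by simp [h])).2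
    norm_num at this

private theorem surj4 : ∀ k1 k2 k3 k4 : Fin 4, k1 ≠ k2 → k1 ≠ k3 → k1 ≠ k4 → k2 ≠ k3 → k2 ≠ k4 →
    k3 ≠ k4 → ∀ m : Fin 4, m = k1 ∨ m = k2 ∨ m = k3 ∨ m = k4 := by
  decide

theorem four_ne {e1 e2 : G → ℚ} (hi : ∀ α β : ℚ, α • e1 + β • e2 = 0 → α = 0 ∧ β = 0)
    {x1 x2 x3 x4 : G → ℚ}
    (hx : ∀ x ∈ ({x1, x2, x3, x4} : Set (G → ℚ)),
      x ≠ 0 ∧ ∃ α β : ℤ, |α| ≤ 1 ∧ |β| ≤ 1 ∧ x = (α : ℚ) • e1 + (β : ℚ) • e2)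
    (h12 : x2 ≠ x1 ∧ x2 ≠ -x1) (h13 : x3 ≠ x1 ∧ x3 ≠ -x1) (h14 : x4 ≠ x1 ∧ x4 ≠ -x1)
    (h23 : x3 ≠ x2 ∧ x3 ≠ -x2) (h24 : x4 ≠ x2 ∧ x4 ≠ -x2) (h34 : x4 ≠ x3 ∧ x4 ≠ -x3)
    (n12 : ip x1 x1 = ip x2 x2) (n13 : ip x1 x1 = ip x3 x3) (n14 : ip x1 x1 = ip x4 x4) :
    False := by
  obtain ⟨k1, hk1⟩ := cls (hx x1 (by simp))
  obtain ⟨k2, hk2⟩ := cls (hx x2 (by simp))
  obtain ⟨k3, hk3⟩ := cls (hx x3 (by simp))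
  obtain ⟨k4, hk4⟩ := cls (hx x4 (by simp))
  rw [ip_cls hk1, ip_cls hk2] at n12
  rw [ip_cls hk1, ip_cls hk3] at n13
  rw [ip_cls hk1, ip_cls hk4] at n14
  have hs := surj4 k1 k2 k3 k4 (kne h12 hk1 hk2) (kne h13 hk1 hk3) (kne h14 hk1 hk4)
    (kne h23 hk2 hk3) (kne h24 hk2 hk4) (kne h34 hk3 hk4)
  have hn : ∀ m, nn e1 e2 m = nn e1 e2 k1 := by
    intro m
    rcases hs m with h | h | h | h
    · rw [h]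
    · rw [h, n12]
    · rw [h, n13]
    · rw [h, n14]
  have h2 := nn_two e1 e2
  have h3 := nn_three e1 e2
  have hp := nn_pos hi
  rw [hn 2, hn 0, hn 1] at h2
  rw [hn 3, hn 0, hn 1] at h3
  rw [hn 0] at hp
  linarith [hp.1]

private theorem alt {e1 e2 x1 x2 x3 x4 : G → ℚ} (h1 : x1 = e1 ∨ x1 = -e1)
    (h2 : x2 = e2 ∨ x2 = -e2) (h3 : x3 = e1 + e2 ∨ x3 = -(e1 + e2))
    (h4 : x4 = e1 - e2 ∨ x4 = -(e1 - e2)) :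
    ∃ q, (q = x2 ∨ q = -x2) ∧ (x3 = x1 + q ∨ x3 = -(x1 + q)) ∧
      (x4 = x1 - q ∨ x4 = -(x1 - q)) := by
  rcases h1 with rfl | rfl
  · refine ⟨e2, ?_, h3, h4⟩
    rcases h2 with rfl | rfl
    · exact Or.inl rfl
    · exact Or.inr (neg_neg _).symm
  · refine ⟨-e2, ?_, ?_, ?_⟩
    · rcases h2 with rfl | rfl
      · exact Or.inr rfl
      · exact Or.inl rfl
    · rcases h3 with rfl | rfl
      · right; abel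
      · left; abel
    · rcases h4 with rfl | rfl
      · right; abel
      · left; abel

/-- the first alternative for all orders -/
private theorem alt' {e1 e2 x1 x2 x3 x4 : G → ℚ}
    (h12 : ((x1 = e1 ∨ x1 = -e1) ∧ (x2 = e2 ∨ x2 = -e2)) ∨
      ((x1 = e2 ∨ x1 = -e2) ∧ (x2 = e1 ∨ x2 = -e1)))
    (h34 : ((x3 = e1 + e2 ∨ x3 = -(e1 + e2)) ∧ (x4 = e1 - e2 ∨ x4 = -(e1 - e2))) ∨
      ((x3 = e1 - e2 ∨ x3 = -(e1 - e2)) ∧ (x4 = e1 + e2 ∨ x4 = -(e1 + e2)))) :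
    ∃ q, (q = x2 ∨ q = -x2) ∧ (x3 = x1 + q ∨ x3 = -(x1 + q)) ∧
      (x4 = x1 - q ∨ x4 = -(x1 - q)) := by
  have a1 : e2 + e1 = e1 + e2 := add_comm _ _
  have a2 : e2 - e1 = -(e1 - e2) := (neg_sub _ _).symm
  rcases h12 with ⟨h1, h2⟩ | ⟨h1, h2⟩ <;> rcases h34 with ⟨h3, h4⟩ | ⟨h3, h4⟩
  · exact alt h1 h2 h3 h4
  · refine alt (e2 := -e2) h1 ?_ ?_ ?_
    · rw [neg_neg]; exact h2.symm
    · rw [← sub_eq_add_neg]; exact h3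
    · rw [sub_neg_eq_add]; exact h4
  · refine alt (e1 := e2) (e2 := e1) h1 h2 ?_ ?_
    · rw [a1]; exact h3
    · rw [a2, neg_neg]; exact h4.symm
  · refine alt (e1 := e2) (e2 := -e1) h1 ?_ ?_ ?_
    · rw [neg_neg]; exact h2.symm
    · rw [← sub_eq_add_neg, a2, neg_neg]; exact h3.symm
    · rw [sub_neg_eq_add, a1]; exact h4

private theorem cases4 : ∀ k1 k2 k3 k4 : Fin 4, k1 ≠ k2 → k1 ≠ k3 → k1 ≠ k4 → k2 ≠ k3 → k2 ≠ k4 →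
    k3 ≠ k4 → (k1, k2, k3, k4) ∈ ([(0, 1, 2, 3), (0, 1, 3, 2), (0, 2, 1, 3), (0, 2, 3, 1), (0, 3, 1, 2), (0, 3, 2, 1),
      (1, 0, 2, 3), (1, 0, 3, 2), (1, 2, 0, 3), (1, 2, 3, 0), (1, 3, 0, 2), (1, 3, 2, 0),
      (2, 0, 1, 3), (2, 0, 3, 1), (2, 1, 0, 3), (2, 1, 3, 0), (2, 3, 0, 1), (2, 3, 1, 0),
      (3, 0, 1, 2), (3, 0, 2, 1), (3, 1, 0, 2), (3, 1, 2, 0), (3, 2, 0, 1), (3, 2, 1, 0)] : List (Fin 4 × Fin 4 × Fin 4 × Fin 4)) := by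
  decide

theorem two_two {e1 e2 : G → ℚ} (hi : ∀ α β : ℚ, α • e1 + β • e2 = 0 → α = 0 ∧ β = 0)
    {x1 x2 x3 x4 : G → ℚ}
    (hx : ∀ x ∈ ({x1, x2, x3, x4} : Set (G → ℚ)),
      x ≠ 0 ∧ ∃ α β : ℤ, |α| ≤ 1 ∧ |β| ≤ 1 ∧ x = (α : ℚ) • e1 + (β : ℚ) • e2)
    (h12 : x2 ≠ x1 ∧ x2 ≠ -x1) (h13 : x3 ≠ x1 ∧ x3 ≠ -x1) (h14 : x4 ≠ x1 ∧ x4 ≠ -x1)
    (h23 : x3 ≠ x2 ∧ x3 ≠ -x2) (h24 : x4 ≠ x2 ∧ x4 ≠ -x2) (h34 : x4 ≠ x3 ∧ x4 ≠ -x3)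
    (n12 : ip x1 x1 = ip x2 x2) (n34 : ip x3 x3 = ip x4 x4) :
    (∃ q, (q = x2 ∨ q = -x2) ∧ (x3 = x1 + q ∨ x3 = -(x1 + q)) ∧
      (x4 = x1 - q ∨ x4 = -(x1 - q))) ∨
    (∃ q, (q = x4 ∨ q = -x4) ∧ (x1 = x3 + q ∨ x1 = -(x3 + q)) ∧
      (x2 = x3 - q ∨ x2 = -(x3 - q))) := by
  obtain ⟨k1, hk1⟩ := cls (hx x1 (by simp))
  obtain ⟨k2, hk2⟩ := cls (hx x2 (by simp))
  obtain ⟨k3, hk3⟩ := cls (hx x3 (by simp))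
  obtain ⟨k4, hk4⟩ := cls (hx x4 (by simp))
  rw [ip_cls hk1, ip_cls hk2] at n12
  rw [ip_cls hk3, ip_cls hk4] at n34
  have hc := cases4 k1 k2 k3 k4 (kne h12 hk1 hk2) (kne h13 hk1 hk3) (kne h14 hk1 hk4)
    (kne h23 hk2 hk3) (kne h24 hk2 hk4) (kne h34 hk3 hk4)
  have hp := nn_pos hi
  have h2 := nn_two e1 e2
  have h3 := nn_three e1 e2
  simp only [List.mem_cons, List.not_mem_nil, or_false, Prod.mk.injEq] at hc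
  rcases hc with ⟨rfl, rfl, rfl, rfl⟩ | ⟨rfl, rfl, rfl, rfl⟩ | ⟨rfl, rfl, rfl, rfl⟩ | ⟨rfl, rfl, rfl, rfl⟩
      | ⟨rfl, rfl, rfl, rfl⟩ | ⟨rfl, rfl, rfl, rfl⟩ | ⟨rfl, rfl, rfl, rfl⟩ | ⟨rfl, rfl, rfl,
      rfl⟩ | ⟨rfl, rfl, rfl, rfl⟩ | ⟨rfl, rfl, rfl, rfl⟩ | ⟨rfl, rfl, rfl, rfl⟩ | ⟨rfl, rfl,
      rfl, rfl⟩ | ⟨rfl, rfl, rfl, rfl⟩ | ⟨rfl, rfl, rfl, rfl⟩ | ⟨rfl, rfl, rfl, rfl⟩ | ⟨rfl,
      rfl, rfl, rfl⟩ | ⟨rfl, rfl, rfl, rfl⟩ | ⟨rfl, rfl, rfl, rfl⟩ | ⟨rfl, rfl, rfl, rfl⟩ |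
      ⟨rfl, rfl, rfl, rfl⟩ | ⟨rfl, rfl, rfl, rfl⟩ | ⟨rfl, rfl, rfl, rfl⟩ | ⟨rfl, rfl, rfl, rfl⟩
      | ⟨rfl, rfl, rfl, rfl⟩ <;>
  first
    | exact Or.inl (alt' (Or.inl ⟨hk1, hk2⟩) (Or.inl ⟨hk3, hk4⟩))
    | exact Or.inl (alt' (Or.inl ⟨hk1, hk2⟩) (Or.inr ⟨hk3, hk4⟩))
    | exact Or.inl (alt' (Or.inr ⟨hk1, hk2⟩) (Or.inl ⟨hk3, hk4⟩))
    | exact Or.inl (alt' (Or.inr ⟨hk1, hk2⟩) (Or.inr ⟨hk3, hk4⟩))
    | exact Or.inr (alt' (Or.inl ⟨hk3, hk4⟩) (Or.inl ⟨hk1, hk2⟩))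
    | exact Or.inr (alt' (Or.inl ⟨hk3, hk4⟩) (Or.inr ⟨hk1, hk2⟩))
    | exact Or.inr (alt' (Or.inr ⟨hk3, hk4⟩) (Or.inl ⟨hk1, hk2⟩))
    | exact Or.inr (alt' (Or.inr ⟨hk3, hk4⟩) (Or.inr ⟨hk1, hk2⟩))
    | (exfalso; linarith [hp.1, hp.2, h2, h3, n12, n34])

end Pool.Agent.AVF
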