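import Pool.Agent.AVF.Bas

/-!
# AVF: elements of Gen; the sign change

All three statements by induction on `Gen`.
-/

set_option linter.unusedSectionVars false
set_option linter.unusedVariables false

namespace Pool.Agent.AVF

open Finset

variable {G : Type} [Group G] [Fintype G] {D : Subgroup G} {c : G}

theorem Gen.isWeight {S : Multiset (G → ℚ)} (h : Gen D c S) : ∀ w ∈ S, IsWeight D c w := by
  induction h with
  | pair w hw =>
    intro v hv
    rw [Multiset.insert_eq_cons, Multiset.mem_cons, Multiset.mem_singleton] at hv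
    rcases hv with rfl | rfl
    · exact hw
    · exact hw.neg
  | add hS hT ihS ihT =>
    intro v hv
    rcases Multiset.mem_add.1 hv with hv | hv
    · exact ihS v hv
    · exact ihT v hv
  | cancel w h ih => exact fun v hv => ih v (Multiset.mem_add.2 (Or.inl hv))
  | split ε hc hD S hw hK hm h0 hn => exact hw
  | nonsplit ε hc hD T j hw hK hneg ψ hodd hψ hs hb hn =>
    intro v hv
    rcases Multiset.mem_add.1 hv with hv | hv
    · exact hw v hv
    · rw [Multiset.eq_of_mem_replicate hv]
      exact isWeight_zero D c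

theorem Gen.even_card {S : Multiset (G → ℚ)} (h : Gen D c S) : Even S.card := by
  induction h with
  | pair w hw =>
    rw [Multiset.card_pair]
    exact ⟨1, rfl⟩
  | add hS hT ihS ihT =>
    rw [Multiset.card_add]
    exact ihS.add ihT
  | cancel w h ih =>
    rw [Multiset.card_add, Multiset.card_pair] at ih
    exact (Nat.even_add.1 ih).2 ⟨1, rfl⟩
  | split ε hc hD S hw hK hm h0 hn =>
    rcases hn with hn | ⟨hn, -⟩
    · rw [hn]; exact ⟨2, rfl⟩
    · rw [hn]; exact ⟨3, rfl⟩
  | nonsplit ε hc hD T j hw hK hneg ψ hodd hψ hs hb hn =>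
    rw [Multiset.card_add, Multiset.card_replicate]
    rcases hn with hn | ⟨hn, -⟩
    · exact ⟨2, hn⟩
    · exact ⟨3, hn⟩

theorem Gen.map_neg (hc : ∀ g, c * g = g * c) {S : Multiset (G → ℚ)} (h : Gen D c S) :
    Gen D c (S.map fun w => -w) := by
  classical
  induction h with
  | pair w hw => exact Gen.pair (-w) hw.neg
  | add hS hT ihS ihT =>
    rw [Multiset.map_add]
    exact Gen.add ihS ihT
  | cancel w h ih =>
    rw [Multiset.map_add] at ih
    exact Gen.cancel (-w) ih
  | split ε hc' hD S hw hK hm h0 hn =>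
    refine Gen.split ε hc' hD _ ?_ ?_ ?_ ?_ ?_
    · intro v hv
      obtain ⟨u, hu, rfl⟩ := Multiset.mem_map.1 hv
      exact (hw u hu).neg
    · intro k hk
      have e : (S.map fun w => -w).map (tr k) = (S.map (tr k)).map fun w => -w := by
        rw [Multiset.map_map, Multiset.map_map]
        rfl
      rw [e, hK k hk]
    · intro v hv
      obtain ⟨u, hu, rfl⟩ := Multiset.mem_map.1 hv
      have e := Multiset.count_map_eq_count' (fun w : G → ℚ => -w) S neg_injective u
      rw [idx_neg (hw u hu) hc]
      have h5 := hm u hu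
      convert h5 using 1
    · have e : ((S.map fun w => -w).map fun w : G → ℚ => w 1) =
          (S.map fun w => w 1).map fun q => -q := by
        rw [Multiset.map_map, Multiset.map_map]
        rfl
      rw [e, Multiset.sum_map_neg', h0, neg_zero]
    · rw [Multiset.card_map]
      rcases hn with hn | ⟨hn, h5⟩
      · exact Or.inl hn
      · refine Or.inr ⟨hn, ?_⟩
        rcases h5 with h5 | h5
        · exact Or.inr (Multiset.mem_map.2 ⟨_, h5, rfl⟩)
        · exact Or.inl (Multiset.mem_map.2 ⟨_, h5, neg_neg _⟩)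
  | nonsplit ε hc' hD T j hw hK hneg ψ hodd hψ hs hb hn =>
    have e : (T.val + Multiset.replicate j (0 : G → ℚ)).map (fun w => -w) =
        (T.map ⟨fun w : G → ℚ => -w, neg_injective⟩).val + Multiset.replicate j 0 := by
      rw [Multiset.map_add, Multiset.map_replicate, neg_zero, Finset.map_val]
      rfl
    rw [e]
    refine Gen.nonsplit ε hc' hD _ j ?_ ?_ ?_ ψ hodd ?_ ?_ ?_ ?_
    · intro v hv
      obtain ⟨u, hu, rfl⟩ := Finset.mem_map.1 hv
      exact (hw u hu).neg
    · intro k hk v hv
      obtain ⟨u, hu, rfl⟩ := Finset.mem_map.1 hv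
      exact Finset.mem_map.2 ⟨tr k u, hK k hk u hu, rfl⟩
    · intro v hv hv'
      obtain ⟨u, hu, rfl⟩ := Finset.mem_map.1 hv
      obtain ⟨u', hu', h5⟩ := Finset.mem_map.1 hv'
      have h6 : u' = -u := neg_injective h5
      exact hneg u hu (h6 ▸ hu')
    · intro v hv
      obtain ⟨u, hu, rfl⟩ := Finset.mem_map.1 hv
      have h5 : ψ (-u) = - ψ u := hodd u
      rcases hψ u hu with h6 | h6
      · right
        change ψ (-u) = _
        rw [h5, h6]
      · left
        change ψ (-u) = _
        rw [h5, h6, neg_neg]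
    · intro v hv
      obtain ⟨u, hu, rfl⟩ := Finset.mem_map.1 hv
      change ∑ x ∈ orb D (-u), ψ x = ((orb D (-u)).card : ℚ) * (-u) 1
      rw [card_orb_neg, orb_neg, Finset.sum_image (fun x _ y _ h => neg_injective h)]
      simp only [hodd, Finset.sum_neg_distrib, Pi.neg_apply]
      rw [hs u hu, mul_neg]
    · rw [Finset.sum_map]
      have h5 : ∑ x ∈ T, ψ ((⟨fun w : G → ℚ => -w, neg_injective⟩ : (G → ℚ) ↪ (G → ℚ)) x) =
          - ∑ x ∈ T, ψ x := by
        rw [← Finset.sum_neg_distrib]
        exact Finset.sum_congr rfl fun x _ => hodd x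
      rw [h5, abs_neg]
      exact hb
    · rw [Finset.card_map]
      exact hn

end Pool.Agent.AVF
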