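import Pool.Agent.AVF.CaseP
import Pool.Agent.AVF.CaseE
import Pool.Agent.AVF.CaseF
import Pool.Agent.AVF.CaseT
import Pool.Agent.AVF.CaseN
import Pool.Agent.AVF.BadT

/-!
# AVF: the main theorem
-/

set_option linter.unusedSectionVars false
set_option linter.unusedVariables false

namespace Pool.Agent.AVF

open Finset

variable {G : Type} [Group G] [Fintype G] {D : Subgroup G} {c : G}

/-- The case where all triples `u, v, u + v` of weights in orbits of size four are excluded. -/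
theorem main_aux (hc : ∀ g, c * g = g * c) {X : Finset (G → ℚ)} (hX : IsSys D c X)
    (hdim : ∑ w ∈ X, idx D w ≤ 10)
    (hbad : ∀ u ∈ X, ∀ v ∈ X, u + v ∈ X →
      ¬ ((orb ⊤ u).card = 4 ∧ (orb ⊤ v).card = 4 ∧ (orb ⊤ (u + v)).card = 4))
    {S : Multiset (G → ℚ)} (hS : ∀ w ∈ S, w ∈ X) (hE : Even S.card) (hsum : S.sum = 0) :
    Gen D c S := by
  classical
  by_cases h1 : ∃ b ∈ X, b ≠ 0 ∧ 4 < (orb ⊤ b).card
  · obtain ⟨b, hb, hb0, h4⟩ := h1
    have hle := orb_le hX hb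
    have hi := idx_pos D b
    have hev := card_orb_even hc (hX.wt b hb) hb0
    have hle2 : (orb ⊤ b).card ≤ 10 := by
      calc (orb ⊤ b).card ≤ (orb ⊤ b).card * idx D b := Nat.le_mul_of_pos_right _ hi
        _ ≤ _ := hle
        _ ≤ 10 := hdim
    obtain ⟨k, hk⟩ := hev
    have h3 : (orb ⊤ b).card = 6 ∨ (orb ⊤ b).card = 8 ∨ (orb ⊤ b).card = 10 := by omega
    rcases h3 with h | h | h
    · exact case_prime hc hX hb hb0 (Or.inl h) hdim hbad hS hE hsum
    · exact case_eight hc hX hb hb0 h hdim hS hE hsum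
    · exact case_prime hc hX hb hb0 (Or.inr h) hdim hbad hS hE hsum
  have ho : ∀ w ∈ X, (orb ⊤ w).card ≤ 4 := by
    intro w hw
    by_cases hw0 : w = 0
    · rw [hw0, orb_zero]; simp
    · by_contra hlt
      exact h1 ⟨w, hw, hw0, by omega⟩
  by_cases h2 : ∃ b ∈ X, b ≠ 0 ∧ (orb ⊤ b).card = 4 ∧ idx D b ≠ 1
  · obtain ⟨b, hb, hb0, h4, he⟩ := h2
    have hle := orb_le hX hb
    have hi := idx_pos D b
    have he2 : idx D b = 2 := by
      rw [h4] at hle
      omega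
    exact case_four_two hc hX hb hb0 h4 he2 hdim hS hE hsum
  by_cases h3 : ∃ b ∈ X, b ≠ 0 ∧ (orb ⊤ b).card = 2 ∧ idx D b ≠ 1
  · obtain ⟨b, hb, hb0, h4, he⟩ := h3
    have hi := idx_pos D b
    have he2 := (val_of_idx hc (hX.wt b hb) hb0 h4).2.1
    exact case_two hc hX hb hb0 h4 (by omega) hdim hbad hS hE hsum
  refine case_norel hc hX (fun w hw hw0 => ?_) ho hdim hbad hS hE hsum
  obtain ⟨k, hk⟩ := card_orb_even hc (hX.wt w hw) hw0
  have h5 := ho w hw
  have h6 := two_le_card_orb hc (hX.wt w hw) hw0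
  have h7 : (orb ⊤ w).card = 2 ∨ (orb ⊤ w).card = 4 := by omega
  by_contra hne
  rcases h7 with h | h
  · exact h3 ⟨w, hw, hw0, h, hne⟩
  · exact h2 ⟨w, hw, hw0, h, hne⟩

/-- The main theorem. -/
theorem main (hc : ∀ g, c * g = g * c) {X : Finset (G → ℚ)} (hX : IsSys D c X)
    (hdim : ∑ w ∈ X, idx D w ≤ 10)
    {S : Multiset (G → ℚ)} (hS : ∀ w ∈ S, w ∈ X) (hE : Even S.card) (hsum : S.sum = 0)
    (hex : (∀ u ∈ X, ∀ v ∈ X, u + v ∈ X →
        ¬ (dim2 D u = 4 ∧ dim2 D v = 4 ∧ dim2 D (u + v) = 4)) ∨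
      ((0 : G → ℚ) ∉ X ∧ S.Nodup)) :
    Gen D c S := by
  classical
  by_cases hbad : ∀ u ∈ X, ∀ v ∈ X, u + v ∈ X →
      ¬ ((orb ⊤ u).card = 4 ∧ (orb ⊤ v).card = 4 ∧ (orb ⊤ (u + v)).card = 4)
  · exact main_aux hc hX hdim hbad hS hE hsum
  · push Not at hbad
    obtain ⟨u, hu, v, hv, huv, cu, cv, cuv⟩ := hbad
    have key := bad_idx hc hX hdim hu hv huv cu cv cuv
    rcases hex with h | h
    · exfalso
      refine h u hu v hv huv ⟨?_, ?_, ?_⟩
      · simp [dim2, key u hu cu, cu]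
      · simp [dim2, key v hv cv, cv]
      · simp [dim2, key _ huv cuv, cuv]
    · exact bad_ten hc hX hdim h.1 hu hv huv cu cv cuv hS h.2 hE hsum

end Pool.Agent.AVF
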