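import Pool.Agent.AVF.TwoP
import Pool.Agent.AVF.Proj

/-!
# AVF: no relation between few weights of index one in small orbits

`no_rel`: projection to the sign characters, then `two_planes`.
-/

set_option linter.unusedSectionVars false
set_option linter.unusedVariables false

namespace Pool.Agent.AVF

open Finset

variable {G : Type} [Group G] [Fintype G] {D : Subgroup G} {c : G}

private theorem nr_cases (hc : ∀ g, c * g = g * c) {w : G → ℚ} (hw : IsWeight D c w) (h0 : w ≠ 0)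
    (h4 : (orb ⊤ w).card ≤ 4) : (orb ⊤ w).card = 2 ∨ (orb ⊤ w).card = 4 := by
  have h1 := two_le_card_orb hc hw h0
  obtain ⟨k, hk⟩ := card_orb_even hc hw h0
  omega

private theorem nr_units (ε : G →* ℤˣ) (h : G) (v : G → ℚ) :
    ((ε h : ℤ) : ℚ) • v = v ∨ ((ε h : ℤ) : ℚ) • v = -v := by
  rcases Int.units_eq_one_or (ε h) with e | e
  · left
    rw [e]
    simp
  · right
    rw [e]
    simp

/-- weights of index one in orbits of size two -/
private theorem nr_two (hc : ∀ g, c * g = g * c) {w : G → ℚ} (hw : IsWeight D c w) (h0 : w ≠ 0)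
    (h2 : (orb ⊤ w).card = 2) (he : idx D w = 1) :
    ∃ ε : G →* ℤˣ, w = chi ε ∨ w = -chi ε := by
  obtain ⟨ε, -, -, h⟩ := exists_eps hc hw h0 h2
  refine ⟨ε, ?_⟩
  rcases (val_of_idx hc hw h0 h2).1 he with h1 | h1
  · left
    rw [h1] at h
    rw [h]
    norm_num
  · right
    rw [h1] at h
    rw [h]
    norm_num

private theorem nr_odd {n : (G → ℚ) → ℚ} (hn : ∀ w, n (-w) = - n w) (v : G → ℚ) :
    n (-v) • (-v) = n v • v := by
  rw [hn, neg_smul, smul_neg, neg_neg]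

/-- the sum over an orbit with four elements -/
private theorem nr_sum4 {n : (G → ℚ) → ℚ} (hn : ∀ w, n (-w) = - n w) {a v : G → ℚ} (ha0 : a ≠ 0)
    (hv0 : v ≠ 0) (h1 : v ≠ a) (h2 : v ≠ -a)
    (ho : ∀ x : G → ℚ, x ∈ orb ⊤ a ↔ x = a ∨ x = -a ∨ x = v ∨ x = -v) :
    ∑ y ∈ orb ⊤ a, n y • y = (2 * n a) • a + (2 * n v) • v := by
  classical
  have h3 : orb ⊤ a = {a, -a, v, -v} := by
    ext x
    rw [ho]
    simp
  have h4 : a ∉ ({-a, v, -v} : Finset (G → ℚ)) := by
    simp only [mem_insert, mem_singleton, not_or]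
    exact ⟨(neg_ne_self ha0).symm, h1.symm, fun e => h2 (by rw [e, neg_neg])⟩
  have h5 : -a ∉ ({v, -v} : Finset (G → ℚ)) := by
    simp only [mem_insert, mem_singleton, not_or]
    exact ⟨h2.symm, fun e => h1 (neg_injective e).symm⟩
  have h6 : v ∉ ({-v} : Finset (G → ℚ)) := by
    rw [mem_singleton]
    exact (neg_ne_self hv0).symm
  rw [h3, sum_insert h4, sum_insert h5, sum_insert h6, sum_singleton, nr_odd hn, nr_odd hn, two_mul,
    two_mul, add_smul, add_smul]
  abel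

private theorem nr_span {n : (G → ℚ) → ℚ} (a : G → ℚ) :
    ∑ y ∈ orb ⊤ a, n y • y ∈ Submodule.span ℚ ((orb ⊤ a : Finset (G → ℚ)) : Set (G → ℚ)) :=
  Submodule.sum_mem _ fun y hy => Submodule.smul_mem _ _ (Submodule.subset_span (mem_coe.2 hy))

/-- the sum over an orbit with four elements is zero -/
private theorem nr_zero4 (hc : ∀ g, c * g = g * c) {n : (G → ℚ) → ℚ} (hn : ∀ w, n (-w) = - n w)
    {a : G → ℚ} (ha : IsWeight D c a) (ha0 : a ≠ 0) (h4 : (orb ⊤ a).card = 4)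
    (hs : ∑ y ∈ orb ⊤ a, n y • y = 0) : n a = 0 := by
  obtain ⟨v, hv, h1, h2, ho⟩ := orb_four hc ha ha0 h4
  have hv0 := orb_ne_zero ha0 hv
  rw [nr_sum4 hn ha0 hv0 h1 h2 ho] at hs
  have h3 := (indep ha0 (ip_orb hv).symm h1 h2 hs).1
  linarith

theorem no_rel (hc : ∀ g, c * g = g * c) {X : Finset (G → ℚ)} (hX : IsSys D c X)
    (h0 : ∀ w ∈ X, w ≠ 0) (he : ∀ w ∈ X, idx D w = 1) (ho : ∀ w ∈ X, (orb ⊤ w).card ≤ 4)
    (hcard : X.card ≤ 10)
    (hbad : ∀ u ∈ X, ∀ v ∈ X, u + v ∈ X →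
      ¬ ((orb ⊤ u).card = 4 ∧ (orb ⊤ v).card = 4 ∧ (orb ⊤ (u + v)).card = 4))
    {n : (G → ℚ) → ℚ} (hn : IsRel X n) : ∀ w ∈ X, n w = 0 := by
  classical
  obtain ⟨hodd, hsum⟩ := hn
  -- orbits of size two
  have step1 : ∀ w ∈ X, (orb ⊤ w).card = 2 → n w = 0 := by
    intro w hw h2
    obtain ⟨ε, hε⟩ := nr_two hc (hX.wt w hw) (h0 w hw) h2 (he w hw)
    have hχX : chi ε ∈ X := by
      rcases hε with h | h
      · rw [← h]; exact hw
      · have h1 : chi ε = -w := by rw [h, neg_neg]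
        rw [h1]; exact hX.neg hc hw
    have hχX' : -chi ε ∈ X := hX.neg hc hχX
    have h3 := congrArg (pr ε) hsum
    rw [pr_sum, pr_zero] at h3
    have h4 : ∑ y ∈ ({chi ε, -chi ε} : Finset (G → ℚ)), pr ε (n y • y) = 0 := by
      rw [← h3]
      refine sum_subset ?_ ?_
      · intro y hy
        rw [mem_insert, mem_singleton] at hy
        rcases hy with rfl | rfl
        · exact hχX
        · exact hχX'
      · intro y hy hy'
        rw [pr_smul]
        have h5 : pr ε y = 0 := by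
          rcases nr_cases hc (hX.wt y hy) (h0 y hy) (ho y hy) with h6 | h6
          · obtain ⟨ε', hε'⟩ := nr_two hc (hX.wt y hy) (h0 y hy) h6 (he y hy)
            have h7 : ε ≠ ε' := by
              rintro rfl
              apply hy'
              rw [mem_insert, mem_singleton]
              exact hε'
            rcases hε' with h8 | h8
            · rw [h8, pr_chi_ne h7]
            · have h9 := pr_smul ε (-1) (chi ε')
              rw [neg_one_smul, pr_chi_ne h7, smul_zero] at h9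
              rw [h8, h9]
          · refine no_line hc (hX.wt y hy) (h0 y hy) h6 (he y hy)
              (pr_mem_span ε y (Submodule.subset_span (mem_coe.2 (self_mem_orb ⊤ y)))) ?_
            intro h
            rw [pr_semi]
            exact nr_units ε h _
        rw [h5, smul_zero]
    rw [sum_pair (chi_ne_neg ε ε), nr_odd hodd, pr_smul, pr_chi_self, ← two_smul ℚ, smul_smul] at h4
    have h5 : n (chi ε) = 0 := by
      rcases smul_eq_zero.1 h4 with h6 | h6
      · linarith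
      · exact absurd h6 (chi_ne_zero ε)
    rcases hε with h | h
    · rw [h, h5]
    · rw [h, hodd, h5, neg_zero]
  intro a ha
  rcases nr_cases hc (hX.wt a ha) (h0 a ha) (ho a ha) with h2 | h4
  · exact step1 a ha h2
  obtain ⟨X4, hX4⟩ : ∃ X4 : Finset (G → ℚ), X4 = X.filter fun y => (orb ⊤ y).card = 4 := ⟨_, rfl⟩
  have hsum4 : ∑ y ∈ X4, n y • y = 0 := by
    rw [← hsum, hX4]
    refine sum_subset (filter_subset _ _) ?_
    intro y hy hy'
    have h5 : (orb ⊤ y).card = 2 := by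
      rcases nr_cases hc (hX.wt y hy) (h0 y hy) (ho y hy) with h6 | h6
      · exact h6
      · exact absurd (mem_filter.2 ⟨hy, h6⟩) hy'
    rw [step1 y hy h5, zero_smul]
  have horb : ∀ b ∈ X4, orb ⊤ b ⊆ X4 := by
    intro b hb y hy
    rw [hX4, mem_filter] at hb ⊢
    refine ⟨orb_subset hX hb.1 ⊤ hy, ?_⟩
    rw [orb_eq hy]
    exact hb.2
  have haX4 : a ∈ X4 := by
    rw [hX4, mem_filter]
    exact ⟨ha, h4⟩
  by_cases hall : X4 ⊆ orb ⊤ a
  · have h5 : X4 = orb ⊤ a := Subset.antisymm hall (horb a haX4)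
    rw [h5] at hsum4
    exact nr_zero4 hc hodd (hX.wt a ha) (h0 a ha) h4 hsum4
  obtain ⟨b, hb, hba⟩ := not_subset.1 hall
  have hb' := hb
  rw [hX4, mem_filter] at hb'
  obtain ⟨hbX, hb4⟩ := hb'
  have hdis : ∀ u v : G → ℚ, v ∉ orb ⊤ u → Disjoint (orb ⊤ u) (orb ⊤ v) := by
    intro u v huv
    rw [disjoint_left]
    intro y hy hy'
    apply huv
    rw [← orb_eq hy, orb_eq hy']
    exact self_mem_orb ⊤ v
  have hd1 := hdis a b hba
  have hX4le : X4.card ≤ 10 := by
    refine le_trans (card_le_card ?_) hcard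
    rw [hX4]
    exact filter_subset _ _
  have hX4eq : X4 = orb ⊤ a ∪ orb ⊤ b := by
    refine Subset.antisymm ?_ (union_subset (horb a haX4) (horb b hb))
    intro y hy
    by_contra hcon
    rw [mem_union, not_or] at hcon
    have hy4 : (orb ⊤ y).card = 4 := by
      rw [hX4, mem_filter] at hy
      exact hy.2
    have hd2 := hdis a y hcon.1
    have hd3 := hdis b y hcon.2
    have h5 : (orb ⊤ a ∪ orb ⊤ b ∪ orb ⊤ y).card = 12 := by
      rw [card_union_of_disjoint (disjoint_union_left.2 ⟨hd2, hd3⟩), card_union_of_disjoint hd1, h4, hb4,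
        hy4]
    have h6 : orb ⊤ a ∪ orb ⊤ b ∪ orb ⊤ y ⊆ X4 :=
      union_subset (union_subset (horb a haX4) (horb b hb)) (horb y hy)
    have h7 := card_le_card h6
    omega
  rw [hX4eq, sum_union hd1] at hsum4
  by_cases hx : ∑ y ∈ orb ⊤ a, n y • y = 0
  · exact nr_zero4 hc hodd (hX.wt a ha) (h0 a ha) h4 hx
  exfalso
  have hxa : ∑ y ∈ orb ⊤ a, n y • y ∈ Submodule.span ℚ ((orb ⊤ a : Finset (G → ℚ)) : Set (G → ℚ)) :=
    nr_span a
  have hxb : ∑ y ∈ orb ⊤ a, n y • y ∈ Submodule.span ℚ ((orb ⊤ b : Finset (G → ℚ)) : Set (G → ℚ)) := by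
    rw [eq_neg_of_add_eq_zero_left hsum4]
    exact Submodule.neg_mem _ (nr_span b)
  have fin : ∀ u v : G → ℚ, u ∈ X → v ∈ X → (orb ⊤ u).card = 4 → (orb ⊤ v).card = 4 →
      ∀ p q : G → ℚ, (∀ y, y ∈ orb ⊤ u ↔ y = p ∨ y = -p ∨ y = q ∨ y = -q) →
        (∀ y, y ∈ orb ⊤ v ↔ y = p + q ∨ y = -(p + q) ∨ y = p - q ∨ y = -(p - q)) → False := by
    intro u v hu hv hu4 hv4 p q h5 h6
    have hp : p ∈ orb ⊤ u := (h5 p).2 (Or.inl rfl)
    have hq : q ∈ orb ⊤ u := (h5 q).2 (Or.inr (Or.inr (Or.inl rfl)))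
    have hpq : p + q ∈ orb ⊤ v := (h6 (p + q)).2 (Or.inl rfl)
    refine hbad p (orb_subset hX hu ⊤ hp) q (orb_subset hX hu ⊤ hq) (orb_subset hX hv ⊤ hpq) ⟨?_, ?_, ?_⟩
    · rw [orb_eq hp, hu4]
    · rw [orb_eq hq, hu4]
    · rw [orb_eq hpq, hv4]
  obtain ⟨p, q, h5 | h5⟩ := two_planes hc (hX.wt a ha) (hX.wt b hbX) (h0 a ha) (h0 b hbX) h4 hb4 (he a ha)
    (he b hbX) hba hx hxa hxb
  · exact fin a b ha hbX h4 hb4 p q h5.1 h5.2
  · exact fin b a hbX ha hb4 h4 p q h5.1 h5.2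

end Pool.Agent.AVF
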