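import Pool.Agent.AVF.Bas

/-!
# AVF: values of weights of index one in a stable plane
-/

set_option linter.unusedSectionVars false
set_option linter.unusedVariables false

namespace Pool.Agent.AVF

open Finset

variable {G : Type} [Group G] [Fintype G] {D : Subgroup G} {c : G}

private theorem line_in_plane {V : Submodule ℚ (G → ℚ)} (hV : Module.finrank ℚ V = 2)
    {v0 : G → ℚ} (hv0 : v0 ∈ V) (h1 : v0 1 ≠ 0) :
    ∃ u : G → ℚ, ∀ x ∈ V, x 1 = 0 → ∃ κ : ℚ, x = κ • u := by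
  classical
  let B := Module.finBasisOfFinrankEq ℚ V hV
  obtain ⟨p, hp⟩ : ∃ v : G → ℚ, v = (B 0 : V) := ⟨_, rfl⟩
  obtain ⟨q, hq⟩ : ∃ u : G → ℚ, u = (B 1 : V) := ⟨_, rfl⟩
  have hspan : ∀ w ∈ V, ∃ x y : ℚ, w = x • p + y • q := by
    intro w hw
    refine ⟨B.repr ⟨w, hw⟩ 0, B.repr ⟨w, hw⟩ 1, ?_⟩
    have h1 := B.sum_repr ⟨w, hw⟩
    rw [Fin.sum_univ_two] at h1
    have h2 := congrArg (Subtype.val) h1
    rw [Submodule.coe_add, Submodule.coe_smul, Submodule.coe_smul, ← hp, ← hq] at h2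
    exact h2.symm
  have hpq : p 1 ≠ 0 ∨ q 1 ≠ 0 := by
    by_contra h
    push Not at h
    obtain ⟨x, y, hxy⟩ := hspan v0 hv0
    apply h1
    rw [hxy]
    simp [h.1, h.2]
  refine ⟨q 1 • p - p 1 • q, ?_⟩
  intro x hx hx1
  obtain ⟨s, t, hst⟩ := hspan x hx
  have h2 : s * p 1 + t * q 1 = 0 := by
    rw [hst] at hx1
    simpa using hx1
  rcases hpq with h | h
  · refine ⟨-(t / p 1), ?_⟩
    funext g
    rw [hst]
    simp only [Pi.add_apply, Pi.sub_apply, Pi.smul_apply, smul_eq_mul]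
    have h3 : s = -(t * q 1) / p 1 := by
      rw [eq_div_iff h]; linarith
    rw [h3]
    field_simp
    ring
  · refine ⟨s / q 1, ?_⟩
    funext g
    rw [hst]
    simp only [Pi.add_apply, Pi.sub_apply, Pi.smul_apply, smul_eq_mul]
    have h3 : t = -(s * p 1) / q 1 := by
      rw [eq_div_iff h]; linarith
    rw [h3]
    field_simp
    ring

private theorem norm_line {x y u : G → ℚ} {κ : ℚ} (hy : y = x - κ • u) (hn : ip y y = ip x x)
    (hκ : κ ≠ 0) : κ * ip u u = 2 * ip x u := by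
  rw [hy, ip_sub_left, ip_sub_right, ip_sub_right, ip_smul_left, ip_smul_right, ip_smul_left,
    ip_smul_right, ip_comm u x] at hn
  have h : κ * (κ * ip u u - 2 * ip x u) = 0 := by linarith
  rcases mul_eq_zero.1 h with h | h
  · exact absurd h hκ
  · linarith

theorem card_orb_plane {V : Submodule ℚ (G → ℚ)} (hV : Module.finrank ℚ V = 2)
    (hst : ∀ h : G, ∀ v ∈ V, tr h v ∈ V) {w : G → ℚ} (hwV : w ∈ V) (hw : IsWeight D c w)
    (h0 : w ≠ 0) : (orb D w).card ≤ 2 := by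
  obtain ⟨g, hg⟩ : ∃ g, w g ≠ 0 := by
    by_contra h
    push Not at h
    exact h0 (funext h)
  obtain ⟨u, hu⟩ := line_in_plane hV (hst g w hwV) (by rw [tr_eval]; exact hg)
  by_contra hcard
  push Not at hcard
  obtain ⟨x, y, z, hx, hy, hz, hxy, hxz, hyz⟩ := Finset.two_lt_card_iff.1 hcard
  have hV' : ∀ x ∈ orb D w, x ∈ V ∧ x 1 = w 1 ∧ ip x x = ip w w := by
    intro x hx
    refine ⟨?_, orb_one hw hx, ?_⟩
    · obtain ⟨h, _, rfl⟩ := mem_orb.1 hx
      exact hst h w hwV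
    · obtain ⟨h, _, rfl⟩ := mem_orb.1 hx
      exact ip_tr h w w
  obtain ⟨hx1, hx2, hx3⟩ := hV' x hx
  obtain ⟨hy1, hy2, hy3⟩ := hV' y hy
  obtain ⟨hz1, hz2, hz3⟩ := hV' z hz
  obtain ⟨κ, hκ⟩ := hu (x - y) (V.sub_mem hx1 hy1) (by
    rw [Pi.sub_apply, hx2, hy2, sub_self])
  obtain ⟨μ, hμ⟩ := hu (x - z) (V.sub_mem hx1 hz1) (by
    rw [Pi.sub_apply, hx2, hz2, sub_self])
  have hκ0 : κ ≠ 0 := by
    rintro rfl
    rw [zero_smul, sub_eq_zero] at hκ
    exact hxy hκ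
  have hμ0 : μ ≠ 0 := by
    rintro rfl
    rw [zero_smul, sub_eq_zero] at hμ
    exact hxz hμ
  have e1 := norm_line (x := x) (y := y) (u := u) (κ := κ) (by rw [← hκ]; abel)
    (by rw [hy3, hx3]) hκ0
  have e2 := norm_line (x := x) (y := z) (u := u) (κ := μ) (by rw [← hμ]; abel)
    (by rw [hz3, hx3]) hμ0
  have e3 : (κ - μ) * ip u u = 0 := by linarith
  rcases mul_eq_zero.1 e3 with h | h
  · have h4 : κ = μ := by linarith
    rw [h4, ← hμ] at hκ
    exact hyz (sub_right_inj.1 hκ)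
  · have h4 := ip_self_eq_zero h
    rw [h4, smul_zero, sub_eq_zero] at hκ
    exact hxy hκ

theorem val_plane {V : Submodule ℚ (G → ℚ)} (hV : Module.finrank ℚ V = 2)
    (hst : ∀ h : G, ∀ v ∈ V, tr h v ∈ V) {w : G → ℚ} (hwV : w ∈ V) (hw : IsWeight D c w)
    (h0 : w ≠ 0) (he : idx D w = 1) (g : G) :
    w g = 0 ∨ w g = 1 / 2 ∨ w g = -(1 / 2) := by
  have hx0 : tr g w ≠ 0 := fun h => h0 (tr_inj g (by rw [h, tr_zero]))
  have h1 := card_orb_plane hV hst (hst g w hwV) (hw.tr g) hx0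
  have h2 := card_orb_pos D (tr g w)
  obtain ⟨z, hz⟩ := idx_int D w g
  rw [he, Nat.cast_one, one_mul] at hz
  have h3 := abs_le.1 (hw.2.2 g)
  obtain ⟨n, hn⟩ : ∃ n : ℤ, 2 * (w g + 1 / 2) = n := by
    have h4 : (orb D (tr g w)).card = 1 ∨ (orb D (tr g w)).card = 2 := by omega
    rcases h4 with h4 | h4
    · rw [h4, Nat.cast_one, mul_one] at hz
      exact ⟨2 * z, by push_cast; rw [← hz]⟩
    · rw [h4] at hz
      exact ⟨z, by rw [← hz]; push_cast; ring⟩
  have h5 : (0 : ℚ) ≤ n := by rw [← hn]; linarith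
  have h6 : (n : ℚ) ≤ 2 := by rw [← hn]; linarith
  have h5' : (0 : ℤ) ≤ n := by exact_mod_cast h5
  have h6' : n ≤ 2 := by exact_mod_cast h6
  have h7 : n = 0 ∨ n = 1 ∨ n = 2 := by omega
  rcases h7 with h7 | h7 | h7
  · right; right
    rw [h7] at hn
    push_cast at hn
    linarith
  · left
    rw [h7] at hn
    push_cast at hn
    linarith
  · right; left
    rw [h7] at hn
    push_cast at hn
    linarith

end Pool.Agent.AVF
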