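import Pool.Agent.AVF.CycD

/-!
# AVF: vectors fixed by a cycle of prime length

The polynomial with the coefficients `ν (tr (g ^ k) b)` is a multiple of the cyclotomic polynomial.
-/

set_option linter.unusedSectionVars false
set_option linter.unusedVariables false

namespace Pool.Agent.AVF

open Finset

variable {G : Type} [Group G] [Fintype G] {D : Subgroup G} {c : G}

theorem const_of_fix {g : G} {C : Finset (G → ℚ)} {b : G → ℚ} (hC : IsCyc g C b)
    (hp : C.card.Prime) (ν : (G → ℚ) → ℚ)
    (hfix : tr g (∑ w ∈ C, ν w • w) = ∑ w ∈ C, ν w • w) : ∀ w ∈ C, ν w = ν b := by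
  classical
  set f : (G → ℚ) → (G → ℚ) := tr g with hf
  have hit : ∀ k : ℕ, f^[k] b = tr (g ^ k) b := by
    intro k
    induction k with
    | zero => simp
    | succ k ih => rw [Function.iterate_succ_apply', ih, hf, ← tr_mul, ← pow_succ']
  set m : ℕ := Function.minimalPeriod f b with hm
  have hmpos : 0 < m := by
    refine Function.minimalPeriod_pos_of_mem_periodicPts ⟨orderOf g, orderOf_pos g, ?_⟩
    show f^[orderOf g] b = b
    rw [hit, pow_orderOf_eq_one, tr_one]
  have hCm : C = (range m).image fun k => tr (g ^ k) b := by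
    ext w
    rw [mem_image]
    constructor
    · intro hw
      obtain ⟨k, hk⟩ := hC.tran w hw
      refine ⟨k % m, mem_range.2 (Nat.mod_lt _ hmpos), ?_⟩
      rw [← hk, ← hit, ← hit, hm, Function.iterate_mod_minimalPeriod_eq]
    · rintro ⟨k, -, rfl⟩
      induction k with
      | zero => simpa using hC.mem
      | succ k ih =>
        rw [pow_succ', tr_mul]
        exact hC.st _ ih
  have hinj : Set.InjOn (fun k => tr (g ^ k) b) (range m : Set ℕ) := by
    intro k hk l hl h
    have h1 := Function.iterate_injOn_Iio_minimalPeriod (f := f) (x := b)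
    refine h1 (by simpa using hk) (by simpa using hl) ?_
    show f^[k] b = f^[l] b
    rw [hit, hit]
    exact h
  have hcard : C.card = m := by
    rw [hCm, card_image_of_injOn hinj, card_range]
  have hmp : m.Prime := hcard ▸ hp
  set a : ℕ → ℚ := fun k => ν (tr (g ^ k) b) with ha
  have hsum : ∑ w ∈ C, ν w • w = ∑ k ∈ range m, a k • tr (g ^ k) b := by
    rw [hCm, sum_image hinj]
  set q : Polynomial ℚ := ∑ k ∈ range m, Polynomial.C (a k) * Polynomial.X ^ k with hq
  set τ : Module.End ℚ (G → ℚ) := T g with hτ
  have hpow : ∀ k : ℕ, (τ ^ k) b = tr (g ^ k) b := by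
    intro k
    induction k with
    | zero => simp
    | succ k ih => rw [pow_succ', Module.End.mul_apply, ih, hτ, T_apply, ← tr_mul, ← pow_succ']
  have hqb : (Polynomial.aeval τ q) b = ∑ w ∈ C, ν w • w := by
    rw [hsum, hq, map_sum, LinearMap.sum_apply]
    refine sum_congr rfl fun k _ => ?_
    rw [map_mul, Polynomial.aeval_C, map_pow, Polynomial.aeval_X, Module.End.mul_apply, hpow,
      Module.algebraMap_end_apply]
  have hX1 : ∀ r : Polynomial ℚ, (Polynomial.aeval τ ((Polynomial.X - 1) * r)) b =
      tr g ((Polynomial.aeval τ r) b) - (Polynomial.aeval τ r) b := by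
    intro r
    rw [map_mul, map_sub, Polynomial.aeval_X, map_one, Module.End.mul_apply, LinearMap.sub_apply,
      Module.End.one_apply, hτ, T_apply]
  have h0 : (Polynomial.aeval τ ((Polynomial.X - 1) * q)) b = 0 := by
    rw [hX1, hqb]
    exact sub_eq_zero.2 hfix
  have hm1 : (Polynomial.aeval τ ((Polynomial.X : Polynomial ℚ) ^ m - 1)) b = 0 := by
    rw [map_sub, map_pow, Polynomial.aeval_X, map_one, LinearMap.sub_apply, hpow, Module.End.one_apply,
      ← hit, hm, Function.iterate_minimalPeriod, sub_self]
  have hfact : Fact m.Prime := ⟨hmp⟩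
  have hcyc := Polynomial.cyclotomic_prime_mul_X_sub_one ℚ m
  have hirr : Irreducible (Polynomial.cyclotomic m ℚ) := Polynomial.cyclotomic.irreducible_rat hmp.pos
  have hdvd : Polynomial.cyclotomic m ℚ ∣ q := by
    by_contra hnd
    have hco : IsCoprime (Polynomial.cyclotomic m ℚ) q := (hirr.coprime_iff_not_dvd).2 hnd
    obtain ⟨u, v, huv⟩ := hco
    have h1 : (Polynomial.X - 1 : Polynomial ℚ) =
        u * ((Polynomial.X : Polynomial ℚ) ^ m - 1) + v * ((Polynomial.X - 1) * q) := by
      rw [← hcyc]
      linear_combination (1 - (Polynomial.X : Polynomial ℚ)) * huv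
    have h2 : (Polynomial.aeval τ (Polynomial.X - 1 : Polynomial ℚ)) b = 0 := by
      rw [h1, map_add, map_mul, map_mul, LinearMap.add_apply, Module.End.mul_apply,
        Module.End.mul_apply, hm1, h0, map_zero, map_zero, add_zero]
    have h3 : tr g b = b := by
      have h4 := hX1 1
      rw [mul_one, h2, map_one, Module.End.one_apply] at h4
      exact (sub_eq_zero.1 h4.symm)
    have h5 : C ⊆ {b} := by
      intro w hw
      obtain ⟨k, hk⟩ := hC.tran w hw
      rw [mem_singleton, ← hk]
      clear hk hw
      induction k with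
      | zero => simp
      | succ k ih => rw [pow_succ, tr_mul, h3, ih]
    have h6 := card_le_card h5
    rw [card_singleton] at h6
    have h7 := hp.two_le
    omega
  obtain ⟨r, hr⟩ := hdvd
  have hqdeg : q.degree < m := by
    rw [hq]
    refine lt_of_le_of_lt (Polynomial.degree_sum_le _ _) ?_
    refine (Finset.sup_lt_iff (WithBot.bot_lt_coe m)).2 fun k hk => ?_
    refine lt_of_le_of_lt (Polynomial.degree_C_mul_X_pow_le k (a k)) ?_
    exact Nat.cast_lt.2 (mem_range.1 hk)
  have hr0 : ∃ c : ℚ, r = Polynomial.C c := by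
    by_cases h : r = 0
    · exact ⟨0, by rw [h, map_zero]⟩
    · have h1 : q.natDegree < m := by
        have hq0 : q ≠ 0 := by
          rw [hr]
          exact mul_ne_zero hirr.ne_zero h
        exact (Polynomial.natDegree_lt_iff_degree_lt hq0).2 hqdeg
      have h2 : q.natDegree = (m - 1) + r.natDegree := by
        rw [hr, Polynomial.natDegree_mul hirr.ne_zero h, Polynomial.natDegree_cyclotomic,
          Nat.totient_prime hmp]
      have h3 : r.natDegree = 0 := by omega
      exact ⟨r.coeff 0, Polynomial.eq_C_of_natDegree_eq_zero h3⟩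
  obtain ⟨c', hc'⟩ := hr0
  have hcoef : ∀ k, k < m → a k = c' := by
    intro k hk
    have h1 : q.coeff k = a k := by
      rw [hq, Polynomial.finsetSum_coeff]
      rw [sum_eq_single k]
      · rw [Polynomial.coeff_C_mul_X_pow, if_pos rfl]
      · intro l _ hl
        rw [Polynomial.coeff_C_mul_X_pow, if_neg hl.symm]
      · intro h
        exact absurd (mem_range.2 hk) h
    rw [← h1, hr, hc', Polynomial.coeff_mul_C, Polynomial.cyclotomic_prime, Polynomial.finsetSum_coeff]
    rw [sum_eq_single k]
    · rw [Polynomial.coeff_X_pow, if_pos rfl, one_mul]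
    · intro l _ hl
      rw [Polynomial.coeff_X_pow, if_neg hl.symm]
    · intro h
      exact absurd (mem_range.2 hk) h
  intro w hw
  rw [hCm, mem_image] at hw
  obtain ⟨k, hk, rfl⟩ := hw
  have h1 := hcoef k (mem_range.1 hk)
  have h2 := hcoef 0 hmpos
  simp only [ha, pow_zero, tr_one] at h1 h2
  rw [h1, h2]

end Pool.Agent.AVF
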