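import Pool.Agent.AVF.Sz
import Pool.Agent.AVF.Lin
import Pool.Agent.AVF.PlV
import Pool.Agent.AVF.Four

/-!
# AVF: relations inside an orbit of 8 weights

Proved by helper77 (translate the relation, two independent relations force a stable plane).
-/

set_option linter.unusedSectionVars false
set_option linter.unusedVariables false

namespace Pool.Agent.AVF

open Finset

variable {G : Type} [Group G] [Fintype G] {D : Subgroup G} {c : G}

open Classical in
/-- adjoin a vector and its negative -/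
private noncomputable def adj (w : G → ℚ) (S : Finset (G → ℚ)) : Finset (G → ℚ) :=
  insert w (insert (-w) S)

private theorem mem_adj {w x : G → ℚ} {S : Finset (G → ℚ)} :
    x ∈ adj w S ↔ x = w ∨ x = -w ∨ x ∈ S := by
  unfold adj
  rw [mem_insert, mem_insert]

private theorem adj_neg {w : G → ℚ} {S : Finset (G → ℚ)} (hS : ∀ x ∈ S, -x ∈ S) :
    ∀ x ∈ adj w S, -x ∈ adj w S := by
  intro x hx
  rw [mem_adj] at hx ⊢
  rcases hx with rfl | rfl | hx
  · exact Or.inr (Or.inl rfl)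
  · exact Or.inl (neg_neg _)
  · exact Or.inr (Or.inr (hS x hx))

private theorem adj_card {w : G → ℚ} {S : Finset (G → ℚ)} (hS : ∀ x ∈ S, -x ∈ S)
    (hw : w ∉ S) (h0 : w ≠ 0) : (adj w S).card = S.card + 2 := by
  classical
  unfold adj
  have h1 : -w ∉ S := fun h => hw (by have := hS _ h; rwa [neg_neg] at this)
  rw [card_insert_of_notMem, card_insert_of_notMem h1]
  rw [mem_insert, not_or]
  exact ⟨fun e => neg_ne_self h0 e.symm, hw⟩

private theorem adj_sum {w : G → ℚ} {S : Finset (G → ℚ)} (hS : ∀ x ∈ S, -x ∈ S)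
    (hw : w ∉ S) (h0 : w ≠ 0) {ν : (G → ℚ) → ℚ} (hν : ∀ x, ν (-x) = -ν x) :
    ∑ x ∈ adj w S, ν x • x = (2 : ℚ) • (ν w • w) + ∑ x ∈ S, ν x • x := by
  classical
  unfold adj
  have h1 : -w ∉ S := fun h => hw (by have := hS _ h; rwa [neg_neg] at this)
  rw [sum_insert, sum_insert h1, hν]
  · module
  · rw [mem_insert, not_or]
    exact ⟨fun e => neg_ne_self h0 e.symm, hw⟩

private theorem adj_sub {w : G → ℚ} {S B : Finset (G → ℚ)} (hB : ∀ x ∈ B, -x ∈ B) (hw : w ∈ B)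
    (hS : S ⊆ B) : adj w S ⊆ B := by
  intro x hx
  rw [mem_adj] at hx
  rcases hx with rfl | rfl | hx
  · exact hw
  · exact hB _ hw
  · exact hS hx

private theorem eight {B : Finset (G → ℚ)} (hB : ∀ x ∈ B, -x ∈ B) (h0 : ∀ x ∈ B, x ≠ 0)
    (h8 : B.card = 8) {b : G → ℚ} (hb : b ∈ B) :
    ∃ v : Fin 4 → (G → ℚ), v 0 = b ∧ (∀ i, v i ∈ B) ∧ (∀ i j, i < j → v j ≠ v i ∧ v j ≠ -v i) ∧
      (∀ x ∈ B, ∃ i, x = v i ∨ x = -v i) ∧
      ∀ ν : (G → ℚ) → ℚ, (∀ x, ν (-x) = -ν x) →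
        ∑ x ∈ B, ν x • x = (2 : ℚ) • ∑ i, ν (v i) • v i := by
  have hn0 : ∀ x ∈ (∅ : Finset (G → ℚ)), -x ∈ (∅ : Finset (G → ℚ)) := fun x hx => by simp at hx
  have hb' : b ∉ (∅ : Finset (G → ℚ)) := by simp
  have hn1 := adj_neg (w := b) hn0
  have hc1 := adj_card hn0 hb' (h0 b hb)
  have hs1 := adj_sub hB hb (empty_subset B)
  rw [card_empty] at hc1
  obtain ⟨v2, hv2, hv2'⟩ : ∃ x ∈ B, x ∉ adj b ∅ :=
    exists_mem_notMem_of_card_lt_card (by rw [hc1, h8]; norm_num)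
  have hn2 := adj_neg (w := v2) hn1
  have hc2 := adj_card hn1 hv2' (h0 v2 hv2)
  have hs2 := adj_sub hB hv2 hs1
  rw [hc1] at hc2
  obtain ⟨v3, hv3, hv3'⟩ : ∃ x ∈ B, x ∉ adj v2 (adj b ∅) :=
    exists_mem_notMem_of_card_lt_card (by rw [hc2, h8]; norm_num)
  have hn3 := adj_neg (w := v3) hn2
  have hc3 := adj_card hn2 hv3' (h0 v3 hv3)
  have hs3 := adj_sub hB hv3 hs2
  rw [hc2] at hc3
  obtain ⟨v4, hv4, hv4'⟩ : ∃ x ∈ B, x ∉ adj v3 (adj v2 (adj b ∅)) :=
    exists_mem_notMem_of_card_lt_card (by rw [hc3, h8]; norm_num)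
  have hc4 := adj_card hn3 hv4' (h0 v4 hv4)
  have hs4 := adj_sub hB hv4 hs3
  rw [hc3] at hc4
  have hE : adj v4 (adj v3 (adj v2 (adj b ∅))) = B :=
    eq_of_subset_of_card_le hs4 (by rw [hc4, h8])
  refine ⟨![b, v2, v3, v4], rfl, ?_, ?_, ?_, ?_⟩
  · intro i
    fin_cases i
    · exact hb
    · exact hv2
    · exact hv3
    · exact hv4
  · simp only [mem_adj, not_or] at hv2' hv3' hv4'
    intro i j hij
    fin_cases i <;> fin_cases j <;> first
      | exact absurd hij (by decide)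
      | exact ⟨hv2'.1, hv2'.2.1⟩
      | exact ⟨hv3'.1, hv3'.2.1⟩
      | exact ⟨hv3'.2.2.1, hv3'.2.2.2.1⟩
      | exact ⟨hv4'.1, hv4'.2.1⟩
      | exact ⟨hv4'.2.2.1, hv4'.2.2.2.1⟩
      | exact ⟨hv4'.2.2.2.2.1, hv4'.2.2.2.2.2.1⟩
  · intro x hx
    rw [← hE] at hx
    simp only [mem_adj] at hx
    rcases hx with h | h | h | h | h | h | h | h | h
    · exact ⟨3, Or.inl h⟩
    · exact ⟨3, Or.inr h⟩
    · exact ⟨2, Or.inl h⟩
    · exact ⟨2, Or.inr h⟩
    · exact ⟨1, Or.inl h⟩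
    · exact ⟨1, Or.inr h⟩
    · exact ⟨0, Or.inl h⟩
    · exact ⟨0, Or.inr h⟩
    · simp at h
  · intro ν hν
    rw [← hE, adj_sum hn3 hv4' (h0 v4 hv4) hν, adj_sum hn2 hv3' (h0 v3 hv3) hν,
      adj_sum hn1 hv2' (h0 v2 hv2) hν, adj_sum hn0 hb' (h0 b hb) hν, sum_empty,
      Fin.sum_univ_four]
    simp only [Matrix.cons_val]
    module

private theorem plane {v : Fin 4 → (G → ℚ)} {a a' : Fin 4 → ℚ}
    (ha : ∑ i, a i • v i = 0) (ha' : ∑ i, a' i • v i = 0)
    (hi : ∀ α β : ℚ, (∀ i, α * a i + β * a' i = 0) → α = 0 ∧ β = 0)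
    (hv : ∀ α β : ℚ, α • v 0 + β • v 1 = 0 → α = 0 ∧ β = 0) :
    Module.finrank ℚ (Submodule.span ℚ (Set.range v)) = 2 := by
  classical
  have hr := Fintype.range_linearCombination ℚ v
  have h4 := LinearMap.finrank_range_add_finrank_ker (Fintype.linearCombination ℚ v)
  rw [hr, Module.finrank_fin_fun] at h4
  have hak : a ∈ LinearMap.ker (Fintype.linearCombination ℚ v) := by
    rw [LinearMap.mem_ker, Fintype.linearCombination_apply]; exact ha
  have hak' : a' ∈ LinearMap.ker (Fintype.linearCombination ℚ v) := by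
    rw [LinearMap.mem_ker, Fintype.linearCombination_apply]; exact ha'
  have h1 : 2 ≤ Module.finrank ℚ (LinearMap.ker (Fintype.linearCombination ℚ v)) := by
    have hl : LinearIndependent ℚ
        ![(⟨a, hak⟩ : LinearMap.ker (Fintype.linearCombination ℚ v)), ⟨a', hak'⟩] := by
      refine LinearIndependent.pair_iff.2 fun α β h => ?_
      apply hi
      intro i
      have h2 := congrFun (congrArg Subtype.val h) i
      simpa using h2
    have := hl.fintype_card_le_finrank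
    rwa [Fintype.card_fin] at this
  have h2 : 2 ≤ Module.finrank ℚ (Submodule.span ℚ (Set.range v)) := by
    have hl : LinearIndependent ℚ
        ![(⟨v 0, Submodule.subset_span ⟨0, rfl⟩⟩ : Submodule.span ℚ (Set.range v)),
          ⟨v 1, Submodule.subset_span ⟨1, rfl⟩⟩] := by
      refine LinearIndependent.pair_iff.2 fun α β h => ?_
      apply hv
      have h2 := congrArg Subtype.val h
      simpa using h2
    have := hl.fintype_card_le_finrank
    rwa [Fintype.card_fin] at this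
  omega

theorem quad_abs (hc : ∀ g, c * g = g * c) {b : G → ℚ} (hb : IsWeight D c b) (hb0 : b ≠ 0)
    (h8 : (orb ⊤ b).card = 8) (he : idx D b = 1) {ν : (G → ℚ) → ℚ}
    (hν : IsRel (orb ⊤ b) ν) : ∀ x ∈ orb ⊤ b, |ν x| = |ν b| := by
  classical
  intro x hx
  by_contra hne
  obtain ⟨h, hh⟩ := mem_orb_top.1 hx
  obtain ⟨v, hv0, hvB, hvne, hall, hsum⟩ := eight (fun y hy => neg_mem_orb hb hc hy)
    (fun y hy => orb_ne_zero hb0 hy) h8 (self_mem_orb ⊤ b)
  -- the translated relation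
  have hinj : ∀ f : (G → ℚ) → ℚ, ∑ w ∈ orb ⊤ b, f (tr h w) = ∑ w ∈ orb ⊤ b, f w := by
    intro f
    refine Finset.sum_bij (fun w _ => tr h w) ?_ ?_ ?_ ?_
    · intro w hw; exact tr_mem_orb (Subgroup.mem_top h) hw
    · intro w _ w' _ e; exact tr_inj h e
    · intro w hw
      exact ⟨tr h⁻¹ w, tr_mem_orb (Subgroup.mem_top _) hw, tr_tr_inv h w⟩
    · intro w _; rfl
  have hν' : ∑ w ∈ orb ⊤ b, ν (tr h w) • w = 0 := by
    apply tr_inj h
    rw [tr_zero, tr_sum, ← hν.2]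
    refine Finset.sum_bij (fun w _ => tr h w) ?_ ?_ ?_ ?_
    · intro w hw; exact tr_mem_orb (Subgroup.mem_top h) hw
    · intro w _ w' _ e; exact tr_inj h e
    · intro w hw
      exact ⟨tr h⁻¹ w, tr_mem_orb (Subgroup.mem_top _) hw, tr_tr_inv h w⟩
    · intro w _; exact tr_smul h _ w
  have hodd' : ∀ y, ν (tr h (-y)) = -ν (tr h y) := fun y => by rw [tr_neg, hν.1]
  have e1 : ∑ i, ν (v i) • v i = 0 := by
    have h1 := hsum ν hν.1
    rw [hν.2] at h1
    rcases smul_eq_zero.1 h1.symm with h2 | h2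
    · norm_num at h2
    · exact h2
  have e2 : ∑ i, ν (tr h (v i)) • v i = 0 := by
    have h1 := hsum (fun y => ν (tr h y)) hodd'
    rw [hν'] at h1
    rcases smul_eq_zero.1 h1.symm with h2 | h2
    · norm_num at h2
    · exact h2
  -- independence of the two relations
  have hind : ∀ α β : ℚ, (∀ i, α * ν (v i) + β * ν (tr h (v i)) = 0) → α = 0 ∧ β = 0 := by
    intro α β hαβ
    have hB : ∀ w ∈ orb ⊤ b, α * ν w + β * ν (tr h w) = 0 := by
      intro w hw
      obtain ⟨i, rfl | rfl⟩ := hall w hw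
      · exact hαβ i
      · rw [hν.1, hodd']
        linarith [hαβ i]
    have hS : α ^ 2 * ∑ w ∈ orb ⊤ b, ν w ^ 2 = β ^ 2 * ∑ w ∈ orb ⊤ b, ν w ^ 2 := by
      have h1 : ∑ w ∈ orb ⊤ b, ν w ^ 2 = ∑ w ∈ orb ⊤ b, ν (tr h w) ^ 2 :=
        (hinj (fun w => ν w ^ 2)).symm
      calc α ^ 2 * ∑ w ∈ orb ⊤ b, ν w ^ 2 = ∑ w ∈ orb ⊤ b, α ^ 2 * ν w ^ 2 := Finset.mul_sum _ _ _
        _ = ∑ w ∈ orb ⊤ b, β ^ 2 * ν (tr h w) ^ 2 := by
          refine Finset.sum_congr rfl fun w hw => ?_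
          have h2 : α * ν w = -(β * ν (tr h w)) := by linarith [hB w hw]
          rw [← mul_pow, h2, neg_sq, mul_pow]
        _ = β ^ 2 * ∑ w ∈ orb ⊤ b, ν (tr h w) ^ 2 := (Finset.mul_sum _ _ _).symm
        _ = β ^ 2 * ∑ w ∈ orb ⊤ b, ν w ^ 2 := by rw [h1]
    have hS0 : ∑ w ∈ orb ⊤ b, ν w ^ 2 ≠ 0 := by
      intro h0
      have h1 := (Finset.sum_eq_zero_iff_of_nonneg (fun w _ => sq_nonneg (ν w))).1 h0
      have h2 : ν x = 0 := by simpa using h1 x hx
      have h3 : ν b = 0 := by simpa using h1 b (self_mem_orb ⊤ b)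
      apply hne
      rw [h2, h3]
    have hsq : α ^ 2 = β ^ 2 := mul_right_cancel₀ hS0 hS
    have hb1 := hB b (self_mem_orb ⊤ b)
    rw [hh] at hb1
    have hα : α = 0 := by
      by_contra hα
      apply hne
      have h1 : α * ν b = -(β * ν x) := by linarith
      have h2 : |α| * |ν b| = |β| * |ν x| := by rw [← abs_mul, h1, abs_neg, abs_mul]
      have h3 : |α| = |β| := (sq_eq_sq_iff_abs_eq_abs α β).1 hsq
      rw [← h3] at h2
      exact (mul_left_cancel₀ (abs_ne_zero.2 hα) h2).symm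
    refine ⟨hα, ?_⟩
    rw [hα] at hsq
    have : β ^ 2 = 0 := by rw [← hsq]; norm_num
    exact pow_eq_zero_iff (two_ne_zero) |>.1 this
  have hnorm : ∀ i, ip (v i) (v i) = ip b b := fun i => ip_orb (hvB i)
  have hV := plane e1 e2 hind (fun α β hαβ =>
    indep (by rw [hv0]; exact hb0) (by rw [hnorm, hnorm]) (hvne 0 1 (by decide)).1
      (hvne 0 1 (by decide)).2 hαβ)
  have hBV : ∀ w ∈ orb ⊤ b, w ∈ Submodule.span ℚ (Set.range v) := by
    intro w hw
    obtain ⟨i, rfl | rfl⟩ := hall w hw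
    · exact Submodule.subset_span ⟨i, rfl⟩
    · exact Submodule.neg_mem _ (Submodule.subset_span ⟨i, rfl⟩)
  have hst : ∀ h : G, ∀ u ∈ Submodule.span ℚ (Set.range v),
      tr h u ∈ Submodule.span ℚ (Set.range v) := by
    intro k u hu
    induction hu using Submodule.span_induction with
    | mem y hy =>
      obtain ⟨i, rfl⟩ := hy
      exact hBV _ (tr_mem_orb (Subgroup.mem_top k) (hvB i))
    | zero => rw [tr_zero]; exact Submodule.zero_mem _
    | add y z _ _ hy hz => rw [tr_add]; exact Submodule.add_mem _ hy hz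
    | smul q y _ hy => rw [tr_smul]; exact Submodule.smul_mem _ q hy
  obtain ⟨f1, hf1, f2, hf2, hfi, hfc⟩ := plane_coord hV
  have hX := orb_isSys hb
  have hvx : ∀ i, v i ≠ 0 ∧ ∃ α β : ℤ, |α| ≤ 1 ∧ |β| ≤ 1 ∧ v i = (α : ℚ) • f1 + (β : ℚ) • f2 := by
    intro i
    refine ⟨orb_ne_zero hb0 (hvB i), hfc (v i) (hBV _ (hvB i)) fun g => ?_⟩
    exact val_plane hV hst (hBV _ (hvB i)) (hX.wt _ (hvB i)) (orb_ne_zero hb0 (hvB i))
      (by rw [idx_orb (hvB i), he]) g
  refine four_ne hfi (x1 := v 0) (x2 := v 1) (x3 := v 2) (x4 := v 3) ?_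
    (hvne 0 1 (by decide)) (hvne 0 2 (by decide)) (hvne 0 3 (by decide))
    (hvne 1 2 (by decide)) (hvne 1 3 (by decide)) (hvne 2 3 (by decide))
    (by rw [hnorm, hnorm]) (by rw [hnorm, hnorm]) (by rw [hnorm, hnorm])
  intro y hy
  simp only [Set.mem_insert_iff, Set.mem_singleton_iff] at hy
  rcases hy with rfl | rfl | rfl | rfl
  · exact hvx 0
  · exact hvx 1
  · exact hvx 2
  · exact hvx 3

end Pool.Agent.AVF
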