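import Pool.Agent.AVF.Quad
import Pool.Agent.AVF.HSum

/-!
# AVF: the half set of a relation inside an orbit of 8 weights

The relations inside the orbit are given by half sets with sum zero.
-/


namespace Pool.Agent.AVF

open Finset

variable {G : Type} [Group G] [Fintype G] {D : Subgroup G} {c : G}

private theorem qh_add {X : Finset (G → ℚ)} {n m : (G → ℚ) → ℚ} (hn : IsRel X n)
    (hm : IsRel X m) (s t : ℚ) : IsRel X fun w => s * n w + t * m w := by
  refine ⟨fun w => ?_, ?_⟩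
  · change s * n (-w) + t * m (-w) = -(s * n w + t * m w)
    rw [hn.1, hm.1]
    ring
  · have h1 : ∀ w ∈ X, (s * n w + t * m w) • w = s • (n w • w) + t • (m w • w) := by
      intro w _
      rw [add_smul, mul_smul, mul_smul]
    rw [sum_congr rfl h1, sum_add_distrib, ← smul_sum, ← smul_sum, hn.2, hm.2, smul_zero,
      smul_zero, add_zero]

private theorem qh_tr {b : G → ℚ} {n : (G → ℚ) → ℚ} (hn : IsRel (orb ⊤ b) n) (h : G) :
    IsRel (orb ⊤ b) fun w => n (tr h w) := by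
  refine ⟨fun w => hn.1 (tr h w), ?_⟩
  · apply tr_inj h
    rw [tr_sum, tr_zero, ← hn.2]
    refine sum_bij (fun w _ => tr h w) (fun w hw => tr_mem_orb (Subgroup.mem_top h) hw)
      (fun u _ v _ e => tr_inj h e) (fun v hv => ⟨tr h⁻¹ v, tr_mem_orb (Subgroup.mem_top _) hv,
        tr_tr_inv h v⟩) fun w _ => ?_
    rw [tr_smul]

private theorem qh_odd {W : Finset (G → ℚ)} (hneg : ∀ w ∈ W, -w ∉ W) (w : G → ℚ) :
    ind W (-w) = -ind W w := by
  unfold ind
  by_cases h1 : w ∈ W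
  · rw [if_neg (hneg w h1), neg_neg, if_pos h1, if_pos h1]
  · by_cases h2 : -w ∈ W
    · rw [if_pos h2, if_neg h1, if_pos h2, neg_neg]
    · rw [if_neg h2, neg_neg, if_neg h1, if_neg h1, if_neg h2, neg_zero]

private theorem qh_sum {B W : Finset (G → ℚ)} (hWB : W ⊆ B) (hB : ∀ w ∈ B, -w ∈ B)
    (hneg : ∀ w ∈ W, -w ∉ W) (hcov : ∀ w ∈ B, w ∈ W ∨ -w ∈ W) :
    ∑ w ∈ B, ((ind W w : ℤ) : ℚ) • w = (2 : ℚ) • ∑ w ∈ W, w := by
  classical
  have h1 : B.filter (fun w => ¬ w ∈ W) = W.image (fun w => -w) := by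
    ext w
    rw [mem_filter, mem_image]
    constructor
    · rintro ⟨h2, h3⟩
      exact ⟨-w, (hcov w h2).resolve_left h3, neg_neg w⟩
    · rintro ⟨v, hv, rfl⟩
      exact ⟨hB v (hWB hv), hneg v hv⟩
  have h2 : B.filter (fun w => w ∈ W) = W := by
    ext w
    rw [mem_filter]
    exact ⟨fun h => h.2, fun h => ⟨hWB h, h⟩⟩
  rw [← sum_filter_add_sum_filter_not B (fun w => w ∈ W), h1, h2,
    sum_image fun u _ v _ e => neg_injective e, two_smul]
  congr 1
  · refine sum_congr rfl fun w hw => ?_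
    rw [ind, if_pos hw, Int.cast_one, one_smul]
  · refine sum_congr rfl fun w hw => ?_
    rw [qh_odd hneg, ind, if_pos hw, Int.cast_neg, Int.cast_one, neg_smul, one_smul, neg_neg]

private theorem qh_zero (hc : ∀ g, c * g = g * c) {b : G → ℚ} (hb : IsWeight D c b)
    (hb0 : b ≠ 0) (h8 : (orb ⊤ b).card = 8) (he : idx D b = 1) {ν : (G → ℚ) → ℚ}
    (hν : IsRel (orb ⊤ b) ν) (h0 : ν b = 0) : ∀ x ∈ orb ⊤ b, ν x = 0 := by
  intro x hx
  have h1 := quad_abs hc hb hb0 h8 he hν x hx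
  rw [h0, abs_zero] at h1
  exact abs_eq_zero.1 h1

/-- A function with constant absolute value on `B`, transformed by `ε`, defines a half set. -/
theorem pos_half (hc : ∀ g, c * g = g * c) {b : G → ℚ} (hb : IsWeight D c b)
    (h8 : (orb ⊤ b).card = 8) {ε : G →* ℤˣ} {n : (G → ℚ) → ℚ} (hodd : ∀ w, n (-w) = - n w)
    (habs : ∀ x ∈ orb ⊤ b, |n x| = |n b|) (hnb : n b ≠ 0)
    (hε : ∀ h, ∀ w ∈ orb ⊤ b, n (tr h w) = ((ε h : ℤ) : ℚ) * n w) :
    ∃ W : Finset (G → ℚ), W ⊆ orb ⊤ b ∧ W.card = 4 ∧ IsHalf c ε W ∧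
      (∀ w ∈ orb ⊤ b, w ∈ W ∨ -w ∈ W) ∧ ∀ w ∈ orb ⊤ b, n w = |n b| * (ind W w : ℚ) := by
  classical
  obtain ⟨W, hW⟩ : ∃ W : Finset (G → ℚ), W = (orb ⊤ b).filter fun w => 0 < n w := ⟨_, rfl⟩
  have hmem : ∀ w, w ∈ W ↔ w ∈ orb ⊤ b ∧ 0 < n w := fun w => by rw [hW, mem_filter]
  have hne : ∀ w ∈ orb ⊤ b, n w ≠ 0 := by
    intro w hw h0
    have h1 := habs w hw
    rw [h0, abs_zero] at h1
    exact hnb (abs_eq_zero.1 h1.symm)
  have hnegB : ∀ w ∈ orb ⊤ b, -w ∈ orb ⊤ b := fun w hw => neg_mem_orb hb hc hw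
  have hcov : ∀ w ∈ orb ⊤ b, w ∈ W ∨ -w ∈ W := by
    intro w hw
    rcases lt_or_gt_of_ne (hne w hw) with h | h
    · right
      rw [hmem, hodd]
      exact ⟨hnegB w hw, by linarith⟩
    · left
      rw [hmem]
      exact ⟨hw, h⟩
  have hnegW : ∀ w ∈ W, -w ∉ W := by
    intro w hw h
    rw [hmem] at hw h
    rw [hodd] at h
    linarith [hw.2, h.2]
  have hsub : W ⊆ orb ⊤ b := fun w hw => ((hmem w).1 hw).1
  have hcard : W.card = 4 := by
    have h1 : (orb ⊤ b).filter (fun w => ¬ w ∈ W) = W.image (fun w => -w) := by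
      ext w
      rw [mem_filter, mem_image]
      constructor
      · rintro ⟨h2, h3⟩
        exact ⟨-w, (hcov w h2).resolve_left h3, neg_neg w⟩
      · rintro ⟨v, hv, rfl⟩
        exact ⟨hnegB v (hsub hv), hnegW v hv⟩
    have h2 : (orb ⊤ b).filter (fun w => w ∈ W) = W := by
      ext w
      rw [mem_filter]
      exact ⟨fun h => h.2, fun h => ⟨hsub h, h⟩⟩
    have h3 := card_filter_add_card_filter_not (s := orb ⊤ b) (fun w => w ∈ W)
    rw [h1, h2, card_image_of_injective _ neg_injective, h8] at h3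
    omega
  refine ⟨W, hsub, hcard, ⟨?_, hnegW, ?_⟩, hcov, ?_⟩
  · rcases Int.units_eq_one_or (ε c) with h | h
    · exfalso
      have h1 := hε c b (self_mem_orb _ _)
      rw [hb.tr_c hc, hodd, h, Units.val_one, Int.cast_one, one_mul] at h1
      exact hnb (by linarith)
    · exact h
  · intro h hh w hw
    rw [hmem] at hw ⊢
    refine ⟨tr_mem_orb (Subgroup.mem_top h) hw.1, ?_⟩
    rw [hε h w hw.1, hh, Units.val_one, Int.cast_one, one_mul]
    exact hw.2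
  · intro w hw
    rcases hcov w hw with h | h
    · have h1 := ((hmem w).1 h).2
      rw [ind, if_pos h, ← habs w hw, abs_of_pos h1, Int.cast_one, mul_one]
    · have h1 := ((hmem _).1 h).2
      rw [hodd] at h1
      have h2 : w ∉ W := fun h3 => hnegW w h3 h
      rw [ind, if_neg h2, if_pos h, ← habs w hw, abs_of_neg (by linarith)]
      push_cast
      ring

/-- A relation inside the orbit comes from a half set with sum zero. -/
theorem exists_quad (hc : ∀ g, c * g = g * c) {b : G → ℚ} (hb : IsWeight D c b) (hb0 : b ≠ 0)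
    (h8 : (orb ⊤ b).card = 8) (he : idx D b = 1) {ν : (G → ℚ) → ℚ}
    (hν : IsRel (orb ⊤ b) ν) (hνb : ν b ≠ 0) :
    ∃ (ε : G →* ℤˣ) (W : Finset (G → ℚ)), W ⊆ orb ⊤ b ∧ W.card = 4 ∧ IsHalf c ε W ∧
      (∀ w ∈ orb ⊤ b, w ∈ W ∨ -w ∈ W) ∧ ∑ w ∈ W, w = 0 ∧
      ∀ w ∈ orb ⊤ b, ν w = |ν b| * (ind W w : ℚ) := by
  classical
  have habs := quad_abs hc hb hb0 h8 he hν
  have hstep : ∀ h : G, ∃ δ : ℤˣ, ∀ w ∈ orb ⊤ b, ν (tr h w) = ((δ : ℤ) : ℚ) * ν w := by
    intro h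
    have h1 := habs (tr h b) (tr_mem_orb (Subgroup.mem_top h) (self_mem_orb _ _))
    rcases abs_eq_abs.1 h1 with h2 | h2
    · refine ⟨1, fun w hw => ?_⟩
      have h3 := qh_zero hc hb hb0 h8 he (qh_add (qh_tr hν h) hν 1 (-1))
        (by rw [h2]; ring) w hw
      rw [Units.val_one, Int.cast_one]
      linarith
    · refine ⟨-1, fun w hw => ?_⟩
      have h3 := qh_zero hc hb hb0 h8 he (qh_add (qh_tr hν h) hν 1 1)
        (by rw [h2]; ring) w hw
      push_cast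
      linarith
  choose f hf using hstep
  have hmul : ∀ x y, f (x * y) = f x * f y := by
    intro x y
    have h1 := hf (x * y) b (self_mem_orb _ _)
    rw [tr_mul, hf x _ (tr_mem_orb (Subgroup.mem_top y) (self_mem_orb _ _)),
      hf y b (self_mem_orb _ _), ← mul_assoc] at h1
    have h2 := mul_right_cancel₀ hνb h1
    apply Units.ext
    rw [Units.val_mul]
    exact_mod_cast h2.symm
  obtain ⟨W, h1, h2, h3, h4, h5⟩ := pos_half hc hb h8 (ε := MonoidHom.mk' f hmul) hν.1 habs hνb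
    hf
  refine ⟨MonoidHom.mk' f hmul, W, h1, h2, h3, h4, ?_, h5⟩
  have h6 := hν.2
  have h7 : ∀ w ∈ orb ⊤ b, ν w • w = |ν b| • (((ind W w : ℤ) : ℚ) • w) := by
    intro w hw
    rw [h5 w hw, mul_smul]
  rw [sum_congr rfl h7, ← smul_sum, qh_sum h1 (fun w hw => neg_mem_orb hb hc hw) h3.neg h4,
    smul_smul] at h6
  rcases smul_eq_zero.1 h6 with h8' | h8'
  · exfalso
    have h9 : |ν b| = 0 := by linarith
    exact hνb (abs_eq_zero.1 h9)
  · exact h8'

/-- All relations inside the orbit are proportional. -/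
theorem rel_unique (hc : ∀ g, c * g = g * c) {b : G → ℚ} (hb : IsWeight D c b) (hb0 : b ≠ 0)
    (h8 : (orb ⊤ b).card = 8) (he : idx D b = 1) {ε : G →* ℤˣ} {W : Finset (G → ℚ)}
    (hWB : W ⊆ orb ⊤ b) (hW : IsHalf c ε W) (hcov : ∀ w ∈ orb ⊤ b, w ∈ W ∨ -w ∈ W)
    (hs : ∑ w ∈ W, w = 0) {ρ : (G → ℚ) → ℚ} (hρ : IsRel (orb ⊤ b) ρ) :
    ∃ t : ℚ, ∀ w ∈ orb ⊤ b, ρ w = t * (ind W w : ℚ) := by
  classical
  have hrel : IsRel (orb ⊤ b) fun w => ((ind W w : ℤ) : ℚ) := by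
    refine ⟨fun w => ?_, ?_⟩
    · change ((ind W (-w) : ℤ) : ℚ) = -((ind W w : ℤ) : ℚ)
      rw [qh_odd hW.neg, Int.cast_neg]
    · rw [qh_sum hWB (fun w hw => neg_mem_orb hb hc hw) hW.neg hcov, hs, smul_zero]
  have hb1 : ((ind W b : ℤ) : ℚ) ≠ 0 := by
    rcases hcov b (self_mem_orb _ _) with h | h
    · rw [ind, if_pos h]
      norm_num
    · have h2 : b ∉ W := fun h3 => hW.neg b h3 h
      rw [ind, if_neg h2, if_pos h]
      norm_num
  refine ⟨ρ b / ((ind W b : ℤ) : ℚ), fun w hw => ?_⟩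
  have h3 := qh_zero hc hb hb0 h8 he (qh_add hρ hrel 1 (-(ρ b / ((ind W b : ℤ) : ℚ))))
    (by
      rw [neg_mul, div_mul_cancel₀ _ hb1]
      ring) w hw
  linarith

end Pool.Agent.AVF
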