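import Pool.Agent.AVF.Chi

/-!
# AVF: sizes of orbits and indices
-/

set_option linter.unusedSectionVars false
set_option linter.unusedVariables false

namespace Pool.Agent.AVF

open Finset

variable {G : Type} [Group G] [Fintype G] {D : Subgroup G} {c : G}

private theorem neg_ne {w : G → ℚ} (h0 : w ≠ 0) : w ≠ -w := fun e => neg_ne_self h0 e.symm

theorem card_orb_even (hc : ∀ g, c * g = g * c) {w : G → ℚ} (hw : IsWeight D c w) (h0 : w ≠ 0) :
    Even (orb ⊤ w).card := by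
  have h : ∑ _x ∈ orb ⊤ w, (1 : ZMod 2) = 0 := by
    refine Finset.sum_involution (fun x _ => -x) ?_ ?_ ?_ ?_
    · intro x _
      exact CharTwo.add_self_eq_zero (1 : ZMod 2)
    · intro x hx _
      exact neg_ne_self (orb_ne_zero h0 hx)
    · intro x hx
      exact neg_mem_orb hw hc hx
    · intro x _
      exact neg_neg x
  rw [Finset.sum_const, nsmul_one] at h
  exact (ZMod.natCast_eq_zero_iff_even).1 h

theorem two_le_card_orb (hc : ∀ g, c * g = g * c) {w : G → ℚ} (hw : IsWeight D c w)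
    (h0 : w ≠ 0) : 2 ≤ (orb ⊤ w).card := by
  obtain ⟨k, hk⟩ := card_orb_even hc hw h0
  have := card_orb_pos (⊤ : Subgroup G) w
  omega

theorem orb_two (hc : ∀ g, c * g = g * c) {w : G → ℚ} (hw : IsWeight D c w) (h0 : w ≠ 0)
    (h2 : (orb ⊤ w).card = 2) (x : G → ℚ) : x ∈ orb ⊤ w ↔ x = w ∨ x = -w := by
  classical
  have hs : ({w, -w} : Finset (G → ℚ)) = orb ⊤ w := by
    refine Finset.eq_of_subset_of_card_le ?_ ?_
    · intro y hy
      rw [mem_insert, mem_singleton] at hy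
      rcases hy with rfl | rfl
      · exact self_mem_orb _ _
      · exact neg_mem_orb hw hc (self_mem_orb _ _)
    · rw [h2, card_pair (neg_ne h0)]
  rw [← hs, mem_insert, mem_singleton]

theorem orb_four (hc : ∀ g, c * g = g * c) {w : G → ℚ} (hw : IsWeight D c w) (h0 : w ≠ 0)
    (h4 : (orb ⊤ w).card = 4) :
    ∃ v ∈ orb ⊤ w, v ≠ w ∧ v ≠ -w ∧
      ∀ x : G → ℚ, x ∈ orb ⊤ w ↔ x = w ∨ x = -w ∨ x = v ∨ x = -v := by
  classical
  have hex : ∃ v ∈ orb ⊤ w, v ∉ ({w, -w} : Finset (G → ℚ)) := by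
    by_contra hcon
    push Not at hcon
    have h1 : (orb ⊤ w).card ≤ ({w, -w} : Finset (G → ℚ)).card := card_le_card hcon
    have h2 : ({w, -w} : Finset (G → ℚ)).card ≤ 2 := card_le_two
    omega
  obtain ⟨v, hv, hv2⟩ := hex
  rw [mem_insert, mem_singleton, not_or] at hv2
  obtain ⟨hv3, hv4⟩ := hv2
  have hv0 : v ≠ 0 := orb_ne_zero h0 hv
  refine ⟨v, hv, hv3, hv4, ?_⟩
  have hs : ({w, -w, v, -v} : Finset (G → ℚ)) = orb ⊤ w := by
    refine Finset.eq_of_subset_of_card_le ?_ ?_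
    · intro y hy
      simp only [mem_insert, mem_singleton] at hy
      rcases hy with rfl | rfl | rfl | rfl
      · exact self_mem_orb _ _
      · exact neg_mem_orb hw hc (self_mem_orb _ _)
      · exact hv
      · exact neg_mem_orb hw hc hv
    · have hcard : ({w, -w, v, -v} : Finset (G → ℚ)).card = 4 := by
        rw [card_insert_of_notMem, card_insert_of_notMem, card_pair (neg_ne hv0)]
        · simp only [mem_insert, mem_singleton, not_or]
          refine ⟨fun e => hv4 e.symm, fun e => hv3 (neg_injective e).symm⟩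
        · simp only [mem_insert, mem_singleton, not_or]
          refine ⟨neg_ne h0, fun e => hv3 e.symm, fun e => hv4 ?_⟩
          rw [e, neg_neg]
      rw [h4, hcard]
  intro x
  rw [← hs]
  simp only [mem_insert, mem_singleton]

private theorem tr_or (hc : ∀ g, c * g = g * c) {w : G → ℚ} (hw : IsWeight D c w) (h0 : w ≠ 0)
    (h2 : (orb ⊤ w).card = 2) (h : G) : tr h w = w ∨ tr h w = -w :=
  (orb_two hc hw h0 h2 _).1 (mem_orb_top.2 ⟨h, rfl⟩)

private theorem one_ne (hc : ∀ g, c * g = g * c) {w : G → ℚ} (hw : IsWeight D c w) (h0 : w ≠ 0)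
    (h2 : (orb ⊤ w).card = 2) : w 1 ≠ 0 := by
  intro h1
  apply h0
  funext g
  have h3 := tr_eval g w
  rcases tr_or hc hw h0 h2 g with h | h
  · rw [h] at h3; rw [← h3, h1]; rfl
  · rw [h] at h3; rw [← h3, Pi.neg_apply, h1, neg_zero]; rfl

private theorem tr_D (hc : ∀ g, c * g = g * c) {w : G → ℚ} (hw : IsWeight D c w) (h0 : w ≠ 0)
    (h2 : (orb ⊤ w).card = 2) {d : G} (hd : d ∈ D) : tr d w = w := by
  rcases tr_or hc hw h0 h2 d with h | h
  · exact h
  · exfalso
    have h3 := hw.tr_d hd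
    rw [h, Pi.neg_apply] at h3
    exact one_ne hc hw h0 h2 (by linarith)

theorem exists_eps (hc : ∀ g, c * g = g * c) {w : G → ℚ} (hw : IsWeight D c w) (h0 : w ≠ 0)
    (h2 : (orb ⊤ w).card = 2) :
    ∃ ε : G →* ℤˣ, ε c = -1 ∧ (∀ d ∈ D, ε d = 1) ∧ w = (2 * w 1) • chi ε := by
  classical
  have hne := neg_ne h0
  have h01 := one_ne hc hw h0 h2
  let f : G → ℤˣ := fun h => if tr h w = w then 1 else -1
  have hf1 : ∀ h, tr h w = w → f h = 1 := fun h e => if_pos e
  have hf2 : ∀ h, tr h w = -w → f h = -1 := fun h e =>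
    if_neg (fun e2 => hne (e2.symm.trans e))
  have hmul : ∀ a b, f (a * b) = f a * f b := by
    intro a b
    rcases tr_or hc hw h0 h2 a with ha | ha <;> rcases tr_or hc hw h0 h2 b with hb | hb
    · rw [hf1 a ha, hf1 b hb, hf1 (a * b) (by rw [tr_mul, hb, ha]), mul_one]
    · rw [hf1 a ha, hf2 b hb, hf2 (a * b) (by rw [tr_mul, hb, tr_neg, ha]), one_mul]
    · rw [hf2 a ha, hf1 b hb, hf2 (a * b) (by rw [tr_mul, hb, ha]), mul_one]
    · rw [hf2 a ha, hf2 b hb, hf1 (a * b) (by rw [tr_mul, hb, tr_neg, ha, neg_neg])]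
      rfl
  refine ⟨MonoidHom.mk' f hmul, hf2 c (hw.tr_c hc), fun d hd => hf1 d (tr_D hc hw h0 h2 hd), ?_⟩
  funext g
  have h3 := tr_eval g w
  have h4 : chi (MonoidHom.mk' f hmul) g = ((f g : ℤ) : ℚ) / 2 := rfl
  rw [Pi.smul_apply, smul_eq_mul, h4]
  rcases tr_or hc hw h0 h2 g with h | h
  · rw [h] at h3
    rw [hf1 g h, ← h3]
    push_cast
    ring
  · rw [h] at h3
    rw [hf2 g h, ← h3, Pi.neg_apply]
    push_cast
    ring

theorem idx_of_two (hc : ∀ g, c * g = g * c) {w : G → ℚ} (hw : IsWeight D c w) (h0 : w ≠ 0)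
    (h2 : (orb ⊤ w).card = 2) : idx D w = (w 1 + 1 / 2).den := by
  classical
  have hD : ∀ x : G → ℚ, (x = w ∨ x = -w) → (orb D x).card = 1 := by
    intro x hx
    rw [card_eq_one]
    refine ⟨x, ?_⟩
    ext y
    rw [mem_singleton, mem_orb]
    constructor
    · rintro ⟨d, hd, rfl⟩
      rcases hx with rfl | rfl
      · exact tr_D hc hw h0 h2 hd
      · rw [tr_neg, tr_D hc hw h0 h2 hd]
    · rintro rfl
      exact ⟨1, D.one_mem, tr_one _⟩
  have hval : ∀ g : G, ((w g + 1 / 2) * ((orb D (tr g w)).card : ℚ)).den =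
      (w 1 + 1 / 2).den := by
    intro g
    rw [hD _ (tr_or hc hw h0 h2 g), Nat.cast_one, mul_one]
    have h3 := tr_eval g w
    rcases tr_or hc hw h0 h2 g with h | h
    · rw [h] at h3; rw [h3]
    · rw [h, Pi.neg_apply] at h3
      rw [← h3]
      have h5 : -w 1 + 1 / 2 = ((1 : ℤ) : ℚ) - (w 1 + 1 / 2) := by push_cast; ring
      rw [h5, Rat.intCast_sub_den]
  unfold idx
  apply Nat.dvd_antisymm
  · exact Finset.lcm_dvd fun g _ => dvd_of_eq (hval g)
  · have h6 := Finset.dvd_lcm (s := univ)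
      (f := fun g : G => ((w g + 1 / 2) * ((orb D (tr g w)).card : ℚ)).den) (mem_univ 1)
    rw [← hval 1]
    exact h6

private theorem val_aux {x : ℚ} (h0 : 0 ≤ x) (h1 : x ≤ 1) (e : ℕ) (he : x.den = e) :
    ∃ n : ℤ, 0 ≤ n ∧ n ≤ e ∧ x = n / e ∧ n.natAbs.Coprime e := by
  have hd : (0 : ℚ) < x.den := by exact_mod_cast x.den_pos
  have h2 : x = x.num / x.den := (Rat.num_div_den x).symm
  refine ⟨x.num, Rat.num_nonneg.2 h0, ?_, ?_, ?_⟩
  · have h3 : (x.num : ℚ) ≤ x.den := by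
      have h4 : x * x.den = x.num := Rat.mul_den_eq_num x
      rw [← h4]
      nlinarith
    rw [← he]
    exact_mod_cast h3
  · rw [← he]; exact h2
  · rw [← he]; exact x.reduced

theorem val_of_idx (hc : ∀ g, c * g = g * c) {w : G → ℚ} (hw : IsWeight D c w) (h0 : w ≠ 0)
    (h2 : (orb ⊤ w).card = 2) :
    (idx D w = 1 → w 1 = 1 / 2 ∨ w 1 = -(1 / 2)) ∧ idx D w ≠ 2 ∧
    (idx D w = 3 → w 1 = 1 / 6 ∨ w 1 = -(1 / 6)) ∧
    (idx D w = 4 → w 1 = 1 / 4 ∨ w 1 = -(1 / 4)) := by
  have h01 := one_ne hc hw h0 h2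
  have habs := abs_le.1 (hw.2.2 1)
  have hx0 : 0 ≤ w 1 + 1 / 2 := by linarith [habs.1]
  have hx1 : w 1 + 1 / 2 ≤ 1 := by linarith [habs.2]
  rw [idx_of_two hc hw h0 h2]
  refine ⟨fun he => ?_, fun he => ?_, fun he => ?_, fun he => ?_⟩
  · obtain ⟨n, hn0, hn1, hn2, hn3⟩ := val_aux hx0 hx1 1 he
    push_cast at hn1 hn2
    interval_cases n
    · right; push_cast at hn2; linarith
    · left; push_cast at hn2; linarith
  · obtain ⟨n, hn0, hn1, hn2, hn3⟩ := val_aux hx0 hx1 2 he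
    push_cast at hn1 hn2
    interval_cases n
    · exact absurd hn3 (by decide)
    · apply h01; push_cast at hn2; linarith
    · exact absurd hn3 (by decide)
  · obtain ⟨n, hn0, hn1, hn2, hn3⟩ := val_aux hx0 hx1 3 he
    push_cast at hn1 hn2
    interval_cases n
    · exact absurd hn3 (by decide)
    · right; push_cast at hn2; linarith
    · left; push_cast at hn2; linarith
    · exact absurd hn3 (by decide)
  · obtain ⟨n, hn0, hn1, hn2, hn3⟩ := val_aux hx0 hx1 4 he
    push_cast at hn1 hn2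
    interval_cases n
    · exact absurd hn3 (by decide)
    · right; push_cast at hn2; linarith
    · exact absurd hn3 (by decide)
    · left; push_cast at hn2; linarith
    · exact absurd hn3 (by decide)

end Pool.Agent.AVF
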