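import Pool.Agent.AVF.NL
import Pool.Agent.AVF.PlV
import Pool.Agent.AVF.Four

/-!
# AVF: two orbits of four weights in one plane
-/

set_option linter.unusedSectionVars false
set_option linter.unusedVariables false

namespace Pool.Agent.AVF

open Finset

variable {G : Type} [Group G] [Fintype G] {D : Subgroup G} {c : G}

private theorem span_orb_stable {a : G → ℚ} (h : G) {v : G → ℚ}
    (hv : v ∈ Submodule.span ℚ ((orb ⊤ a : Finset (G → ℚ)) : Set (G → ℚ))) :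
    tr h v ∈ Submodule.span ℚ ((orb ⊤ a : Finset (G → ℚ)) : Set (G → ℚ)) := by
  refine Submodule.span_induction (p := fun v _ => tr h v ∈
    Submodule.span ℚ ((orb ⊤ a : Finset (G → ℚ)) : Set (G → ℚ))) ?_ ?_ ?_ ?_ hv
  · intro x hx
    exact Submodule.subset_span (tr_mem_orb (Subgroup.mem_top h) hx)
  · simp
  · intro x y _ _ hx hy
    rw [tr_add]
    exact Submodule.add_mem _ hx hy
  · intro q x _ hx
    rw [tr_smul]
    exact Submodule.smul_mem _ q hx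

private theorem span_orb_eq {a a' : G → ℚ}
    (ho : ∀ x : G → ℚ, x ∈ orb ⊤ a ↔ x = a ∨ x = -a ∨ x = a' ∨ x = -a') :
    Submodule.span ℚ ((orb ⊤ a : Finset (G → ℚ)) : Set (G → ℚ)) =
      Submodule.span ℚ ({a, a'} : Set (G → ℚ)) := by
  apply le_antisymm
  · rw [Submodule.span_le]
    intro x hx
    rcases (ho x).1 (by exact_mod_cast hx) with rfl | rfl | rfl | rfl
    · exact Submodule.subset_span (by simp)
    · exact Submodule.neg_mem _ (Submodule.subset_span (by simp))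
    · exact Submodule.subset_span (by simp)
    · exact Submodule.neg_mem _ (Submodule.subset_span (by simp))
  · rw [Submodule.span_le]
    intro x hx
    rcases hx with rfl | hx
    · exact Submodule.subset_span (by exact_mod_cast (ho x).2 (Or.inl rfl))
    · rw [Set.mem_singleton_iff] at hx
      subst hx
      exact Submodule.subset_span (by exact_mod_cast (ho x).2 (Or.inr (Or.inr (Or.inl rfl))))

private theorem finrank_span_orb {a a' : G → ℚ} (ha0 : a ≠ 0) (ha' : a' ∈ orb ⊤ a) (h1 : a' ≠ a)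
    (h2 : a' ≠ -a)
    (ho : ∀ x : G → ℚ, x ∈ orb ⊤ a ↔ x = a ∨ x = -a ∨ x = a' ∨ x = -a') :
    Module.finrank ℚ (Submodule.span ℚ ((orb ⊤ a : Finset (G → ℚ)) : Set (G → ℚ))) = 2 := by
  rw [span_orb_eq ho]
  exact finrank_span_pair fun α β => indep ha0 (ip_orb ha').symm h1 h2

private theorem plane_eq {a a' x y : G → ℚ} (ha0 : a ≠ 0) (ha' : a' ∈ orb ⊤ a) (h1 : a' ≠ a)
    (h2 : a' ≠ -a)
    (ho : ∀ x : G → ℚ, x ∈ orb ⊤ a ↔ x = a ∨ x = -a ∨ x = a' ∨ x = -a')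
    (hxy : Module.finrank ℚ (Submodule.span ℚ ({x, y} : Set (G → ℚ))) = 2)
    (hx : x ∈ Submodule.span ℚ ((orb ⊤ a : Finset (G → ℚ)) : Set (G → ℚ)))
    (hy : y ∈ Submodule.span ℚ ((orb ⊤ a : Finset (G → ℚ)) : Set (G → ℚ))) :
    Submodule.span ℚ ({x, y} : Set (G → ℚ)) =
      Submodule.span ℚ ((orb ⊤ a : Finset (G → ℚ)) : Set (G → ℚ)) := by
  apply Submodule.eq_of_le_of_finrank_eq
  · rw [Submodule.span_le]
    intro z hz
    rcases hz with rfl | hz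
    · exact hx
    · rw [Set.mem_singleton_iff] at hz
      subst hz
      exact hy
  · rw [hxy, finrank_span_orb ha0 ha' h1 h2 ho]

private theorem orb_rewrite {a a' q x3 x4 b : G → ℚ}
    (hob : ∀ y : G → ℚ, y ∈ orb ⊤ b ↔ y = x3 ∨ y = -x3 ∨ y = x4 ∨ y = -x4)
    (h3 : x3 = a + q ∨ x3 = -(a + q)) (h4 : x4 = a - q ∨ x4 = -(a - q)) (y : G → ℚ) :
    y ∈ orb ⊤ b ↔ y = a + q ∨ y = -(a + q) ∨ y = a - q ∨ y = -(a - q) := by
  rw [hob]
  rcases h3 with rfl | rfl <;> rcases h4 with rfl | rfl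
  · exact Iff.rfl
  · rw [neg_neg]
    tauto
  · rw [neg_neg]
    tauto
  · rw [neg_neg, neg_neg]
    tauto

private theorem orb_rewrite' {a a' q : G → ℚ}
    (hoa : ∀ y : G → ℚ, y ∈ orb ⊤ a ↔ y = a ∨ y = -a ∨ y = a' ∨ y = -a')
    (hq : q = a' ∨ q = -a') (y : G → ℚ) :
    y ∈ orb ⊤ a ↔ y = a ∨ y = -a ∨ y = q ∨ y = -q := by
  rw [hoa]
  rcases hq with rfl | rfl
  · exact Iff.rfl
  · rw [neg_neg]
    tauto

theorem two_planes (hc : ∀ g, c * g = g * c) {a b : G → ℚ} (ha : IsWeight D c a)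
    (hb : IsWeight D c b) (ha0 : a ≠ 0) (hb0 : b ≠ 0) (ha4 : (orb ⊤ a).card = 4)
    (hb4 : (orb ⊤ b).card = 4) (ea : idx D a = 1) (eb : idx D b = 1) (hab : b ∉ orb ⊤ a)
    {x : G → ℚ} (hx0 : x ≠ 0)
    (hxa : x ∈ Submodule.span ℚ ((orb ⊤ a : Finset (G → ℚ)) : Set (G → ℚ)))
    (hxb : x ∈ Submodule.span ℚ ((orb ⊤ b : Finset (G → ℚ)) : Set (G → ℚ))) :
    ∃ p q : G → ℚ,
      ((∀ y, y ∈ orb ⊤ a ↔ y = p ∨ y = -p ∨ y = q ∨ y = -q) ∧
        (∀ y, y ∈ orb ⊤ b ↔ y = p + q ∨ y = -(p + q) ∨ y = p - q ∨ y = -(p - q))) ∨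
      ((∀ y, y ∈ orb ⊤ b ↔ y = p ∨ y = -p ∨ y = q ∨ y = -q) ∧
        (∀ y, y ∈ orb ⊤ a ↔ y = p + q ∨ y = -(p + q) ∨ y = p - q ∨ y = -(p - q))) := by
  obtain ⟨a', ham, ha1, ha2, hoa⟩ := orb_four hc ha ha0 ha4
  obtain ⟨b', hbm, hb1, hb2, hob⟩ := orb_four hc hb hb0 hb4
  -- `x` is not semi-invariant
  obtain ⟨h, hh1, hh2⟩ : ∃ h : G, tr h x ≠ x ∧ tr h x ≠ -x := by
    by_contra hcon
    push Not at hcon
    exact hx0 (no_line hc ha ha0 ha4 ea hxa fun h => by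
      by_cases e : tr h x = x
      · exact Or.inl e
      · exact Or.inr (hcon h e))
  have hfx : Module.finrank ℚ (Submodule.span ℚ ({x, tr h x} : Set (G → ℚ))) = 2 :=
    finrank_span_pair fun α β => indep hx0 (ip_tr h x x).symm hh1 hh2
  have hVa := plane_eq ha0 ham ha1 ha2 hoa hfx hxa (span_orb_stable h hxa)
  have hVb := plane_eq hb0 hbm hb1 hb2 hob hfx hxb (span_orb_stable h hxb)
  have hVab : Submodule.span ℚ ((orb ⊤ b : Finset (G → ℚ)) : Set (G → ℚ)) =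
      Submodule.span ℚ ((orb ⊤ a : Finset (G → ℚ)) : Set (G → ℚ)) := by
    rw [← hVa, ← hVb]
  have hV := finrank_span_orb ha0 ham ha1 ha2 hoa
  have hst : ∀ g : G, ∀ v ∈ Submodule.span ℚ ((orb ⊤ a : Finset (G → ℚ)) : Set (G → ℚ)),
      tr g v ∈ Submodule.span ℚ ((orb ⊤ a : Finset (G → ℚ)) : Set (G → ℚ)) :=
    fun g v hv => span_orb_stable g hv
  obtain ⟨e1, he1, e2, he2, hi, hcoord⟩ := plane_coord hV
  have hmema : ∀ y ∈ orb ⊤ a, y ≠ 0 ∧ ∃ α β : ℤ, |α| ≤ 1 ∧ |β| ≤ 1 ∧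
      y = (α : ℚ) • e1 + (β : ℚ) • e2 := by
    intro y hy
    have hy0 : y ≠ 0 := orb_ne_zero ha0 hy
    have hyV : y ∈ Submodule.span ℚ ((orb ⊤ a : Finset (G → ℚ)) : Set (G → ℚ)) :=
      Submodule.subset_span (by exact_mod_cast hy)
    have hyw : IsWeight D c y := (orb_isSys ha).wt y hy
    refine ⟨hy0, hcoord y hyV fun g => val_plane hV hst hyV hyw hy0 ?_ g⟩
    rw [idx_orb hy, ea]
  have hmemb : ∀ y ∈ orb ⊤ b, y ≠ 0 ∧ ∃ α β : ℤ, |α| ≤ 1 ∧ |β| ≤ 1 ∧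
      y = (α : ℚ) • e1 + (β : ℚ) • e2 := by
    intro y hy
    have hy0 : y ≠ 0 := orb_ne_zero hb0 hy
    have hyV : y ∈ Submodule.span ℚ ((orb ⊤ a : Finset (G → ℚ)) : Set (G → ℚ)) := by
      rw [← hVab]
      exact Submodule.subset_span (by exact_mod_cast hy)
    have hyw : IsWeight D c y := (orb_isSys hb).wt y hy
    refine ⟨hy0, hcoord y hyV fun g => val_plane hV hst hyV hyw hy0 ?_ g⟩
    rw [idx_orb hy, eb]
  have hbb : b ∈ orb ⊤ b := self_mem_orb ⊤ b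
  have haa : a ∈ orb ⊤ a := self_mem_orb ⊤ a
  have hb'a : b' ∉ orb ⊤ a := fun hm => hab (orb_trans hm (orb_symm hbm))
  have hna : ∀ y : G → ℚ, y ∉ orb ⊤ a → y ≠ a ∧ y ≠ -a ∧ y ≠ a' ∧ y ≠ -a' := by
    intro y hy
    rw [hoa] at hy
    push Not at hy
    exact hy
  obtain ⟨c1, c2, c3, c4⟩ := hna b hab
  obtain ⟨d1, d2, d3, d4⟩ := hna b' hb'a
  rcases two_two hi (x1 := a) (x2 := a') (x3 := b) (x4 := b')
    (by
      intro y hy
      rcases hy with rfl | rfl | rfl | hy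
      · exact hmema y haa
      · exact hmema y ham
      · exact hmemb y hbb
      · rw [Set.mem_singleton_iff] at hy
        subst hy
        exact hmemb y hbm)
    ⟨ha1, ha2⟩ ⟨c1, c2⟩ ⟨d1, d2⟩ ⟨c3, c4⟩ ⟨d3, d4⟩ ⟨hb1, hb2⟩ (ip_orb ham).symm
    (ip_orb hbm).symm with ⟨q, hq, h3, h4⟩ | ⟨q, hq, h3, h4⟩
  · exact ⟨a, q, Or.inl ⟨orb_rewrite' hoa hq, orb_rewrite (a' := a') hob h3 h4⟩⟩
  · exact ⟨b, q, Or.inr ⟨orb_rewrite' hob hq, orb_rewrite (a' := b') hoa h3 h4⟩⟩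

end Pool.Agent.AVF
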