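import Pool.Agent.AVF.Main

/-!
# AVF: Weil numbers
-/

set_option linter.unusedSectionVars false
set_option linter.unusedVariables false

namespace Pool.Agent.AVF

open Finset NumberField IsDedekindDomain

variable {L : Type} [Field L] [NumberField L]

/-- The exponent of the prime `P` in `x`. -/
noncomputable def ord (P : HeightOneSpectrum (𝓞 L)) (x : L) : ℤ :=
  - WithZero.log (P.valuation L x)

/-- The decomposition group of `P`. -/
def dec (P : HeightOneSpectrum (𝓞 L)) : Subgroup (L ≃ₐ[ℚ] L) where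
  carrier := {d | ∀ x : L, P.valuation L (d x) = P.valuation L x}
  mul_mem' := by
    intro a b ha hb x
    rw [AlgEquiv.mul_apply, ha, hb]
  one_mem' := fun x => rfl
  inv_mem' := by
    intro a ha x
    have h := ha (a⁻¹ x)
    rw [← AlgEquiv.mul_apply, mul_inv_cancel, AlgEquiv.one_apply] at h
    exact h.symm

/-- `π` is a Weil `q`-number (of weight one): an algebraic integer with `π * c π = q`. -/
structure IsWeil (c : L ≃ₐ[ℚ] L) (q : ℕ) (π : L) : Prop where
  int : IsIntegral ℤ π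
  mul : π * c π = q

/-- The weight of `π`: `g ↦ sl (g π) - 1/2`, `sl` the slope at `P`. -/
noncomputable def wt (P : HeightOneSpectrum (𝓞 L)) (q : ℕ) (π : L) : (L ≃ₐ[ℚ] L) → ℚ :=
  fun g => (ord P (g π) : ℚ) / (ord P (q : L) : ℚ) - 1 / 2

theorem ord_mul (P : HeightOneSpectrum (𝓞 L)) {x y : L} (hx : x ≠ 0) (hy : y ≠ 0) :
    ord P (x * y) = ord P x + ord P y := by
  unfold ord
  rw [map_mul, WithZero.log_mul ((Valuation.ne_zero_iff _).2 hx) ((Valuation.ne_zero_iff _).2 hy)]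
  ring

theorem ord_one (P : HeightOneSpectrum (𝓞 L)) : ord P (1 : L) = 0 := by
  simp [ord]

theorem ord_zero (P : HeightOneSpectrum (𝓞 L)) : ord P (0 : L) = 0 := by
  simp [ord]

theorem ord_pow (P : HeightOneSpectrum (𝓞 L)) (x : L) (n : ℕ) :
    ord P (x ^ n) = n * ord P x := by
  unfold ord
  rw [map_pow, WithZero.log_pow]
  simp

theorem ord_nonneg (P : HeightOneSpectrum (𝓞 L)) {x : L} (hx : IsIntegral ℤ x) :
    0 ≤ ord P x := by
  by_cases h0 : x = 0
  · rw [h0, ord_zero]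
  have h1 : P.valuation L x ≤ 1 := by
    obtain ⟨y, hy⟩ : ∃ y : 𝓞 L, algebraMap (𝓞 L) L y = x := ⟨⟨x, hx⟩, rfl⟩
    rw [← hy]
    exact P.valuation_le_one y
  have h2 : P.valuation L x ≠ 0 := (Valuation.ne_zero_iff _).2 h0
  unfold ord
  have h3 : WithZero.log (P.valuation L x) ≤ WithZero.log 1 := by
    rwa [WithZero.log_le_log h2 one_ne_zero]
  rw [WithZero.log_one] at h3
  omega

theorem ord_dec {P : HeightOneSpectrum (𝓞 L)} {d : L ≃ₐ[ℚ] L} (hd : d ∈ dec P) (x : L) :
    ord P (d x) = ord P x := by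
  unfold ord
  rw [hd x]

section

variable {P : HeightOneSpectrum (𝓞 L)} {c : L ≃ₐ[ℚ] L} {q : ℕ}

theorem IsWeil.ne_zero (hq : 0 < ord P (q : L)) {π : L} (h : IsWeil c q π) : π ≠ 0 := by
  rintro rfl
  have h1 := h.mul
  rw [zero_mul] at h1
  rw [← h1, ord_zero] at hq
  exact lt_irrefl _ hq

theorem tr_wt (g : L ≃ₐ[ℚ] L) (π : L) : tr g (wt P q π) = wt P q (g π) := by
  funext h
  simp [tr, wt, AlgEquiv.mul_apply]

theorem IsWeil.apply (hc : ∀ g, c * g = g * c) {π : L} (h : IsWeil c q π) (g : L ≃ₐ[ℚ] L) :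
    IsWeil c q (g π) := by
  refine ⟨?_, ?_⟩
  · exact h.int.map (g : L →ₐ[ℚ] L)
  · have e : c (g π) = g (c π) := by
      rw [← AlgEquiv.mul_apply, hc g, AlgEquiv.mul_apply]
    rw [e, ← map_mul, h.mul, map_natCast]

theorem IsWeil.ord_add (hc : ∀ g, c * g = g * c) (hq : 0 < ord P (q : L)) {π : L}
    (h : IsWeil c q π) : ord P π + ord P (c π) = ord P (q : L) := by
  have h1 := h.ne_zero (P := P) hq
  have h2 := (h.apply hc c).ne_zero (P := P) hq
  rw [← h.mul, ord_mul P h1 h2]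

theorem IsWeil.isWeight (hc : ∀ g, c * g = g * c) (hq : 0 < ord P (q : L)) {π : L}
    (h : IsWeil c q π) : IsWeight (dec P) c (wt P q π) := by
  have hq' : (0 : ℚ) < (ord P (q : L) : ℚ) := by exact_mod_cast hq
  refine ⟨fun d hd g => ?_, fun g => ?_, fun g => ?_⟩
  · simp only [wt, AlgEquiv.mul_apply, ord_dec hd]
  · have h1 := (h.apply hc g).ord_add hc (P := P) hq
    have h2 : ((ord P (g π) : ℤ) : ℚ) + (ord P (c (g π)) : ℚ) = (ord P (q : L) : ℚ) := by
      exact_mod_cast h1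
    simp only [wt, AlgEquiv.mul_apply]
    field_simp
    linarith
  · have h1 := (h.apply hc g).ord_add hc (P := P) hq
    have h2 : ((ord P (g π) : ℤ) : ℚ) + (ord P (c (g π)) : ℚ) = (ord P (q : L) : ℚ) := by
      exact_mod_cast h1
    have h3 : (0 : ℚ) ≤ (ord P (g π) : ℚ) := by
      exact_mod_cast ord_nonneg P (h.apply hc g).int
    have h4 : (0 : ℚ) ≤ (ord P (c (g π)) : ℚ) := by
      exact_mod_cast ord_nonneg P ((h.apply hc g).apply hc c).int
    simp only [wt]
    rw [abs_le]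
    constructor
    · have : 0 ≤ (ord P (g π) : ℚ) / (ord P (q : L) : ℚ) := div_nonneg h3 hq'.le
      linarith
    · have : (ord P (g π) : ℚ) / (ord P (q : L) : ℚ) ≤ 1 := by
        rw [div_le_one hq']
        linarith
      linarith

theorem isSys_image (hc : ∀ g, c * g = g * c) (hq : 0 < ord P (q : L)) {A : Finset L}
    (hA : ∀ π ∈ A, IsWeil c q π) (hst : ∀ g : L ≃ₐ[ℚ] L, ∀ π ∈ A, g π ∈ A)
    [DecidableEq ((L ≃ₐ[ℚ] L) → ℚ)] : IsSys (dec P) c (A.image (wt P q)) := by
  refine ⟨fun w hw => ?_, fun g w hw => ?_⟩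
  · obtain ⟨π, hπ, rfl⟩ := mem_image.1 hw
    exact (hA π hπ).isWeight hc hq
  · obtain ⟨π, hπ, rfl⟩ := mem_image.1 hw
    rw [tr_wt]
    exact mem_image_of_mem _ (hst g π hπ)

theorem ord_prod (g : L ≃ₐ[ℚ] L) (S : Multiset L) (hS : ∀ x ∈ S, x ≠ 0) :
    ord P (g S.prod) = (S.map fun x => ord P (g x)).sum := by
  induction S using Multiset.induction_on with
  | empty => simp [ord_one]
  | cons a s ih =>
    have ha : a ≠ 0 := hS a (Multiset.mem_cons_self a s)
    have hs : ∀ x ∈ s, x ≠ 0 := fun x hx => hS x (Multiset.mem_cons_of_mem hx)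
    have hp : s.prod ≠ 0 := Multiset.prod_ne_zero fun h0 => hs 0 h0 rfl
    rw [Multiset.prod_cons, map_mul, Multiset.map_cons, Multiset.sum_cons, ← ih hs,
      ord_mul P (by simpa using ha) (by simpa using hp)]

/-- A Tate class: the sum of the weights is zero. -/
theorem sum_wt (hc : ∀ g, c * g = g * c) (hq : 0 < ord P (q : L)) {S : Multiset L}
    (hS : ∀ π ∈ S, IsWeil c q π) {k N : ℕ} (hN : 0 < N) (hk : S.card = 2 * k)
    (hprod : S.prod ^ N = (q : L) ^ (k * N)) : (S.map (wt P q)).sum = 0 := by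
  have hq' : (0 : ℚ) < (ord P (q : L) : ℚ) := by exact_mod_cast hq
  funext g
  have h1 : ((S.map (wt P q)).sum : (L ≃ₐ[ℚ] L) → ℚ) g =
      (S.map fun π => (ord P (g π) : ℚ) / (ord P (q : L) : ℚ) - 1 / 2).sum := by
    have h2 := map_multiset_sum (Pi.evalAddMonoidHom (fun _ : L ≃ₐ[ℚ] L => ℚ) g)
      (S.map (wt P q))
    rw [Multiset.map_map] at h2
    exact h2
  have h3 : ord P (g S.prod) = k * ord P (q : L) := by
    have h4 : (N : ℤ) * ord P (g S.prod) = (k * N : ℕ) * ord P (q : L) := by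
      rw [← ord_pow, ← ord_pow, ← map_pow, hprod, map_pow, map_natCast]
    have h5 : (N : ℤ) ≠ 0 := by exact_mod_cast hN.ne'
    have h6 : (N : ℤ) * ord P (g S.prod) = N * (k * ord P (q : L)) := by
      rw [h4]; push_cast; ring
    exact mul_left_cancel₀ h5 h6
  have h7 : (S.map fun π => (ord P (g π) : ℚ) / (ord P (q : L) : ℚ) - 1 / 2).sum =
      ((ord P (g S.prod) : ℤ) : ℚ) / (ord P (q : L) : ℚ) - S.card * (1 / 2) := by
    rw [ord_prod g S fun x hx => (hS x hx).ne_zero (P := P) hq]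
    rw [Multiset.sum_map_sub, Multiset.sum_map_div]
    simp only [Multiset.map_const', Multiset.sum_replicate, nsmul_eq_mul]
    congr 2
    have := map_multiset_sum (Int.castAddHom ℚ) (S.map fun x => ord P (g x))
    rw [Multiset.map_map] at this
    exact this.symm
  rw [h1, h7, h3, hk]
  push_cast
  field_simp
  simp

end

end Pool.Agent.AVF
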